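import Pool.Agent.Lib.MP_3884c4_co.Defs

/-!
Abstract minimiser lemma: a minimiser of `ent + ⟨c,·⟩ - k |mean|²` dominates:
`kl q p ≥ k |M_q - M_p|²`, sub-Gaussian moment generating function, variance bound.
-/

set_option autoImplicit false

noncomputable section

namespace Pool.Agent.MP3884c4

open Finset

section

variable {α ι : Type*} [Fintype α] [Fintype ι]

theorem continuous_ent : Continuous (ent : (α → ℝ) → ℝ) := by
  unfold ent
  exact continuous_finsetSum _ fun x _ => Real.continuous_mul_log.comp (continuous_apply x)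

theorem IsPr.le_one {G : Finset α} {p : α → ℝ} (hp : IsPr G p) (x : α) : p x ≤ 1 := by
  rw [← hp.sum_eq]
  exact Finset.single_le_sum (f := p) (fun y _ => hp.nonneg y) (mem_univ x)

theorem isCompact_isPr (G : Finset α) : IsCompact {p : α → ℝ | IsPr G p} := by
  have h1 : IsCompact (Set.pi Set.univ (fun _ : α => Set.Icc (0 : ℝ) 1)) :=
    isCompact_univ_pi fun _ => isCompact_Icc
  refine h1.of_isClosed_subset ?_ ?_
  · have : {p : α → ℝ | IsPr G p} =
        (⋂ x, {p : α → ℝ | 0 ≤ p x}) ∩ (⋂ x, ⋂ (_ : x ∉ G), {p : α → ℝ | p x = 0}) ∩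
          {p : α → ℝ | ∑ x, p x = 1} := by
      ext p
      simp only [Set.mem_ofPred_eq, Set.mem_inter_iff, Set.mem_iInter]
      exact ⟨fun h => ⟨⟨h.nonneg, h.supp⟩, h.sum_eq⟩, fun h => ⟨h.1.1, h.1.2, h.2⟩⟩
    rw [this]
    refine ((isClosed_iInter fun x => isClosed_le continuous_const (continuous_apply x)).inter
      (isClosed_iInter fun x => isClosed_iInter fun _ =>
        isClosed_eq (continuous_apply x) continuous_const)).inter ?_
    exact isClosed_eq (continuous_finsetSum _ fun x _ => continuous_apply x) continuous_const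
  · intro p hp x _
    exact ⟨hp.nonneg x, IsPr.le_one hp x⟩

theorem exists_isPr {G : Finset α} (hG : G.Nonempty) : ∃ p : α → ℝ, IsPr G p := by
  classical
  obtain ⟨x, hx⟩ := hG
  refine ⟨Pi.single x 1, ⟨fun y => ?_, fun y hy => ?_, ?_⟩⟩
  · by_cases h : y = x
    · subst h; simp
    · simp [Pi.single_eq_of_ne h]
  · have h : y ≠ x := fun h => hy (h ▸ hx)
    simp [Pi.single_eq_of_ne h]
  · simp

theorem IsPr.mono {G H : Finset α} (h : G ⊆ H) {p : α → ℝ} (hp : IsPr G p) : IsPr H p :=
  ⟨hp.nonneg, fun x hx => hp.supp x fun hx' => hx (h hx'), hp.sum_eq⟩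

theorem ex_add (p f g : α → ℝ) : ex p (fun x => f x + g x) = ex p f + ex p g := by
  simp [ex, mul_add, sum_add_distrib]

theorem ex_const_mul (p f : α → ℝ) (c : ℝ) : ex p (fun x => c * f x) = c * ex p f := by
  simp only [ex, mul_sum]
  exact sum_congr rfl fun x _ => by ring

theorem ex_const {G : Finset α} {p : α → ℝ} (hp : IsPr G p) (c : ℝ) : ex p (fun _ => c) = c := by
  simp only [ex, ← sum_mul, hp.sum_eq, one_mul]

theorem ex_congr {G : Finset α} {p : α → ℝ} (hp : IsPr G p) {f g : α → ℝ}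
    (h : ∀ x ∈ G, f x = g x) : ex p f = ex p g := by
  refine sum_congr rfl fun x _ => ?_
  by_cases hx : x ∈ G
  · rw [h x hx]
  · rw [hp.supp x hx]; simp

theorem ex_mono {G : Finset α} {p : α → ℝ} (hp : IsPr G p) {f g : α → ℝ}
    (h : ∀ x ∈ G, f x ≤ g x) : ex p f ≤ ex p g := by
  refine sum_le_sum fun x _ => ?_
  by_cases hx : x ∈ G
  · exact mul_le_mul_of_nonneg_left (h x hx) (hp.nonneg x)
  · rw [hp.supp x hx]; simp

theorem ex_nonneg {G : Finset α} {p : α → ℝ} (hp : IsPr G p) {f : α → ℝ}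
    (h : ∀ x ∈ G, 0 ≤ f x) : 0 ≤ ex p f := by
  have := ex_mono hp (f := fun _ => 0) (g := f) h
  simpa [ex] using this

omit [Fintype ι] in
theorem mn_eq_ex (p : α → ℝ) (v : α → ι → ℝ) (i : ι) : mn p v i = ex p (fun x => v x i) := rfl

theorem ex_sum {κ : Type*} (s : Finset κ) (p : α → ℝ) (f : κ → α → ℝ) :
    ex p (fun x => ∑ i ∈ s, f i x) = ∑ i ∈ s, ex p (f i) := by
  simp only [ex, mul_sum]
  rw [sum_comm]

variable {k : ℝ} {c : α → ℝ} {v : α → ι → ℝ} {G : Finset α} {p : α → ℝ}

theorem Jmin_pos (hk : 0 ≤ k) (hp : IsPr G p)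
    (hmin : ∀ q, IsPr G q → Jf k c v p ≤ Jf k c v q) : ∀ x ∈ G, 0 < p x := by
  classical
  intro x₀ hx₀
  by_contra hcon
  have h0 : p x₀ = 0 := le_antisymm (not_lt.mp hcon) (hp.nonneg x₀)
  set C : ℝ := - ent p - ex p c + c x₀ - 2 * k * ∑ i, mn p v i * (v x₀ i - mn p v i) with hC
  set t : ℝ := Real.exp (-|C| - 1) with ht
  have htpos : 0 < t := Real.exp_pos _
  have htlt : t < 1 := by
    rw [ht, Real.exp_lt_one_iff]
    have := abs_nonneg C
    linarith
  have h1t : 0 < 1 - t := by linarith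
  set q : α → ℝ := fun x => (1 - t) * p x + (if x = x₀ then t else 0) with hq
  have hqpr : IsPr G q := by
    refine ⟨fun x => ?_, fun x hx => ?_, ?_⟩
    · have := hp.nonneg x
      simp only [hq]
      split_ifs <;> nlinarith
    · have hne : x ≠ x₀ := fun h => hx (h ▸ hx₀)
      simp [hq, hne, hp.supp x hx]
    · simp only [hq, sum_add_distrib, ← mul_sum, hp.sum_eq]
      simp
  have hent : ent q = (1 - t) * ent p + (1 - t) * Real.log (1 - t) + t * Real.log t := by
    have h1 : ∀ x, q x * Real.log (q x) = (1 - t) * (p x * Real.log (p x))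
        + (1 - t) * Real.log (1 - t) * p x + (if x = x₀ then t * Real.log t else 0) := by
      intro x
      by_cases hx : x = x₀
      · subst hx
        simp [hq, h0]
      · simp only [hq, hx, if_false, add_zero]
        by_cases hpx : p x = 0
        · simp [hpx]
        · rw [Real.log_mul h1t.ne' hpx]; ring
    unfold ent
    rw [sum_congr rfl fun x _ => h1 x, sum_add_distrib, sum_add_distrib, ← mul_sum, ← mul_sum,
      hp.sum_eq]
    simp
  have hex : ex q c = (1 - t) * ex p c + t * c x₀ := by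
    unfold ex
    have h1 : ∀ x, q x * c x = (1 - t) * (p x * c x) + (if x = x₀ then t * c x₀ else 0) := by
      intro x
      by_cases hx : x = x₀
      · subst hx; simp [hq]; ring
      · simp [hq, hx]; ring
    rw [sum_congr rfl fun x _ => h1 x, sum_add_distrib, ← mul_sum]
    simp
  have hmn : ∀ i, mn q v i = mn p v i + t * (v x₀ i - mn p v i) := by
    intro i
    unfold mn
    have h1 : ∀ x, q x * v x i = (1 - t) * (p x * v x i) + (if x = x₀ then t * v x₀ i else 0) := by
      intro x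
      by_cases hx : x = x₀
      · subst hx; simp [hq]; ring
      · simp [hq, hx]; ring
    rw [sum_congr rfl fun x _ => h1 x, sum_add_distrib, ← mul_sum]
    simp
    ring
  have hsq : ∑ i, (mn p v i) ^ 2 + 2 * t * ∑ i, mn p v i * (v x₀ i - mn p v i)
      ≤ ∑ i, (mn q v i) ^ 2 := by
    rw [mul_sum, ← sum_add_distrib]
    refine sum_le_sum fun i _ => ?_
    rw [hmn i]
    nlinarith [mul_nonneg htpos.le htpos.le, sq_nonneg (t * (v x₀ i - mn p v i))]
  have hJ := hmin q hqpr
  unfold Jf at hJ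
  rw [hent, hex] at hJ
  have hlog : (1 - t) * Real.log (1 - t) ≤ 0 :=
    mul_nonpos_of_nonneg_of_nonpos h1t.le (Real.log_nonpos h1t.le (by linarith))
  have hlt : Real.log t = -|C| - 1 := by rw [ht, Real.log_exp]
  have hkey : k * (∑ i, (mn p v i) ^ 2 + 2 * t * ∑ i, mn p v i * (v x₀ i - mn p v i))
      ≤ k * ∑ i, (mn q v i) ^ 2 := mul_le_mul_of_nonneg_left hsq hk
  have hfin : 0 ≤ t * (Real.log t + C) := by
    rw [hC]
    nlinarith
  have : Real.log t + C < 0 := by
    rw [hlt]
    have := le_abs_self C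
    linarith
  nlinarith

theorem Jmin_tilt (hk : 0 ≤ k) (hp : IsPr G p)
    (hmin : ∀ q, IsPr G q → Jf k c v p ≤ Jf k c v q) : ∀ x ∈ G,
    Real.log (p x) = ent p - (c x - ex p c) + 2 * k * ∑ i, mn p v i * (v x i - mn p v i) := by
  classical
  intro x₀ hx₀
  have hpos := Jmin_pos hk hp hmin
  set dd : α → ℝ := fun x => (if x = x₀ then 1 else 0) - p x with hdd
  have hdsum : ∑ x, dd x = 0 := by
    simp [hdd, sum_sub_distrib, hp.sum_eq]
  set q : ℝ → α → ℝ := fun t x => p x + t * dd x with hq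
  have hqpr : ∀ t : ℝ, |t| ≤ p x₀ / 2 → IsPr G (q t) := by
    intro t ht
    have hp0 := hpos x₀ hx₀
    have hp1 : p x₀ ≤ 1 := IsPr.le_one hp x₀
    have ht1 := abs_le.mp ht
    refine ⟨fun x => ?_, fun x hx => ?_, ?_⟩
    · by_cases hx : x = x₀
      · subst hx
        simp only [hq, hdd, if_true]
        nlinarith
      · simp only [hq, hdd, hx, if_false]
        have := hp.nonneg x
        nlinarith
    · have hne : x ≠ x₀ := fun h => hx (h ▸ hx₀)
      simp [hq, hdd, hne, hp.supp x hx]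
    · simp only [hq, sum_add_distrib, ← mul_sum, hdsum, hp.sum_eq]
      ring
  have hder : HasDerivAt (fun t => Jf k c v (q t))
      ((∑ x, dd x * (Real.log (p x) + 1)) + (∑ x, dd x * c x)
        - k * ∑ i, 2 * mn p v i * (∑ x, dd x * v x i)) 0 := by
    unfold Jf
    refine (HasDerivAt.add ?_ ?_).sub ?_
    · unfold ent
      apply HasDerivAt.fun_sum
      intro x _
      have hlin : HasDerivAt (fun t : ℝ => q t x) (dd x) 0 := by
        have := ((hasDerivAt_id (0 : ℝ)).mul_const (dd x)).const_add (p x)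
        simpa [hq] using this
      by_cases hx : x ∈ G
      · have h2 : HasDerivAt (fun u : ℝ => u * Real.log u) (Real.log (p x) + 1) (q 0 x) := by
          have : q 0 x = p x := by simp [hq]
          rw [this]
          exact Real.hasDerivAt_mul_log (hpos x hx).ne'
        have := h2.comp (0 : ℝ) hlin
        simpa [Function.comp_def, mul_comm] using this
      · have hd0 : dd x = 0 := by
          have hne : x ≠ x₀ := fun h => hx (h ▸ hx₀)
          simp [hdd, hne, hp.supp x hx]
        have : (fun t : ℝ => q t x * Real.log (q t x)) = fun _ => p x * Real.log (p x) := by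
          funext t
          simp [hq, hd0]
        rw [this, hd0, zero_mul]
        exact hasDerivAt_const _ _
    · unfold ex
      apply HasDerivAt.fun_sum
      intro x _
      have := (((hasDerivAt_id (0 : ℝ)).mul_const (dd x)).const_add (p x)).mul_const (c x)
      simpa [hq] using this
    · apply HasDerivAt.const_mul
      apply HasDerivAt.fun_sum
      intro i _
      have h1 : HasDerivAt (fun t : ℝ => mn (q t) v i) (∑ x, dd x * v x i) 0 := by
        unfold mn
        apply HasDerivAt.fun_sum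
        intro x _
        have := (((hasDerivAt_id (0 : ℝ)).mul_const (dd x)).const_add (p x)).mul_const (v x i)
        simpa [hq] using this
      have h2 := h1.fun_pow 2
      have h3 : mn (q 0) v i = mn p v i := by
        simp [mn, hq]
      rw [h3] at h2
      simpa using h2
  have hloc : IsLocalMin (fun t => Jf k c v (q t)) 0 := by
    have hp0 : 0 < p x₀ / 2 := by have := hpos x₀ hx₀; linarith
    have hev : ∀ᶠ t : ℝ in nhds 0, |t| < p x₀ / 2 :=
      (continuous_abs.tendsto (0 : ℝ)).eventually_lt_const (by simpa using hpos x₀ hx₀)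
    filter_upwards [hev] with t ht
    have h0 : q 0 = p := by funext x; simp [hq]
    rw [h0]
    exact hmin _ (hqpr t ht.le)
  have hzero := hloc.hasDerivAt_eq_zero hder
  -- evaluate
  have e1 : ∑ x, dd x * (Real.log (p x) + 1) = Real.log (p x₀) - ent p := by
    have : ∀ x, dd x * (Real.log (p x) + 1)
        = (if x = x₀ then Real.log (p x₀) else 0) - p x * Real.log (p x) + dd x := by
      intro x
      by_cases hx : x = x₀
      · subst hx; simp [hdd]; ring
      · simp [hdd, hx]; ring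
    rw [sum_congr rfl fun x _ => this x, sum_add_distrib, sum_sub_distrib, hdsum]
    simp [ent]
  have e2 : ∑ x, dd x * c x = c x₀ - ex p c := by
    have : ∀ x, dd x * c x = (if x = x₀ then c x₀ else 0) - p x * c x := by
      intro x
      by_cases hx : x = x₀
      · subst hx; simp [hdd]; ring
      · simp [hdd, hx]
    rw [sum_congr rfl fun x _ => this x, sum_sub_distrib]
    simp [ex]
  have e3 : ∀ i, ∑ x, dd x * v x i = v x₀ i - mn p v i := by
    intro i
    have : ∀ x, dd x * v x i = (if x = x₀ then v x₀ i else 0) - p x * v x i := by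
      intro x
      by_cases hx : x = x₀
      · subst hx; simp [hdd]; ring
      · simp [hdd, hx]
    rw [sum_congr rfl fun x _ => this x, sum_sub_distrib]
    simp [mn]
  rw [e1, e2] at hzero
  simp only [e3] at hzero
  have e4 : ∑ i, 2 * mn p v i * (v x₀ i - mn p v i) = 2 * ∑ i, mn p v i * (v x₀ i - mn p v i) := by
    rw [mul_sum]; exact sum_congr rfl fun i _ => by ring
  rw [e4] at hzero
  linarith

theorem Jmin_identity (hk : 0 ≤ k) (hp : IsPr G p)
    (hmin : ∀ q, IsPr G q → Jf k c v p ≤ Jf k c v q) {q : α → ℝ} (hq : IsPr G q) :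
    Jf k c v q - Jf k c v p = kl q p - k * ∑ i, (mn q v i - mn p v i) ^ 2 := by
  have htilt := Jmin_tilt hk hp hmin
  have h1 : ∑ x, q x * Real.log (p x)
      = ent p - (ex q c - ex p c) + 2 * k * ∑ i, mn p v i * (mn q v i - mn p v i) := by
    have e1 : ∑ x, q x * Real.log (p x) = ex q (fun x => (ent p + ex p c)
        + ((-1) * c x + 2 * k * ∑ i, mn p v i * (v x i - mn p v i))) := by
      unfold ex
      refine sum_congr rfl fun x _ => ?_
      by_cases hx : x ∈ G
      · rw [htilt x hx]; unfold ex; ring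
      · rw [hq.supp x hx]; simp
    rw [e1, ex_add, ex_const hq, ex_add, ex_const_mul, ex_const_mul, ex_sum]
    have e2 : ∀ i, ex q (fun x => mn p v i * (v x i - mn p v i))
        = mn p v i * (mn q v i - mn p v i) := by
      intro i
      have : (fun x => mn p v i * (v x i - mn p v i))
          = fun x => mn p v i * v x i + (-(mn p v i * mn p v i)) := by funext x; ring
      rw [this, ex_add, ex_const hq, ex_const_mul, mn_eq_ex q]
      ring
    simp only [e2]
    ring
  have h2 : kl q p = ent q - ∑ x, q x * Real.log (p x) := by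
    unfold kl ent
    rw [sum_sub_distrib]
  have h3 : ∑ i, (mn q v i - mn p v i) ^ 2
      = ∑ i, (mn q v i) ^ 2 - ∑ i, (mn p v i) ^ 2 - 2 * ∑ i, mn p v i * (mn q v i - mn p v i) := by
    rw [mul_sum, ← sum_sub_distrib, ← sum_sub_distrib]
    exact sum_congr rfl fun i _ => by ring
  rw [h2, h1, h3]
  unfold Jf
  ring

theorem Jmin_dom (hk : 0 ≤ k) (hp : IsPr G p)
    (hmin : ∀ q, IsPr G q → Jf k c v p ≤ Jf k c v q) {q : α → ℝ} (hq : IsPr G q) :
    k * ∑ i, (mn q v i - mn p v i) ^ 2 ≤ kl q p := by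
  have h1 := Jmin_identity hk hp hmin hq
  have h2 := hmin q hq
  linarith

theorem Jmin_mgf (hk : 0 < k) (hp : IsPr G p)
    (hmin : ∀ q, IsPr G q → Jf k c v p ≤ Jf k c v q) (θ : ι → ℝ) :
    ex p (fun x => Real.exp (∑ i, θ i * (v x i - mn p v i)))
      ≤ Real.exp ((∑ i, θ i ^ 2) / (4 * k)) := by
  have hpos := Jmin_pos hk.le hp hmin
  set s : α → ℝ := fun x => ∑ i, θ i * (v x i - mn p v i) with hs
  set Z : ℝ := ex p (fun x => Real.exp (s x)) with hZ
  have hGne : G.Nonempty := by
    by_contra hne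
    rw [not_nonempty_iff_eq_empty] at hne
    have h0 : ∑ x, p x = 0 := sum_eq_zero fun x _ => hp.supp x (by simp [hne])
    have := hp.sum_eq
    linarith
  have hZpos : 0 < Z := by
    obtain ⟨x, hx⟩ := hGne
    have h1 : p x * Real.exp (s x) ≤ Z := by
      rw [hZ]
      exact Finset.single_le_sum (f := fun y => p y * Real.exp (s y))
        (fun y _ => mul_nonneg (hp.nonneg y) (Real.exp_pos _).le) (mem_univ x)
    exact lt_of_lt_of_le (mul_pos (hpos x hx) (Real.exp_pos _)) h1
  set q : α → ℝ := fun x => p x * Real.exp (s x) / Z with hq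
  have hqpr : IsPr G q := by
    refine ⟨fun x => div_nonneg (mul_nonneg (hp.nonneg x) (Real.exp_pos _).le) hZpos.le,
      fun x hx => by simp [hq, hp.supp x hx], ?_⟩
    simp only [hq, ← sum_div]
    exact div_self hZpos.ne'
  have hkl : kl q p = ex q s - Real.log Z := by
    have h1 : ∀ x, q x * Real.log (q x) - q x * Real.log (p x) = q x * s x - q x * Real.log Z := by
      intro x
      by_cases hx : x ∈ G
      · have hpx := hpos x hx
        have : Real.log (q x) = Real.log (p x) + s x - Real.log Z := by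
          simp only [hq]
          rw [Real.log_div (mul_pos hpx (Real.exp_pos _)).ne' hZpos.ne',
            Real.log_mul hpx.ne' (Real.exp_pos _).ne', Real.log_exp]
        rw [this]; ring
      · rw [hqpr.supp x hx]; simp
    unfold kl
    rw [sum_congr rfl fun x _ => h1 x, sum_sub_distrib, ← sum_mul, hqpr.sum_eq, one_mul]
    rfl
  have hexs : ex q s = ∑ i, θ i * (mn q v i - mn p v i) := by
    simp only [hs]
    rw [ex_sum]
    refine sum_congr rfl fun i _ => ?_
    have : (fun x => θ i * (v x i - mn p v i)) = fun x => θ i * v x i + (-(θ i * mn p v i)) := by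
      funext x; ring
    rw [this, ex_add, ex_const hqpr, ex_const_mul, mn_eq_ex q]
    ring
  have hdom := Jmin_dom hk.le hp hmin hqpr
  rw [hkl, hexs] at hdom
  have hlog : Real.log Z ≤ (∑ i, θ i ^ 2) / (4 * k) := by
    have : Real.log Z ≤ ∑ i, (θ i * (mn q v i - mn p v i) - k * (mn q v i - mn p v i) ^ 2) := by
      rw [sum_sub_distrib, ← mul_sum]; linarith
    refine this.trans ?_
    rw [sum_div]
    refine sum_le_sum fun i _ => ?_
    rw [le_div_iff₀ (by positivity)]
    nlinarith [sq_nonneg (θ i - 2 * k * (mn q v i - mn p v i))]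
  calc Z = Real.exp (Real.log Z) := (Real.exp_log hZpos).symm
    _ ≤ _ := Real.exp_le_exp.mpr hlog

theorem two_add_sq_le (x : ℝ) : 2 + x ^ 2 ≤ Real.exp x + Real.exp (-x) := by
  have h1 : Real.cosh x = 1 + 2 * Real.sinh (x / 2) ^ 2 := by
    have := Real.cosh_two_mul (x / 2)
    have h2 := Real.cosh_sq (x / 2)
    rw [show 2 * (x / 2) = x by ring] at this
    rw [this, h2]; ring
  have h2 : (x / 2) ^ 2 ≤ Real.sinh (x / 2) ^ 2 := by
    rcases le_total 0 (x / 2) with h | h
    · have := Real.self_le_sinh_iff.mpr h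
      nlinarith
    · have := Real.sinh_le_self_iff.mpr h
      nlinarith
  have h3 : Real.exp x + Real.exp (-x) = 2 * Real.cosh x := by
    rw [Real.cosh_eq]; ring
  rw [h3, h1]
  nlinarith

theorem Jmin_var (hk : 0 < k) (hp : IsPr G p)
    (hmin : ∀ q, IsPr G q → Jf k c v p ≤ Jf k c v q) (θ : ι → ℝ) :
    ex p (fun x => (∑ i, θ i * (v x i - mn p v i)) ^ 2) ≤ (∑ i, θ i ^ 2) / (2 * k) := by
  set V := ex p (fun x => (∑ i, θ i * (v x i - mn p v i)) ^ 2) with hV
  set σ : ℝ := (∑ i, θ i ^ 2) / (4 * k) with hσ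
  have hσ0 : 0 ≤ σ := div_nonneg (sum_nonneg fun i _ => sq_nonneg _) (by positivity)
  have hkey : ∀ s : ℝ, 0 < s → V ≤ 2 * σ * Real.exp (s ^ 2 * σ) := by
    intro s hs
    have m1 := Jmin_mgf hk hp hmin (fun i => s * θ i)
    have m2 := Jmin_mgf hk hp hmin (fun i => -(s * θ i))
    have e1 : (∑ i, (s * θ i) ^ 2) / (4 * k) = s ^ 2 * σ := by
      rw [hσ, mul_div_assoc', mul_sum]
      congr 1
      exact sum_congr rfl fun i _ => by ring
    have e2 : (∑ i, (-(s * θ i)) ^ 2) / (4 * k) = s ^ 2 * σ := by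
      rw [← e1]; congr 1
      exact sum_congr rfl fun i _ => by ring
    rw [e1] at m1
    rw [e2] at m2
    have m3 : 2 + s ^ 2 * V ≤ ex p (fun x => Real.exp (∑ i, s * θ i * (v x i - mn p v i)))
        + ex p (fun x => Real.exp (∑ i, -(s * θ i) * (v x i - mn p v i))) := by
      rw [← ex_add]
      have e3 : 2 + s ^ 2 * V
          = ex p (fun x => 2 + s ^ 2 * (∑ i, θ i * (v x i - mn p v i)) ^ 2) := by
        rw [ex_add, ex_const hp, ex_const_mul]
      rw [e3]
      refine ex_mono hp fun x _ => ?_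
      have := two_add_sq_le (s * ∑ i, θ i * (v x i - mn p v i))
      have e4 : ∑ i, s * θ i * (v x i - mn p v i) = s * ∑ i, θ i * (v x i - mn p v i) := by
        rw [mul_sum]; exact sum_congr rfl fun i _ => by ring
      have e5 : ∑ i, -(s * θ i) * (v x i - mn p v i) = -(s * ∑ i, θ i * (v x i - mn p v i)) := by
        rw [← e4, ← sum_neg_distrib]; exact sum_congr rfl fun i _ => by ring
      rw [e4, e5]
      calc _ = 2 + (s * ∑ i, θ i * (v x i - mn p v i)) ^ 2 := by ring
        _ ≤ _ := this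
    have m4 : s ^ 2 * V ≤ 2 * (Real.exp (s ^ 2 * σ) - 1) := by linarith
    have m5 : Real.exp (s ^ 2 * σ) - 1 ≤ s ^ 2 * σ * Real.exp (s ^ 2 * σ) := by
      have h := Real.add_one_le_exp (-(s ^ 2 * σ))
      have h2 : Real.exp (s ^ 2 * σ) * Real.exp (-(s ^ 2 * σ)) = 1 := by
        rw [← Real.exp_add]; simp
      have h3 := Real.exp_pos (s ^ 2 * σ)
      nlinarith
    have hs2 : 0 < s ^ 2 := by positivity
    have m6 : s ^ 2 * V ≤ s ^ 2 * (2 * σ * Real.exp (s ^ 2 * σ)) := by nlinarith
    exact le_of_mul_le_mul_left m6 hs2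
  have hlim : Filter.Tendsto (fun s : ℝ => 2 * σ * Real.exp (s ^ 2 * σ)) (nhdsWithin 0 (Set.Ioi 0))
      (nhds (2 * σ * Real.exp ((0 : ℝ) ^ 2 * σ))) := by
    apply Filter.Tendsto.mono_left _ nhdsWithin_le_nhds
    have : Continuous fun s : ℝ => 2 * σ * Real.exp (s ^ 2 * σ) := by fun_prop
    exact this.tendsto 0
  have hle : V ≤ 2 * σ * Real.exp ((0 : ℝ) ^ 2 * σ) := by
    refine ge_of_tendsto hlim ?_
    filter_upwards [self_mem_nhdsWithin] with s hs
    exact hkey s hs
  have : 2 * σ * Real.exp ((0 : ℝ) ^ 2 * σ) = (∑ i, θ i ^ 2) / (2 * k) := by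
    rw [hσ]; simp; field_simp; ring
  exact hle.trans this.le

theorem isPr_condp [DecidableEq α] {h : Finset α} (hp : IsPr G p)
    (hpos : 0 < ∑ x ∈ h, p x) : IsPr h (condp h p) := by
  refine ⟨fun x => ?_, fun x hx => ?_, ?_⟩
  · unfold condp
    split_ifs
    · exact div_nonneg (hp.nonneg x) hpos.le
    · exact le_rfl
  · simp [condp, hx]
  · unfold condp
    rw [← sum_filter]
    simp only [filter_mem_eq_inter, univ_inter]
    rw [← sum_div]
    exact div_self hpos.ne'

theorem kl_condp [DecidableEq α] {h : Finset α} (hp : IsPr G p)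
    (hpos : 0 < ∑ x ∈ h, p x) :
    kl (condp h p) p = - Real.log (∑ x ∈ h, p x) := by
  set β := ∑ x ∈ h, p x with hβ
  have h1 : ∀ x, condp h p x * Real.log (condp h p x) - condp h p x * Real.log (p x)
      = - Real.log β * condp h p x := by
    intro x
    unfold condp
    split_ifs with hx
    · by_cases hpx : p x = 0
      · simp [hpx]
      · rw [← hβ, Real.log_div hpx hpos.ne']; ring
    · simp
  unfold kl
  rw [sum_congr rfl fun x _ => h1 x, ← mul_sum, (isPr_condp hp hpos).sum_eq]
  ring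

end

section

variable {ι : Type*} [Fintype ι] [DecidableEq ι] {R : Finset ι} {G : Finset (ι → Bool)}
  {p : (ι → Bool) → ℝ}

theorem mn_vf (R : Finset ι) (p : (ι → Bool) → ℝ) (i : ι) :
    mn p (vf R) i = if i ∈ R then 0 else mean p i := by
  unfold mn vf mean
  split_ifs <;> simp

theorem sum_mn_vf_sq (R : Finset ι) (p : (ι → Bool) → ℝ) :
    ∑ i, (mn p (vf R) i) ^ 2 = ∑ i ∈ Rᶜ, (mean p i) ^ 2 := by
  have h1 : ∀ i, (mn p (vf R) i) ^ 2 = if i ∈ Rᶜ then (mean p i) ^ 2 else 0 := by
    intro i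
    rw [mn_vf]
    by_cases h : i ∈ R <;> simp [h]
  rw [sum_congr rfl fun i _ => h1 i, sum_ite_mem, univ_inter]

theorem Psi_eq_Jf (R : Finset ι) (p : (ι → Bool) → ℝ) :
    Psi R p = ((Rᶜ).card : ℝ) * Real.log 2 + Jf (1 / 2) (fun _ => 0) (vf R) p := by
  unfold Psi Jf ex
  simp only [mul_zero, sum_const_zero]
  ring

theorem Psi_eq (R : Finset ι) (p : (ι → Bool) → ℝ) :
    Psi R p = ((Rᶜ).card : ℝ) * Real.log 2 + ent p - (1 / 2) * ∑ i ∈ Rᶜ, (mean p i) ^ 2 := by
  unfold Psi
  rw [sum_mn_vf_sq]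

theorem continuous_mean (i : ι) : Continuous (fun p : (ι → Bool) → ℝ => mean p i) := by
  unfold mean
  exact continuous_finsetSum _ fun y _ => (continuous_apply y).mul continuous_const

theorem continuous_Psi (R : Finset ι) : Continuous (Psi R) := by
  have : Psi R = fun p => ((Rᶜ).card : ℝ) * Real.log 2 + ent p
      - (1 / 2) * ∑ i ∈ Rᶜ, (mean p i) ^ 2 := by
    funext p; exact Psi_eq R p
  rw [this]
  refine (continuous_const.add continuous_ent).sub (continuous_const.mul ?_)
  exact continuous_finsetSum _ fun i _ => (continuous_mean i).pow 2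

theorem exists_isMin (hG : G.Nonempty) (hF : Frozen R G) : ∃ p, IsMin R G p := by
  obtain ⟨p, hp, hmin⟩ := (isCompact_isPr G).exists_isMinOn (exists_isPr hG)
    (continuous_Psi R).continuousOn
  exact ⟨p, hp, hF, fun q hq => hmin hq⟩

theorem IsMin.jmin (h : IsMin R G p) :
    ∀ q, IsPr G q → Jf (1 / 2) (fun _ => 0) (vf R) p ≤ Jf (1 / 2) (fun _ => 0) (vf R) q := by
  intro q hq
  have := h.min q hq
  rw [Psi_eq_Jf, Psi_eq_Jf] at this
  linarith

/-- on the support the frozen coordinates equal the mean -/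
theorem mean_frozen (hp : IsPr G p) (hF : Frozen R G) {y : ι → Bool} (hy : y ∈ G) {i : ι}
    (hi : i ∈ R) : mean p i = sg (y i) := by
  have : mean p i = ex p (fun z => sg (z i)) := rfl
  rw [this, ex_congr hp (g := fun _ => sg (y i)) (fun z hz => by rw [hF z hz y hy i hi]),
    ex_const hp]

theorem lin_eq (hp : IsPr G p) (hF : Frozen R G) (θ : ι → ℝ) {y : ι → Bool} (hy : y ∈ G) :
    ∑ i, θ i * (sg (y i) - mean p i)
      = ∑ i, (if i ∈ R then 0 else θ i) * (vf R y i - mn p (vf R) i) := by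
  refine sum_congr rfl fun i _ => ?_
  rw [mn_vf]
  unfold vf
  by_cases h : i ∈ R
  · simp [h, mean_frozen hp hF hy h]
  · simp [h]

theorem sum_theta_sq (R : Finset ι) (θ : ι → ℝ) :
    ∑ i, (if i ∈ R then 0 else θ i) ^ 2 = ∑ i ∈ Rᶜ, θ i ^ 2 := by
  have h1 : ∀ i, (if i ∈ R then 0 else θ i) ^ 2 = if i ∈ Rᶜ then (θ i) ^ 2 else 0 := by
    intro i
    by_cases h : i ∈ R <;> simp [h]
  rw [sum_congr rfl fun i _ => h1 i, sum_ite_mem, univ_inter]

/-- variance under an exact minimiser -/
theorem IsMin.var (h : IsMin R G p) (θ : ι → ℝ) :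
    ex p (fun y => (∑ i, θ i * (sg (y i) - mean p i)) ^ 2) ≤ ∑ i ∈ Rᶜ, θ i ^ 2 := by
  have h1 := Jmin_var (by norm_num : (0 : ℝ) < 1 / 2) h.pr h.jmin (fun i => if i ∈ R then 0 else θ i)
  rw [sum_theta_sq] at h1
  rw [ex_congr h.pr (fun y hy => by rw [lin_eq h.pr h.frozen θ hy])]
  linarith

theorem IsMin.mgf (h : IsMin R G p) (θ : ι → ℝ) :
    ex p (fun y => Real.exp (∑ i, θ i * (sg (y i) - mean p i)))
      ≤ Real.exp ((∑ i ∈ Rᶜ, θ i ^ 2) / 2) := by
  have h1 := Jmin_mgf (by norm_num : (0 : ℝ) < 1 / 2) h.pr h.jmin (fun i => if i ∈ R then 0 else θ i)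
  rw [sum_theta_sq] at h1
  rw [ex_congr h.pr (fun y hy => by rw [lin_eq h.pr h.frozen θ hy])]
  refine h1.trans (Real.exp_le_exp.mpr (le_of_eq ?_))
  ring

end

end Pool.Agent.MP3884c4
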