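import Pool.Agent.Lib.MP_3884c4_co.Stmts

/-!
Beckner with slack at imaginary noise parameter: two-point inequality, tensorisation, bilinear bound.
-/

set_option autoImplicit false

open Finset Real

namespace Pool.Agent.MP3884c4.Bk

/-- `(1+x) log(1+x) + (1-x) log(1-x) ≥ x²` on `[0,1)`. -/
theorem kappa_ge {x : ℝ} (h0 : 0 ≤ x) (h1 : x < 1) :
    x ^ 2 ≤ (1 + x) * log (1 + x) + (1 - x) * log (1 - x) := by
  have hmono : MonotoneOn (fun y : ℝ => (1 + y) * log (1 + y) + (1 - y) * log (1 - y) - y ^ 2)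
      (Set.Ico 0 1) := by
    have hd : ∀ y ∈ Set.Ico (0:ℝ) 1, HasDerivAt
        (fun y : ℝ => (1 + y) * log (1 + y) + (1 - y) * log (1 - y) - y ^ 2)
        (log (1 + y) - log (1 - y) - 2 * y) y := by
      intro y hy
      have h1y : (1 + y) ≠ 0 := by have := hy.1; linarith
      have h2y : (1 - y) ≠ 0 := by have := hy.2; intro h; linarith
      have e1 : HasDerivAt (fun y : ℝ => 1 + y) 1 y := by
        simpa using (hasDerivAt_id y).const_add (1:ℝ)
      have e2 : HasDerivAt (fun y : ℝ => 1 - y) (-1) y := by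
        simpa using (hasDerivAt_id y).const_sub (1:ℝ)
      have e3 := e1.mul (e1.log h1y)
      have e4 := e2.mul (e2.log h2y)
      have e5 := ((e3.add e4).sub ((hasDerivAt_id y).pow 2))
      refine HasDerivAt.congr_deriv e5 ?_
      simp only [id]
      field_simp
      ring
    apply monotoneOn_of_deriv_nonneg (convex_Ico 0 1)
    · intro y hy
      exact (hd y hy).continuousAt.continuousWithinAt
    · intro y hy
      rw [interior_Ico] at hy
      exact (hd y ⟨hy.1.le, hy.2⟩).differentiableAt.differentiableWithinAt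
    · intro y hy
      rw [interior_Ico] at hy
      rw [(hd y ⟨hy.1.le, hy.2⟩).deriv]
      have hs := Real.hasSum_log_sub_log_of_abs_lt_one (x := y)
        (by rw [abs_of_pos hy.1]; exact hy.2)
      have := le_hasSum hs 0 (by
        intro j _
        have : (0:ℝ) ≤ y := hy.1.le
        positivity)
      norm_num at this
      linarith
  have := hmono (Set.left_mem_Ico.2 one_pos) (Set.mem_Ico.2 ⟨h0, h1⟩) h0
  simp at this
  linarith

theorem one_add_rpow_ge {y p : ℝ} (hy : 0 < y) :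
    y * (1 + (p - 1) * log y) ≤ y ^ p := by
  have h1 : y ^ p = y * y ^ (p - 1) := by
    rw [show p = 1 + (p - 1) by ring, rpow_add hy, rpow_one]; ring_nf
  rw [h1]
  apply mul_le_mul_of_nonneg_left _ hy.le
  have := Real.add_one_le_exp ((p - 1) * log y)
  rw [rpow_def_of_pos hy, mul_comm (log y)]
  linarith

/-- `(1/2)((1+x)^p+(1-x)^p) ≥ 1+(p-1)x²/2`. -/
theorem half_sum_rpow_ge {p x : ℝ} (hp : 1 ≤ p) (hx : |x| ≤ 1) :
    1 + (p - 1) * x ^ 2 / 2 ≤ ((1 + x) ^ p + (1 - x) ^ p) / 2 := by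
  wlog h0 : 0 ≤ x with H
  · have := H (x := -x) hp (by rwa [abs_neg]) (by linarith)
    rw [show (1 + -x) = 1 - x by ring, show (1 - -x) = 1 + x by ring, neg_sq] at this
    linarith
  rw [abs_of_nonneg h0] at hx
  rcases hx.lt_or_eq with h | h
  · have a1 := one_add_rpow_ge (y := 1 + x) (p := p) (by linarith)
    have a2 := one_add_rpow_ge (y := 1 - x) (p := p) (by linarith)
    have k := kappa_ge h0 h
    nlinarith [mul_le_mul_of_nonneg_left k (sub_nonneg.2 hp)]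
  · subst h
    have a1 := one_add_rpow_ge (y := 1 + 1) (p := p) (by norm_num)
    have a2 : (1 - 1 : ℝ) ^ p = 0 := by rw [sub_self]; exact zero_rpow (by linarith)
    have h2 : (0.5:ℝ) ≤ log 2 := by have := Real.log_two_gt_d9; linarith
    have h3 : (1:ℝ) + 1 = 2 := by norm_num
    rw [h3] at a1
    rw [h3, a2]
    have h4 := mul_le_mul_of_nonneg_left h2 (sub_nonneg.2 hp)
    linarith

theorem rpow_half_le {A y s : ℝ} (hA : 0 < A) (hy : 0 ≤ y) (hs : 0 ≤ s) :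
    y ^ s ≤ A ^ s * exp (s * (y / A - 1)) := by
  have h1 : y ≤ A * exp (y / A - 1) := by
    have h := Real.add_one_le_exp (y / A - 1)
    have : y / A ≤ exp (y / A - 1) := by linarith
    calc y = A * (y / A) := by field_simp
      _ ≤ _ := mul_le_mul_of_nonneg_left this hA.le
  calc y ^ s ≤ (A * exp (y / A - 1)) ^ s := rpow_le_rpow hy h1 hs
    _ = A ^ s * exp (s * (y / A - 1)) := by
      rw [mul_rpow hA.le (exp_pos _).le, ← Real.exp_mul, mul_comm (y / A - 1)]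

theorem avg_rpow_le {A B s : ℝ} (hA : 0 < A) (h1 : 0 ≤ A + B) (h2 : 0 ≤ A - B) (hs : 0 ≤ s) :
    ((A - B) ^ s + (A + B) ^ s) / 2 ≤ A ^ s * exp ((s * (B / A)) ^ 2 / 2) := by
  have a1 := rpow_half_le hA h2 hs
  have a2 := rpow_half_le hA h1 hs
  have e1 : s * ((A - B) / A - 1) = - (s * (B / A)) := by field_simp; ring
  have e2 : s * ((A + B) / A - 1) = s * (B / A) := by field_simp; ring
  rw [e1] at a1; rw [e2] at a2
  have c := Real.cosh_le_exp_half_sq (s * (B / A))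
  rw [Real.cosh_eq] at c
  have hAs : 0 ≤ A ^ s := rpow_nonneg hA.le _
  nlinarith [mul_le_mul_of_nonneg_left c hAs]

theorem log_ge_div {y : ℝ} (hy : 0 ≤ y) : y / (1 + y) ≤ log (1 + y) := by
  have h := Real.one_sub_inv_le_log_of_pos (show 0 < 1 + y by linarith)
  have : 1 - (1 + y)⁻¹ = y / (1 + y) := by field_simp; ring
  linarith

theorem msq_ge {m x u v : ℝ} (k1 : m ^ 2 * x = u) (k2 : m ^ 2 * (1 + x ^ 2) = 1 + u ^ 2 + v ^ 2)
    (hx2 : x ^ 2 ≤ 1) : 1 + v ^ 2 ≤ m ^ 2 := by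
  by_contra hc
  push Not at hc
  have hv : v ^ 2 = m ^ 2 * (1 + x ^ 2) - 1 - (m ^ 2 * x) ^ 2 := by rw [k1]; linarith
  have f : (1 + v ^ 2 - m ^ 2) * (1 + v ^ 2 - m ^ 2 * x ^ 2) = - ((m ^ 2 * x) ^ 2 * v ^ 2) := by
    rw [hv]; ring
  have g1 : 0 < 1 + v ^ 2 - m ^ 2 := by linarith
  have g2 : m ^ 2 * x ^ 2 ≤ m ^ 2 := mul_le_of_le_one_right (sq_nonneg m) hx2
  have g3 : 0 < 1 + v ^ 2 - m ^ 2 * x ^ 2 := by linarith
  have g4 := mul_pos g1 g3
  have g5 : 0 ≤ (m ^ 2 * x) ^ 2 * v ^ 2 := by positivity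
  linarith

set_option maxHeartbeats 2000000 in
/-- normalised two-point inequality, moderate `b`. -/
theorem two_point_norm {τ : ℝ} (h0 : 0 < τ) (h1 : τ ≤ 1 / 10) (b : ℂ) (hb : ‖b‖ ≤ 10 / 9) :
    (‖1 + Complex.I * τ * b‖ ^ (1 + 1 / (8 * τ ^ 2)) + ‖1 - Complex.I * τ * b‖ ^ (1 + 1 / (8 * τ ^ 2))) / 2
      ≤ ((‖1 + b‖ ^ (1 + 8 * τ ^ 2) + ‖1 - b‖ ^ (1 + 8 * τ ^ 2)) / 2) ^
        ((1 + 1 / (8 * τ ^ 2)) / (1 + 8 * τ ^ 2)) := by
  set q : ℝ := 1 + 1 / (8 * τ ^ 2) with hq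
  set p : ℝ := 1 + 8 * τ ^ 2 with hp
  have hτ2 : 0 < τ ^ 2 := by positivity
  have hτ3 : τ ^ 2 ≤ 1 / 100 := by nlinarith
  have hq0 : 0 < q := by positivity
  have hp0 : 0 < p := by positivity
  have hp1 : 1 ≤ p := by rw [hp]; linarith
  set u := b.re with hu
  set v := b.im with hv
  have hb2 : ‖b‖ ^ 2 = u ^ 2 + v ^ 2 := by
    rw [Complex.sq_norm, Complex.normSq_apply]; ring
  have hb3 : u ^ 2 + v ^ 2 ≤ 100 / 81 := by
    rw [← hb2]
    calc ‖b‖ ^ 2 ≤ (10 / 9) ^ 2 := pow_le_pow_left₀ (norm_nonneg b) hb 2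
      _ = 100 / 81 := by norm_num
  have hN1 : ‖1 + b‖ ^ 2 = (1 + u) ^ 2 + v ^ 2 := by
    rw [Complex.sq_norm, Complex.normSq_apply]; simp [hu, hv]; ring
  have hN2 : ‖1 - b‖ ^ 2 = (1 - u) ^ 2 + v ^ 2 := by
    rw [Complex.sq_norm, Complex.normSq_apply]; simp [hu, hv]; ring
  have hN : 2 ≤ ‖1 + b‖ + ‖1 - b‖ := by
    have := norm_add_le (1 + b) (1 - b)
    have e : (1 + b) + (1 - b) = 2 := by ring
    rw [e] at this; simpa using this
  set m := (‖1 + b‖ + ‖1 - b‖) / 2 with hm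
  set x := (‖1 + b‖ - ‖1 - b‖) / 2 / m with hx
  have hm1 : 1 ≤ m := by rw [hm]; linarith
  have hm0 : 0 < m := by linarith
  have n1 := norm_nonneg (1 + b)
  have n2 := norm_nonneg (1 - b)
  have ha1 : ‖1 + b‖ = m * (1 + x) := by rw [hx]; field_simp; rw [hm]; ring
  have ha2 : ‖1 - b‖ = m * (1 - x) := by rw [hx]; field_simp; rw [hm]; ring
  have hx1 : |x| ≤ 1 := by
    rw [abs_le]; constructor
    · by_contra hc; push Not at hc
      have : m * (1 + x) < 0 := mul_neg_of_pos_of_neg hm0 (by linarith)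
      linarith
    · by_contra hc; push Not at hc
      have : m * (1 - x) < 0 := mul_neg_of_pos_of_neg hm0 (by linarith)
      linarith
  have k1 : m ^ 2 * x = u := by
    have : ‖1 + b‖ ^ 2 - ‖1 - b‖ ^ 2 = 4 * u := by rw [hN1, hN2]; ring
    rw [ha1, ha2] at this; linarith
  have k2 : m ^ 2 * (1 + x ^ 2) = 1 + u ^ 2 + v ^ 2 := by
    have : ‖1 + b‖ ^ 2 + ‖1 - b‖ ^ 2 = 2 * (1 + u ^ 2 + v ^ 2) := by rw [hN1, hN2]; ring
    rw [ha1, ha2] at this; linarith
  have hx2 : x ^ 2 ≤ 1 := by rw [← sq_abs]; exact pow_le_one₀ (abs_nonneg x) hx1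
  have hmx : 0 ≤ m ^ 2 * x ^ 2 := by positivity
  have hmle : m ^ 2 ≤ 181 / 81 := by linarith
  have hmge : 1 + v ^ 2 ≤ m ^ 2 := msq_ge k1 k2 hx2
  -- the left side
  have hA1 : ‖1 + Complex.I * τ * b‖ ^ 2 = (1 + τ ^ 2 * (u ^ 2 + v ^ 2)) - 2 * τ * v := by
    rw [Complex.sq_norm, Complex.normSq_apply]; simp [hu, hv]; ring
  have hA2 : ‖1 - Complex.I * τ * b‖ ^ 2 = (1 + τ ^ 2 * (u ^ 2 + v ^ 2)) + 2 * τ * v := by
    rw [Complex.sq_norm, Complex.normSq_apply]; simp [hu, hv]; ring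
  set A := 1 + τ ^ 2 * (u ^ 2 + v ^ 2) with hA
  have hApos : 1 ≤ A := by
    have := mul_nonneg hτ2.le (add_nonneg (sq_nonneg u) (sq_nonneg v))
    rw [hA]; linarith
  have hconv : ∀ w : ℂ, ‖w‖ ^ q = (‖w‖ ^ 2) ^ (q / 2) := by
    intro w
    rw [← Real.rpow_natCast, ← Real.rpow_mul (norm_nonneg w)]
    congr 1; push_cast; ring
  have hL : (‖1 + Complex.I * τ * b‖ ^ q + ‖1 - Complex.I * τ * b‖ ^ q) / 2 ≤
      A ^ (q / 2) * exp ((q / 2 * (2 * τ * v / A)) ^ 2 / 2) := by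
    rw [hconv, hconv, hA1, hA2]
    apply avg_rpow_le (by linarith)
    · rw [← hA2]; positivity
    · rw [← hA1]; positivity
    · positivity
  set Λ := τ ^ 2 * (u ^ 2 + v ^ 2) / 2 + (τ ^ 2 + 1 / 8) * v ^ 2 / 2 with hΛ
  have hL2 : A ^ (q / 2) * exp ((q / 2 * (2 * τ * v / A)) ^ 2 / 2) ≤ exp (q * Λ) := by
    have g1 : A ^ (q / 2) ≤ exp (q * (τ ^ 2 * (u ^ 2 + v ^ 2) / 2)) := by
      have : A ≤ exp (τ ^ 2 * (u ^ 2 + v ^ 2)) := by
        have := Real.add_one_le_exp (τ ^ 2 * (u ^ 2 + v ^ 2)); rw [hA]; linarith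
      calc A ^ (q / 2) ≤ (exp (τ ^ 2 * (u ^ 2 + v ^ 2))) ^ (q / 2) :=
            rpow_le_rpow (by linarith) this (by positivity)
        _ = _ := by rw [← Real.exp_mul]; congr 1; ring
    have g2 : (q / 2 * (2 * τ * v / A)) ^ 2 / 2 ≤ q * ((τ ^ 2 + 1 / 8) * v ^ 2 / 2) := by
      have e1 : (q / 2 * (2 * τ * v / A)) ^ 2 / 2 = q * (q * τ ^ 2 * v ^ 2 / 2) / A ^ 2 := by
        field_simp
      have e2 : q * τ ^ 2 = τ ^ 2 + 1 / 8 := by rw [hq]; field_simp
      rw [e1, e2]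
      apply div_le_self
      · positivity
      · exact one_le_pow₀ hApos
    calc A ^ (q / 2) * exp ((q / 2 * (2 * τ * v / A)) ^ 2 / 2)
        ≤ exp (q * (τ ^ 2 * (u ^ 2 + v ^ 2) / 2)) * exp (q * ((τ ^ 2 + 1 / 8) * v ^ 2 / 2)) := by
          apply mul_le_mul g1 (Real.exp_le_exp.2 g2) (exp_pos _).le (exp_pos _).le
      _ = exp (q * Λ) := by rw [← Real.exp_add]; congr 1; rw [hΛ]; ring
  -- the right side
  set S := ((1 + x) ^ p + (1 - x) ^ p) / 2 with hS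
  have hS1 : 1 + 4 * τ ^ 2 * x ^ 2 ≤ S := by
    have := half_sum_rpow_ge hp1 hx1
    rw [hS]; refine le_trans (le_of_eq ?_) this
    rw [hp]; ring
  have hSpos : 0 < S := by
    have := mul_nonneg hτ2.le (sq_nonneg x)
    linarith
  have hR : ((‖1 + b‖ ^ p + ‖1 - b‖ ^ p) / 2) = m ^ p * S := by
    rw [ha1, ha2, mul_rpow hm0.le (by have := (abs_le.1 hx1).1; linarith),
      mul_rpow hm0.le (by have := (abs_le.1 hx1).2; linarith), hS]; ring
  have hR2 : (m ^ p * S) ^ (q / p) = exp (q * (log m + 1 / p * log S)) := by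
    rw [Real.rpow_def_of_pos (by positivity), Real.log_mul (by positivity) hSpos.ne',
      Real.log_rpow hm0]
    congr 1; field_simp
  rw [hR, hR2]
  refine hL.trans (hL2.trans (Real.exp_le_exp.2 (mul_le_mul_of_nonneg_left ?_ hq0.le)))
  have r1 : 0.22 * v ^ 2 ≤ log m := by
    have l1 : log (1 + v ^ 2) ≤ 2 * log m := by
      have := Real.log_le_log (by positivity) hmge
      rwa [Real.log_pow] at this
    have l2 := log_ge_div (sq_nonneg v)
    have l3 : 0.44 * v ^ 2 ≤ v ^ 2 / (1 + v ^ 2) := by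
      rw [le_div_iff₀ (by positivity)]
      have hv2 : v ^ 2 ≤ 100 / 81 := by linarith [sq_nonneg u]
      have := mul_le_mul_of_nonneg_left hv2 (sq_nonneg v)
      have := sq_nonneg v
      linarith
    linarith
  have r2 : τ ^ 2 * u ^ 2 / 2 ≤ 1 / p * log S := by
    have l1 := Real.log_le_log (by positivity) hS1
    have l2 := log_ge_div (y := 4 * τ ^ 2 * x ^ 2) (by positivity)
    have l3 : τ ^ 2 * u ^ 2 / 2 * p ≤ 4 * τ ^ 2 * x ^ 2 / (1 + 4 * τ ^ 2 * x ^ 2) := by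
      rw [le_div_iff₀ (by positivity), ← k1]
      have hp2 : p ≤ 1.08 := by rw [hp]; linarith
      have hy2 : 1 + 4 * τ ^ 2 * x ^ 2 ≤ 1.04 := by
        have := mul_le_mul hτ3 hx2 (sq_nonneg x) (by norm_num : (0:ℝ) ≤ 1 / 100)
        linarith
      have hm4 : m ^ 4 ≤ 5 := by
        have : m ^ 2 * m ^ 2 ≤ (181 / 81) * (181 / 81) :=
          mul_le_mul hmle hmle (sq_nonneg m) (by norm_num)
        calc m ^ 4 = m ^ 2 * m ^ 2 := by ring
          _ ≤ _ := this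
          _ ≤ 5 := by norm_num
      have hz : 0 ≤ τ ^ 2 * x ^ 2 := by positivity
      calc τ ^ 2 * (m ^ 2 * x) ^ 2 / 2 * p * (1 + 4 * τ ^ 2 * x ^ 2)
          = (τ ^ 2 * x ^ 2) / 2 * (m ^ 4 * p * (1 + 4 * τ ^ 2 * x ^ 2)) := by ring
        _ ≤ (τ ^ 2 * x ^ 2) / 2 * (5 * 1.08 * 1.04) := by
            apply mul_le_mul_of_nonneg_left _ (by positivity)
            apply mul_le_mul _ hy2 (by positivity) (by norm_num)
            apply mul_le_mul hm4 hp2 hp0.le (by norm_num)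
        _ ≤ 4 * τ ^ 2 * x ^ 2 := by linarith
    rw [one_div, inv_mul_eq_div, le_div_iff₀ hp0]
    linarith
  rw [hΛ]
  have r3 := mul_le_mul_of_nonneg_right hτ3 (sq_nonneg v)
  have r4 := sq_nonneg v
  linarith

/-- two-point inequality for `T_{iτ}`. -/
theorem two_point {τ : ℝ} (h0 : 0 < τ) (h1 : τ ≤ 1 / 10) (a b : ℂ) :
    (‖a + Complex.I * τ * b‖ ^ (1 + 1 / (8 * τ ^ 2)) + ‖a - Complex.I * τ * b‖ ^ (1 + 1 / (8 * τ ^ 2))) / 2
      ≤ ((‖a + b‖ ^ (1 + 8 * τ ^ 2) + ‖a - b‖ ^ (1 + 8 * τ ^ 2)) / 2) ^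
        ((1 + 1 / (8 * τ ^ 2)) / (1 + 8 * τ ^ 2)) := by
  have hq0 : 0 < 1 + 1 / (8 * τ ^ 2) := by positivity
  have hp0 : 0 < 1 + 8 * τ ^ 2 := by positivity
  rcases le_or_gt ((10 / 9) * ‖a‖) ‖b‖ with hab | hab
  · -- large `b`
    have hz : ‖Complex.I * τ * b‖ = τ * ‖b‖ := by
      rw [norm_mul, norm_mul, Complex.norm_I, one_mul, Complex.norm_real, Real.norm_of_nonneg h0.le]
    have hb0 := norm_nonneg b
    have ha0 := norm_nonneg a
    have hsmall : τ * ‖b‖ ≤ 1 / 10 * ‖b‖ := mul_le_mul_of_nonneg_right h1 hb0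
    have c1 : ‖a + Complex.I * τ * b‖ ≤ ‖b‖ := by
      have := norm_add_le a (Complex.I * τ * b)
      rw [hz] at this; linarith
    have c2 : ‖a - Complex.I * τ * b‖ ≤ ‖b‖ := by
      have := norm_sub_le a (Complex.I * τ * b)
      rw [hz] at this; linarith
    have e1 := rpow_le_rpow (norm_nonneg _) c1 hq0.le
    have e2 := rpow_le_rpow (norm_nonneg _) c2 hq0.le
    have e3 : ‖b‖ ≤ (‖a + b‖ + ‖a - b‖) / 2 := by
      have := norm_sub_le (a + b) (a - b)
      have e : (a + b) - (a - b) = 2 * b := by ring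
      rw [e, norm_mul] at this
      simp at this
      linarith
    have e4 : ‖b‖ ^ (1 + 8 * τ ^ 2) ≤ (‖a + b‖ ^ (1 + 8 * τ ^ 2) + ‖a - b‖ ^ (1 + 8 * τ ^ 2)) / 2 := by
      have hp1 : 1 ≤ 1 + 8 * τ ^ 2 := by have := sq_nonneg τ; linarith
      have hc := (convexOn_rpow hp1).2 (Set.mem_Ici.2 (norm_nonneg (a + b)))
        (Set.mem_Ici.2 (norm_nonneg (a - b))) (by norm_num : (0:ℝ) ≤ 1 / 2)
        (by norm_num : (0:ℝ) ≤ 1 / 2) (by norm_num)
      simp only [smul_eq_mul] at hc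
      have h3 : ‖b‖ ^ (1 + 8 * τ ^ 2) ≤ (1 / 2 * ‖a + b‖ + 1 / 2 * ‖a - b‖) ^ (1 + 8 * τ ^ 2) :=
        rpow_le_rpow hb0 (by linarith) hp0.le
      linarith
    have e5 := rpow_le_rpow (by positivity) e4 (div_nonneg hq0.le hp0.le)
    rw [← Real.rpow_mul hb0, mul_div_cancel₀ _ hp0.ne'] at e5
    linarith
  · have ha : 0 < ‖a‖ := by
      by_contra hc
      have : ‖a‖ = 0 := le_antisymm (not_lt.1 hc) (norm_nonneg a)
      rw [this] at hab
      have := norm_nonneg b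
      linarith
    have ha' : a ≠ 0 := norm_pos_iff.1 ha
    have hb' : ‖b / a‖ ≤ 10 / 9 := by
      rw [norm_div, div_le_iff₀ ha]; linarith
    have key := two_point_norm h0 h1 (b / a) hb'
    have s1 : ‖a + Complex.I * τ * b‖ = ‖a‖ * ‖1 + Complex.I * τ * (b / a)‖ := by
      rw [← norm_mul]; congr 1; field_simp
    have s2 : ‖a - Complex.I * τ * b‖ = ‖a‖ * ‖1 - Complex.I * τ * (b / a)‖ := by
      rw [← norm_mul]; congr 1; field_simp
    have s3 : ‖a + b‖ = ‖a‖ * ‖1 + b / a‖ := by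
      rw [← norm_mul]; congr 1; field_simp
    have s4 : ‖a - b‖ = ‖a‖ * ‖1 - b / a‖ := by
      rw [← norm_mul]; congr 1; field_simp
    rw [s1, s2, s3, s4]
    rw [mul_rpow ha.le (norm_nonneg _), mul_rpow ha.le (norm_nonneg _),
      mul_rpow ha.le (norm_nonneg _), mul_rpow ha.le (norm_nonneg _)]
    rw [← mul_add, mul_div_assoc, ← mul_add, mul_div_assoc,
      mul_rpow (by positivity) (by positivity), ← Real.rpow_mul ha.le, mul_div_cancel₀ _ hp0.ne']
    exact mul_le_mul_of_nonneg_left key (by positivity)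

theorem sum_cons {M : Type*} [AddCommMonoid M] {N : ℕ} (F : (Fin (N + 1) → Bool) → M) :
    ∑ x, F x = ∑ x : Fin N → Bool, (F (Fin.cons true x) + F (Fin.cons false x)) := by
  rw [← Equiv.sum_comp (Fin.consEquiv (fun _ => Bool)) F, Fintype.sum_prod_type, Fintype.sum_bool,
    ← Finset.sum_add_distrib]
  rfl

/-- the noise operator with complex parameter -/
noncomputable def TT {N : ℕ} (z : ℂ) (g : (Fin N → Bool) → ℂ) (x : Fin N → Bool) : ℂ :=
  (∑ y, g y * ∏ i, (1 + z * ((sg (x i) : ℂ) * (sg (y i) : ℂ)))) / 2 ^ N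

theorem TT_cons {N : ℕ} (z : ℂ) (g : (Fin (N + 1) → Bool) → ℂ) (s : Bool) (x : Fin N → Bool) :
    TT z g (Fin.cons s x) =
      ((TT z (fun y => g (Fin.cons true y)) x + TT z (fun y => g (Fin.cons false y)) x) / 2) +
      (sg s : ℂ) * (z * ((TT z (fun y => g (Fin.cons true y)) x -
        TT z (fun y => g (Fin.cons false y)) x) / 2)) := by
  unfold TT
  rw [sum_cons]
  simp only [Fin.prod_univ_succ, Fin.cons_zero, Fin.cons_succ]
  have e1 : ∀ y : Fin N → Bool,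
      g (Fin.cons true y) * ((1 + z * ((sg s : ℂ) * (sg true : ℂ))) *
          ∏ i, (1 + z * ((sg (x i) : ℂ) * (sg (y i) : ℂ)))) +
        g (Fin.cons false y) * ((1 + z * ((sg s : ℂ) * (sg false : ℂ))) *
          ∏ i, (1 + z * ((sg (x i) : ℂ) * (sg (y i) : ℂ)))) =
      (1 + z * (sg s : ℂ)) * (g (Fin.cons true y) * ∏ i, (1 + z * ((sg (x i) : ℂ) * (sg (y i) : ℂ)))) +
      (1 - z * (sg s : ℂ)) * (g (Fin.cons false y) * ∏ i, (1 + z * ((sg (x i) : ℂ) * (sg (y i) : ℂ)))) := by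
    intro y
    simp only [sg, if_true, Bool.false_eq_true, if_false]
    push_cast
    ring
  rw [Finset.sum_congr rfl (fun y _ => e1 y), Finset.sum_add_distrib, ← Finset.mul_sum,
    ← Finset.mul_sum, pow_succ]
  field_simp
  ring

theorem tensor (z : ℂ) (p q : ℝ) (hp : 0 < p) (hpq : p ≤ q)
    (H : ∀ a b : ℂ, (‖a + z * b‖ ^ q + ‖a - z * b‖ ^ q) / 2 ≤
      ((‖a + b‖ ^ p + ‖a - b‖ ^ p) / 2) ^ (q / p)) :
    ∀ (N : ℕ) (g : (Fin N → Bool) → ℂ),
      (∑ x, ‖TT z g x‖ ^ q) / 2 ^ N ≤ ((∑ x, ‖g x‖ ^ p) / 2 ^ N) ^ (q / p) := by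
  have hq : 0 < q := lt_of_lt_of_le hp hpq
  have hr : 1 ≤ q / p := (one_le_div hp).2 hpq
  have hr0 : 0 < q / p := by positivity
  intro N
  induction N with
  | zero =>
    intro g
    simp only [TT, Finset.univ_unique, Finset.sum_singleton, Finset.univ_eq_empty,
      Finset.prod_empty, pow_zero, div_one, mul_one]
    rw [← Real.rpow_mul (norm_nonneg _), mul_div_cancel₀ _ hp.ne']
  | succ N ih =>
    intro g
    set A : (Fin N → Bool) → ℂ := TT z (fun y => g (Fin.cons true y)) with hA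
    set B : (Fin N → Bool) → ℂ := TT z (fun y => g (Fin.cons false y)) with hB
    have ihA := ih (fun y => g (Fin.cons true y))
    have ihB := ih (fun y => g (Fin.cons false y))
    rw [← hA] at ihA
    rw [← hB] at ihB
    have h2N : (0:ℝ) < 2 ^ N := by positivity
    -- pointwise
    have pt : ∀ x : Fin N → Bool, ‖TT z g (Fin.cons true x)‖ ^ q + ‖TT z g (Fin.cons false x)‖ ^ q ≤
        2 * ((‖A x‖ ^ p / 2 + ‖B x‖ ^ p / 2)) ^ (q / p) := by
      intro x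
      have h := H ((A x + B x) / 2) ((A x - B x) / 2)
      rw [TT_cons, TT_cons, ← hA, ← hB]
      simp only [sg, if_true, Bool.false_eq_true, if_false]
      have e1 : (A x + B x) / 2 + (A x - B x) / 2 = A x := by ring
      have e2 : (A x + B x) / 2 - (A x - B x) / 2 = B x := by ring
      rw [e1, e2] at h
      have e3 : (A x + B x) / 2 + ((1:ℝ):ℂ) * (z * ((A x - B x) / 2)) =
        (A x + B x) / 2 + z * ((A x - B x) / 2) := by push_cast; ring
      have e4 : (A x + B x) / 2 + ((-1:ℝ):ℂ) * (z * ((A x - B x) / 2)) =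
        (A x + B x) / 2 - z * ((A x - B x) / 2) := by push_cast; ring
      rw [e3, e4, ← add_div]
      linarith
    have hsum : (∑ x, ‖TT z g x‖ ^ q) / 2 ^ (N + 1) ≤
        (∑ x : Fin N → Bool, (‖A x‖ ^ p / 2 + ‖B x‖ ^ p / 2) ^ (q / p)) / 2 ^ N := by
      rw [sum_cons, pow_succ, div_le_div_iff₀ (by positivity) h2N]
      calc (∑ x : Fin N → Bool, (‖TT z g (Fin.cons true x)‖ ^ q + ‖TT z g (Fin.cons false x)‖ ^ q)) * 2 ^ N
          ≤ (∑ x : Fin N → Bool, 2 * ((‖A x‖ ^ p / 2 + ‖B x‖ ^ p / 2)) ^ (q / p)) * 2 ^ N :=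
            mul_le_mul_of_nonneg_right (Finset.sum_le_sum (fun x _ => pt x)) h2N.le
        _ = _ := by rw [← Finset.mul_sum]; ring
    refine hsum.trans ?_
    -- Minkowski
    have mink := Real.Lp_add_le_of_nonneg (s := (Finset.univ : Finset (Fin N → Bool)))
      (f := fun x => ‖A x‖ ^ p / 2) (g := fun x => ‖B x‖ ^ p / 2) (p := q / p) hr
      (fun x _ => by positivity) (fun x _ => by positivity)
    have conv : ∀ C : (Fin N → Bool) → ℂ, ∀ g' : (Fin N → Bool) → ℂ,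
        (∑ x, ‖C x‖ ^ q) / 2 ^ N ≤ ((∑ x, ‖g' x‖ ^ p) / 2 ^ N) ^ (q / p) →
        (∑ x, (‖C x‖ ^ p / 2) ^ (q / p)) ^ (1 / (q / p)) ≤
          (2 ^ N : ℝ) ^ (1 / (q / p)) * ((∑ x, ‖g' x‖ ^ p) / 2 ^ N / 2) := by
      intro C g' hC
      have e1 : ∀ x, (‖C x‖ ^ p / 2) ^ (q / p) = ‖C x‖ ^ q / 2 ^ (q / p) := by
        intro x
        rw [Real.div_rpow (by positivity) (by norm_num), ← Real.rpow_mul (norm_nonneg _),
          mul_div_cancel₀ _ hp.ne']
      rw [Finset.sum_congr rfl (fun x _ => e1 x), ← Finset.sum_div]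
      have e2 : (∑ x, ‖C x‖ ^ q) / 2 ^ (q / p) ≤
          2 ^ N * ((((∑ x, ‖g' x‖ ^ p) / 2 ^ N) / 2) ^ (q / p)) := by
        rw [Real.div_rpow (by positivity) (by norm_num : (0:ℝ) ≤ 2), ← mul_div_assoc]
        apply div_le_div_of_nonneg_right _ (by positivity)
        rw [div_le_iff₀ h2N] at hC
        linarith
      calc ((∑ x, ‖C x‖ ^ q) / 2 ^ (q / p)) ^ (1 / (q / p))
          ≤ (2 ^ N * ((((∑ x, ‖g' x‖ ^ p) / 2 ^ N) / 2) ^ (q / p))) ^ (1 / (q / p)) :=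
            rpow_le_rpow (by positivity) e2 (by positivity)
        _ = _ := by
          rw [mul_rpow (by positivity) (by positivity), ← Real.rpow_mul (by positivity),
            mul_one_div_cancel hr0.ne', rpow_one]
    have m1 := conv A _ ihA
    have m2 := conv B _ ihB
    have tot : (∑ x : Fin N → Bool, (‖A x‖ ^ p / 2 + ‖B x‖ ^ p / 2) ^ (q / p)) ^ (1 / (q / p)) ≤
        (2 ^ N : ℝ) ^ (1 / (q / p)) * ((∑ x, ‖g x‖ ^ p) / 2 ^ (N + 1)) := by
      refine mink.trans ((add_le_add m1 m2).trans (le_of_eq ?_))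
      rw [sum_cons, ← mul_add, Finset.sum_add_distrib, pow_succ]
      congr 1
      field_simp
    have fin := rpow_le_rpow (by positivity) tot hr0.le
    rw [← Real.rpow_mul (by positivity), one_div_mul_cancel hr0.ne', rpow_one,
      mul_rpow (by positivity) (by positivity), ← Real.rpow_mul (by positivity),
      one_div_mul_cancel hr0.ne', rpow_one] at fin
    rw [div_le_iff₀ h2N]
    linarith

theorem bilin {N : ℕ} (z : ℂ) {p q D : ℝ} (hpq : p.HolderConjugate q) (hple : p ≤ q)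
    (H : ∀ a b : ℂ, (‖a + z * b‖ ^ q + ‖a - z * b‖ ^ q) / 2 ≤
      ((‖a + b‖ ^ p + ‖a - b‖ ^ p) / 2) ^ (q / p))
    (P P' : (Fin N → Bool) → ℝ) (hP : IsPr univ P) (hP' : IsPr univ P')
    (hD : ∀ y, 2 ^ N * P y ≤ Real.exp D) (hD' : ∀ y, 2 ^ N * P' y ≤ Real.exp D) :
    ‖∑ y, ∑ w, ((P y : ℂ) * (P' w : ℂ)) * ∏ i, (1 + z * ((sg (y i) : ℂ) * (sg (w i) : ℂ)))‖
      ≤ Real.exp (2 * D * (p - 1) / p) := by
  have hp1 : 1 < p := hpq.lt
  have hp0 : 0 < p := hpq.pos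
  have hq0 : 0 < q := hpq.symm.pos
  have h2N : (0:ℝ) < 2 ^ N := by positivity
  set g : (Fin N → Bool) → ℂ := fun w => ((2 ^ N * P' w : ℝ) : ℂ) with hg
  have hrw : ∀ y, ∑ w, ((P y : ℂ) * (P' w : ℂ)) *
      ∏ i, (1 + z * ((sg (y i) : ℂ) * (sg (w i) : ℂ))) = (P y : ℂ) * TT z g y := by
    intro y
    have h2 : (2 ^ N : ℂ) ≠ 0 := pow_ne_zero _ two_ne_zero
    unfold TT
    rw [hg, Finset.sum_div, Finset.mul_sum]
    apply Finset.sum_congr rfl
    intro w _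
    push_cast
    field_simp
  rw [Finset.sum_congr rfl (fun y _ => hrw y)]
  have h1 : ‖∑ y, (P y : ℂ) * TT z g y‖ ≤ ∑ y, P y * ‖TT z g y‖ := by
    refine (norm_sum_le _ _).trans (le_of_eq ?_)
    apply Finset.sum_congr rfl
    intro y _
    rw [norm_mul, Complex.norm_real, Real.norm_of_nonneg (hP.nonneg y)]
  have h2 := Real.inner_le_Lp_mul_Lq univ P (fun y => ‖TT z g y‖) hpq
  have h3 : ∑ y, |P y| ^ p ≤ (Real.exp D / 2 ^ N) ^ (p - 1) := by
    have : ∀ y, |P y| ^ p ≤ P y * (Real.exp D / 2 ^ N) ^ (p - 1) := by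
      intro y
      rw [abs_of_nonneg (hP.nonneg y)]
      rcases (hP.nonneg y).eq_or_lt with h | h
      · rw [← h, zero_rpow hp0.ne', zero_mul]
      · rw [show p = 1 + (p - 1) by ring, rpow_add h, rpow_one, add_sub_cancel_left]
        apply mul_le_mul_of_nonneg_left _ h.le
        apply rpow_le_rpow h.le _ (by linarith)
        rw [le_div_iff₀ h2N, mul_comm]
        exact hD y
    calc ∑ y, |P y| ^ p ≤ ∑ y, P y * (Real.exp D / 2 ^ N) ^ (p - 1) :=
          Finset.sum_le_sum (fun y _ => this y)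
      _ = _ := by rw [← Finset.sum_mul, hP.sum_eq, one_mul]
  have h4 : (∑ y, ‖g y‖ ^ p) / 2 ^ N ≤ Real.exp D ^ (p - 1) := by
    have : ∀ y, ‖g y‖ ^ p ≤ 2 ^ N * (P' y * Real.exp D ^ (p - 1)) := by
      intro y
      rw [hg, Complex.norm_real, Real.norm_of_nonneg (mul_nonneg h2N.le (hP'.nonneg y))]
      rcases (hP'.nonneg y).eq_or_lt with h | h
      · rw [← h, mul_zero, zero_rpow hp0.ne', zero_mul, mul_zero]
      · have hh : 0 < 2 ^ N * P' y := by positivity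
        rw [show p = 1 + (p - 1) by ring, rpow_add hh, rpow_one, add_sub_cancel_left, ← mul_assoc]
        apply mul_le_mul_of_nonneg_left _ hh.le
        exact rpow_le_rpow hh.le (hD' y) (by linarith)
    rw [div_le_iff₀ h2N]
    calc ∑ y, ‖g y‖ ^ p ≤ ∑ y, 2 ^ N * (P' y * Real.exp D ^ (p - 1)) :=
          Finset.sum_le_sum (fun y _ => this y)
      _ = _ := by rw [← Finset.mul_sum, ← Finset.sum_mul, hP'.sum_eq, one_mul, mul_comm]
  have h5 := tensor z p q hp0 hple H N g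
  have h6 : (∑ y, ‖TT z g y‖ ^ q) ≤ 2 ^ N * (Real.exp D ^ (p - 1)) ^ (q / p) := by
    rw [div_le_iff₀ h2N] at h5
    refine h5.trans ?_
    rw [mul_comm]
    apply mul_le_mul_of_nonneg_left _ h2N.le
    exact rpow_le_rpow (by positivity) h4 (by positivity)
  have hpq1 : (p - 1) / p = 1 / q := by
    have := hpq.inv_add_inv_eq_one
    field_simp at this ⊢
    linarith
  have hpq2 : (p - 1) * (q / p) = 1 := by
    have := hpq1
    field_simp at this ⊢
    linarith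
  calc ‖∑ y, (P y : ℂ) * TT z g y‖ ≤ ∑ y, P y * ‖TT z g y‖ := h1
    _ ≤ (∑ y, |P y| ^ p) ^ (1 / p) * (∑ y, |‖TT z g y‖| ^ q) ^ (1 / q) := h2
    _ ≤ ((Real.exp D / 2 ^ N) ^ (p - 1)) ^ (1 / p) *
        (2 ^ N * (Real.exp D ^ (p - 1)) ^ (q / p)) ^ (1 / q) := by
        apply mul_le_mul
        · exact rpow_le_rpow (Finset.sum_nonneg (fun y _ => by positivity)) h3 (by positivity)
        · apply rpow_le_rpow (Finset.sum_nonneg (fun y _ => by positivity)) _ (by positivity)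
          simpa [abs_of_nonneg (norm_nonneg _)] using h6
        · positivity
        · positivity
    _ = Real.exp (2 * D * (p - 1) / p) := by
        have e1 : ((Real.exp D / 2 ^ N) ^ (p - 1)) ^ (1 / p) = (Real.exp D / 2 ^ N) ^ (1 / q) := by
          rw [← Real.rpow_mul (by positivity)]; congr 1; rw [← hpq1]; ring
        have e2 : (2 ^ N * (Real.exp D ^ (p - 1)) ^ (q / p)) ^ (1 / q) =
            (2 ^ N : ℝ) ^ (1 / q) * Real.exp D ^ (1 / q) := by
          rw [← Real.rpow_mul (by positivity), hpq2, rpow_one, mul_rpow (by positivity) (by positivity)]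
        rw [e1, e2, Real.div_rpow (by positivity) (by positivity)]
        have h2ne : (2 ^ N : ℝ) ^ (1 / q) ≠ 0 := by positivity
        rw [show Real.exp D ^ (1 / q) / (2 ^ N : ℝ) ^ (1 / q) *
          ((2 ^ N : ℝ) ^ (1 / q) * Real.exp D ^ (1 / q)) = Real.exp D ^ (1 / q) * Real.exp D ^ (1 / q) by
            field_simp]
        rw [← Real.exp_mul, ← Real.exp_add, ← hpq1]
        congr 1
        ring

theorem pr_norm {N : ℕ} (P : (Fin N → Bool) → ℝ) (hP : IsPr univ P) :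
    ∑ y, (P y : ℂ) = 1 := by
  rw [← Complex.ofReal_sum, hP.sum_eq, Complex.ofReal_one]

theorem beck_pos (N : ℕ) (τ D : ℝ) (hD0 : 0 ≤ D) (h0 : 0 < τ) (h1 : τ ≤ 1 / 10)
    (P P' : (Fin N → Bool) → ℝ) (hP : IsPr univ P) (hP' : IsPr univ P')
    (hD : ∀ y, 2 ^ N * P y ≤ Real.exp D) (hD' : ∀ y, 2 ^ N * P' y ≤ Real.exp D) :
    ‖∑ y, ∑ w, ((P y : ℂ) * (P' w : ℂ)) *
      ∏ i, (1 + Complex.I * (τ : ℂ) * ((sg (y i) : ℂ) * (sg (w i) : ℂ)))‖
      ≤ Real.exp (16 * τ ^ 2 * D) := by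
  have hτ2 : 0 < τ ^ 2 := by positivity
  have hτ3 : τ ^ 2 ≤ 1 / 100 := by
    calc τ ^ 2 ≤ (1 / 10) ^ 2 := pow_le_pow_left₀ h0.le h1 2
      _ = 1 / 100 := by norm_num
  have hconj : (1 + 8 * τ ^ 2).HolderConjugate (1 + 1 / (8 * τ ^ 2)) := by
    rw [Real.holderConjugate_iff]
    refine ⟨by linarith, ?_⟩
    field_simp
    ring
  have hle : 1 + 8 * τ ^ 2 ≤ 1 + 1 / (8 * τ ^ 2) := by
    have : 8 * τ ^ 2 ≤ 1 / (8 * τ ^ 2) := by
      rw [le_div_iff₀ (by positivity)]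
      have : τ ^ 2 * τ ^ 2 ≤ 1 / 100 * (1 / 100) := mul_le_mul hτ3 hτ3 hτ2.le (by norm_num)
      linarith
    linarith
  refine (bilin (Complex.I * τ) hconj hle (two_point h0 h1) P P' hP hP' hD hD').trans ?_
  apply Real.exp_le_exp.2
  rw [div_le_iff₀ (by positivity)]
  have : 0 ≤ D * τ ^ 2 * (8 * τ ^ 2) := by positivity
  linarith

/-- complex conjugation symmetry: the bound for `-τ`. -/
theorem norm_neg_param {N : ℕ} (τ : ℝ) (P P' : (Fin N → Bool) → ℝ) :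
    ‖∑ y, ∑ w, ((P y : ℂ) * (P' w : ℂ)) *
      ∏ i, (1 + Complex.I * ((-τ : ℝ) : ℂ) * ((sg (y i) : ℂ) * (sg (w i) : ℂ)))‖ =
    ‖∑ y, ∑ w, ((P y : ℂ) * (P' w : ℂ)) *
      ∏ i, (1 + Complex.I * (τ : ℂ) * ((sg (y i) : ℂ) * (sg (w i) : ℂ)))‖ := by
  rw [← Complex.norm_conj (∑ y, ∑ w, ((P y : ℂ) * (P' w : ℂ)) *
      ∏ i, (1 + Complex.I * (τ : ℂ) * ((sg (y i) : ℂ) * (sg (w i) : ℂ))))]
  congr 1
  simp only [map_sum, map_mul, map_prod, map_add, map_one, Complex.conj_ofReal, Complex.conj_I]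
  apply Finset.sum_congr rfl; intro y _
  apply Finset.sum_congr rfl; intro w _
  congr 1
  apply Finset.prod_congr rfl; intro i _
  push_cast
  ring

end Pool.Agent.MP3884c4.Bk

namespace Pool.Agent.MP3884c4

open Bk

theorem beck : BeckStmt := by
  intro N τ D hD0 hτ P P' hP hP' hD hD'
  rcases lt_trichotomy τ 0 with h | h | h
  · have := beck_pos N (-τ) D hD0 (by linarith) (by rw [abs_of_neg h] at hτ; exact hτ) P P' hP hP' hD hD'
    rw [norm_neg_param] at this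
    simpa using this
  · subst h
    simp only [Complex.ofReal_zero, mul_zero, zero_mul, add_zero, Finset.prod_const_one, mul_one]
    have : ∑ y, ∑ w, (P y : ℂ) * (P' w : ℂ) = 1 := by
      rw [Finset.sum_congr rfl (fun y _ => (Finset.mul_sum _ _ _).symm), ← Finset.sum_mul,
        pr_norm P hP, pr_norm P' hP', one_mul]
    rw [this]
    simp
  · exact beck_pos N τ D hD0 h (by rw [abs_of_pos h] at hτ; exact hτ) P P' hP hP' hD hD'

end Pool.Agent.MP3884c4
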