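import Pool.Agent.Lib.MP_3884c4_co.Stmts

/-!
Module W of MP_3884c4_co: the blow-up bound (exponential moment of the Hamming distance to a set).
-/

set_option autoImplicit false

noncomputable section

namespace Pool.Agent.MP3884c4

open Finset

theorem blow_cosh (t : ℝ) :
    4 * Real.cosh (t / 2) ^ 2 = 2 + Real.exp t + Real.exp (-t) := by
  have h1 : Real.exp t = Real.exp (t / 2) * Real.exp (t / 2) := by
    rw [← Real.exp_add]; ring_nf
  have h2 : Real.exp (-t) = Real.exp (-(t / 2)) * Real.exp (-(t / 2)) := by
    rw [← Real.exp_add]; ring_nf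
  have h3 : Real.exp (t / 2) * Real.exp (-(t / 2)) = 1 := by
    rw [← Real.exp_add]; simp
  rw [Real.cosh_eq, h1, h2]
  nlinarith

/-- first scalar case -/
theorem blow_scalar1 (t a b : ℝ) (ha : 0 < a) (hb : 0 ≤ b) (h : b ≤ a * Real.exp (-t)) :
    1 / a + Real.exp t / a ≤ 4 * Real.cosh (t / 2) ^ 2 / (a + b) := by
  have h3 : Real.exp t * Real.exp (-t) = 1 := by
    rw [← Real.exp_add]; simp
  have hpos := Real.exp_pos t
  rw [blow_cosh, ← add_div, div_le_div_iff₀ ha (by linarith)]
  nlinarith [mul_le_mul_of_nonneg_left h hpos.le]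

/-- second scalar case -/
theorem blow_scalar2 (t a b : ℝ) (ha : 0 < a) (hb : 0 < b) (hba : b ≤ a)
    (h : a * Real.exp (-t) ≤ b) :
    1 / a + 1 / b ≤ 4 * Real.cosh (t / 2) ^ 2 / (a + b) := by
  have h3 : Real.exp t * Real.exp (-t) = 1 := by
    rw [← Real.exp_add]; simp
  have hpos := Real.exp_pos t
  have hneg := Real.exp_pos (-t)
  have h4 : a ≤ b * Real.exp t := by
    calc a = a * Real.exp (-t) * Real.exp t := by rw [mul_assoc, mul_comm (Real.exp (-t)), h3, mul_one]
      _ ≤ b * Real.exp t := mul_le_mul_of_nonneg_right h hpos.le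
  have h5 : b * Real.exp (-t) ≤ a := by
    calc b * Real.exp (-t) ≤ a * Real.exp (-t) := mul_le_mul_of_nonneg_right hba hneg.le
      _ ≤ b := h
      _ ≤ a := hba
  have key : a * a + b * b ≤ a * b * (Real.exp t + Real.exp (-t)) := by
    have := mul_nonneg (sub_nonneg.2 h4) (sub_nonneg.2 h5)
    nlinarith [this, h3, mul_pos hb hb]
  rw [blow_cosh, div_add_div _ _ ha.ne' hb.ne', div_le_div_iff₀ (mul_pos ha hb) (by linarith)]
  nlinarith

theorem hammingDist_cons {m : ℕ} (b c : Bool) (y z : Fin m → Bool) :
    hammingDist (Fin.cons b y : Fin (m + 1) → Bool) (Fin.cons c z)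
      = (if b ≠ c then 1 else 0) + hammingDist y z := by
  unfold hammingDist
  simp only [Finset.card_filter, Fin.sum_univ_succ, Fin.cons_zero, Fin.cons_succ]

theorem sum_cube_succ {m : ℕ} (f : (Fin (m + 1) → Bool) → ℝ) :
    ∑ x, f x = ∑ b : Bool, ∑ y : Fin m → Bool, f (Fin.cons b y) := by
  rw [← Fintype.sum_prod_type']
  exact (Fintype.sum_equiv (Fin.consEquiv (fun _ => Bool)) _ _ (fun x => rfl)).symm

/-- section of a set by its first coordinate -/
def bsec {m : ℕ} (W : Finset (Fin (m + 1) → Bool)) (b : Bool) : Finset (Fin m → Bool) :=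
  univ.filter (fun y => (Fin.cons b y : Fin (m + 1) → Bool) ∈ W)

theorem card_bsec {m : ℕ} (W : Finset (Fin (m + 1) → Bool)) (c : Bool) :
    (W.card : ℝ) = ((bsec W c).card : ℝ) + ((bsec W (!c)).card : ℝ) := by
  have h : (W.card : ℝ) = ∑ x, (if x ∈ W then (1 : ℝ) else 0) := by
    simp
  rw [h, sum_cube_succ]
  have h2 : ∀ b : Bool, ∑ y : Fin m → Bool, (if (Fin.cons b y : Fin (m + 1) → Bool) ∈ W then (1 : ℝ) else 0)
      = ((bsec W b).card : ℝ) := by
    intro b
    unfold bsec
    rw [Finset.card_filter]
    push_cast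
    rfl
  simp only [h2, Fintype.sum_bool]
  cases c <;> simp [add_comm]

theorem blow_ind (t : ℝ) (ht : 0 ≤ t) :
    ∀ (m : ℕ) (W : Finset (Fin m → Bool)), W.Nonempty →
      ∃ w : (Fin m → Bool) → (Fin m → Bool), (∀ x, w x ∈ W) ∧
        ∑ x, Real.exp (t * (hammingDist x (w x) : ℝ))
          ≤ Real.cosh (t / 2) ^ (2 * m) * ((2 : ℝ) ^ m) ^ 2 / (W.card : ℝ) := by
  intro m
  induction m with
  | zero =>
    intro W hW
    obtain ⟨x0, hx0⟩ := hW
    refine ⟨fun _ => x0, fun _ => hx0, ?_⟩
    have hc : W.card = 1 := by
      apply le_antisymm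
      · calc W.card ≤ (univ : Finset (Fin 0 → Bool)).card := Finset.card_le_card (Finset.subset_univ _)
          _ = 1 := by simp
      · exact Finset.card_pos.2 ⟨x0, hx0⟩
    have hd : ∀ x : Fin 0 → Bool, hammingDist x x0 = 0 := by
      intro x
      rw [hammingDist_eq_zero]
      exact Subsingleton.elim _ _
    simp [hc, hd]
  | succ m ih =>
    intro W hW
    -- the larger section
    obtain ⟨c, hc⟩ : ∃ c : Bool, (bsec W (!c)).card ≤ (bsec W c).card := by
      rcases le_total (bsec W true).card (bsec W false).card with h | h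
      · exact ⟨false, h⟩
      · exact ⟨true, h⟩
    set a : ℝ := ((bsec W c).card : ℝ) with ha
    set b : ℝ := ((bsec W (!c)).card : ℝ) with hb
    have hsum : (W.card : ℝ) = a + b := card_bsec W c
    have hba : b ≤ a := by rw [ha, hb]; exact_mod_cast hc
    have hb0 : 0 ≤ b := Nat.cast_nonneg _
    have hWpos : (0 : ℝ) < (W.card : ℝ) := by exact_mod_cast Finset.card_pos.2 hW
    have ha0 : 0 < a := by
      by_contra hneg
      linarith
    have hcn : (bsec W c).Nonempty := by
      rw [← Finset.card_pos]
      rw [ha] at ha0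
      exact_mod_cast ha0
    set C : ℝ := Real.cosh (t / 2) ^ (2 * m) * ((2 : ℝ) ^ m) ^ 2 with hC
    have hC0 : 0 < C := by
      have := Real.cosh_pos (t / 2)
      positivity
    have hCs : Real.cosh (t / 2) ^ (2 * (m + 1)) * ((2 : ℝ) ^ (m + 1)) ^ 2
        = C * (4 * Real.cosh (t / 2) ^ 2) := by
      rw [hC]; ring
    obtain ⟨wc, hwc, hSc⟩ := ih (bsec W c) hcn
    rw [hsum, hCs]
    rcases le_total b (a * Real.exp (-t)) with hcase | hcase
    · -- use only the larger section
      refine ⟨fun x => Fin.cons c (wc (Fin.tail x)), ?_, ?_⟩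
      · intro x
        have := hwc (Fin.tail x)
        unfold bsec at this
        simpa using this
      · rw [sum_cube_succ]
        simp only [Fin.tail_cons, hammingDist_cons]
        have hterm : ∀ bb : Bool, ∑ y : Fin m → Bool,
            Real.exp (t * (((if bb ≠ c then 1 else 0) + hammingDist y (wc y) : ℕ) : ℝ))
              = (if bb ≠ c then Real.exp t else 1) * ∑ y : Fin m → Bool,
                Real.exp (t * (hammingDist y (wc y) : ℝ)) := by
          intro bb
          rw [Finset.mul_sum]
          refine Finset.sum_congr rfl (fun y _ => ?_)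
          by_cases h : bb = c
          · simp [h]
          · simp only [h, ne_eq, not_false_eq_true, if_true]
            rw [← Real.exp_add]
            push_cast
            ring_nf
        simp only [hterm]
        rw [← Finset.sum_mul]
        have hs2 : ∑ bb : Bool, (if bb ≠ c then Real.exp t else 1) = 1 + Real.exp t := by
          cases c <;> simp [add_comm]
        rw [hs2]
        have h1 : (1 + Real.exp t) * ∑ y : Fin m → Bool, Real.exp (t * (hammingDist y (wc y) : ℝ))
            ≤ (1 + Real.exp t) * (C / a) := by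
          apply mul_le_mul_of_nonneg_left hSc
          positivity
        have h2 := blow_scalar1 t a b ha0 hb0 hcase
        calc (1 + Real.exp t) * ∑ y : Fin m → Bool, Real.exp (t * (hammingDist y (wc y) : ℝ))
            ≤ (1 + Real.exp t) * (C / a) := h1
          _ = C * (1 / a + Real.exp t / a) := by ring
          _ ≤ C * (4 * Real.cosh (t / 2) ^ 2 / (a + b)) := by
              apply mul_le_mul_of_nonneg_left h2 hC0.le
          _ = C * (4 * Real.cosh (t / 2) ^ 2) / (a + b) := by ring
    · -- use both sections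
      have hb1 : 0 < b := lt_of_lt_of_le (by positivity) hcase
      have hbn : (bsec W (!c)).Nonempty := by
        rw [← Finset.card_pos]
        have hb1' := hb1
        rw [hb] at hb1'
        exact_mod_cast hb1'
      obtain ⟨wb, hwb, hSb⟩ := ih (bsec W (!c)) hbn
      refine ⟨fun x => Fin.cons (x 0) (if x 0 = c then wc (Fin.tail x) else wb (Fin.tail x)), ?_, ?_⟩
      · intro x
        show (Fin.cons (x 0) (if x 0 = c then wc (Fin.tail x) else wb (Fin.tail x)) :
          Fin (m + 1) → Bool) ∈ W
        by_cases h : x 0 = c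
        · have := hwc (Fin.tail x)
          unfold bsec at this
          simp only [h, if_true]
          simpa using this
        · have h' : x 0 = !c := by
            revert h
            cases x 0 <;> cases c <;> simp
          have := hwb (Fin.tail x)
          unfold bsec at this
          have hne : (!c) ≠ c := by cases c <;> simp
          rw [h']
          simp only [hne, if_false]
          simpa using this
      · rw [sum_cube_succ]
        simp only [Fin.tail_cons, Fin.cons_zero, hammingDist_cons, ne_eq, not_true_eq_false,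
          if_false, zero_add]
        have hs2 : ∑ bb : Bool, ∑ y : Fin m → Bool,
            Real.exp (t * (hammingDist y (if bb = c then wc y else wb y) : ℝ))
            = ∑ y : Fin m → Bool, Real.exp (t * (hammingDist y (wc y) : ℝ))
              + ∑ y : Fin m → Bool, Real.exp (t * (hammingDist y (wb y) : ℝ)) := by
          cases c <;> simp [add_comm]
        rw [hs2]
        have h2 := blow_scalar2 t a b ha0 hb1 hba hcase
        calc ∑ y : Fin m → Bool, Real.exp (t * (hammingDist y (wc y) : ℝ))
              + ∑ y : Fin m → Bool, Real.exp (t * (hammingDist y (wb y) : ℝ))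
            ≤ C / a + C / b := add_le_add hSc hSb
          _ = C * (1 / a + 1 / b) := by ring
          _ ≤ C * (4 * Real.cosh (t / 2) ^ 2 / (a + b)) := by
              apply mul_le_mul_of_nonneg_left h2 hC0.le
          _ = C * (4 * Real.cosh (t / 2) ^ 2) / (a + b) := by ring

/-- blow-up module -/
theorem blow : BlowStmt := by
  intro m W hW
  have hmin : ∀ x : Fin m → Bool, ∃ y ∈ W, ∀ z ∈ W, hammingDist x y ≤ hammingDist x z :=
    fun x => Finset.exists_min_image W (fun y => hammingDist x y) hW
  choose w hwW hwmin using hmin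
  refine ⟨w, hwW, ?_⟩
  intro t ht
  obtain ⟨w', hw', hS⟩ := blow_ind t ht m W hW
  refine le_trans (Finset.sum_le_sum (fun x _ => ?_)) hS
  apply Real.exp_le_exp.2
  apply mul_le_mul_of_nonneg_left _ ht
  exact_mod_cast hwmin x (w' x) (hw' x)

end Pool.Agent.MP3884c4
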