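import Pool.Agent.Lib.MP_3884c4_co.Defs

/-!
Statements of the modules of the proof of the negation of MP_3884c4_co, as propositions.
Each module proves one of them; the glue uses them as hypotheses.
-/

set_option autoImplicit false

noncomputable section

namespace Pool.Agent.MP3884c4

open Finset

/-- Beckner with slack, for densities. -/
def BeckStmt : Prop :=
  ∀ (N : ℕ) (τ D : ℝ), 0 ≤ D → |τ| ≤ 1 / 10 →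
    ∀ (p p' : (Fin N → Bool) → ℝ), IsPr univ p → IsPr univ p' →
      (∀ y, 2 ^ N * p y ≤ Real.exp D) → (∀ y, 2 ^ N * p' y ≤ Real.exp D) →
      ‖∑ y, ∑ z, ((p y : ℂ) * (p' z : ℂ)) *
        ∏ i, (1 + Complex.I * (τ : ℂ) * ((sg (y i) : ℂ) * (sg (z i) : ℂ)))‖
        ≤ Real.exp (16 * τ ^ 2 * D)

/-- the `L²` bound. -/
def L2Stmt : Prop :=
  ∀ (N : ℕ) (τ D : ℝ), 0 ≤ D → |τ| ≤ 1 →
    ∀ (p p' : (Fin N → Bool) → ℝ), IsPr univ p → IsPr univ p' →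
      (∀ y, 2 ^ N * p y ≤ Real.exp D) → (∀ y, 2 ^ N * p' y ≤ Real.exp D) →
      ‖∑ y, ∑ z, ((p y : ℂ) * (p' z : ℂ)) *
        ∏ i, (1 + Complex.I * (τ : ℂ) * ((sg (y i) : ℂ) * (sg (z i) : ℂ)))‖
        ≤ Real.exp D

/-- exact edge lemma. -/
def EdgeStmt : Prop :=
  ∃ d8 : ℝ, 0 < d8 ∧ ∃ c : ℝ, 0 < c ∧ ∃ N0 : ℕ, ∀ N : ℕ, N0 ≤ N →
    ∀ (q0 X : ℤ) (p p' : (Fin N → Bool) → ℝ), IsPr univ p → IsPr univ p' →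
      (∀ y, 2 ^ N * p y ≤ Real.exp (d8 * N)) → (∀ y, 2 ^ N * p' y ≤ Real.exp (d8 * N)) →
      (∀ y z, p y ≠ 0 → p' z ≠ 0 → (4 : ℤ) ∣ q0 + ip y z - X) →
      (∑ y, ∑ z, p y * p' z * (((q0 + ip y z - X : ℤ) : ℝ)) ^ 2 ≤ 21 / 10 * N) →
      c / Real.sqrt N ≤ ∑ y, ∑ z, (if q0 + ip y z = X then p y * p' z else 0)

/-- pair lemma. -/
def PLStmt : Prop :=
  ∃ d0 : ℝ, 0 < d0 ∧ ∀ z2 : ℝ, 0 < z2 → z2 ≤ d0 → ∃ z1 : ℝ, 0 < z1 ∧ ∃ N0 : ℕ, ∀ N : ℕ, N0 ≤ N →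
    ∀ (q0 X : ℤ) (R R' : Finset (Fin N)) (G G' h h' : Finset (Fin N → Bool))
      (p p' : (Fin N → Bool) → ℝ),
      IsMin R G p → IsMin R' G' p' → Psi R p ≤ d0 * N → Psi R' p' ≤ d0 * N →
      (R.card : ℝ) ≤ d0 * N → (R'.card : ℝ) ≤ d0 * N →
      |(q0 : ℝ) + ∑ i, mean p i * mean p' i - X| ≤ z1 * N →
      (∀ y ∈ G, ∀ z ∈ G', (4 : ℤ) ∣ q0 + ip y z - X) →
      h ⊆ G → h' ⊆ G' →
      Real.exp (-(z1 * N)) ≤ ∑ y ∈ h, p y → Real.exp (-(z1 * N)) ≤ ∑ y ∈ h', p' y →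
      (Real.exp (-(z2 * N)) ≤ ∑ y ∈ h, ∑ z ∈ h', (if q0 + ip y z = X then p y * p' z else 0)) ∨
      (∃ (S : Finset (Fin N)) (a : Fin N → Bool) (q : (Fin N → Bool) → ℝ),
        Disjoint S (R ∪ R') ∧ IsPr (slice h S a) q ∧
        Psi (R ∪ S) q + 1 / 2000 * (S.card : ℝ) ≤ Psi R p - z2 / 1600000 * N) ∨
      (∃ (S : Finset (Fin N)) (a : Fin N → Bool) (q : (Fin N → Bool) → ℝ),
        Disjoint S (R ∪ R') ∧ IsPr (slice h' S a) q ∧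
        Psi (R' ∪ S) q + 1 / 2000 * (S.card : ℝ) ≤ Psi R' p' - z2 / 1600000 * N)

/-- K replicas. -/
def KRepStmt : Prop :=
  ∃ d0 : ℝ, 0 < d0 ∧ ∀ K : ℕ, ∃ e0 : ℝ, 0 < e0 ∧ ∃ N0 : ℕ, ∀ N : ℕ, N0 ≤ N →
    ∀ (A : Fin K → Finset (Fin N → Bool)) (q : Fin K → Fin K → ℤ) (X : ℤ)
      (p : Fin K → (Fin N → Bool) → ℝ),
      (∀ i j, q i j = q j i) → (∀ i, IsMin ∅ (A i) (p i)) → (∀ i, Psi ∅ (p i) ≤ d0 * N) →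
      (∀ i j, i ≠ j → |(q i j : ℝ) + ∑ l, mean (p i) l * mean (p j) l - X| ≤ e0 * N) →
      (∀ i j, i ≠ j → ∀ y ∈ A i, ∀ z ∈ A j, (4 : ℤ) ∣ q i j + ip y z - X) →
      ∃ y : Fin K → (Fin N → Bool), (∀ i, y i ∈ A i) ∧
        ∀ i j, i ≠ j → q i j + ip (y i) (y j) = X

/-- kernel of a vector valued function -/
def qf {α : Type*} {d : ℕ} (a : α → Fin d → ℝ) (x y : α) : ℝ := ∑ i, a x i * a y i

/-- `rho`-correlated expectation on the cube -/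
def corr {m : ℕ} (ρ : ℝ) (f : (Fin m → Bool) → (Fin m → Bool) → ℝ) : ℝ :=
  ∑ x, ∑ y, (∏ i, (1 + ρ * (sg (x i) * sg (y i))) / 4) * f x y

/-- noise module -/
def NoiseStmt : Prop :=
  ∀ ζ : ℝ, 0 < ζ → ∀ (Φ : ℕ → ℕ) (kmin : ℕ), (∀ k, k ≤ Φ k) → 1 ≤ kmin → ∃ kmax : ℕ,
    ∀ (m d : ℕ) (a : (Fin m → Bool) → Fin d → ℝ), (∀ x, qf a x x ≤ 101 / 100) →
      3 / 10 ≤ corr (2 / 5) (qf a) →
      (∀ k : ℕ, kmin ≤ k → k ≤ kmax →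
        corr (1 / 5) (fun x y => Real.exp (k * qf a x y)) < Real.exp (k * (3 / 10))) →
      ∃ k : ℕ, kmin ≤ k ∧ k ≤ kmax ∧ ∃ ξ : (Fin m → Bool) → ℝ, IsPr univ ξ ∧
        Real.exp (k * (3 / 10)) / 2 ≤ ∑ x, ∑ y, ξ x * ξ y * Real.exp (k * qf a x y) ∧
        ∑ x, ∑ y, ξ x * ξ y * Real.exp (Φ k * qf a x y)
          ≤ 2 * Real.exp (101 / 100 * k) * Real.exp (Φ k * (3 / 10 + ζ))

/-- cluster module -/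
def ClusterStmt : Prop :=
  ∀ (K : ℕ) (e : ℝ), 0 < e → ∃ ζ : ℝ, 0 < ζ ∧ ∃ kmin : ℕ, 1 ≤ kmin ∧ ∃ Φ : ℕ → ℕ, (∀ k, k ≤ Φ k) ∧
    ∀ k : ℕ, kmin ≤ k → ∀ (α : Type) [Fintype α] (ξ : α → ℝ) (d : ℕ) (a : α → Fin d → ℝ),
      IsPr univ ξ → (∀ x, qf a x x ≤ 101 / 100) →
      Real.exp (k * (3 / 10)) / 2 ≤ ∑ x, ∑ y, ξ x * ξ y * Real.exp (k * qf a x y) →
      ∑ x, ∑ y, ξ x * ξ y * Real.exp (Φ k * qf a x y)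
          ≤ 2 * Real.exp (101 / 100 * k) * Real.exp (Φ k * (3 / 10 + ζ)) →
      ∃ x : Fin K → α, ∀ i j, i ≠ j → |qf a (x i) (x j) - 3 / 10| ≤ e

/-- blow-up module -/
def BlowStmt : Prop :=
  ∀ (m : ℕ) (W : Finset (Fin m → Bool)), W.Nonempty → ∃ w : (Fin m → Bool) → (Fin m → Bool),
    (∀ x, w x ∈ W) ∧ ∀ t : ℝ, 0 ≤ t →
      ∑ x, Real.exp (t * (hammingDist x (w x) : ℝ))
        ≤ Real.cosh (t / 2) ^ (2 * m) * ((2 : ℝ) ^ m) ^ 2 / (W.card : ℝ)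

/-- approximate theorem -/
def GATStmt : Prop :=
  ∃ d1 : ℝ, 0 < d1 ∧ ∀ (K : ℕ) (e : ℝ), 0 < e → ∃ m0 : ℕ, ∀ m : ℕ, m0 ≤ m →
    ∀ (W : Finset (Fin m → Bool)) (b : (Fin m → Bool) → Fin m → ℝ),
      Real.exp (-(d1 * m)) * 2 ^ m ≤ (W.card : ℝ) → (∀ w ∈ W, ∑ i, (b w i) ^ 2 ≤ d1 * m) →
      ∃ w : Fin K → (Fin m → Bool), (∀ i, w i ∈ W) ∧
        ∀ i j, i ≠ j → |(ip (w i) (w j) : ℝ) + ∑ l, b (w i) l * b (w j) l - 3 / 10 * m| ≤ e * m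

/-- exact theorem on the product cube -/
def ExactStmt : Prop :=
  ∃ d : ℝ, 0 < d ∧ ∀ K : ℕ, ∃ t0 : ℕ, ∀ t : ℕ, t0 ≤ t →
    ∀ A : Finset ((Fin (40 * t) → Bool) × (Fin (40 * t) → Bool)),
      (∀ x ∈ A, ∀ y ∈ A, (4 : ℤ) ∣ ip x.1 y.1 + ip x.2 y.2) →
      Real.exp (-(d * t)) * (2 ^ (40 * t)) ^ 2 ≤ (A.card : ℝ) →
      ∃ x : Fin K → ((Fin (40 * t) → Bool) × (Fin (40 * t) → Bool)), (∀ i, x i ∈ A) ∧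
        ∀ i j, i ≠ j → ip (x i).1 (x j).1 + ip (x i).2 (x j).2 = 12 * t

/-- the frozen statement -/
def FinalStmt : Prop :=
    ¬ (∀ ε : ℝ, 0 < ε → ∃ k : ℕ, ∀ δ : ℝ, 0 < δ →
      ∀ᶠ n : ℕ in Filter.atTop, ∃ m : ℕ, (m : ℝ) ≤ (1 + ε + δ) ^ n ∧
        ∃ c : EuclideanSpace ℝ (Fin n) → Fin m,
          ∀ x : Fin (k + 1) → EuclideanSpace ℝ (Fin n),
            (∀ i j, i ≠ j → dist (x i) (x j) = 1) →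
              ¬ (∀ i j, c (x i) = c (x j)))

end Pool.Agent.MP3884c4
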