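import Pool.Agent.Lib.MP_3884c4_co.GatCore
import Pool.Agent.Lib.MP_3884c4_co.Stmts

/-!
# ClusterStmt
-/

set_option autoImplicit false

namespace Pool.Agent.MP3884c4

open Finset Real
open scoped BigOperators RealInnerProductSpace
open Pool.Agent.Lib.MP_3884c4_co.Gat

theorem qf_eq_inner {α : Type*} {d : ℕ} (a : α → Fin d → ℝ) (x y : α) :
    qf a x y = ⟪(WithLp.toLp 2 (a x) : EuclideanSpace ℝ (Fin d)), WithLp.toLp 2 (a y)⟫ := by
  rw [EuclideanSpace.inner_eq_star_dotProduct]
  unfold qf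
  rw [dotProduct]
  refine Finset.sum_congr rfl fun i _ => ?_
  simp [mul_comm]

/-- scale parameters -/
noncomputable def clC (k : ℕ) : ℝ := exp (-(101 / 100 * k)) / 4

noncomputable def clP (K k : ℕ) : ℝ := min (clC k / 16) (1 / (4 * (K + 1)))

noncomputable def clT (K k : ℕ) (e : ℝ) : ℝ :=
  clC k / 8 * exp (-((101 / 100) / (clP K k * (e / 8) ^ 2 / (101 / 100))))

noncomputable def clF (K : ℕ) (e : ℝ) (k : ℕ) : ℕ :=
  max (max k 1) ⌈(log 2 + 101 / 100 * k + 2 * log (1 / clT K k e)) * (8 / e)⌉₊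

theorem clusterStmt : ClusterStmt := by
  classical
  intro K e he
  refine ⟨e / 8, by positivity, ⌈8 * log 4 / e⌉₊ + 1, by omega, clF K e,
    fun k => (le_max_left _ _).trans (le_max_left _ _), ?_⟩
  intro k hk α _ ξ d a hξ ha hlow hup
  obtain ⟨h0, -, h1⟩ := hξ
  set A : α → EuclideanSpace ℝ (Fin d) := fun x => WithLp.toLp 2 (a x) with hA
  have hqf : ∀ x y, qf a x y = ⟪A x, A y⟫ := fun x y => qf_eq_inner a x y
  have hR : ∀ x, ‖A x‖ ^ 2 ≤ 101 / 100 := by
    intro x
    rw [← real_inner_self_eq_norm_sq, ← hqf]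
    exact ha x
  have hR0 : (0 : ℝ) < 101 / 100 := by norm_num
  set c1 := clC k with hc1
  have hc1pos : 0 < c1 := by rw [hc1]; unfold clC; positivity
  set p1 := clP K k with hp1
  have hp1pos : 0 < p1 := by
    rw [hp1]
    unfold clP
    exact lt_min (by positivity) (by positivity)
  have hp1a : p1 ≤ c1 / 16 := min_le_left _ _
  have hp1b : p1 ≤ 1 / (4 * (K + 1)) := min_le_right _ _
  set t0 := clT K k e with ht0
  have ht0' : t0 = c1 / 8 * exp (-((101 / 100) / (p1 * (e / 8) ^ 2 / (101 / 100)))) := rfl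
  have ht0pos : 0 < t0 := by rw [ht0']; positivity
  have hqle : ∀ x y, ⟪A x, A y⟫ ≤ 101 / 100 := by
    intro x y
    have h3 := real_inner_le_norm (A x) (A y)
    have h4 := hR x
    have h5 := hR y
    nlinarith [sq_nonneg (‖A x‖ - ‖A y‖)]
  -- lower bound for the mass of large inner products
  have hkeR : (8 * log 4 / e) ≤ (k : ℝ) := by
    refine (Nat.le_ceil _).trans ?_
    exact_mod_cast (by omega : ⌈8 * log 4 / e⌉₊ ≤ k)
  have hke : exp (-(k * (e / 8))) ≤ 1 / 4 := by
    have h2 : log 4 ≤ k * (e / 8) := by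
      rw [div_le_iff₀ he] at hkeR
      linarith
    calc exp (-(k * (e / 8))) ≤ exp (-log 4) := exp_le_exp.2 (by linarith)
      _ = 1 / 4 := by rw [exp_neg, exp_log (by norm_num)]; norm_num
  set th := (3 / 10 : ℝ) - e / 8 with hth
  have hq : c1 ≤ ∑ x, ∑ y, ξ x * ξ y * (if th ≤ ⟪A x, A y⟫ then 1 else 0) := by
    set P := ∑ x, ∑ y, ξ x * ξ y * (if th ≤ ⟪A x, A y⟫ then (1 : ℝ) else 0) with hP
    have h2 : ∑ x, ∑ y, ξ x * ξ y * exp (k * qf a x y)
        ≤ exp (101 / 100 * k) * P + exp (k * th) := by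
      have h3 : ∀ x y, ξ x * ξ y * exp (k * qf a x y) ≤
          exp (101 / 100 * k) * (ξ x * ξ y * (if th ≤ ⟪A x, A y⟫ then 1 else 0))
          + exp (k * th) * (ξ x * ξ y) := by
        intro x y
        have h4 := mul_nonneg (h0 x) (h0 y)
        rw [hqf]
        split_ifs with h5
        · have h6 : exp (k * ⟪A x, A y⟫) ≤ exp (101 / 100 * k) := by
            apply exp_le_exp.2
            rw [mul_comm]
            exact mul_le_mul_of_nonneg_right (hqle x y) (Nat.cast_nonneg k)
          have h7 := mul_le_mul_of_nonneg_left h6 h4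
          have h8 : 0 ≤ exp (k * th) * (ξ x * ξ y) := by positivity
          linarith
        · have h6 : exp (k * ⟪A x, A y⟫) ≤ exp (k * th) := by
            apply exp_le_exp.2
            exact mul_le_mul_of_nonneg_left (not_le.1 h5).le (Nat.cast_nonneg k)
          have h7 := mul_le_mul_of_nonneg_left h6 h4
          linarith
      calc ∑ x, ∑ y, ξ x * ξ y * exp (k * qf a x y)
          ≤ ∑ x, ∑ y, (exp (101 / 100 * k) * (ξ x * ξ y * (if th ≤ ⟪A x, A y⟫ then 1 else 0))
          + exp (k * th) * (ξ x * ξ y)) :=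
            Finset.sum_le_sum fun x _ => Finset.sum_le_sum fun y _ => h3 x y
        _ = exp (101 / 100 * k) * P + exp (k * th) * ((∑ x, ξ x) * ∑ y, ξ y) := by
            rw [Finset.sum_mul_sum, hP]
            simp only [Finset.sum_add_distrib, Finset.mul_sum]
        _ = _ := by rw [h1]; ring
    have h3 : exp (k * th) ≤ exp (k * (3 / 10)) / 4 := by
      have : exp (k * th) = exp (k * (3 / 10)) * exp (-(k * (e / 8))) := by
        rw [← exp_add]
        congr 1
        rw [hth]
        ring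
      rw [this]
      have h4 := mul_le_mul_of_nonneg_left hke (exp_pos (k * (3 / 10 : ℝ))).le
      linarith
    have h4 : exp (k * (3 / 10 : ℝ)) / 4 ≤ exp (101 / 100 * k) * P := by linarith
    have h5 : 1 ≤ exp (k * (3 / 10 : ℝ)) := one_le_exp (by positivity)
    have h6 : (1 : ℝ) / 4 ≤ exp (101 / 100 * k) * P := by linarith
    have h7 : c1 = exp (-(101 / 100 * k)) * (1 / 4) := by
      rw [hc1]
      unfold clC
      ring
    rw [h7]
    calc exp (-(101 / 100 * k)) * (1 / 4) ≤ exp (-(101 / 100 * k)) * (exp (101 / 100 * k) * P) :=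
          mul_le_mul_of_nonneg_left h6 (exp_pos _).le
      _ = P := by rw [← mul_assoc, ← exp_add, neg_add_cancel, exp_zero, one_mul]
  obtain ⟨B, hB0, hBgood, hBlarge⟩ := exists_large (th := th) (c1 := c1) (R := 101 / 100)
    (p1 := p1) (e1 := e / 8) (eps := c1 / 8) (t0 := t0) h0 h1 hR hR0 hp1pos (by positivity)
    (by positivity) ht0' (by linarith) hq
  -- upper bound for the mean
  set F := clF K e k with hF
  have hF1 : (1 : ℝ) ≤ F := by
    have : 1 ≤ F := (le_max_right k 1).trans (le_max_left _ _)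
    exact_mod_cast this
  have hF2 : (log 2 + 101 / 100 * k + 2 * log (1 / t0)) * (8 / e) ≤ F := by
    refine (Nat.le_ceil _).trans ?_
    exact_mod_cast (le_max_right (max k 1) _)
  have hBup : ‖bary ξ A B‖ ^ 2 ≤ 3 / 10 + e / 4 := by
    have h2 := upper_mean (a := A) h0 hB0 (F : ℝ)
    have h3 : ∑ x ∈ B, ∑ y ∈ B, ξ x * ξ y * exp (F * ⟪A x, A y⟫)
        ≤ ∑ x, ∑ y, ξ x * ξ y * exp (F * qf a x y) := by
      have hnn : ∀ x y, 0 ≤ ξ x * ξ y * exp (F * ⟪A x, A y⟫) := fun x y =>
        mul_nonneg (mul_nonneg (h0 x) (h0 y)) (exp_pos _).le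
      simp only [hqf]
      calc ∑ x ∈ B, ∑ y ∈ B, ξ x * ξ y * exp (F * ⟪A x, A y⟫)
          ≤ ∑ x ∈ B, ∑ y, ξ x * ξ y * exp (F * ⟪A x, A y⟫) :=
            Finset.sum_le_sum fun x _ =>
              Finset.sum_le_sum_of_subset_of_nonneg (Finset.subset_univ _) fun y _ _ => hnn x y
        _ ≤ _ := Finset.sum_le_sum_of_subset_of_nonneg (Finset.subset_univ _)
              fun x _ _ => Finset.sum_nonneg fun y _ => hnn x y
    have h4 := (h2.trans h3).trans hup
    have h5 : t0 ^ 2 ≤ mass ξ B ^ 2 := pow_le_pow_left₀ ht0pos.le hBgood.1 2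
    have h6 : t0 ^ 2 * exp (F * ‖bary ξ A B‖ ^ 2)
        ≤ 2 * exp (101 / 100 * k) * exp (F * (3 / 10 + e / 8)) :=
      (mul_le_mul_of_nonneg_right h5 (exp_pos _).le).trans h4
    have h7 := Real.log_le_log (by positivity) h6
    rw [log_mul (by positivity) (by positivity), log_mul (by positivity) (by positivity),
      log_mul (by positivity) (by positivity), log_exp, log_exp, log_exp, log_pow] at h7
    have h8 : log (1 / t0) = - log t0 := by rw [one_div, log_inv]
    rw [h8] at hF2
    push_cast at h7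
    have h9 : (log 2 + 101 / 100 * k + 2 * -log t0) ≤ F * (e / 8) := by
      have := mul_le_mul_of_nonneg_right hF2 (by positivity : (0 : ℝ) ≤ e / 8)
      have h10 : (log 2 + 101 / 100 * k + 2 * -log t0) * (8 / e) * (e / 8)
          = (log 2 + 101 / 100 * k + 2 * -log t0) := by field_simp
      rw [h10] at this
      exact this
    have h10 : F * ‖bary ξ A B‖ ^ 2 ≤ F * (3 / 10 + e / 4) := by nlinarith
    exact le_of_mul_le_mul_left h10 (by linarith)
  -- the tuple
  have hK : 2 * p1 * (K + 1) < 1 := by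
    have hKpos : (0 : ℝ) < K + 1 := by positivity
    calc 2 * p1 * (K + 1) ≤ 2 * (1 / (4 * (K + 1))) * (K + 1) := by
          refine mul_le_mul_of_nonneg_right ?_ hKpos.le
          linarith
      _ = 1 / 2 := by field_simp; norm_num
      _ < 1 := by norm_num
  obtain ⟨f, hf1, hf2⟩ := exists_tuple (a := A) h0 hR hR0.le hB0 hBgood K hK hp1pos
  refine ⟨f, ?_⟩
  have key : ∀ i j, i < j → |qf a (f i) (f j) - 3 / 10| ≤ e := by
    intro i j hij
    have g1 := hf2 i j hij
    have g2 := hf1 i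
    have g3 : ⟪A (f i), A (f j)⟫ = ⟪A (f j) - bary ξ A B, A (f i)⟫
        + ⟪A (f i) - bary ξ A B, bary ξ A B⟫ + ‖bary ξ A B‖ ^ 2 := by
      rw [inner_sub_left, inner_sub_left, real_inner_self_eq_norm_sq,
        real_inner_comm (A (f i)) (A (f j)), real_inner_comm (A (f i)) (bary ξ A B)]
      ring
    rw [hqf, g3]
    rw [abs_le] at g1 g2 ⊢
    rw [hth] at hBlarge
    constructor
    · linarith [g1.1, g2.1]
    · linarith [g1.2, g2.2]
  intro i j hij
  rcases lt_or_gt_of_ne hij with h | h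
  · exact key i j h
  · have := key j i h
    have hsym : qf a (f i) (f j) = qf a (f j) (f i) := by
      unfold qf
      exact Finset.sum_congr rfl fun l _ => mul_comm _ _
    rw [hsym]
    exact this

end Pool.Agent.MP3884c4
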