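import Mathlib

/-!
# List packings and coverings in finite abelian groups
-/

set_option autoImplicit false
set_option linter.unusedSectionVars false

namespace Pool.Agent.Lib.MP_3884c4_co

open Finset

variable {G : Type} [AddCommGroup G] [Fintype G] [DecidableEq G]

/-- the number of maps sending `T` into `S` -/
theorem card_maps {N : ℕ} (T : Finset (Fin N)) (S : Finset G) :
    (univ.filter fun F : Fin N → G => ∀ i ∈ T, F i ∈ S).card
      = S.card ^ T.card * (Fintype.card G) ^ (N - T.card) := by
  have h1 : (univ.filter fun F : Fin N → G => ∀ i ∈ T, F i ∈ S)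
      = Fintype.piFinset (fun i => if i ∈ T then S else univ) := by
    ext F
    simp only [Finset.mem_filter, Finset.mem_univ, true_and, Fintype.mem_piFinset]
    constructor
    · intro h i
      split_ifs with hi
      · exact h i hi
      · exact Finset.mem_univ _
    · intro h i hi
      have := h i
      rwa [if_pos hi] at this
  rw [h1, Fintype.card_piFinset]
  have h2 : ∀ i : Fin N, (if i ∈ T then S else (univ : Finset G)).card
      = if i ∈ T then S.card else Fintype.card G := by
    intro i
    split_ifs
    · rfl
    · rfl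
  rw [Finset.prod_congr rfl (fun i _ => h2 i), Finset.prod_ite, Finset.prod_const,
    Finset.prod_const]
  congr 2
  · congr 1
    ext i
    simp
  · rw [Finset.filter_not, Finset.card_sdiff_of_subset (Finset.filter_subset _ _)]
    simp

theorem exists_packing (B : Finset G) (M N : ℕ)
    (h : 2 * B.card * (N * B.card) ^ M ≤ (Fintype.card G) ^ M) :
    ∃ (F : Fin N → G) (J : Finset (Fin N)), N ≤ 2 * J.card ∧
      ∀ v, (J.filter fun i => F i - v ∈ B).card ≤ M := by
  classical
  rcases Nat.eq_zero_or_pos N with rfl | hN
  · exact ⟨fun i => i.elim0, ∅, by simp, by simp⟩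
  set bad : (Fin N → G) → Finset (Fin N) → Prop := fun F T => ∃ v, ∀ i ∈ T, F i - v ∈ B with hbad
  set g := Fintype.card G with hg
  have hg0 : 0 < g := Fintype.card_pos
  -- number of bad maps for a given `T`
  have h1 : ∀ T ∈ powersetCard (M + 1) (univ : Finset (Fin N)),
      (univ.filter fun F : Fin N → G => bad F T).card
        ≤ g * (B.card ^ (M + 1) * g ^ (N - (M + 1))) := by
    intro T hT
    rw [mem_powersetCard] at hT
    have hsub : (univ.filter fun F : Fin N → G => bad F T) ⊆
        (univ : Finset G).biUnion fun v => univ.filter fun F : Fin N → G =>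
          ∀ i ∈ T, F i ∈ B.image (fun b => b + v) := by
      intro F hF
      rw [Finset.mem_filter] at hF
      obtain ⟨v, hv⟩ := hF.2
      rw [Finset.mem_biUnion]
      refine ⟨v, Finset.mem_univ _, ?_⟩
      rw [Finset.mem_filter]
      refine ⟨Finset.mem_univ _, fun i hi => ?_⟩
      exact Finset.mem_image.2 ⟨_, hv i hi, by abel⟩
    refine (Finset.card_le_card hsub).trans (Finset.card_biUnion_le.trans ?_)
    have : ∀ v ∈ (univ : Finset G), (univ.filter fun F : Fin N → G =>
          ∀ i ∈ T, F i ∈ B.image (fun b => b + v)).card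
        = B.card ^ (M + 1) * g ^ (N - (M + 1)) := by
      intro v _
      rw [card_maps, hT.2, Finset.card_image_of_injective _ (fun a b h => add_right_cancel h)]
    rw [Finset.sum_congr rfl this, Finset.sum_const, smul_eq_mul, Finset.card_univ]
  -- some map has few bad sets
  have h2 : ∃ F : Fin N → G,
      2 * ((powersetCard (M + 1) (univ : Finset (Fin N))).filter fun T => bad F T).card ≤ N := by
    by_contra hne
    push Not at hne
    have h3 : ∑ F : Fin N → G,
        ((powersetCard (M + 1) (univ : Finset (Fin N))).filter fun T => bad F T).card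
        = ∑ T ∈ powersetCard (M + 1) (univ : Finset (Fin N)),
          (univ.filter fun F : Fin N → G => bad F T).card := by
      simp only [Finset.card_filter]
      exact Finset.sum_comm
    have h4 : ∑ T ∈ powersetCard (M + 1) (univ : Finset (Fin N)),
          (univ.filter fun F : Fin N → G => bad F T).card
        ≤ N ^ (M + 1) * (g * (B.card ^ (M + 1) * g ^ (N - (M + 1)))) := by
      refine (Finset.sum_le_sum h1).trans ?_
      rw [Finset.sum_const, smul_eq_mul, card_powersetCard, Finset.card_univ, Fintype.card_fin]
      exact Nat.mul_le_mul_right _ (Nat.choose_le_pow N (M + 1))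
    have h5 : g ^ N * N < ∑ F : Fin N → G,
        2 * ((powersetCard (M + 1) (univ : Finset (Fin N))).filter fun T => bad F T).card := by
      have : ∑ F : Fin N → G, N = g ^ N * N := by
        rw [Finset.sum_const, smul_eq_mul, Finset.card_univ, Fintype.card_fun, Fintype.card_fin]
      rw [← this]
      apply Finset.sum_lt_sum_of_nonempty ⟨fun _ => 0, Finset.mem_univ _⟩
      intro F _
      exact hne F
    rw [← Finset.mul_sum, h3] at h5
    by_cases hMN : M + 1 ≤ N
    · obtain ⟨e, he⟩ := Nat.exists_eq_add_of_le hMN
      have h6 : g ^ N * N < 2 * (N ^ (M + 1) * (g * (B.card ^ (M + 1) * g ^ (N - (M + 1))))) :=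
        h5.trans_le (Nat.mul_le_mul_left 2 h4)
      have h7 : N - (M + 1) = e := by omega
      rw [h7] at h6
      have h8 : g ^ N = g ^ M * (g * g ^ e) := by
        rw [he]
        ring
      rw [h8] at h6
      have h9 : g ^ M * (g * g ^ e) * N = (g ^ M) * (N * (g * g ^ e)) := by ring
      have h10 : 2 * (N ^ (M + 1) * (g * (B.card ^ (M + 1) * g ^ e)))
          = (2 * B.card * (N * B.card) ^ M) * (N * (g * g ^ e)) := by ring
      rw [h9, h10] at h6
      exact absurd (Nat.lt_of_mul_lt_mul_right h6) (not_lt.2 h)
    · have : powersetCard (M + 1) (univ : Finset (Fin N)) = ∅ := by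
        apply powersetCard_eq_empty.2
        rw [Finset.card_univ, Fintype.card_fin]
        omega
      rw [this, Finset.sum_empty] at h5
      omega
  obtain ⟨F, hF⟩ := h2
  set bads := (powersetCard (M + 1) (univ : Finset (Fin N))).filter fun T => bad F T with hbads
  have hne : ∀ T ∈ bads, T.Nonempty := by
    intro T hT
    rw [hbads, Finset.mem_filter, mem_powersetCard] at hT
    apply Finset.card_pos.1
    omega
  let ch : Finset (Fin N) → Fin N := fun T => if h : T.Nonempty then T.min' h else ⟨0, hN⟩
  have hch : ∀ T ∈ bads, ch T ∈ T := by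
    intro T hT
    simp only [ch, dif_pos (hne T hT)]
    exact Finset.min'_mem _ _
  refine ⟨F, univ \ bads.image ch, ?_, ?_⟩
  · have h3 : (bads.image ch).card ≤ bads.card := Finset.card_image_le
    have h4 : (univ \ bads.image ch).card = N - (bads.image ch).card := by
      rw [Finset.card_sdiff_of_subset (Finset.subset_univ _), Finset.card_univ, Fintype.card_fin]
    rw [h4]
    omega
  · intro v
    by_contra hlt
    push Not at hlt
    obtain ⟨T, hT, hTc⟩ := Finset.exists_subset_card_eq (Nat.succ_le_of_lt hlt)
    have hTbad : T ∈ bads := by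
      rw [hbads, Finset.mem_filter, mem_powersetCard]
      exact ⟨⟨Finset.subset_univ _, hTc⟩, v, fun i hi => (Finset.mem_filter.1 (hT hi)).2⟩
    have h5 := (Finset.mem_filter.1 (hT (hch T hTbad))).1
    rw [Finset.mem_sdiff] at h5
    exact h5.2 (Finset.mem_image_of_mem _ hTbad)

theorem density {N : ℕ} (B D : Finset G) (hDB : ∀ x ∈ D, -x ∈ B) (F : Fin N → G)
    (J : Finset (Fin N)) (M : ℕ) (hJ : ∀ v, (J.filter fun i => F i - v ∈ B).card ≤ M) :
    J.card * D.card ≤ M * (univ.filter fun x : G => ∃ i ∈ J, x - F i ∈ D).card := by
  classical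
  have h1 : ∑ i ∈ J, (univ.filter fun x : G => x - F i ∈ D).card = J.card * D.card := by
    have : ∀ i ∈ J, (univ.filter fun x : G => x - F i ∈ D).card = D.card := by
      intro i _
      have : (univ.filter fun x : G => x - F i ∈ D) = D.image (fun d => d + F i) := by
        ext x
        simp only [Finset.mem_filter, Finset.mem_univ, true_and, Finset.mem_image]
        constructor
        · intro h
          exact ⟨_, h, by abel⟩
        · rintro ⟨d, hd, rfl⟩
          simpa using hd
      rw [this, Finset.card_image_of_injective _ (fun a b h => add_right_cancel h)]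
    rw [Finset.sum_congr rfl this, Finset.sum_const, smul_eq_mul]
  rw [← h1]
  have h2 : ∑ i ∈ J, (univ.filter fun x : G => x - F i ∈ D).card
      = ∑ x : G, (J.filter fun i => x - F i ∈ D).card := by
    simp only [Finset.card_filter]
    exact Finset.sum_comm
  rw [h2]
  have h3 : ∑ x : G, (J.filter fun i => x - F i ∈ D).card
      = ∑ x ∈ univ.filter (fun x : G => ∃ i ∈ J, x - F i ∈ D),
        (J.filter fun i => x - F i ∈ D).card := by
    symm
    apply Finset.sum_subset (Finset.filter_subset _ _)
    intro x _ hx
    rw [Finset.card_eq_zero, Finset.filter_eq_empty_iff]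
    intro i hi hxi
    exact hx (Finset.mem_filter.2 ⟨Finset.mem_univ _, i, hi, hxi⟩)
  rw [h3]
  have h4 : ∀ x ∈ univ.filter (fun x : G => ∃ i ∈ J, x - F i ∈ D),
      (J.filter fun i => x - F i ∈ D).card ≤ M := by
    intro x _
    refine (Finset.card_le_card ?_).trans (hJ x)
    intro i hi
    rw [Finset.mem_filter] at hi ⊢
    refine ⟨hi.1, ?_⟩
    have := hDB _ hi.2
    rwa [neg_sub] at this
  have h5 := Finset.sum_le_sum h4
  rw [Finset.sum_const, smul_eq_mul] at h5
  rw [mul_comm M]
  exact h5

theorem exists_cover (A : Finset G) (j : ℕ)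
    (hj : Real.log (Fintype.card G) * Fintype.card G < j * A.card) :
    ∃ g : Fin j → G, ∀ x, ∃ i, x - g i ∈ A := by
  classical
  set c : ℝ := ((Fintype.card G : ℕ) : ℝ) with hc
  have hc0 : 0 < c := by
    rw [hc]
    exact_mod_cast Fintype.card_pos
  set α : ℝ := A.card / c with hα
  have hα0 : 0 ≤ α := by positivity
  have hα1 : α ≤ 1 := by
    rw [hα, div_le_one hc0, hc]
    exact_mod_cast Finset.card_le_univ A
  have key : ∀ j : ℕ, ∃ g : Fin j → G,
      ((univ.filter fun x : G => ∀ i, x - g i ∉ A).card : ℝ) ≤ c * (1 - α) ^ j := by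
    intro j
    induction j with
    | zero =>
      refine ⟨fun i => i.elim0, ?_⟩
      simp [hc, Finset.card_univ]
    | succ j ih =>
      obtain ⟨g, hg⟩ := ih
      set U := univ.filter fun x : G => ∀ i, x - g i ∉ A with hU
      -- averaging
      have h1 : ∑ v : G, (U.filter fun x => x - v ∈ A).card = U.card * A.card := by
        have e1 : ∑ v : G, (U.filter fun x => x - v ∈ A).card
            = ∑ x ∈ U, (univ.filter fun v : G => x - v ∈ A).card := by
          simp only [Finset.card_filter]
          exact Finset.sum_comm
        have e2 : ∀ x ∈ U, (univ.filter fun v : G => x - v ∈ A).card = A.card := by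
          intro x _
          have : (univ.filter fun v : G => x - v ∈ A) = A.image (fun a => x - a) := by
            ext v
            simp only [Finset.mem_filter, Finset.mem_univ, true_and, Finset.mem_image]
            constructor
            · intro h
              exact ⟨_, h, by abel⟩
            · rintro ⟨a, ha, rfl⟩
              simpa using ha
          rw [this, Finset.card_image_of_injective _ (fun a b h => by simpa using h)]
        rw [e1, Finset.sum_congr rfl e2, Finset.sum_const, smul_eq_mul]
      have h2 : ∃ v : G, (U.card : ℝ) * α ≤ ((U.filter fun x => x - v ∈ A).card : ℝ) := by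
        by_contra hne
        push Not at hne
        have h3 : ∑ v : G, ((U.filter fun x => x - v ∈ A).card : ℝ) < ∑ v : G, (U.card : ℝ) * α :=
          Finset.sum_lt_sum_of_nonempty ⟨0, Finset.mem_univ _⟩ (fun v _ => hne v)
        rw [Finset.sum_const, Finset.card_univ, nsmul_eq_mul, ← hc] at h3
        have h4 : ∑ v : G, ((U.filter fun x => x - v ∈ A).card : ℝ) = (U.card : ℝ) * A.card := by
          exact_mod_cast h1
        rw [h4, hα] at h3
        have : c * ((U.card : ℝ) * (A.card / c)) = U.card * A.card := by
          field_simp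
        rw [this] at h3
        exact lt_irrefl _ h3
      obtain ⟨v, hv⟩ := h2
      refine ⟨Fin.snoc g v, ?_⟩
      have h5 : (univ.filter fun x : G => ∀ i, x - (Fin.snoc g v : Fin (j + 1) → G) i ∉ A)
          = U \ U.filter (fun x => x - v ∈ A) := by
        ext x
        rw [Finset.mem_filter, Finset.mem_sdiff, hU, Finset.mem_filter, Finset.mem_filter]
        simp only [Finset.mem_univ, true_and, Finset.mem_filter]
        constructor
        · intro h
          have hl := h (Fin.last j)
          rw [Fin.snoc_last] at hl
          refine ⟨fun i => ?_, fun h' => hl h'.2⟩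
          have := h i.castSucc
          rwa [Fin.snoc_castSucc] at this
        · rintro ⟨h6, h7⟩ i
          refine Fin.lastCases ?_ (fun i => ?_) i
          · rw [Fin.snoc_last]
            intro h8
            exact h7 ⟨h6, h8⟩
          · rw [Fin.snoc_castSucc]
            exact h6 i
      rw [h5, Finset.card_sdiff_of_subset (Finset.filter_subset _ _),
        Nat.cast_sub (Finset.card_le_card (Finset.filter_subset _ _))]
      calc (U.card : ℝ) - ((U.filter fun x => x - v ∈ A).card : ℝ)
          ≤ U.card - U.card * α := by linarith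
        _ = U.card * (1 - α) := by ring
        _ ≤ (c * (1 - α) ^ j) * (1 - α) := mul_le_mul_of_nonneg_right hg (by linarith)
        _ = c * (1 - α) ^ (j + 1) := by ring
  obtain ⟨g, hg⟩ := key j
  refine ⟨g, fun x => ?_⟩
  by_contra hne
  push Not at hne
  have hx : x ∈ univ.filter fun x : G => ∀ i, x - g i ∉ A :=
    Finset.mem_filter.2 ⟨Finset.mem_univ _, hne⟩
  have h1 : (1 : ℝ) ≤ ((univ.filter fun x : G => ∀ i, x - g i ∉ A).card : ℝ) := by
    exact_mod_cast Finset.card_pos.2 ⟨x, hx⟩
  have h2 : (1 - α) ^ j ≤ Real.exp (-(α * j)) := by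
    have h3 : 1 - α ≤ Real.exp (-α) := by
      have := Real.add_one_le_exp (-α)
      linarith
    calc (1 - α) ^ j ≤ (Real.exp (-α)) ^ j := pow_le_pow_left₀ (by linarith) h3 j
      _ = Real.exp (-(α * j)) := by
        rw [← Real.exp_nat_mul]
        congr 1
        ring
  have h4 : Real.log c < α * j := by
    rw [hα, div_mul_eq_mul_div, lt_div_iff₀ hc0]
    linarith
  have h5 : c * Real.exp (-(α * j)) < 1 := by
    have : Real.exp (-(α * j)) < Real.exp (-Real.log c) := Real.exp_lt_exp.2 (by linarith)
    rw [Real.exp_neg (Real.log c), Real.exp_log hc0] at this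
    calc c * Real.exp (-(α * j)) < c * c⁻¹ := by gcongr
      _ = 1 := mul_inv_cancel₀ hc0.ne'
  have h6 := h1.trans (hg.trans (mul_le_mul_of_nonneg_left h2 hc0.le))
  linarith

end Pool.Agent.Lib.MP_3884c4_co
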