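import Pool.Agent.Lib.MP_3884c4_co.Vol
import Pool.Agent.Lib.MP_3884c4_co.Pack

/-!
# Colourings of the space from packings of the discrete torus
-/

set_option autoImplicit false
set_option linter.unusedSectionVars false

namespace Pool.Agent.Lib.MP_3884c4_co

open Finset

/-- reduction modulo `m` -/
def red {n : ℕ} (m : ℕ) (z : Fin n → ℤ) : Fin n → ZMod m := fun i => (z i : ZMod m)

theorem red_add {n m : ℕ} (z w : Fin n → ℤ) : red m (z + w) = red m z + red m w := by
  funext i
  simp [red]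

theorem red_neg {n m : ℕ} (z : Fin n → ℤ) : red m (-z) = - red m z := by
  funext i
  simp [red]

theorem red_sub {n m : ℕ} (z w : Fin n → ℤ) : red m (z - w) = red m z - red m w := by
  funext i
  simp [red]

theorem red_inj {n m S : ℕ} (hm : 2 * S < m) {r r' : ℝ} (hr : r ≤ S) (hr' : r' ≤ S)
    {z w : Fin n → ℤ} (hz : z ∈ zball n S r) (hw : w ∈ zball n S r') (h : red m z = red m w) :
    z = w := by
  rw [mem_zball hr] at hz
  rw [mem_zball hr'] at hw
  funext i
  have h1 : ((z i : ℤ) : ZMod m) = (w i : ZMod m) := congrFun h i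
  rw [ZMod.intCast_eq_intCast_iff_dvd_sub] at h1
  have h2 : |z i| ≤ (S : ℤ) := by
    have := (abs_le_norm z i).trans (hz.trans hr)
    exact_mod_cast this
  have h3 : |w i| ≤ (S : ℤ) := by
    have := (abs_le_norm w i).trans (hw.trans hr')
    exact_mod_cast this
  have h4 : |w i - z i| < (m : ℤ) := by
    have h5 := abs_le.1 h2
    have h6 := abs_le.1 h3
    rw [abs_lt]
    constructor <;> omega
  have h5 := Int.eq_zero_of_abs_lt_dvd h1 h4
  omega

variable {n K S m : ℕ}

/-- the large ball in the discrete torus -/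
noncomputable def bigB (n K S m : ℕ) : Finset (Fin n → ZMod m) :=
  (zball n S (2 * K * √n)).image (red m)

/-- the small ball in the discrete torus -/
noncomputable def smallB (n K S m : ℕ) : Finset (Fin n → ZMod m) :=
  (zball n S ((K - 2) * √n)).image (red m)

theorem mul_add_one_lt (M K : ℕ) : M * K < M * K + 1 := Nat.lt_succ_self _

theorem exists_colouring (hn : 1 ≤ n) (hK : 4 ≤ K) (hS : 2 * (K : ℝ) * √n ≤ S) (hm : 2 * S < m)
    [NeZero m] {N M j : ℕ} (F : Fin N → (Fin n → ZMod m)) (J : Finset (Fin N))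
    (hJ : ∀ v, (J.filter fun i => F i - v ∈ bigB n K S m).card ≤ M)
    (g : Fin j → (Fin n → ZMod m))
    (hg : ∀ x, ∃ i, x - g i ∈ univ.filter fun x : Fin n → ZMod m =>
      ∃ i ∈ J, x - F i ∈ smallB n K S m) :
    ∃ c : EuclideanSpace ℝ (Fin n) → Fin j,
      ∀ x : Fin (M * K + 1) → EuclideanSpace ℝ (Fin n),
        (∀ i j, i ≠ j → dist (x i) (x j) = 1) → ¬ (∀ i j, c (x i) = c (x j)) := by
  classical
  have hn0 : (0 : ℝ) < n := by exact_mod_cast hn
  have hr0 : 0 < √(n : ℝ) := Real.sqrt_pos.2 hn0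
  have hKr : (4 : ℝ) ≤ K := by exact_mod_cast hK
  set t : ℝ := √2 * K * √n with ht
  have ht0 : 0 < t := by positivity
  have ht2 : t ^ 2 = 2 * K ^ 2 * n := by
    rw [ht, mul_pow, mul_pow, Real.sq_sqrt (by norm_num), Real.sq_sqrt hn0.le]
  choose c hc using hg
  refine ⟨fun y => c (red m (fl (t • y))), ?_⟩
  intro x hx hmono
  set y : Fin (M * K + 1) → EuclideanSpace ℝ (Fin n) := fun i => t • x i with hy
  have hyd : ∀ i ∈ (univ : Finset (Fin (M * K + 1))), ∀ j ∈ (univ : Finset (Fin (M * K + 1))),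
      i ≠ j → ‖y i - y j‖ = t := by
    intro i _ j _ hij
    rw [hy]
    simp only
    rw [← smul_sub, norm_smul, ← dist_eq_norm, hx i j hij, mul_one, Real.norm_of_nonneg ht0.le]
  obtain ⟨o, ho⟩ := exists_center univ y hyd ⟨0, Finset.mem_univ _⟩
  have ho' : ∀ i, ‖y i - o‖ ≤ K * √n := by
    intro i
    have h1 := ho i (Finset.mem_univ _)
    rw [ht2] at h1
    apply (sq_le_sq₀ (norm_nonneg _) (by positivity)).1
    rw [mul_pow, Real.sq_sqrt hn0.le]
    linarith
  -- the data of each vertex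
  set g0 := g (c (red m (fl (y 0)))) with hg0
  have hdat : ∀ i, ∃ a ∈ J, ∃ b ∈ zball n S ((K - 2) * √n),
      red m b = red m (fl (y i)) - g0 - F a := by
    intro i
    have h1 := hc (red m (fl (y i)))
    have h2 : c (red m (fl (y i))) = c (red m (fl (y 0))) := hmono i 0
    rw [h2, Finset.mem_filter] at h1
    obtain ⟨a, ha, h3⟩ := h1.2
    unfold smallB at h3
    obtain ⟨b, hb, h4⟩ := Finset.mem_image.1 h3
    exact ⟨a, ha, b, hb, h4⟩
  choose a haJ b hb hab using hdat
  have hsmall : ((K : ℝ) - 2) * √n ≤ S := by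
    refine le_trans ?_ hS
    apply mul_le_mul_of_nonneg_right _ hr0.le
    linarith
  have hbn : ∀ i, ‖toE (b i)‖ ≤ (K - 2) * √n := by
    intro i
    exact (mem_zball hsmall _).1 (hb i)
  set o' := fl o with ho'def
  set p : Fin (M * K + 1) → (Fin n → ℤ) := fun i => fl (y i) - b i - o' with hp
  have hpn : ∀ i, p i ∈ zball n S (2 * K * √n) := by
    intro i
    rw [mem_zball hS]
    have e : toE (p i) = (toE (fl (y i)) - y i) + (y i - o) + (o - toE o') - toE (b i) := by
      rw [hp]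
      simp only
      rw [toE_sub, toE_sub]
      abel
    rw [e]
    have h1 : ‖toE (fl (y i)) - y i‖ ≤ √n := by
      rw [norm_sub_rev]
      exact norm_sub_fl _
    have h2 := norm_sub_fl o
    calc ‖(toE (fl (y i)) - y i) + (y i - o) + (o - toE o') - toE (b i)‖
        ≤ ‖(toE (fl (y i)) - y i) + (y i - o) + (o - toE o')‖ + ‖toE (b i)‖ := norm_sub_le _ _
      _ ≤ ‖(toE (fl (y i)) - y i) + (y i - o)‖ + ‖o - toE o'‖ + ‖toE (b i)‖ := by
          gcongr
          exact norm_add_le _ _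
      _ ≤ ‖toE (fl (y i)) - y i‖ + ‖y i - o‖ + ‖o - toE o'‖ + ‖toE (b i)‖ := by
          gcongr
          exact norm_add_le _ _
      _ ≤ √n + K * √n + √n + (K - 2) * √n := by
          gcongr
          · exact ho' i
          · exact hbn i
      _ = 2 * K * √n := by ring
  have hpr : ∀ i, red m (p i) = F (a i) - (red m o' - g0) := by
    intro i
    rw [hp]
    simp only
    rw [red_sub, red_sub, hab i]
    abel
  have hmem : ∀ i ∈ (univ : Finset (Fin (M * K + 1))),
      a i ∈ J.filter fun i => F i - (red m o' - g0) ∈ bigB n K S m := by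
    intro i _
    rw [Finset.mem_filter]
    refine ⟨haJ i, ?_⟩
    rw [← hpr i]
    exact Finset.mem_image_of_mem _ (hpn i)
  obtain ⟨a0, -, hT⟩ := Finset.exists_lt_card_fiber_of_mul_lt_card_of_maps_to (n := K) hmem (by
    rw [Finset.card_univ, Fintype.card_fin]
    exact (Nat.mul_le_mul_right K (hJ _)).trans_lt (mul_add_one_lt M K))
  set T := univ.filter (fun i => a i = a0) with hTdef
  have hTne : T.Nonempty := Finset.card_pos.1 (by omega)
  obtain ⟨i1, hi1⟩ := hTne
  have hpeq : ∀ i ∈ T, p i = p i1 := by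
    intro i hi
    apply red_inj hm hS hS (hpn i) (hpn i1)
    rw [hpr, hpr, (Finset.mem_filter.1 hi).2, (Finset.mem_filter.1 hi1).2]
  have hball : ∀ i ∈ T, ‖y i - toE (p i1 + o')‖ ≤ (K - 1) * √n := by
    intro i hi
    have e : y i - toE (p i1 + o') = (y i - toE (fl (y i))) + toE (b i) := by
      rw [← hpeq i hi, hp]
      simp only
      rw [toE_add, toE_sub, toE_sub]
      abel
    rw [e]
    calc ‖(y i - toE (fl (y i))) + toE (b i)‖ ≤ ‖y i - toE (fl (y i))‖ + ‖toE (b i)‖ :=
          norm_add_le _ _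
      _ ≤ √n + (K - 2) * √n := add_le_add (norm_sub_fl _) (hbn i)
      _ = (K - 1) * √n := by ring
  have hfin := card_le_of_ball T y (toE (p i1 + o'))
    (fun i _ j _ hij => hyd i (Finset.mem_univ _) j (Finset.mem_univ _) hij) hball ⟨i1, hi1⟩
  rw [ht2, mul_pow, Real.sq_sqrt hn0.le] at hfin
  have hτ : (K : ℝ) + 1 ≤ T.card := by exact_mod_cast hT
  set τ : ℝ := (T.card : ℝ) with hτdef
  have h1 : (τ - 1) * K ^ 2 ≤ τ * (K - 1) ^ 2 := by
    have h2 : (2 * (n : ℝ)) * ((τ - 1) * K ^ 2) ≤ (2 * n) * (τ * (K - 1) ^ 2) := by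
      calc (2 * (n : ℝ)) * ((τ - 1) * K ^ 2) = (τ - 1) * (2 * K ^ 2 * n) := by ring
        _ ≤ 2 * τ * ((K - 1) ^ 2 * n) := hfin
        _ = (2 * n) * (τ * (K - 1) ^ 2) := by ring
    exact le_of_mul_le_mul_left h2 (by positivity)
  nlinarith

end Pool.Agent.Lib.MP_3884c4_co
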