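import Mathlib

/-!
Definitions for MP_3884c4_co (simplex Ramsey, negation).  Cube `ι → Bool`, probability vectors,
entropy potential `Psi`, exact minimisers `IsMin`, the pair functional `Th`.
-/

set_option autoImplicit false

noncomputable section

namespace Pool.Agent.MP3884c4

open Finset

section General

variable {α ι : Type*} [Fintype α] [Fintype ι]

/-- probability vector supported on the finite set `G` -/
structure IsPr (G : Finset α) (p : α → ℝ) : Prop where
  nonneg : ∀ x, 0 ≤ p x
  supp : ∀ x, x ∉ G → p x = 0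
  sum_eq : ∑ x, p x = 1

/-- expectation of `f` under the vector `p` -/
def ex (p : α → ℝ) (f : α → ℝ) : ℝ := ∑ x, p x * f x

/-- negative entropy -/
def ent (p : α → ℝ) : ℝ := ∑ x, p x * Real.log (p x)

/-- relative entropy of `q` with respect to `p` -/
def kl (q p : α → ℝ) : ℝ := ∑ x, (q x * Real.log (q x) - q x * Real.log (p x))

/-- mean of the vector valued function `v` -/
def mn (p : α → ℝ) (v : α → ι → ℝ) (i : ι) : ℝ := ∑ x, p x * v x i

/-- the functional of the abstract minimiser lemma -/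
def Jf (k : ℝ) (c : α → ℝ) (v : α → ι → ℝ) (p : α → ℝ) : ℝ :=
  ent p + ex p c - k * ∑ i, (mn p v i) ^ 2

/-- conditioning of `p` on the finite set `h` -/
def condp [DecidableEq α] (h : Finset α) (p : α → ℝ) : α → ℝ :=
  fun x => if x ∈ h then p x / (∑ y ∈ h, p y) else 0

end General

section Cube

variable {ι : Type*} [Fintype ι] [DecidableEq ι]

/-- sign of a bit, real -/
def sg (b : Bool) : ℝ := if b then 1 else -1

/-- sign of a bit, integer -/
def sgz (b : Bool) : ℤ := if b then 1 else -1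

/-- integer inner product of two points of the cube -/
def ip (y z : ι → Bool) : ℤ := ∑ i, sgz (y i) * sgz (z i)

/-- full mean vector of a probability vector on the cube -/
def mean (p : (ι → Bool) → ℝ) (i : ι) : ℝ := ∑ y, p y * sg (y i)

/-- free coordinates of a point (coordinates in `R` are frozen and replaced by `0`) -/
def vf (R : Finset ι) (y : ι → Bool) (i : ι) : ℝ := if i ∈ R then 0 else sg (y i)

/-- the potential `Psi_R` -/
def Psi (R : Finset ι) (p : (ι → Bool) → ℝ) : ℝ :=
  ((Rᶜ).card : ℝ) * Real.log 2 + ent p - (1 / 2) * ∑ i, (mn p (vf R) i) ^ 2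

/-- all points of `G` agree on `R` -/
def Frozen (R : Finset ι) (G : Finset (ι → Bool)) : Prop :=
  ∀ y ∈ G, ∀ z ∈ G, ∀ i ∈ R, y i = z i

/-- exact minimiser of `Psi_R` among probability vectors on `G` -/
structure IsMin (R : Finset ι) (G : Finset (ι → Bool)) (p : (ι → Bool) → ℝ) : Prop where
  pr : IsPr G p
  frozen : Frozen R G
  min : ∀ q, IsPr G q → Psi R p ≤ Psi R q

/-- `kap m = log 2 - H((1+m)/2)` -/
def kap (m : ℝ) : ℝ :=
  ((1 + m) * Real.log (1 + m) + (1 - m) * Real.log (1 - m)) / 2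

/-- covariance of the coordinates `i`, `j` -/
def cov (p : (ι → Bool) → ℝ) (i j : ι) : ℝ :=
  ∑ y, p y * ((sg (y i) - mean p i) * (sg (y j) - mean p j))

/-- slice of `h` by the pattern `a` on `S` -/
def slice (h : Finset (ι → Bool)) (S : Finset ι) (a : ι → Bool) : Finset (ι → Bool) :=
  h.filter (fun y => ∀ i ∈ S, y i = a i)

/-- the penalty: expected absolute deviation of the overlap -/
def pen (q0 X : ℤ) (p p' : (ι → Bool) → ℝ) : ℝ :=
  ∑ y, ∑ z, p y * p' z * |((q0 + ip y z - X : ℤ) : ℝ)|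

/-- the pair functional `Theta` -/
def Th (q0 X : ℤ) (lam nu : ℝ) (r r' : ι → ℝ) (R R' S : Finset ι)
    (p p' : (ι → Bool) → ℝ) : ℝ :=
  Psi (R ∪ S) p + Psi (R' ∪ S) p' + pen q0 X p p'
    + nu * (∑ i ∈ (R ∪ S)ᶜ, (mean p i - r i) ^ 2 + ∑ i ∈ (R' ∪ S)ᶜ, (mean p' i - r' i) ^ 2)
    + 2 * lam * (S.card : ℝ)

end Cube

end Pool.Agent.MP3884c4
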