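import Pool.Agent.Lib.MP_3884c4_co.L2

/-!
Exact edge lemma: the local limit lower bound `P(L = X) ≥ c / √N`.
-/

set_option autoImplicit false

open Finset Real MeasureTheory intervalIntegral

namespace Pool.Agent.MP3884c4

namespace Ed

theorem integral_cos_int {w : ℤ} (hw : (4 : ℤ) ∣ w) :
    ∫ t in (0:ℝ)..(π / 4), Real.cos (t * (w : ℝ)) = if w = 0 then π / 4 else 0 := by
  split_ifs with h
  · subst h
    simp
  · obtain ⟨j, rfl⟩ := hw
    have hw0 : (((4 * j : ℤ)) : ℝ) ≠ 0 := by exact_mod_cast h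
    rw [intervalIntegral.integral_comp_mul_right (f := Real.cos) hw0, integral_cos]
    have : π / 4 * ((4 * j : ℤ) : ℝ) = (j : ℝ) * π := by push_cast; ring
    rw [this, Real.sin_int_mul_pi]
    simp

theorem sg_sq (b : Bool) : sg b = 1 ∨ sg b = -1 := by
  cases b <;> simp [sg]

theorem ip_real {N : ℕ} (y z : Fin N → Bool) : ((ip y z : ℤ) : ℝ) = ∑ i, sg (y i) * sg (z i) := by
  unfold ip
  push_cast
  apply Finset.sum_congr rfl
  intro i _
  cases y i <;> cases z i <;> simp [sg, sgz]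

theorem exp_ip {N : ℕ} (y z : Fin N → Bool) (t : ℝ) (ht : Real.cos t ≠ 0) :
    Complex.exp ((t * ((ip y z : ℤ) : ℝ) : ℝ) * Complex.I) =
      ((Real.cos t : ℂ)) ^ N *
        ∏ i, (1 + Complex.I * ((Real.tan t : ℝ) : ℂ) * ((sg (y i) : ℂ) * (sg (z i) : ℂ))) := by
  rw [ip_real]
  have h1 : ((t * ∑ i, sg (y i) * sg (z i) : ℝ) : ℂ) * Complex.I =
      ∑ i, (((t * (sg (y i) * sg (z i)) : ℝ) : ℂ) * Complex.I) := by
    rw [Finset.mul_sum]
    push_cast
    rw [Finset.sum_mul]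
  rw [h1, Complex.exp_sum]
  have h2 : ((Real.cos t : ℂ)) ^ N = ∏ _i : Fin N, (Real.cos t : ℂ) := by
    rw [Finset.prod_const]; simp
  rw [h2, ← Finset.prod_mul_distrib]
  apply Finset.prod_congr rfl
  intro i _
  have hc : Complex.cos (t : ℂ) ≠ 0 := by rw [← Complex.ofReal_cos]; exact_mod_cast ht
  have hs : sg (y i) * sg (z i) = 1 ∨ sg (y i) * sg (z i) = -1 := by
    rcases sg_sq (y i) with h | h <;> rcases sg_sq (z i) with h' | h' <;> rw [h, h'] <;> norm_num
  rw [Complex.exp_mul_I, ← Complex.ofReal_cos, ← Complex.ofReal_sin, Real.tan_eq_sin_div_cos,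
    ← Complex.ofReal_mul (sg (y i))]
  rcases hs with h | h
  · rw [h, mul_one]
    push_cast
    field_simp
  · rw [h, mul_neg, mul_one, Real.cos_neg, Real.sin_neg]
    push_cast
    field_simp

variable {N : ℕ}

/-- the real characteristic function -/
noncomputable def Ph (q0 X : ℤ) (p p' : (Fin N → Bool) → ℝ) (t : ℝ) : ℝ :=
  ∑ y, ∑ z, p y * p' z * Real.cos (t * ((q0 + ip y z - X : ℤ) : ℝ))

theorem Ph_cont (q0 X : ℤ) (p p' : (Fin N → Bool) → ℝ) : Continuous (Ph q0 X p p') := by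
  unfold Ph
  fun_prop

theorem inversion (q0 X : ℤ) (p p' : (Fin N → Bool) → ℝ)
    (h4 : ∀ y z, p y ≠ 0 → p' z ≠ 0 → (4 : ℤ) ∣ q0 + ip y z - X) :
    ∫ t in (0:ℝ)..(π / 4), Ph q0 X p p' t =
      π / 4 * ∑ y, ∑ z, (if q0 + ip y z = X then p y * p' z else 0) := by
  unfold Ph
  rw [intervalIntegral.integral_finsetSum (fun y _ => (by fun_prop : Continuous _).intervalIntegrable _ _)]
  rw [Finset.mul_sum]
  apply Finset.sum_congr rfl; intro y _
  rw [intervalIntegral.integral_finsetSum (fun z _ => (by fun_prop : Continuous _).intervalIntegrable _ _)]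
  rw [Finset.mul_sum]
  apply Finset.sum_congr rfl; intro z _
  rw [intervalIntegral.integral_const_mul]
  by_cases hy : p y = 0
  · simp [hy]
  by_cases hz : p' z = 0
  · simp [hz]
  rw [integral_cos_int (h4 y z hy hz)]
  by_cases hx : q0 + ip y z = X
  · rw [if_pos (by omega), if_pos hx]; ring
  · rw [if_neg (by omega), if_neg hx]; ring

theorem Ph_lower (q0 X : ℤ) {p p' : (Fin N → Bool) → ℝ} (hp : IsPr univ p) (hp' : IsPr univ p')
    {V : ℝ} (hV : ∑ y, ∑ z, p y * p' z * (((q0 + ip y z - X : ℤ) : ℝ)) ^ 2 ≤ V) (t : ℝ) :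
    1 - V / 2 * t ^ 2 ≤ Ph q0 X p p' t := by
  have h1 : ∑ y, p y * ∑ z, p' z = 1 := by
    rw [← Finset.sum_mul, hp.sum_eq, hp'.sum_eq, one_mul]
  have h2 : ∑ y, ∑ z, (p y * p' z - t ^ 2 / 2 * (p y * p' z * (((q0 + ip y z - X : ℤ) : ℝ)) ^ 2))
      ≤ Ph q0 X p p' t := by
    unfold Ph
    apply Finset.sum_le_sum; intro y _
    apply Finset.sum_le_sum; intro z _
    have := Real.one_sub_sq_div_two_le_cos (x := t * ((q0 + ip y z - X : ℤ) : ℝ))
    have h3 := mul_le_mul_of_nonneg_left this (mul_nonneg (hp.nonneg y) (hp'.nonneg z))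
    refine le_trans (le_of_eq ?_) h3
    ring
  have h3 : ∑ y, ∑ z, (p y * p' z - t ^ 2 / 2 * (p y * p' z * (((q0 + ip y z - X : ℤ) : ℝ)) ^ 2))
      = 1 - t ^ 2 / 2 * ∑ y, ∑ z, p y * p' z * (((q0 + ip y z - X : ℤ) : ℝ)) ^ 2 := by
    simp only [Finset.sum_sub_distrib, ← Finset.mul_sum]
    rw [h1]
  have h4 := mul_le_mul_of_nonneg_left hV (show 0 ≤ t ^ 2 / 2 by positivity)
  linarith

theorem Ph_le_norm (q0 X : ℤ) (p p' : (Fin N → Bool) → ℝ) (t : ℝ) (ht : Real.cos t ≠ 0) :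
    |Ph q0 X p p' t| ≤ |Real.cos t| ^ N *
      ‖∑ y, ∑ z, ((p y : ℂ) * (p' z : ℂ)) *
        ∏ i, (1 + Complex.I * ((Real.tan t : ℝ) : ℂ) * ((sg (y i) : ℂ) * (sg (z i) : ℂ)))‖ := by
  have h1 : Ph q0 X p p' t = (∑ y, ∑ z, ((p y : ℂ) * (p' z : ℂ)) *
      Complex.exp ((t * ((q0 + ip y z - X : ℤ) : ℝ) : ℝ) * Complex.I)).re := by
    unfold Ph
    rw [Complex.re_sum]
    apply Finset.sum_congr rfl; intro y _
    rw [Complex.re_sum]
    apply Finset.sum_congr rfl; intro z _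
    rw [← Complex.ofReal_mul, Complex.re_ofReal_mul, Complex.exp_ofReal_mul_I_re]
  have h2 : ∑ y, ∑ z, ((p y : ℂ) * (p' z : ℂ)) *
      Complex.exp ((t * ((q0 + ip y z - X : ℤ) : ℝ) : ℝ) * Complex.I) =
      Complex.exp ((t * ((q0 - X : ℤ) : ℝ) : ℝ) * Complex.I) * ((Real.cos t : ℂ)) ^ N *
      ∑ y, ∑ z, ((p y : ℂ) * (p' z : ℂ)) *
        ∏ i, (1 + Complex.I * ((Real.tan t : ℝ) : ℂ) * ((sg (y i) : ℂ) * (sg (z i) : ℂ))) := by
    rw [Finset.mul_sum]
    apply Finset.sum_congr rfl; intro y _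
    rw [Finset.mul_sum]
    apply Finset.sum_congr rfl; intro z _
    have e1 : ((t * ((q0 + ip y z - X : ℤ) : ℝ) : ℝ) : ℂ) * Complex.I =
        ((t * ((q0 - X : ℤ) : ℝ) : ℝ) : ℂ) * Complex.I + ((t * ((ip y z : ℤ) : ℝ) : ℝ) : ℂ) * Complex.I := by
      push_cast; ring
    rw [e1, Complex.exp_add, exp_ip y z t ht]
    ring
  rw [h1, h2]
  refine (Complex.abs_re_le_norm _).trans (le_of_eq ?_)
  rw [norm_mul, norm_mul, Complex.norm_exp_ofReal_mul_I, one_mul, norm_pow, Complex.norm_real,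
    Real.norm_eq_abs]

theorem cosb {t s : ℝ} (hc : 0 < Real.cos t) (hs0 : 0 ≤ s) (hs : s ≤ Real.tan t ^ 2) :
    Real.cos t ≤ Real.exp (-(s / (2 * (1 + s)))) := by
  have h1 : Real.cos t ^ 2 ≤ (1 + s)⁻¹ := by
    rw [← Real.inv_one_add_tan_sq hc.ne']
    exact inv_anti₀ (by positivity) (by linarith)
  have h2 : (1 + s)⁻¹ ≤ Real.exp (-(s / (1 + s))) := by
    have h := Bk.log_ge_div hs0
    rw [Real.exp_neg]
    apply inv_anti₀ (Real.exp_pos _)
    rw [← Real.le_log_iff_exp_le (by positivity)]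
    exact h
  have h3 : Real.exp (-(s / (1 + s))) = Real.exp (-(s / (2 * (1 + s)))) ^ 2 := by
    rw [← Real.exp_nat_mul]
    congr 1
    push_cast
    field_simp
  have h4 : Real.cos t ^ 2 ≤ Real.exp (-(s / (2 * (1 + s)))) ^ 2 := by
    rw [← h3]; exact h1.trans h2
  exact (sq_le_sq₀ hc.le (Real.exp_pos _).le).1 h4

theorem Ph_upper (q0 X : ℤ) {p p' : (Fin N → Bool) → ℝ} (hp : IsPr univ p) (hp' : IsPr univ p')
    (hD : ∀ y, 2 ^ N * p y ≤ Real.exp (1 / 4000 * N)) (hD' : ∀ y, 2 ^ N * p' y ≤ Real.exp (1 / 4000 * N))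
    {t : ℝ} (h0 : 0 ≤ t) (h1 : t ≤ π / 4) :
    |Ph q0 X p p' t| ≤ Real.exp (-(0.49 * N * t ^ 2)) + Real.exp (-(N / 1000)) := by
  have hpi := Real.pi_pos
  have hc : 0 < Real.cos t := Real.cos_pos_of_mem_Ioo ⟨by linarith, by linarith⟩
  have hN : (0:ℝ) ≤ N := Nat.cast_nonneg N
  have htan0 : t ≤ Real.tan t := Real.le_tan h0 (by linarith)
  have htan1 : Real.tan t ≤ 1 := by
    rw [← Real.tan_pi_div_four]
    rcases h1.eq_or_lt with h | h
    · rw [h]
    · exact (Real.tan_lt_tan_of_nonneg_of_lt_pi_div_two h0 (by linarith) h).le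
  have hT0 : 0 ≤ Real.tan t := h0.trans htan0
  have hb := Ph_le_norm q0 X p p' t hc.ne'
  rw [abs_of_pos hc] at hb
  have hcN : 0 ≤ Real.cos t ^ N := by positivity
  rcases le_or_gt (Real.tan t) (1 / 10) with hT | hT
  · have hB := beck N (Real.tan t) (1 / 4000 * N) (by positivity) (by rwa [abs_of_nonneg hT0])
      p p' hp hp' hD hD'
    have ht2 : t ^ 2 ≤ Real.tan t ^ 2 := pow_le_pow_left₀ h0 htan0 2
    have hT2 : Real.tan t ^ 2 ≤ 1 / 100 := by
      calc Real.tan t ^ 2 ≤ (1 / 10) ^ 2 := pow_le_pow_left₀ hT0 hT 2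
        _ = 1 / 100 := by norm_num
    have hTt : Real.tan t ^ 2 ≤ 1.01 * t ^ 2 := by
      have e1 : Real.tan t ^ 2 = Real.sin t ^ 2 * (1 + Real.tan t ^ 2) := by
        have := Real.inv_one_add_tan_sq hc.ne'
        have h3 : (1 + Real.tan t ^ 2) = (Real.cos t ^ 2)⁻¹ := by rw [← this, inv_inv]
        rw [h3, Real.tan_eq_sin_div_cos, div_pow]
        field_simp
      have e2 : Real.sin t ^ 2 ≤ t ^ 2 := by
        have := Real.sin_le h0
        have h3 : 0 ≤ Real.sin t := Real.sin_nonneg_of_nonneg_of_le_pi h0 (by linarith)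
        exact pow_le_pow_left₀ h3 this 2
      rw [e1]
      calc Real.sin t ^ 2 * (1 + Real.tan t ^ 2) ≤ t ^ 2 * 1.01 :=
            mul_le_mul e2 (by linarith) (by positivity) (by positivity)
        _ = _ := by ring
    have hcos := cosb hc (sq_nonneg t) ht2
    have hcos2 : Real.cos t ≤ Real.exp (-(0.495 * t ^ 2)) := by
      refine hcos.trans (Real.exp_le_exp.2 (neg_le_neg ?_))
      rw [le_div_iff₀ (by positivity)]
      have : t ^ 2 * t ^ 2 ≤ t ^ 2 * (1 / 100) := mul_le_mul_of_nonneg_left (ht2.trans hT2) (sq_nonneg t)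
      have := sq_nonneg t
      linarith
    have hcN2 : Real.cos t ^ N ≤ Real.exp (-(0.495 * t ^ 2) * N) := by
      calc Real.cos t ^ N ≤ (Real.exp (-(0.495 * t ^ 2))) ^ N := pow_le_pow_left₀ hc.le hcos2 N
        _ = _ := by rw [← Real.exp_nat_mul]; congr 1; ring
    calc |Ph q0 X p p' t| ≤ Real.cos t ^ N * Real.exp (16 * Real.tan t ^ 2 * (1 / 4000 * N)) :=
          hb.trans (mul_le_mul_of_nonneg_left hB hcN)
      _ ≤ Real.exp (-(0.495 * t ^ 2) * N) * Real.exp (16 * Real.tan t ^ 2 * (1 / 4000 * N)) :=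
          mul_le_mul_of_nonneg_right hcN2 (Real.exp_pos _).le
      _ = Real.exp (-(0.495 * t ^ 2) * N + 16 * Real.tan t ^ 2 * (1 / 4000 * N)) := by
          rw [Real.exp_add]
      _ ≤ Real.exp (-(0.49 * N * t ^ 2)) := by
          apply Real.exp_le_exp.2
          have := mul_le_mul_of_nonneg_right hTt hN
          have h5 : 0 ≤ t ^ 2 * N := by positivity
          linarith
      _ ≤ _ := by linarith [Real.exp_pos (-((N:ℝ) / 1000))]
  · have hB := l2 N (Real.tan t) (1 / 4000 * N) (by positivity) (by rwa [abs_of_nonneg hT0])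
      p p' hp hp' hD hD'
    have hT2 : 1 / 100 ≤ Real.tan t ^ 2 := by
      calc (1 / 100 : ℝ) = (1 / 10) ^ 2 := by norm_num
        _ ≤ Real.tan t ^ 2 := pow_le_pow_left₀ (by norm_num) hT.le 2
    have hcos := cosb hc (by norm_num) hT2
    have hcN2 : Real.cos t ^ N ≤ Real.exp (-(0.004 : ℝ) * N) := by
      calc Real.cos t ^ N ≤ (Real.exp (-(0.004:ℝ))) ^ N := by
            refine pow_le_pow_left₀ hc.le (hcos.trans (Real.exp_le_exp.2 ?_)) N
            norm_num
        _ = _ := by rw [← Real.exp_nat_mul]; congr 1; ring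
    calc |Ph q0 X p p' t| ≤ Real.cos t ^ N * Real.exp (1 / 4000 * N) :=
          hb.trans (mul_le_mul_of_nonneg_left hB hcN)
      _ ≤ Real.exp (-(0.004 : ℝ) * N) * Real.exp (1 / 4000 * N) :=
          mul_le_mul_of_nonneg_right hcN2 (Real.exp_pos _).le
      _ = Real.exp (-(0.004 : ℝ) * N + 1 / 4000 * N) := by rw [Real.exp_add]
      _ ≤ Real.exp (-((N:ℝ) / 1000)) := by
          apply Real.exp_le_exp.2
          linarith
      _ ≤ _ := by linarith [Real.exp_pos (-(0.49 * (N:ℝ) * t ^ 2))]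

theorem tail_int {a b c : ℝ} (ha : 0 < a) (hb : 0 < b) (hbc : b ≤ c) :
    ∫ t in b..c, Real.exp (-(a * t ^ 2)) ≤ Real.exp (-(a * b ^ 2)) / (2 * a * b) := by
  have hd : ∀ t, HasDerivAt (fun t : ℝ => -(Real.exp (-(a * t ^ 2)) / (2 * a * b)))
      (t / b * Real.exp (-(a * t ^ 2))) t := by
    intro t
    have e1 : HasDerivAt (fun t : ℝ => -(a * t ^ 2)) (-(a * (2 * t))) t := by
      have := (((hasDerivAt_id t).pow 2).const_mul a).neg
      refine HasDerivAt.congr_deriv this ?_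
      simp
    have e2 := (e1.exp.div_const (2 * a * b)).neg
    refine HasDerivAt.congr_deriv e2 ?_
    field_simp
  have h1 : ∫ t in b..c, Real.exp (-(a * t ^ 2)) ≤ ∫ t in b..c, t / b * Real.exp (-(a * t ^ 2)) := by
    apply intervalIntegral.integral_mono_on hbc
    · exact (by fun_prop : Continuous fun t : ℝ => Real.exp (-(a * t ^ 2))).intervalIntegrable _ _
    · exact (by fun_prop : Continuous fun t : ℝ => t / b * Real.exp (-(a * t ^ 2))).intervalIntegrable _ _
    · intro t ht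
      have : 1 ≤ t / b := (one_le_div hb).2 ht.1
      exact le_mul_of_one_le_left (Real.exp_pos _).le this
  have h2 : ∫ t in b..c, t / b * Real.exp (-(a * t ^ 2)) =
      -(Real.exp (-(a * c ^ 2)) / (2 * a * b)) - -(Real.exp (-(a * b ^ 2)) / (2 * a * b)) := by
    apply intervalIntegral.integral_eq_sub_of_hasDerivAt (fun t _ => hd t)
    exact (by fun_prop : Continuous fun t : ℝ => t / b * Real.exp (-(a * t ^ 2))).intervalIntegrable _ _
  have h3 : 0 ≤ Real.exp (-(a * c ^ 2)) / (2 * a * b) := by positivity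
  linarith

theorem exp_num : Real.exp (-(0.7056 : ℝ)) ≤ 0.4945 := by
  rw [Real.exp_neg]
  have h := Real.sum_le_exp_of_nonneg (x := (0.7056:ℝ)) (by norm_num) 5
  have h2 : (2.0225 : ℝ) ≤ Real.exp 0.7056 := by
    refine le_trans ?_ h
    norm_num [Finset.sum_range_succ, Nat.factorial]
  calc (Real.exp 0.7056)⁻¹ ≤ (2.0225 : ℝ)⁻¹ := inv_anti₀ (by norm_num) h2
    _ ≤ 0.4945 := by norm_num

theorem small_exp {N : ℝ} (hN : 1000000 ≤ N) : Real.exp (-(N / 1000)) ≤ 0.01 / Real.sqrt N := by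
  have h0 : 0 < N := by linarith
  have h1 := Real.pow_div_factorial_le_exp (N / 1000) (by positivity) 3
  have h2 : Real.sqrt N ≤ N := by
    rw [Real.sqrt_le_left h0.le]
    nlinarith
  have hs : 0 < Real.sqrt N := Real.sqrt_pos.2 h0
  rw [Real.exp_neg, le_div_iff₀ hs, inv_mul_le_iff₀ (Real.exp_pos _)]
  refine le_trans h2 ?_
  have h3 : N * 100 ≤ (N / 1000) ^ 3 / (Nat.factorial 3 : ℕ) := by
    norm_num [Nat.factorial]
    have : 1000000 * 1000000 ≤ N * N := mul_le_mul hN hN (by norm_num) h0.le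
    have h4 := mul_le_mul_of_nonneg_left this h0.le
    nlinarith
  linarith

end Ed

theorem edge : EdgeStmt := by
  refine ⟨1 / 4000, by norm_num, 1 / 100, by norm_num, 1000000, ?_⟩
  intro N hN q0 X p p' hp hp' hD hD' h4 hV
  have hNr : (1000000 : ℝ) ≤ N := by exact_mod_cast hN
  have hN0 : (0:ℝ) < N := by linarith
  set r := Real.sqrt N with hr
  have hr0 : 0 < r := Real.sqrt_pos.2 hN0
  have hr2 : r ^ 2 = N := Real.sq_sqrt hN0.le
  have hr1 : 1000 ≤ r := by
    rw [hr]; apply Real.le_sqrt_of_sq_le; linarith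
  set b := 1.2 / r with hb
  have hb0 : 0 < b := by positivity
  have hbN : N * b ^ 2 = 1.44 := by rw [hb, div_pow, hr2]; field_simp; norm_num
  have hpi := Real.pi_gt_three
  have hb1 : b ≤ π / 4 := by
    have : b ≤ 1.2 / 1000 := div_le_div_of_nonneg_left (by norm_num) (by norm_num) hr1
    linarith
  have inv := Ed.inversion q0 X p p' h4
  have hcont := Ed.Ph_cont q0 X p p'
  have hsplit : (∫ t in (0:ℝ)..b, Ed.Ph q0 X p p' t) + ∫ t in b..(π / 4), Ed.Ph q0 X p p' t =
      ∫ t in (0:ℝ)..(π / 4), Ed.Ph q0 X p p' t :=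
    intervalIntegral.integral_add_adjacent_intervals (hcont.intervalIntegrable _ _)
      (hcont.intervalIntegrable _ _)
  have h1 : (1.2 - 0.6048) / r ≤ ∫ t in (0:ℝ)..b, Ed.Ph q0 X p p' t := by
    have e1 : ∫ t in (0:ℝ)..b, (1 - 21 / 10 * N / 2 * t ^ 2) ≤ ∫ t in (0:ℝ)..b, Ed.Ph q0 X p p' t := by
      apply intervalIntegral.integral_mono_on hb0.le
      · exact (by fun_prop : Continuous fun t : ℝ => 1 - 21 / 10 * (N:ℝ) / 2 * t ^ 2).intervalIntegrable _ _
      · exact hcont.intervalIntegrable _ _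
      · intro t _
        exact Ed.Ph_lower q0 X hp hp' hV t
    have e2 : ∫ t in (0:ℝ)..b, (1 - 21 / 10 * (N:ℝ) / 2 * t ^ 2) = b - 0.35 * (N * b ^ 2) * b := by
      rw [intervalIntegral.integral_sub
        ((by fun_prop : Continuous fun t : ℝ => (1:ℝ)).intervalIntegrable _ _)
        ((by fun_prop : Continuous fun t : ℝ => 21 / 10 * (N:ℝ) / 2 * t ^ 2).intervalIntegrable _ _)]
      rw [intervalIntegral.integral_const_mul, integral_pow, intervalIntegral.integral_const]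
      simp
      ring
    rw [e2, hbN] at e1
    refine le_trans (le_of_eq ?_) e1
    rw [hb]; ring
  have h2 : -(0.4205 / r + 0.01 / r) ≤ ∫ t in b..(π / 4), Ed.Ph q0 X p p' t := by
    have e1 : ∫ t in b..(π / 4), -(Real.exp (-(0.49 * N * t ^ 2)) + Real.exp (-((N:ℝ) / 1000))) ≤
        ∫ t in b..(π / 4), Ed.Ph q0 X p p' t := by
      apply intervalIntegral.integral_mono_on hb1
      · exact (by fun_prop : Continuous fun t : ℝ =>
          -(Real.exp (-(0.49 * N * t ^ 2)) + Real.exp (-((N:ℝ) / 1000)))).intervalIntegrable _ _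
      · exact hcont.intervalIntegrable _ _
      · intro t ht
        have := Ed.Ph_upper q0 X hp hp' hD hD' (hb0.le.trans ht.1) ht.2
        exact (abs_le.1 this).1
    have e2 : ∫ t in b..(π / 4), -(Real.exp (-(0.49 * N * t ^ 2)) + Real.exp (-((N:ℝ) / 1000))) =
        -((∫ t in b..(π / 4), Real.exp (-(0.49 * N * t ^ 2))) + (π / 4 - b) * Real.exp (-((N:ℝ) / 1000))) := by
      rw [intervalIntegral.integral_neg, intervalIntegral.integral_add
        ((by fun_prop : Continuous fun t : ℝ => Real.exp (-(0.49 * N * t ^ 2))).intervalIntegrable _ _)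
        ((by fun_prop : Continuous fun t : ℝ => Real.exp (-((N:ℝ) / 1000))).intervalIntegrable _ _),
        intervalIntegral.integral_const, smul_eq_mul]
    have e3 := Ed.tail_int (a := 0.49 * N) (b := b) (c := π / 4) (by positivity) hb0 hb1
    have e4 : Real.exp (-(0.49 * N * b ^ 2)) / (2 * (0.49 * N) * b) ≤ 0.4205 / r := by
      have f1 : 0.49 * (N:ℝ) * b ^ 2 = 0.7056 := by rw [mul_assoc, hbN]; norm_num
      have f2 : 2 * (0.49 * (N:ℝ)) * b = 1.176 * r := by
        rw [hb, ← hr2]; field_simp; norm_num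
      rw [f1, f2, div_le_div_iff₀ (by positivity) hr0]
      have := Ed.exp_num
      have f3 := mul_le_mul_of_nonneg_right this hr0.le
      linarith
    have e5 := Ed.small_exp hNr
    have e6 : (π / 4 - b) * Real.exp (-((N:ℝ) / 1000)) ≤ 0.01 / r := by
      have : (π / 4 - b) ≤ 1 := by have := Real.pi_le_four; linarith
      calc (π / 4 - b) * Real.exp (-((N:ℝ) / 1000)) ≤ 1 * Real.exp (-((N:ℝ) / 1000)) :=
            mul_le_mul_of_nonneg_right this (Real.exp_pos _).le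
        _ ≤ _ := by rw [one_mul]; exact e5
    rw [e2] at e1
    linarith
  rw [← hsplit] at inv
  have hS : 0.16 / r ≤ π / 4 * ∑ y, ∑ z, (if q0 + ip y z = X then p y * p' z else 0) := by
    rw [← inv]
    have : 0.16 / r ≤ (1.2 - 0.6048) / r + -(0.4205 / r + 0.01 / r) := by
      have h0 : 0 ≤ 1 / r := by positivity
      have : (1.2 - 0.6048) / r + -(0.4205 / r + 0.01 / r) - 0.16 / r = 0.0047 * (1 / r) := by ring
      linarith
    linarith
  have hnn : 0 ≤ ∑ y, ∑ z, (if q0 + ip y z = X then p y * p' z else 0) := by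
    apply Finset.sum_nonneg; intro y _
    apply Finset.sum_nonneg; intro z _
    split_ifs
    · exact mul_nonneg (hp.nonneg y) (hp'.nonneg z)
    · exact le_rfl
  have h5 : π / 4 * ∑ y, ∑ z, (if q0 + ip y z = X then p y * p' z else 0) ≤
      1 * ∑ y, ∑ z, (if q0 + ip y z = X then p y * p' z else 0) :=
    mul_le_mul_of_nonneg_right (by have := Real.pi_le_four; linarith) hnn
  have h6 : 1 / 100 / r ≤ 0.16 / r := div_le_div_of_nonneg_right (by norm_num) hr0.le
  linarith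

end Pool.Agent.MP3884c4
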