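import Pool.Agent.Lib.MP_3884c4_co.Defs

/-!
Entropy on the cube: lower bound for `kap`, subadditivity, lower bounds for `Psi`.
-/

set_option autoImplicit false

noncomputable section

namespace Pool.Agent.MP3884c4

open Finset

private theorem sg_true : sg true = 1 := rfl
private theorem sg_false : sg false = -1 := rfl

private theorem abs_sg (b : Bool) : |sg b| = 1 := by cases b <;> simp [sg]

theorem kap_neg (m : ℝ) : kap (-m) = kap m := by
  unfold kap
  rw [show (1 + -m) = 1 - m by ring, show (1 - -m) = 1 + m by ring]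
  ring

theorem kap_one : kap 1 = Real.log 2 := by
  unfold kap
  norm_num

theorem kap_neg_one : kap (-1) = Real.log 2 := by
  rw [kap_neg, kap_one]

theorem kap_lower {m : ℝ} (h : |m| ≤ 1) : m ^ 2 / 2 + m ^ 4 / 12 ≤ kap m := by
  rcases lt_or_eq_of_le h with h | h
  · -- power series
    have h1 := Real.hasSum_log_sub_log_of_abs_lt_one h
    have h2 : |m ^ 2| < 1 := by
      rw [abs_pow]
      exact pow_lt_one₀ (abs_nonneg _) h (by norm_num)
    have h3 := Real.hasSum_pow_div_log_of_abs_lt_one h2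
    have h4 := (h1.mul_left m).sub h3
    have hm := abs_lt.mp h
    have hpos1 : 0 < 1 + m := by linarith
    have hpos2 : 0 < 1 - m := by linarith
    have hlog : Real.log (1 - m ^ 2) = Real.log (1 + m) + Real.log (1 - m) := by
      rw [← Real.log_mul hpos1.ne' hpos2.ne']
      congr 1
      ring
    have h5 : m * (Real.log (1 + m) - Real.log (1 - m)) - -Real.log (1 - m ^ 2) = 2 * kap m := by
      rw [hlog]
      unfold kap
      ring
    rw [h5] at h4
    have h6 : ∀ n : ℕ, m * (2 * (1 / (2 * (n : ℝ) + 1)) * m ^ (2 * n + 1))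
        - (m ^ 2) ^ (n + 1) / ((n : ℝ) + 1)
        = (m ^ 2) ^ (n + 1) / ((2 * (n : ℝ) + 1) * ((n : ℝ) + 1)) := by
      intro n
      have ha : (2 * (n : ℝ) + 1) ≠ 0 := by positivity
      have hb : ((n : ℝ) + 1) ≠ 0 := by positivity
      have hc : m * m ^ (2 * n + 1) = (m ^ 2) ^ (n + 1) := by
        rw [← pow_succ', ← pow_mul]
        congr 1
      have hd : m * (2 * (1 / (2 * (n : ℝ) + 1)) * m ^ (2 * n + 1))
        = 2 * (1 / (2 * (n : ℝ) + 1)) * (m ^ 2) ^ (n + 1) := by
        rw [← hc]; ring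
      rw [hd]
      field_simp
      ring
    have h7 := sum_le_hasSum (Finset.range 2) (fun n _ => by
      rw [h6 n]
      positivity) h4
    rw [Finset.sum_range_succ, Finset.sum_range_one, h6 0, h6 1] at h7
    norm_num at h7
    nlinarith [h7]
  · have hlog : (0.69 : ℝ) < Real.log 2 := by
      have := Real.log_two_gt_d9
      linarith
    rcases (abs_eq (zero_le_one)).mp h with h | h
    · rw [h, kap_one]; norm_num at hlog ⊢; linarith
    · rw [h, kap_neg_one]; norm_num at hlog ⊢; linarith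

theorem kap_lower' {m : ℝ} (h : |m| ≤ 1) : m ^ 2 / 2 ≤ kap m :=
  le_trans (by nlinarith [sq_nonneg (m ^ 2)]) (kap_lower h)

section

variable {ι : Type*} [Fintype ι] [DecidableEq ι] {R : Finset ι} {G : Finset (ι → Bool)}
  {p : (ι → Bool) → ℝ}

theorem abs_mean_le (hp : IsPr G p) (i : ι) : |mean p i| ≤ 1 := by
  unfold mean
  calc |∑ y, p y * sg (y i)| ≤ ∑ y, |p y * sg (y i)| := Finset.abs_sum_le_sum_abs _ _
    _ = ∑ y, p y := by
        refine Finset.sum_congr rfl fun y _ => ?_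
        rw [abs_mul, abs_sg, mul_one, abs_of_nonneg (hp.nonneg y)]
    _ = 1 := hp.sum_eq

/-- marginal probabilities in terms of the mean -/
theorem sum_filter_eq_mean (hp : IsPr G p) (i : ι) (b : Bool) :
    ∑ y ∈ univ.filter (fun y : ι → Bool => y i = b), p y = (1 + sg b * mean p i) / 2 := by
  have h1 : (∑ y, p y * ((1 + sg b * sg (y i)) / 2)) = (1 + sg b * mean p i) / 2 := by
    have h2 : (1 + sg b * mean p i) / 2 = (∑ y, p y + ∑ y, sg b * (p y * sg (y i))) / 2 := by
      rw [hp.sum_eq, mean, Finset.mul_sum]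
    rw [h2, ← Finset.sum_add_distrib, Finset.sum_div]
    refine Finset.sum_congr rfl fun y _ => ?_
    ring
  rw [← h1, Finset.sum_filter]
  refine Finset.sum_congr rfl fun y _ => ?_
  cases b <;> cases hy : y i <;> simp [sg]

theorem mean_factor_nonneg (hp : IsPr G p) (i : ι) (b : Bool) :
    0 ≤ (1 + sg b * mean p i) / 2 := by
  rw [← sum_filter_eq_mean hp i b]
  exact Finset.sum_nonneg fun y _ => hp.nonneg y

theorem mean_factor_pos (hp : IsPr G p) (i : ι) {y : ι → Bool} (hy : 0 < p y) :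
    0 < (1 + sg (y i) * mean p i) / 2 := by
  rw [← sum_filter_eq_mean hp i (y i)]
  refine lt_of_lt_of_le hy ?_
  exact Finset.single_le_sum (f := p) (fun z _ => hp.nonneg z)
    (by simp : y ∈ univ.filter (fun z : ι → Bool => z i = y i))

theorem gibbs {α : Type*} [Fintype α] {G : Finset α} {p r : α → ℝ} (hp : IsPr G p)
    (hr0 : ∀ x, 0 ≤ r x) (hr : ∀ x, 0 < p x → 0 < r x) (hr1 : ∑ x, r x ≤ 1) :
    ∑ x, p x * Real.log (r x) ≤ ent p := by
  unfold ent
  have key : ∀ x, p x * Real.log (r x) ≤ p x * Real.log (p x) + (r x - p x) := by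
    intro x
    rcases (hp.nonneg x).eq_or_lt with h | h
    · rw [← h]; simp; exact hr0 x
    · have hrx := hr x h
      have h1 : Real.log (r x / p x) ≤ r x / p x - 1 := Real.log_le_sub_one_of_pos (by positivity)
      rw [Real.log_div hrx.ne' h.ne'] at h1
      have h2 := mul_le_mul_of_nonneg_left h1 h.le
      have h3 : p x * (r x / p x - 1) = r x - p x := by field_simp
      rw [h3] at h2
      linarith
  calc ∑ x, p x * Real.log (r x) ≤ ∑ x, (p x * Real.log (p x) + (r x - p x)) :=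
        Finset.sum_le_sum fun x _ => key x
    _ = ∑ x, p x * Real.log (p x) + (∑ x, r x - ∑ x, p x) := by
        rw [Finset.sum_add_distrib, Finset.sum_sub_distrib]
    _ ≤ ∑ x, p x * Real.log (p x) := by
        rw [hp.sum_eq]; linarith

theorem sum_prod_mean (m : ι → ℝ) :
    ∑ y : ι → Bool, ∏ i, ((1 + sg (y i) * m i) / 2) = 1 := by
  have h := Finset.prod_univ_sum (fun _ : ι => (univ : Finset Bool))
    (fun (i : ι) (b : Bool) => (1 + sg b * m i) / 2)
  rw [Fintype.piFinset_univ] at h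
  rw [← h]
  refine Finset.prod_eq_one fun i _ => ?_
  rw [Fintype.sum_bool, sg_true, sg_false]
  ring

theorem entropy_coord (hp : IsPr G p) (i : ι) :
    ∑ y, p y * Real.log ((1 + sg (y i) * mean p i) / 2) = kap (mean p i) - Real.log 2 := by
  have h1 : ∑ y, p y * Real.log ((1 + sg (y i) * mean p i) / 2)
      = ∑ b : Bool, ((1 + sg b * mean p i) / 2) * Real.log ((1 + sg b * mean p i) / 2) := by
    rw [← Finset.sum_fiberwise (s := univ) (g := fun y : ι → Bool => y i)]
    refine Finset.sum_congr rfl fun b _ => ?_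
    rw [← sum_filter_eq_mean hp i b, Finset.sum_mul]
    refine Finset.sum_congr rfl fun y hy => ?_
    rw [Finset.mem_filter] at hy
    rw [sum_filter_eq_mean hp i b, hy.2]
  rw [h1, Fintype.sum_bool, sg_true, sg_false]
  set m := mean p i
  have hlog : ∀ x : ℝ, x / 2 * Real.log (x / 2) = x * Real.log x / 2 - x / 2 * Real.log 2 := by
    intro x
    rcases eq_or_ne x 0 with h | h
    · simp [h]
    · rw [Real.log_div h (by norm_num)]
      ring
  rw [hlog, hlog]
  unfold kap
  rw [show 1 + 1 * m = 1 + m by ring, show 1 + -1 * m = 1 - m by ring]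
  ring

/-- subadditivity of entropy, all coordinates -/
theorem subadd_univ (hp : IsPr G p) :
    ∑ i, kap (mean p i) ≤ (Fintype.card ι : ℝ) * Real.log 2 + ent p := by
  have h0 : ∀ y : ι → Bool, 0 ≤ ∏ i, ((1 + sg (y i) * mean p i) / 2) := by
    intro y
    apply Finset.prod_nonneg
    intro i _
    exact mean_factor_nonneg hp i (y i)
  have h0' : ∀ y : ι → Bool, 0 < p y → 0 < ∏ i, ((1 + sg (y i) * mean p i) / 2) := by
    intro y hy
    apply Finset.prod_pos
    intro i _
    exact mean_factor_pos hp i hy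
  have h1 := gibbs hp h0 h0' (sum_prod_mean (mean p)).le
  have h3 : ∀ y, p y * Real.log (∏ i, ((1 + sg (y i) * mean p i) / 2))
      = ∑ i, p y * Real.log ((1 + sg (y i) * mean p i) / 2) := by
    intro y
    rcases (hp.nonneg y).eq_or_lt with h | h
    · simp [← h]
    · have h4 : ∀ i ∈ (univ : Finset ι), (1 + sg (y i) * mean p i) / 2 ≠ 0 := by
        intro i _
        exact (mean_factor_pos hp i h).ne'
      rw [Real.log_prod h4, Finset.mul_sum]
  have h2 : ∑ y, p y * Real.log (∏ i, ((1 + sg (y i) * mean p i) / 2))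
      = ∑ i, (kap (mean p i) - Real.log 2) := by
    rw [Finset.sum_congr rfl fun y _ => h3 y, Finset.sum_comm]
    apply Finset.sum_congr rfl
    intro i _
    exact entropy_coord hp i
  rw [h2, Finset.sum_sub_distrib, Finset.sum_const, nsmul_eq_mul, Finset.card_univ] at h1
  linarith

theorem exists_mean_frozen (hp : IsPr G p) (hF : Frozen R G) {i : ι} (hi : i ∈ R) :
    ∃ b : Bool, mean p i = sg b ∧ ∀ y ∈ G, y i = b := by
  have hne : G.Nonempty := by
    rw [Finset.nonempty_iff_ne_empty]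
    intro h
    have := hp.sum_eq
    rw [Finset.sum_eq_zero (fun x _ => hp.supp x (by simp [h]))] at this
    exact zero_ne_one this
  obtain ⟨a, ha⟩ := hne
  refine ⟨a i, ?_, fun y hy => hF y hy a ha i hi⟩
  unfold mean
  have : ∀ y, p y * sg (y i) = p y * sg (a i) := by
    intro y
    by_cases hy : y ∈ G
    · rw [hF y hy a ha i hi]
    · rw [hp.supp y hy]; simp
  rw [Finset.sum_congr rfl fun y _ => this y, ← Finset.sum_mul, hp.sum_eq, one_mul]

theorem kap_sg (b : Bool) : kap (sg b) = Real.log 2 := by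
  cases b
  · rw [sg_false, kap_neg_one]
  · rw [sg_true, kap_one]

theorem subadd (hp : IsPr G p) (hF : Frozen R G) :
    ∑ i ∈ Rᶜ, kap (mean p i) ≤ ((Rᶜ).card : ℝ) * Real.log 2 + ent p := by
  have h1 := subadd_univ hp
  have h2 : ∑ i ∈ R, kap (mean p i) = (R.card : ℝ) * Real.log 2 := by
    rw [Finset.sum_congr rfl (g := fun _ => Real.log 2), Finset.sum_const, nsmul_eq_mul]
    intro i hi
    obtain ⟨b, hb, -⟩ := exists_mean_frozen hp hF hi
    rw [hb, kap_sg]
  have h3 := Finset.sum_add_sum_compl R (fun i => kap (mean p i))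
  have h4 : (R.card : ℝ) + ((Rᶜ).card : ℝ) = (Fintype.card ι : ℝ) := by
    rw [← Nat.cast_add, Finset.card_add_card_compl]
  rw [← h4] at h1
  nlinarith [h1, h2, h3]

private theorem mn_vf_aux (R : Finset ι) (p : (ι → Bool) → ℝ) (i : ι) :
    mn p (vf R) i = if i ∈ R then 0 else mean p i := by
  unfold mn vf mean
  split_ifs with h
  · simp
  · rfl

private theorem sum_mn_vf_sq_aux (R : Finset ι) (p : (ι → Bool) → ℝ) :
    ∑ i, (mn p (vf R) i) ^ 2 = ∑ i ∈ Rᶜ, (mean p i) ^ 2 := by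
  rw [← Finset.sum_add_sum_compl R (fun i => (mn p (vf R) i) ^ 2)]
  rw [Finset.sum_eq_zero (s := R), zero_add]
  · refine Finset.sum_congr rfl fun i hi => ?_
    rw [mn_vf_aux, if_neg (Finset.mem_compl.mp hi)]
  · intro i hi
    rw [mn_vf_aux, if_pos hi]
    norm_num

theorem Psi_lower_four (hp : IsPr G p) (hF : Frozen R G) :
    ∑ i ∈ Rᶜ, (mean p i) ^ 4 ≤ 12 * Psi R p := by
  have h1 := subadd hp hF
  have h2 : ∑ i ∈ Rᶜ, ((mean p i) ^ 2 / 2 + (mean p i) ^ 4 / 12) ≤ ∑ i ∈ Rᶜ, kap (mean p i) :=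
    Finset.sum_le_sum fun i _ => kap_lower (abs_mean_le hp i)
  rw [Finset.sum_add_distrib, ← Finset.sum_div, ← Finset.sum_div] at h2
  unfold Psi
  rw [sum_mn_vf_sq_aux]
  linarith

theorem Psi_nonneg (hp : IsPr G p) (hF : Frozen R G) : 0 ≤ Psi R p := by
  have h1 := Psi_lower_four hp hF
  have h2 : 0 ≤ ∑ i ∈ Rᶜ, (mean p i) ^ 4 := Finset.sum_nonneg fun i _ => by positivity
  linarith

theorem Psi_lower (hp : IsPr G p) (hF : Frozen R G) :
    (∑ i ∈ Rᶜ, (mean p i) ^ 2) ^ 2 ≤ 12 * (Fintype.card ι : ℝ) * Psi R p := by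
  have h1 := Psi_lower_four hp hF
  have h2 : (∑ i ∈ Rᶜ, (mean p i) ^ 2) ^ 2
      ≤ ((Rᶜ).card : ℝ) * ∑ i ∈ Rᶜ, ((mean p i) ^ 2) ^ 2 := sq_sum_le_card_mul_sum_sq
  have h3 : ∑ i ∈ Rᶜ, ((mean p i) ^ 2) ^ 2 = ∑ i ∈ Rᶜ, (mean p i) ^ 4 :=
    Finset.sum_congr rfl fun i _ => by ring
  rw [h3] at h2
  have h4 : ((Rᶜ).card : ℝ) ≤ (Fintype.card ι : ℝ) := by
    exact_mod_cast Finset.card_le_univ _
  have h5 : 0 ≤ ∑ i ∈ Rᶜ, (mean p i) ^ 4 := Finset.sum_nonneg fun i _ => by positivity
  calc (∑ i ∈ Rᶜ, (mean p i) ^ 2) ^ 2 ≤ ((Rᶜ).card : ℝ) * ∑ i ∈ Rᶜ, (mean p i) ^ 4 := h2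
    _ ≤ (Fintype.card ι : ℝ) * (12 * Psi R p) :=
        mul_le_mul h4 h1 h5 (Nat.cast_nonneg _)
    _ = 12 * (Fintype.card ι : ℝ) * Psi R p := by ring

end

end Pool.Agent.MP3884c4
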