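import Pool.Agent.Lib.MP_3884c4_co.Aml
import Pool.Agent.Lib.MP_3884c4_co.Stmts

/-!
Module E of MP_3884c4_co: the exact theorem on the product cube from the K replica theorem and the
approximate theorem.
-/

set_option autoImplicit false

noncomputable section

namespace Pool.Agent.MP3884c4

open Finset

/-- a dense set has an exact minimiser with small potential -/
theorem exists_small_psi {N : ℕ} {G : Finset (Fin N → Bool)} (hG : G.Nonempty) {δ : ℝ}
    (hc : Real.exp (-δ) * 2 ^ N ≤ (G.card : ℝ)) : ∃ p, IsMin ∅ G p ∧ Psi ∅ p ≤ δ := by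
  classical
  obtain ⟨p, hp⟩ := exists_isMin (R := ∅) hG (by intro y _ z _ i hi; simp at hi)
  refine ⟨p, hp, ?_⟩
  have hcpos : (0 : ℝ) < G.card := by exact_mod_cast hG.card_pos
  let u : (Fin N → Bool) → ℝ := fun x => if x ∈ G then 1 / (G.card : ℝ) else 0
  have hu : IsPr G u := by
    refine ⟨fun x => ?_, fun x hx => ?_, ?_⟩
    · simp only [u]
      split_ifs
      · positivity
      · exact le_refl _
    · simp [u, hx]
    · simp only [u]
      rw [Finset.sum_ite_mem, Finset.univ_inter, Finset.sum_const, nsmul_eq_mul]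
      field_simp
  have hent : ent u = - Real.log G.card := by
    unfold ent
    have : ∀ x, u x * Real.log (u x) = if x ∈ G then 1 / (G.card : ℝ) * (- Real.log G.card) else 0 := by
      intro x
      simp only [u]
      split_ifs
      · rw [one_div, Real.log_inv]
      · simp
    rw [Finset.sum_congr rfl (fun x _ => this x), Finset.sum_ite_mem, Finset.univ_inter,
      Finset.sum_const, nsmul_eq_mul]
    field_simp
  have h1 := hp.min u hu
  have h2 : Psi ∅ u ≤ N * Real.log 2 - Real.log G.card := by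
    unfold Psi
    rw [hent]
    have : 0 ≤ ∑ i, (mn u (vf ∅) i) ^ 2 := Finset.sum_nonneg (fun i _ => sq_nonneg _)
    simp only [Finset.compl_empty, Finset.card_univ, Fintype.card_fin]
    linarith
  have h3 : -δ + N * Real.log 2 ≤ Real.log G.card := by
    have := Real.log_le_log (by positivity) hc
    rwa [Real.log_mul (Real.exp_pos _).ne' (by positivity), Real.log_exp, Real.log_pow] at this
  linarith

theorem exact_of (hK : KRepStmt) (hGAT : GATStmt)
    (hPsi : ∀ (N : ℕ) (G : Finset (Fin N → Bool)) (p : (Fin N → Bool) → ℝ), IsPr G p →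
      (∑ i, (mean p i) ^ 2) ^ 2 ≤ 12 * (N : ℝ) * Psi ∅ p) : ExactStmt := by
  classical
  obtain ⟨d0, hd0, hK⟩ := hK
  obtain ⟨d1, hd1, hGAT⟩ := hGAT
  -- the density
  obtain ⟨d, hd, hdd0, hdd1, hdd2⟩ : ∃ d : ℝ, 0 < d ∧ 2 * d ≤ 40 * d0 ∧ 2 * d ≤ 40 * d1 ∧
      24 * d ≤ 40 * d1 ^ 2 := by
    refine ⟨min d0 (min d1 (d1 ^ 2)), ?_, ?_, ?_, ?_⟩
    · exact lt_min hd0 (lt_min hd1 (by positivity))
    · have := min_le_left d0 (min d1 (d1 ^ 2)); linarith
    · have := (min_le_right d0 (min d1 (d1 ^ 2))).trans (min_le_left _ _); linarith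
    · have := (min_le_right d0 (min d1 (d1 ^ 2))).trans (min_le_right _ _)
      nlinarith [sq_nonneg d1]
  refine ⟨d, hd, fun K => ?_⟩
  obtain ⟨e0, he0, N0, hK⟩ := hK K
  obtain ⟨m0, hGAT⟩ := hGAT K e0 he0
  obtain ⟨t1, ht1⟩ := exists_nat_gt (Real.log 2 / d)
  refine ⟨max N0 (max m0 t1), fun t ht A hA4 hAc => ?_⟩
  have htN : N0 ≤ 40 * t := by have := le_max_left N0 (max m0 t1); omega
  have htm : m0 ≤ 40 * t := by
    have := (le_max_left m0 t1).trans (le_max_right N0 (max m0 t1)); omega
  have htt : t1 ≤ t := by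
    have := (le_max_right m0 t1).trans (le_max_right N0 (max m0 t1)); omega
  have httr : (t1 : ℝ) ≤ t := by exact_mod_cast htt
  have hlog : Real.log 2 ≤ d * t := by
    rw [div_lt_iff₀ hd] at ht1
    nlinarith
  have ht0 : (0 : ℝ) ≤ t := by positivity
  clear httr ht1 ht
  revert A
  obtain ⟨N, hN⟩ : ∃ N : ℕ, N = 40 * t := ⟨_, rfl⟩
  rw [← hN] at htN htm ⊢
  intro A hA4 hAc
  have hNr : (N : ℝ) = 40 * t := by rw [hN]; push_cast; ring
  -- fibres
  let Aw : (Fin N → Bool) → Finset (Fin N → Bool) := fun w => univ.filter (fun y => (w, y) ∈ A)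
  have hAw : ∀ w y, y ∈ Aw w ↔ (w, y) ∈ A := by
    intro w y
    simp [Aw]
  have hsum : (A.card : ℝ) = ∑ w, ((Aw w).card : ℝ) := by
    have : A.card = ∑ w, (Aw w).card := by
      rw [Finset.card_eq_sum_card_fiberwise (f := Prod.fst) (t := univ) (fun x _ => Finset.mem_univ _)]
      refine Finset.sum_congr rfl (fun w _ => ?_)
      refine Finset.card_bij (fun x _ => x.2) ?_ ?_ ?_
      · intro x hx
        rw [Finset.mem_filter] at hx
        rw [hAw]
        obtain ⟨x1, x2⟩ := x
        obtain ⟨hx1, hx2⟩ := hx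
        subst hx2
        exact hx1
      · intro x hx y hy hxy
        rw [Finset.mem_filter] at hx hy
        exact Prod.ext (hx.2.trans hy.2.symm) hxy
      · intro y hy
        rw [hAw] at hy
        exact ⟨(w, y), by rw [Finset.mem_filter]; exact ⟨hy, rfl⟩, rfl⟩
    rw [this]
    push_cast
    rfl
  let W : Finset (Fin N → Bool) :=
    univ.filter (fun w => Real.exp (-(2 * d * t)) * 2 ^ N ≤ ((Aw w).card : ℝ))
  have hW : ∀ w, w ∈ W ↔ Real.exp (-(2 * d * t)) * 2 ^ N ≤ ((Aw w).card : ℝ) := by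
    intro w
    simp [W]
  have hcube : ∀ s : Finset (Fin N → Bool), (s.card : ℝ) ≤ 2 ^ N := by
    intro s
    have h := Finset.card_le_univ s
    rw [Fintype.card_fun, Fintype.card_bool, Fintype.card_fin] at h
    exact_mod_cast h
  have hP : (0 : ℝ) < 2 ^ N := by positivity
  -- |W| is large
  have hWc : Real.exp (-(2 * d * t)) * 2 ^ N ≤ (W.card : ℝ) := by
    have h1 : (A.card : ℝ) ≤ (W.card : ℝ) * 2 ^ N + 2 ^ N * (Real.exp (-(2 * d * t)) * 2 ^ N) := by
      rw [hsum]
      have h2 : ∀ w, ((Aw w).card : ℝ) ≤ (if w ∈ W then (2 : ℝ) ^ N else 0)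
          + Real.exp (-(2 * d * t)) * 2 ^ N := by
        intro w
        by_cases hw : w ∈ W
        · rw [if_pos hw]
          have := hcube (Aw w)
          have h3 : 0 ≤ Real.exp (-(2 * d * t)) * (2 : ℝ) ^ N := by positivity
          linarith
        · rw [if_neg hw]
          rw [hW, not_le] at hw
          linarith
      refine (Finset.sum_le_sum (fun w _ => h2 w)).trans ?_
      rw [Finset.sum_add_distrib, Finset.sum_ite_mem, Finset.univ_inter, Finset.sum_const,
        Finset.sum_const, Finset.card_univ, Fintype.card_fun, Fintype.card_bool, Fintype.card_fin,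
        nsmul_eq_mul, nsmul_eq_mul]
      push_cast
      exact le_refl _
    have h2 : Real.exp (-(d * t)) * (2 ^ N) ^ 2
        ≤ (W.card : ℝ) * 2 ^ N + 2 ^ N * (Real.exp (-(2 * d * t)) * 2 ^ N) := hAc.trans h1
    have h3 : Real.exp (-(d * t)) ≤ 1 / 2 := by
      have : Real.exp (-(d * t)) ≤ Real.exp (-Real.log 2) := Real.exp_le_exp.2 (by linarith)
      rw [Real.exp_neg (Real.log 2), Real.exp_log (by norm_num)] at this
      linarith
    have h4 : Real.exp (-(2 * d * t)) = Real.exp (-(d * t)) * Real.exp (-(d * t)) := by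
      rw [← Real.exp_add]
      congr 1
      ring
    have h5 : 0 < Real.exp (-(d * t)) := Real.exp_pos _
    rw [h4] at h2 ⊢
    set E := Real.exp (-(d * t)) with hE
    have h6 : E * 2 ^ N ≤ (W.card : ℝ) + E * E * 2 ^ N := by
      have : (E * 2 ^ N) * 2 ^ N ≤ ((W.card : ℝ) + E * E * 2 ^ N) * 2 ^ N := by
        calc (E * 2 ^ N) * 2 ^ N = E * (2 ^ N) ^ 2 := by ring
          _ ≤ _ := h2
          _ = _ := by ring
      exact le_of_mul_le_mul_right this hP
    have h7 : E * E * 2 ^ N ≤ E * (1 / 2) * 2 ^ N := by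
      apply mul_le_mul_of_nonneg_right _ hP.le
      exact mul_le_mul_of_nonneg_left h3 h5.le
    nlinarith
  -- exact minimisers in all fibres over `W`
  have hmin : ∀ w, ∃ p, w ∈ W → (IsMin ∅ (Aw w) p ∧ Psi ∅ p ≤ 2 * d * t) := by
    intro w
    by_cases hw : w ∈ W
    · have hw' := (hW w).1 hw
      have hne : (Aw w).Nonempty := by
        rw [← Finset.card_pos]
        have : (0 : ℝ) < (Aw w).card := lt_of_lt_of_le (by positivity) hw'
        exact_mod_cast this
      obtain ⟨p, hp⟩ := exists_small_psi hne hw'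
      exact ⟨p, fun _ => hp⟩
    · exact ⟨0, fun h => absurd h hw⟩
  choose P hPm using hmin
  obtain ⟨w, hwW, hw⟩ := hGAT N htm W (fun w => mean (P w)) (by
      refine le_trans ?_ hWc
      apply mul_le_mul_of_nonneg_right _ hP.le
      apply Real.exp_le_exp.2
      rw [hNr]
      nlinarith) (by
      intro w hw
      obtain ⟨h1, h2⟩ := hPm w hw
      have h3 := hPsi N _ _ h1.pr
      have h4 : (∑ i, (mean (P w) i) ^ 2) ^ 2 ≤ (d1 * N) ^ 2 := by
        refine h3.trans ?_
        have h5 : 12 * (N : ℝ) * Psi ∅ (P w) ≤ 12 * (N : ℝ) * (2 * d * t) :=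
          mul_le_mul_of_nonneg_left h2 (by positivity)
        refine h5.trans ?_
        rw [hNr]
        have : 0 ≤ (t : ℝ) ^ 2 := by positivity
        nlinarith
      exact (abs_le_of_sq_le_sq' h4 (by positivity)).2)
  obtain ⟨y, hyA, hy⟩ := hK N htN (fun i => Aw (w i)) (fun i j => ip (w i) (w j)) (12 * t)
    (fun i => P (w i)) (by
      intro i j
      unfold ip
      exact Finset.sum_congr rfl (fun l _ => mul_comm _ _))
    (fun i => (hPm _ (hwW i)).1) (by
      intro i
      refine (hPm _ (hwW i)).2.trans ?_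
      rw [hNr]
      nlinarith) (by
      intro i j hij
      have h := hw i j hij
      have h1 : (3 : ℝ) / 10 * N = ((12 * t : ℤ) : ℝ) := by
        rw [hNr]; push_cast; ring
      rwa [h1] at h) (by
      intro i j _ y hy z hz
      rw [hAw] at hy hz
      have := hA4 _ hy _ hz
      simp only at this
      omega)
  refine ⟨fun i => (w i, y i), fun i => (hAw _ _).1 (hyA i), fun i j hij => hy i j hij⟩

end Pool.Agent.MP3884c4
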