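import Pool.Agent.Lib.MP_3884c4_co.Colour

/-!
# Choice of the parameters
-/

set_option autoImplicit false
set_option linter.unusedSectionVars false

namespace Pool.Agent.Lib.MP_3884c4_co

open Finset Filter

theorem half_le_floor {x : ℝ} (hx : 1 ≤ x) : x / 2 ≤ (⌊x⌋₊ : ℝ) := by
  have h1 := Nat.lt_floor_add_one x
  have h2 : (1 : ℝ) ≤ (⌊x⌋₊ : ℝ) := by exact_mod_cast (Nat.one_le_floor_iff x).2 hx
  linarith

set_option maxHeartbeats 2000000 in
/-- The bound for fixed `n`. -/
theorem colouring_bound {n K M : ℕ} (hn : 1 ≤ n) (hK : 4 ≤ K) (hM1 : 1 ≤ M) {e : ℝ} (he : 0 < e)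
    (he1 : e ≤ 1) (hM : 6 * 4 ^ K ≤ (1 + e) ^ M) :
    ∃ j : ℕ, (j : ℝ) ≤ 1 + 40 * K * M * n ^ 2 * ((1 + e) * ((2 * K + 1) / (K - 3))) ^ n ∧
    ∃ c : EuclideanSpace ℝ (Fin n) → Fin j,
      ∀ x : Fin (M * K + 1) → EuclideanSpace ℝ (Fin n),
        (∀ i j, i ≠ j → dist (x i) (x j) = 1) → ¬ (∀ i j, c (x i) = c (x j)) := by
  classical
  have hn0 : (0 : ℝ) < n := by exact_mod_cast hn
  have hn1 : (1 : ℝ) ≤ n := by exact_mod_cast hn
  have hr0 : 0 < √(n : ℝ) := Real.sqrt_pos.2 hn0
  have hrn : √(n : ℝ) ≤ n := by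
    rw [Real.sqrt_le_left hn0.le]
    nlinarith
  have hKr : (4 : ℝ) ≤ K := by exact_mod_cast hK
  set S : ℕ := 2 * K * n with hSdef
  set m : ℕ := 4 * S + 2 with hmdef
  have hSr : (S : ℝ) = 2 * K * n := by
    rw [hSdef]
    push_cast
    ring
  have hS : 2 * (K : ℝ) * √n ≤ S := by
    rw [hSr]
    exact mul_le_mul_of_nonneg_left hrn (by positivity)
  have hsmall : ((K : ℝ) - 2) * √n ≤ S := by
    refine le_trans ?_ hS
    apply mul_le_mul_of_nonneg_right _ hr0.le
    linarith
  have hm : 2 * S < m := by omega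
  have : NeZero m := ⟨by omega⟩
  set B := bigB n K S m with hB
  set D := smallB n K S m with hD
  set g : ℝ := ((Fintype.card (Fin n → ZMod m) : ℕ) : ℝ) with hg
  have hgm : g = (m : ℝ) ^ n := by
    rw [hg, Fintype.card_fun, ZMod.card, Fintype.card_fin]
    push_cast
    rfl
  -- zero is in both balls
  have h0mem : ∀ r : ℝ, 0 ≤ r → r ≤ S → (0 : Fin n → ℤ) ∈ zball n S r := by
    intro r hr hrS
    rw [mem_zball hrS]
    have : toE (0 : Fin n → ℤ) = 0 := by
      ext i
      simp
    rw [this, norm_zero]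
    exact hr
  have hDcard : D.card = (zball n S ((K - 2) * √n)).card := by
    rw [hD]
    unfold smallB
    apply Finset.card_image_of_injOn
    intro z hz w hw h
    exact red_inj hm hsmall hsmall hz hw h
  have hBcard : B.card ≤ (zball n S (2 * K * √n)).card := Finset.card_image_le
  have hD0 : (0 : ℝ) < D.card := by
    rw [hDcard]
    exact_mod_cast Finset.card_pos.2
      ⟨_, h0mem ((K - 2) * √n) (mul_nonneg (by linarith) hr0.le) hsmall⟩
  have hB0 : (0 : ℝ) < B.card := by
    have : B.Nonempty := by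
      rw [hB]
      unfold bigB
      exact (Finset.image_nonempty).2 ⟨_, h0mem (2 * K * √n) (by positivity) hS⟩
    exact_mod_cast Finset.card_pos.2 this
  -- upper bounds for the big ball
  have hB1 : (B.card : ℝ) ≤ (4 ^ K * 3) ^ n := by
    have h1 := card_zball_le n S (2 * K * n) (2 * K * √n) (by
      push_cast
      have : √(n : ℝ) * √n = n := Real.mul_self_sqrt hn0.le
      calc √(n : ℝ) * (2 * K * √n) = 2 * K * (√n * √n) := by ring
        _ = 2 * K * n := by rw [this]
        _ ≤ 2 * K * n := le_rfl)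
    have h2 : (2 : ℝ) ^ (2 * K * n) * 3 ^ n = (4 ^ K * 3) ^ n := by
      rw [mul_pow, ← pow_mul, mul_assoc 2 K n, pow_mul]
      norm_num
    rw [← h2]
    refine le_trans ?_ h1
    exact_mod_cast hBcard
  have hB2 : (2 : ℝ) ^ n * B.card ≤ g := by
    have h1 : (B.card : ℝ) ≤ (2 * S + 1) ^ n := by
      have := hBcard.trans (card_zball_le_box n S (2 * K * √n))
      exact_mod_cast this
    have hm2 : (m : ℝ) = 2 * (2 * S + 1) := by
      rw [hmdef]
      push_cast
      ring
    rw [hgm]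
    calc (2 : ℝ) ^ n * B.card ≤ 2 ^ n * (2 * S + 1) ^ n := by gcongr
      _ = (m : ℝ) ^ n := by
        rw [← mul_pow, hm2]
  have hratio : (B.card : ℝ) * (K - 3) ^ n ≤ D.card * (2 * K + 1) ^ n := by
    have h1 := ratio (n := n) (S := S) (r := 2 * K * √n) (r' := (K - 2) * √n) (by positivity) hS
      (by nlinarith) hsmall
    have e1 : ((K : ℝ) - 2) * √n - √n = (K - 3) * √n := by ring
    have e2 : (2 : ℝ) * K * √n + √n = (2 * K + 1) * √n := by ring
    rw [e1, e2, mul_pow, mul_pow, ← mul_assoc, ← mul_assoc] at h1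
    have h2 := le_of_mul_le_mul_right h1 (pow_pos hr0 n)
    rw [hDcard]
    refine le_trans (mul_le_mul_of_nonneg_right ?_ (pow_nonneg (by linarith) _)) h2
    exact_mod_cast hBcard
  -- the number of centres
  set θ : ℝ := ((1 + e) ^ n)⁻¹ with hθ
  have he0 : 0 < 1 + e := by linarith
  have hθ0 : 0 < θ := by positivity
  set N : ℕ := ⌊θ * g / B.card⌋₊ with hN
  have hg0 : 0 < g := by
    rw [hg]
    exact_mod_cast Fintype.card_pos
  have hx1 : 1 ≤ θ * g / B.card := by
    rw [le_div_iff₀ hB0, one_mul, hθ, inv_mul_eq_div, le_div_iff₀ (by positivity)]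
    calc (B.card : ℝ) * (1 + e) ^ n ≤ B.card * 2 ^ n := by
          gcongr
          linarith
      _ ≤ g := by linarith
  have hN1 : θ * g / B.card / 2 ≤ (N : ℝ) := half_le_floor hx1
  have hN2 : (N : ℝ) * B.card ≤ θ * g := by
    have := Nat.floor_le (by positivity : 0 ≤ θ * g / B.card)
    rwa [le_div_iff₀ hB0] at this
  have hpack : 2 * B.card * (N * B.card) ^ M ≤ (Fintype.card (Fin n → ZMod m)) ^ M := by
    have h1 : (2 : ℝ) * B.card * (N * B.card) ^ M ≤ g ^ M := by
      have h2 : ((N : ℝ) * B.card) ^ M ≤ θ ^ M * g ^ M := by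
        rw [← mul_pow]
        exact pow_le_pow_left₀ (by positivity) hN2 M
      have h3 : (2 : ℝ) * B.card * θ ^ M ≤ 1 := by
        have h4 : θ ^ M = (((1 + e) ^ M) ^ n)⁻¹ := by
          rw [hθ, inv_pow, ← pow_mul, ← pow_mul, mul_comm n M]
        rw [h4, ← div_eq_mul_inv, div_le_one (by positivity)]
        calc (2 : ℝ) * B.card ≤ 2 * (4 ^ K * 3) ^ n := by gcongr
          _ ≤ 2 ^ n * (4 ^ K * 3) ^ n := by
              gcongr
              calc (2 : ℝ) = 2 ^ 1 := by norm_num
                _ ≤ 2 ^ n := pow_le_pow_right₀ (by norm_num) hn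
          _ = (6 * 4 ^ K) ^ n := by
              rw [← mul_pow]
              congr 1
              ring
          _ ≤ ((1 + e) ^ M) ^ n := pow_le_pow_left₀ (by positivity) hM n
      calc (2 : ℝ) * B.card * (N * B.card) ^ M ≤ 2 * B.card * (θ ^ M * g ^ M) := by gcongr
        _ = (2 * B.card * θ ^ M) * g ^ M := by ring
        _ ≤ 1 * g ^ M := by gcongr
        _ = g ^ M := one_mul _
    rw [hg] at h1
    exact_mod_cast h1
  obtain ⟨F, J, hJ1, hJ2⟩ := exists_packing B M N hpack
  have hdens := density B D (by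
    intro x hx
    rw [hD] at hx
    unfold smallB at hx
    obtain ⟨z, hz, rfl⟩ := Finset.mem_image.1 hx
    rw [hB]
    unfold bigB
    rw [← red_neg]
    apply Finset.mem_image_of_mem
    rw [mem_zball hS, toE_neg, norm_neg]
    rw [mem_zball hsmall] at hz
    refine hz.trans ?_
    apply mul_le_mul_of_nonneg_right _ hr0.le
    linarith) F J M hJ2
  set A := univ.filter (fun x : Fin n → ZMod m => ∃ i ∈ J, x - F i ∈ D) with hA
  have hJr : (N : ℝ) ≤ 2 * J.card := by exact_mod_cast hJ1
  have hdensr : (J.card : ℝ) * D.card ≤ M * A.card := by exact_mod_cast hdens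
  have hMr : (1 : ℝ) ≤ M := by exact_mod_cast hM1
  have hA1 : θ * g * D.card ≤ 4 * M * B.card * A.card := by
    have h1 : θ * g / B.card ≤ 4 * J.card := by linarith
    rw [div_le_iff₀ hB0] at h1
    calc θ * g * D.card ≤ (4 * J.card * B.card) * D.card := by gcongr
      _ = 4 * B.card * (J.card * D.card) := by ring
      _ ≤ 4 * B.card * (M * A.card) := by gcongr
      _ = 4 * M * B.card * A.card := by ring
  have hA0 : (0 : ℝ) < A.card := by
    by_contra hne
    have : (A.card : ℝ) = 0 := le_antisymm (not_lt.1 hne) (Nat.cast_nonneg _)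
    rw [this, mul_zero] at hA1
    have : 0 < θ * g * D.card := by positivity
    linarith
  have hlog0 : 0 ≤ Real.log g := by
    apply Real.log_nonneg
    rw [hg]
    exact_mod_cast Fintype.card_pos (α := Fin n → ZMod m)
  set j : ℕ := ⌊Real.log g * g / A.card⌋₊ + 1 with hj
  have hj1 : Real.log g * g < j * A.card := by
    have := Nat.lt_floor_add_one (Real.log g * g / A.card)
    rw [div_lt_iff₀ hA0] at this
    rw [hj]
    push_cast
    exact this
  obtain ⟨v, hv⟩ := exists_cover A j hj1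
  obtain ⟨c, hc⟩ := exists_colouring (M := M) hn hK hS hm F J hJ2 v hv
  refine ⟨j, ?_, c, hc⟩
  -- the bound for the number of colours
  have h1 : (j : ℝ) ≤ Real.log g * g / A.card + 1 := by
    rw [hj]
    push_cast
    have := Nat.floor_le (by positivity : 0 ≤ Real.log g * g / A.card)
    linarith
  have hlog : Real.log g ≤ 10 * K * n ^ 2 := by
    rw [hgm, Real.log_pow]
    have hm0 : (0 : ℝ) < m := by exact_mod_cast (by omega : 0 < m)
    have h2 : Real.log m ≤ m := (Real.log_le_sub_one_of_pos hm0).trans (by linarith)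
    have h3 : (m : ℝ) = 8 * K * n + 2 := by
      rw [hmdef]
      push_cast
      rw [hSr]
      ring
    have h4 : (1 : ℝ) ≤ K * n := one_le_mul_of_one_le_of_one_le (by linarith) hn1
    calc (n : ℝ) * Real.log m ≤ n * m := by gcongr
      _ = n * (8 * K * n + 2) := by rw [h3]
      _ ≤ n * (8 * K * n + 2 * (K * n)) := by
          apply mul_le_mul_of_nonneg_left _ hn0.le
          linarith
      _ = 10 * K * n ^ 2 := by ring
  have hK3 : (0 : ℝ) < K - 3 := by linarith
  have h5 : g / A.card ≤ 4 * M * ((1 + e) * ((2 * K + 1) / (K - 3))) ^ n := by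
    rw [div_le_iff₀ hA0]
    -- g θ D ≤ 4 M B A, B (K-3)^n ≤ D (2K+1)^n
    have h6 : g * (θ * D.card * (K - 3) ^ n) ≤ (4 * M * A.card * (2 * K + 1) ^ n) * D.card := by
      calc g * (θ * D.card * (K - 3) ^ n) = (θ * g * D.card) * (K - 3) ^ n := by ring
        _ ≤ (4 * M * B.card * A.card) * (K - 3) ^ n := by gcongr
        _ = (4 * M * A.card) * (B.card * (K - 3) ^ n) := by ring
        _ ≤ (4 * M * A.card) * (D.card * (2 * K + 1) ^ n) := by gcongr
        _ = (4 * M * A.card * (2 * K + 1) ^ n) * D.card := by ring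
    have h7 : g * (θ * (K - 3) ^ n) ≤ 4 * M * A.card * (2 * K + 1) ^ n := by
      apply le_of_mul_le_mul_right _ hD0
      calc g * (θ * (K - 3) ^ n) * D.card = g * (θ * D.card * (K - 3) ^ n) := by ring
        _ ≤ _ := h6
    have h8 : g * (K - 3) ^ n ≤ 4 * M * A.card * (2 * K + 1) ^ n * (1 + e) ^ n := by
      have h9 : g * (K - 3) ^ n = g * (θ * (K - 3) ^ n) * (1 + e) ^ n := by
        rw [hθ]
        field_simp
      rw [h9]
      exact mul_le_mul_of_nonneg_right h7 (by positivity)
    have h10 : g ≤ 4 * M * A.card * (2 * K + 1) ^ n * (1 + e) ^ n / (K - 3) ^ n := by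
      rw [le_div_iff₀ (by positivity)]
      exact h8
    refine h10.trans (le_of_eq ?_)
    rw [mul_pow, div_pow]
    ring
  calc (j : ℝ) ≤ Real.log g * g / A.card + 1 := h1
    _ = 1 + Real.log g * (g / A.card) := by ring
    _ ≤ 1 + (10 * K * n ^ 2) * (4 * M * ((1 + e) * ((2 * K + 1) / (K - 3))) ^ n) := by
        gcongr
    _ = _ := by ring

theorem eventually_bound {C a b : ℝ} (ha : 0 ≤ a) (hab : a < b) (hb : 1 < b) :
    ∀ᶠ n : ℕ in atTop, 1 + C * (n : ℝ) ^ 2 * a ^ n ≤ b ^ n := by
  have hb0 : 0 < b := by linarith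
  have h1 : Tendsto (fun n : ℕ => (1 / b) ^ n + C * ((n : ℝ) ^ 2 * (a / b) ^ n)) atTop
      (nhds (0 + C * 0)) := by
    apply Tendsto.add
    · apply tendsto_pow_atTop_nhds_zero_of_lt_one (by positivity)
      rw [div_lt_one hb0]
      exact hb
    · apply Tendsto.const_mul
      apply tendsto_pow_const_mul_const_pow_of_abs_lt_one
      rw [abs_of_nonneg (by positivity), div_lt_one hb0]
      exact hab
  rw [mul_zero, add_zero] at h1
  have h2 := h1.eventually (gt_mem_nhds (zero_lt_one))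
  filter_upwards [h2] with n hn
  have hbn : 0 < b ^ n := by positivity
  rw [div_pow, div_pow, one_pow] at hn
  have h3 : (1 / b ^ n + C * ((n : ℝ) ^ 2 * (a ^ n / b ^ n))) * b ^ n
      = 1 + C * (n : ℝ) ^ 2 * a ^ n := by
    field_simp
  rw [← h3]
  have := mul_le_mul_of_nonneg_right hn.le hbn.le
  linarith

end Pool.Agent.Lib.MP_3884c4_co
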