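import Pool.Agent.Lib.MP_3884c4_co.Stmts

/-!
Module F of MP_3884c4_co: the frozen negation from the exact theorem on the product cube.
-/

set_option autoImplicit false

noncomputable section

namespace Pool.Agent.MP3884c4

open Finset

theorem sg_sub_sq (a b : Bool) : (sg a - sg b) ^ 2 = 2 - 2 * (sg a * sg b) := by
  cases a <;> cases b <;> norm_num [sg]

theorem sg_cast (a : Bool) : ((sgz a : ℤ) : ℝ) = sg a := by
  cases a <;> norm_num [sg, sgz]

theorem ip_cast {ι : Type*} [Fintype ι] (y z : ι → Bool) :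
    ((ip y z : ℤ) : ℝ) = ∑ i, sg (y i) * sg (z i) := by
  unfold ip
  push_cast
  exact Finset.sum_congr rfl (fun i _ => by rw [sg_cast, sg_cast])

/-- sum of the signs -/
def ssum {ι : Type*} [Fintype ι] (y : ι → Bool) : ℤ := ∑ i, sgz (y i)

theorem ip_mod4 {ι : Type*} [Fintype ι] (y z : ι → Bool) :
    (4 : ℤ) ∣ ip y z - (ssum y + ssum z - Fintype.card ι) := by
  have h : ip y z - (ssum y + ssum z - Fintype.card ι)
      = ∑ i, (sgz (y i) * sgz (z i) - sgz (y i) - sgz (z i) + 1) := by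
    unfold ip ssum
    rw [Finset.sum_add_distrib, Finset.sum_sub_distrib, Finset.sum_sub_distrib]
    simp
    ring
  rw [h]
  refine Finset.dvd_sum (fun i _ => ?_)
  cases y i <;> cases z i <;> norm_num [sgz]

theorem ssum_even {ι : Type*} [Fintype ι] (y : ι → Bool) :
    (2 : ℤ) ∣ ssum y - Fintype.card ι := by
  have h : ssum y - Fintype.card ι = ∑ i, (sgz (y i) - 1) := by
    unfold ssum
    rw [Finset.sum_sub_distrib]
    simp
  rw [h]
  refine Finset.dvd_sum (fun i _ => ?_)
  cases y i <;> norm_num [sgz]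

/-- embedding of the product cube into Euclidean space -/
def emb (t : ℕ) (s : ℝ) (x : (Fin (40 * t) → Bool) × (Fin (40 * t) → Bool)) :
    EuclideanSpace ℝ (Fin (40 * t + 40 * t)) :=
  WithLp.toLp 2 (fun i => s * Fin.append (fun i => sg (x.1 i)) (fun i => sg (x.2 i)) i)

theorem dist_emb (t : ℕ) (ht : 1 ≤ t) (x y : (Fin (40 * t) → Bool) × (Fin (40 * t) → Bool))
    (h : ip x.1 y.1 + ip x.2 y.2 = 12 * t) :
    dist (emb t (1 / Real.sqrt (136 * t)) x) (emb t (1 / Real.sqrt (136 * t)) y) = 1 := by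
  have htp : (0 : ℝ) < 136 * t := by
    have : (1 : ℝ) ≤ t := by exact_mod_cast ht
    linarith
  have hR : (∑ i, sg (x.1 i) * sg (y.1 i)) + (∑ i, sg (x.2 i) * sg (y.2 i)) = 12 * t := by
    rw [← ip_cast, ← ip_cast]
    exact_mod_cast h
  rw [EuclideanSpace.dist_eq]
  rw [Real.sqrt_eq_one]
  have key : ∀ u v : Bool, dist (1 / Real.sqrt (136 * t) * sg u) (1 / Real.sqrt (136 * t) * sg v) ^ 2
      = 1 / (136 * t) * (2 - 2 * (sg u * sg v)) := by
    intro u v
    rw [Real.dist_eq, sq_abs, ← mul_sub, mul_pow, sg_sub_sq, div_pow, Real.sq_sqrt htp.le]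
    norm_num
  rw [Fin.sum_univ_add]
  simp only [emb, Fin.append_left, Fin.append_right, key]
  rw [← Finset.mul_sum, ← Finset.mul_sum, Finset.sum_sub_distrib, Finset.sum_sub_distrib,
    ← Finset.mul_sum, ← Finset.mul_sum]
  simp only [Finset.sum_const, Finset.card_univ, Fintype.card_fin, nsmul_eq_mul]
  rw [← mul_add]
  have : ((40 * t : ℕ) : ℝ) * 2 - 2 * (∑ i, sg (x.1 i) * sg (y.1 i))
      + (((40 * t : ℕ) : ℝ) * 2 - 2 * (∑ i, sg (x.2 i) * sg (y.2 i))) = 136 * t := by
    push_cast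
    linarith
  rw [this]
  field_simp

theorem aux_dens (a b m P : ℝ) (hab : b = a + a) (h4 : 4 ≤ Real.exp a) (hm : m ≤ Real.exp a)
    (hm0 : 0 < m) (hP : 0 ≤ P) : Real.exp (-b) * P ≤ P / (4 * m) := by
  rw [le_div_iff₀ (by positivity)]
  have h4m : 4 * m ≤ Real.exp b := by
    calc 4 * m ≤ Real.exp a * Real.exp a :=
          mul_le_mul h4 hm hm0.le (Real.exp_pos _).le
      _ = Real.exp b := by rw [← Real.exp_add, hab]
  calc Real.exp (-b) * P * (4 * m)
      ≤ Real.exp (-b) * P * Real.exp b :=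
        mul_le_mul_of_nonneg_left h4m (by positivity)
    _ = P * (Real.exp (-b) * Real.exp b) := by ring
    _ = P := by
        rw [← Real.exp_add]
        simp

theorem final_of_exact (hE : ExactStmt) : FinalStmt := by
  classical
  obtain ⟨d, hd, hE⟩ := hE
  intro h
  obtain ⟨k, hk⟩ := h (d / 320) (by positivity)
  have hk := hk (d / 320) (by positivity)
  rw [Filter.eventually_atTop] at hk
  obtain ⟨n0, hk⟩ := hk
  obtain ⟨t0, hE⟩ := hE (k + 1)
  obtain ⟨t1, ht1⟩ := exists_nat_gt (Real.log 4 / (d / 2))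
  set t := t0 + n0 + t1 + 1 with ht
  obtain ⟨m, hm, c, hc⟩ := hk (40 * t + 40 * t) (by omega)
  have htr : (t1 : ℝ) ≤ t := by
    exact_mod_cast (by omega : t1 ≤ t)
  have h4 : (4 : ℝ) ≤ Real.exp (d / 2 * t) := by
    rw [← Real.exp_log (show (0 : ℝ) < 4 by norm_num)]
    apply Real.exp_le_exp.2
    rw [div_lt_iff₀ (by positivity)] at ht1
    nlinarith
  have hmr : (m : ℝ) ≤ Real.exp (d / 2 * t) := by
    refine hm.trans ?_
    have h1 : (1 : ℝ) + d / 320 + d / 320 ≤ Real.exp (d / 160) := by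
      have := Real.add_one_le_exp (d / 160)
      linarith
    calc ((1 : ℝ) + d / 320 + d / 320) ^ (40 * t + 40 * t)
        ≤ (Real.exp (d / 160)) ^ (40 * t + 40 * t) :=
          pow_le_pow_left₀ (by positivity) h1 _
      _ = Real.exp (d / 2 * t) := by
          rw [← Real.exp_nat_mul]
          congr 1
          push_cast
          ring
  -- the colouring of the cube
  let s : ℝ := 1 / Real.sqrt (136 * t)
  let col : (Fin (40 * t) → Bool) × (Fin (40 * t) → Bool) → ZMod 4 × Fin m :=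
    fun x => (((ssum x.1 + ssum x.2 : ℤ) : ZMod 4), c (emb t s x))
  have hcard : (Finset.univ : Finset ((Fin (40 * t) → Bool) × (Fin (40 * t) → Bool))).card
      = (2 ^ (40 * t)) ^ 2 := by
    rw [Finset.card_univ, Fintype.card_prod, Fintype.card_fun, Fintype.card_bool, Fintype.card_fin]
    ring
  have hmpos : 0 < m := by
    have : Nonempty (Fin m) := ⟨c 0⟩
    exact Fin.pos_iff_nonempty.2 this
  have hmR : (0 : ℝ) < m := by exact_mod_cast hmpos
  obtain ⟨z, -, hz⟩ := Finset.exists_le_card_fiber_of_nsmul_le_card_of_maps_to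
    (s := (Finset.univ : Finset ((Fin (40 * t) → Bool) × (Fin (40 * t) → Bool))))
    (t := (Finset.univ : Finset (ZMod 4 × Fin m))) (f := col)
    (b := (((2 : ℝ) ^ (40 * t)) ^ 2 / (4 * m))) (fun _ _ => Finset.mem_univ _)
    ⟨((0 : ZMod 4), c 0), Finset.mem_univ _⟩ (by
      rw [hcard, Finset.card_univ, Fintype.card_prod, ZMod.card, Fintype.card_fin, nsmul_eq_mul]
      push_cast
      field_simp
      exact le_refl _)
  set A := (Finset.univ : Finset ((Fin (40 * t) → Bool) × (Fin (40 * t) → Bool))).filter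
    (fun x => col x = z) with hA
  have hmem : ∀ x, x ∈ A ↔ col x = z := by
    intro x
    rw [hA, Finset.mem_filter]
    exact ⟨fun h => h.2, fun h => ⟨Finset.mem_univ _, h⟩⟩
  obtain ⟨x, hxA, hx⟩ := hE t (by omega) A (by
    intro x hx y hy
    rw [hmem] at hx hy
    have hxy : ((ssum x.1 + ssum x.2 : ℤ) : ZMod 4) = ((ssum y.1 + ssum y.2 : ℤ) : ZMod 4) :=
      congrArg Prod.fst (hx.trans hy.symm)
    rw [ZMod.intCast_eq_intCast_iff_dvd_sub] at hxy
    have h1 := ip_mod4 x.1 y.1
    have h2 := ip_mod4 x.2 y.2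
    have h3 := ssum_even x.1
    have h4 := ssum_even x.2
    simp only [Fintype.card_fin] at h1 h2 h3 h4
    push_cast at hxy h1 h2 h3 h4
    omega) (by
    exact (aux_dens (d / 2 * t) (d * t) m _ (by ring) h4 hmr hmR (by positivity)).trans hz)
  refine hc (fun i => emb t s (x i)) (fun i j hij => ?_) (fun i j => ?_)
  · exact dist_emb t (by omega) (x i) (x j) (hx i j hij)
  · have h1 := (hmem _).1 (hxA i)
    have h2 := (hmem _).1 (hxA j)
    exact congrArg Prod.snd (h1.trans h2.symm)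

end Pool.Agent.MP3884c4
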