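import Pool.Agent.Lib.MP_3884c4_co.Stmts

/-!
Module T of MP_3884c4_co: the approximate theorem from the modules Blow, Noise, Cluster.
-/

set_option autoImplicit false

noncomputable section

namespace Pool.Agent.MP3884c4

open Finset

/-! ### elementary facts on correlated sums -/

theorem sum_prod_cube {m : ℕ} (g : Fin m → Bool → ℝ) :
    ∑ y : Fin m → Bool, ∏ i, g i (y i) = ∏ i, (g i true + g i false) := by
  have h := Finset.prod_univ_sum (fun _ : Fin m => (Finset.univ : Finset Bool)) g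
  rw [Fintype.piFinset_univ] at h
  rw [← h]
  exact Finset.prod_congr rfl (fun i _ => Fintype.sum_bool _)

/-- the weight of a correlated pair -/
def wt {m : ℕ} (ρ : ℝ) (x y : Fin m → Bool) : ℝ := ∏ i, (1 + ρ * (sg (x i) * sg (y i))) / 4

theorem corr_eq {m : ℕ} (ρ : ℝ) (f : (Fin m → Bool) → (Fin m → Bool) → ℝ) :
    corr ρ f = ∑ x, ∑ y, wt ρ x y * f x y := rfl

theorem sg_mul_self (a : Bool) : sg a * sg a = 1 := by cases a <;> norm_num [sg]

theorem sg_abs (a b : Bool) : |sg a * sg b| ≤ 1 := by cases a <;> cases b <;> norm_num [sg]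

theorem wt_nonneg {m : ℕ} {ρ : ℝ} (h0 : 0 ≤ ρ) (h1 : ρ ≤ 1) (x y : Fin m → Bool) : 0 ≤ wt ρ x y := by
  refine Finset.prod_nonneg (fun i _ => ?_)
  have h := sg_abs (x i) (y i)
  rw [abs_le] at h
  have : 0 ≤ 1 + ρ * (sg (x i) * sg (y i)) := by nlinarith [h.1, h.2]
  positivity

theorem wt_comm {m : ℕ} (ρ : ℝ) (x y : Fin m → Bool) : wt ρ x y = wt ρ y x :=
  Finset.prod_congr rfl (fun i _ => by rw [mul_comm (sg (x i))])

theorem wt_sum {m : ℕ} (ρ : ℝ) (x : Fin m → Bool) : ∑ y, wt ρ x y = 1 / 2 ^ m := by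
  have h := sum_prod_cube (m := m) (fun i b => (1 + ρ * (sg (x i) * sg b)) / 4)
  unfold wt
  rw [h]
  have : ∀ i ∈ (Finset.univ : Finset (Fin m)),
      ((1 + ρ * (sg (x i) * sg true)) / 4 + (1 + ρ * (sg (x i) * sg false)) / 4) = 1 / 2 := by
    intro i _
    simp only [sg]
    norm_num
    ring
  rw [Finset.prod_congr rfl this, Finset.prod_const, Finset.card_univ, Fintype.card_fin]
  rw [div_pow, one_pow]

theorem corr_mono {m : ℕ} {ρ : ℝ} (h0 : 0 ≤ ρ) (h1 : ρ ≤ 1)
    {f g : (Fin m → Bool) → (Fin m → Bool) → ℝ} (h : ∀ x y, f x y ≤ g x y) :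
    corr ρ f ≤ corr ρ g := by
  rw [corr_eq, corr_eq]
  exact Finset.sum_le_sum (fun x _ => Finset.sum_le_sum (fun y _ =>
    mul_le_mul_of_nonneg_left (h x y) (wt_nonneg h0 h1 x y)))

theorem corr_add {m : ℕ} (ρ : ℝ) (f g : (Fin m → Bool) → (Fin m → Bool) → ℝ) :
    corr ρ (fun x y => f x y + g x y) = corr ρ f + corr ρ g := by
  simp only [corr_eq, mul_add, Finset.sum_add_distrib]

theorem corr_smul {m : ℕ} (ρ c : ℝ) (f : (Fin m → Bool) → (Fin m → Bool) → ℝ) :
    corr ρ (fun x y => c * f x y) = c * corr ρ f := by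
  simp only [corr_eq, Finset.mul_sum]
  refine Finset.sum_congr rfl (fun x _ => Finset.sum_congr rfl (fun y _ => ?_))
  ring

theorem corr_left {m : ℕ} (ρ : ℝ) (f : (Fin m → Bool) → ℝ) :
    corr ρ (fun x _ => f x) = (∑ x, f x) / 2 ^ m := by
  rw [corr_eq, Finset.sum_div]
  refine Finset.sum_congr rfl (fun x _ => ?_)
  rw [← Finset.sum_mul, wt_sum]
  ring

theorem corr_right {m : ℕ} (ρ : ℝ) (f : (Fin m → Bool) → ℝ) :
    corr ρ (fun _ y => f y) = (∑ x, f x) / 2 ^ m := by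
  rw [corr_eq, Finset.sum_comm, Finset.sum_div]
  refine Finset.sum_congr rfl (fun x _ => ?_)
  rw [← Finset.sum_mul]
  simp only [wt_comm ρ _ x]
  rw [wt_sum]
  ring

theorem corr_const {m : ℕ} (ρ c : ℝ) :
    corr (m := m) ρ (fun _ _ => c) = c := by
  rw [corr_left (m := m) ρ (fun _ => c), Finset.sum_const, Finset.card_univ, Fintype.card_fun,
    Fintype.card_bool, Fintype.card_fin, nsmul_eq_mul]
  push_cast
  field_simp

/-- real inner product -/
theorem ipR {m : ℕ} (x y : Fin m → Bool) : ((ip x y : ℤ) : ℝ) = ∑ i, sg (x i) * sg (y i) := by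
  unfold ip
  push_cast
  refine Finset.sum_congr rfl (fun i _ => ?_)
  cases x i <;> cases y i <;> norm_num [sg, sgz]

theorem corr_exp_ip {m : ℕ} (ρ s : ℝ) :
    corr (m := m) ρ (fun x y => Real.exp (s * (ip x y : ℤ))) = (Real.cosh s + ρ * Real.sinh s) ^ m := by
  rw [corr_eq]
  have h1 : ∀ x y : Fin m → Bool, wt ρ x y * Real.exp (s * (ip x y : ℤ))
      = ∏ i, ((1 + ρ * (sg (x i) * sg (y i))) / 4 * Real.exp (s * (sg (x i) * sg (y i)))) := by
    intro x y
    rw [ipR, Finset.mul_sum, Real.exp_sum, wt, Finset.prod_mul_distrib]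
  have h2 : ∀ x : Fin m → Bool, ∑ y, wt ρ x y * Real.exp (s * (ip x y : ℤ))
      = ∏ i, ((1 + ρ * (sg (x i) * sg true)) / 4 * Real.exp (s * (sg (x i) * sg true))
        + (1 + ρ * (sg (x i) * sg false)) / 4 * Real.exp (s * (sg (x i) * sg false))) := by
    intro x
    rw [← sum_prod_cube (fun i b => (1 + ρ * (sg (x i) * sg b)) / 4 * Real.exp (s * (sg (x i) * sg b)))]
    exact Finset.sum_congr rfl (fun y _ => h1 x y)
  rw [Finset.sum_congr rfl (fun x _ => h2 x)]
  rw [sum_prod_cube (fun _ a => ((1 + ρ * (sg a * sg true)) / 4 * Real.exp (s * (sg a * sg true))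
        + (1 + ρ * (sg a * sg false)) / 4 * Real.exp (s * (sg a * sg false))))]
  rw [Finset.prod_const, Finset.card_univ, Fintype.card_fin]
  congr 1
  rw [Real.cosh_eq, Real.sinh_eq]
  simp only [sg]
  norm_num
  ring

/-! ### elementary inequalities -/

theorem cosh_add_le {u ρ : ℝ} (h0 : |u| ≤ 1) (hρ0 : 0 ≤ ρ) (hρ : ρ ≤ 1 / 2) :
    Real.cosh u + ρ * Real.sinh u ≤ Real.exp (ρ * u + u ^ 2) := by
  rw [Real.cosh_eq, Real.sinh_eq]
  have h1 := Real.abs_exp_sub_one_sub_id_le h0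
  have h2 := Real.abs_exp_sub_one_sub_id_le (x := -u) (by rwa [abs_neg])
  rw [abs_le] at h1 h2
  have h3 := Real.add_one_le_exp (ρ * u + u ^ 2)
  have e1 : (1 + ρ) / 2 * Real.exp u ≤ (1 + ρ) / 2 * (1 + u + u ^ 2) :=
    mul_le_mul_of_nonneg_left (by linarith) (by linarith)
  have e2 : (1 - ρ) / 2 * Real.exp (-u) ≤ (1 - ρ) / 2 * (1 - u + u ^ 2) :=
    mul_le_mul_of_nonneg_left (by linarith) (by linarith)
  calc (Real.exp u + Real.exp (-u)) / 2 + ρ * ((Real.exp u - Real.exp (-u)) / 2)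
      = (1 + ρ) / 2 * Real.exp u + (1 - ρ) / 2 * Real.exp (-u) := by ring
    _ ≤ (1 + ρ) / 2 * (1 + u + u ^ 2) + (1 - ρ) / 2 * (1 - u + u ^ 2) := add_le_add e1 e2
    _ = 1 + ρ * u + u ^ 2 := by ring
    _ ≤ _ := by linarith

theorem cosh_add_nonneg {u ρ : ℝ} (hρ0 : 0 ≤ ρ) (hρ : ρ ≤ 1) :
    0 ≤ Real.cosh u + ρ * Real.sinh u := by
  rw [Real.cosh_eq, Real.sinh_eq]
  have h1 := Real.exp_pos u
  have h2 := Real.exp_pos (-u)
  have : (Real.exp u + Real.exp (-u)) / 2 + ρ * ((Real.exp u - Real.exp (-u)) / 2)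
      = (1 + ρ) / 2 * Real.exp u + (1 - ρ) / 2 * Real.exp (-u) := by ring
  rw [this]
  have : 0 ≤ 1 - ρ := by linarith
  positivity

theorem corr_exp_le {m : ℕ} {ρ s : ℝ} (h0 : |s| ≤ 1) (hρ0 : 0 ≤ ρ) (hρ : ρ ≤ 1 / 2) :
    corr (m := m) ρ (fun x y => Real.exp (s * (ip x y : ℤ)))
      ≤ Real.exp (m * (ρ * s + s ^ 2)) := by
  rw [corr_exp_ip, Real.exp_nat_mul]
  exact pow_le_pow_left₀ (cosh_add_nonneg hρ0 (by linarith)) (cosh_add_le h0 hρ0 hρ) _

/-- lower bound for the expected overlap -/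
theorem corr_ip_lower {m : ℕ} (hm : 26 ≤ m) :
    (36 : ℝ) / 100 * m ≤ corr (m := m) (2 / 5) (fun x y => ((ip x y : ℤ) : ℝ)) := by
  have hmr : (26 : ℝ) ≤ m := by exact_mod_cast hm
  have hm0 : (0 : ℝ) < m := by linarith
  -- s = 1/(4m)
  set s : ℝ := 1 / (4 * m) with hs
  have hs0 : 0 < s := by positivity
  have hsm : s * m = 1 / 4 := by rw [hs]; field_simp
  have hs1 : s ≤ 1 / 104 := by
    rw [hs]
    apply one_div_le_one_div_of_le (by norm_num)
    linarith
  have h1 : corr (m := m) (2 / 5) (fun x y => Real.exp ((-s) * (ip x y : ℤ)))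
      ≤ Real.exp (m * (2 / 5 * (-s) + (-s) ^ 2)) :=
    corr_exp_le (by rw [abs_neg, abs_of_pos hs0]; linarith) (by norm_num) (by norm_num)
  have h2 : corr (m := m) (2 / 5) (fun x y => 1 + (-s) * ((ip x y : ℤ) : ℝ))
      ≤ corr (m := m) (2 / 5) (fun x y => Real.exp ((-s) * (ip x y : ℤ))) :=
    corr_mono (by norm_num) (by norm_num) (fun x y => by
      have := Real.add_one_le_exp ((-s) * ((ip x y : ℤ) : ℝ))
      linarith)
  rw [corr_add, corr_const, corr_smul] at h2
  set E := corr (m := m) (2 / 5) (fun x y => ((ip x y : ℤ) : ℝ)) with hE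
  have h3 : (m : ℝ) * (2 / 5 * (-s) + (-s) ^ 2) = - (1 / 10 - s / 4) := by
    have : (m : ℝ) * (2 / 5 * (-s) + (-s) ^ 2) = (s * m) * (s - 2 / 5) := by ring
    rw [this, hsm]
    ring
  rw [h3] at h1
  have hz0 : 0 ≤ 1 / 10 - s / 4 := by linarith
  have hz1 : 1 / 10 - s / 4 ≤ 1 / 10 := by linarith
  have hz2 : 97 / 1000 ≤ 1 / 10 - s / 4 := by linarith
  set z := 1 / 10 - s / 4 with hz
  have h4 : Real.exp (-z) ≤ 1 - z + z ^ 2 / 2 := by
    -- e^{-z} ≤ 1 - z + z²/2
    have h5 := Real.quadratic_le_exp_of_nonneg hz0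
    have h6 : Real.exp (-z) * Real.exp z = 1 := by rw [← Real.exp_add]; simp
    have h7 : 0 < 1 - z + z ^ 2 / 2 := by nlinarith
    have h8 : 1 ≤ (1 - z + z ^ 2 / 2) * (1 + z + z ^ 2 / 2) := by nlinarith [sq_nonneg (z ^ 2)]
    have h9 : 1 ≤ (1 - z + z ^ 2 / 2) * Real.exp z :=
      h8.trans (mul_le_mul_of_nonneg_left h5 h7.le)
    have h10 := Real.exp_pos z
    have : Real.exp (-z) * Real.exp z ≤ (1 - z + z ^ 2 / 2) * Real.exp z := by rw [h6]; exact h9
    exact le_of_mul_le_mul_right this h10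
  have h11 : z - z ^ 2 / 2 ≤ s * E := by linarith
  have h12 : (9 : ℝ) / 100 ≤ s * E := by
    have : (9 : ℝ) / 100 ≤ z - z ^ 2 / 2 := by nlinarith
    linarith
  have h13 : (s * E) * m ≥ 9 / 100 * m := mul_le_mul_of_nonneg_right h12 hm0.le
  have h14 : (s * E) * m = E / 4 := by
    calc (s * E) * m = (s * m) * E := by ring
      _ = E / 4 := by rw [hsm]; ring
  linarith

/-! ### the blow-up estimates -/

theorem exp_mul_le {θ z : ℝ} (h0 : 0 ≤ θ) (h1 : θ ≤ 1) :
    Real.exp (θ * z) ≤ θ * Real.exp z + (1 - θ) := by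
  have h := convexOn_exp.2 (Set.mem_univ z) (Set.mem_univ 0) h0 (sub_nonneg.2 h1) (by ring)
  simpa using h

theorem blow_exp {m : ℕ} {D : (Fin m → Bool) → ℝ}
    (h : ∑ x, Real.exp (1 / 50 * D x) ≤ Real.exp (m / 5000) * 2 ^ m) {s : ℝ} (hs0 : 0 ≤ s)
    (hs : s ≤ 1 / 50) : (∑ x, Real.exp (s * D x)) / 2 ^ m ≤ Real.exp (s * (m / 100)) := by
  have hP : (0 : ℝ) < 2 ^ m := by positivity
  have hcard : ∑ _x : Fin m → Bool, (1 : ℝ) = 2 ^ m := by
    rw [Finset.sum_const, Finset.card_univ, Fintype.card_fun, Fintype.card_bool, Fintype.card_fin,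
      nsmul_eq_mul]
    push_cast
    ring
  have h1 : ∀ x, Real.exp (s * D x) * Real.exp (-(s * (m / 100)))
      ≤ 50 * s * (Real.exp (1 / 50 * D x) * Real.exp (-(m / 5000))) + (1 - 50 * s) := by
    intro x
    rw [← Real.exp_add, ← Real.exp_add]
    have := exp_mul_le (θ := 50 * s) (z := 1 / 50 * D x + -(m / 5000)) (by positivity)
      (by linarith)
    refine le_trans (le_of_eq ?_) this
    congr 1
    ring
  have h2 : (∑ x, Real.exp (s * D x)) * Real.exp (-(s * (m / 100))) ≤ 2 ^ m := by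
    rw [Finset.sum_mul]
    refine (Finset.sum_le_sum (fun x _ => h1 x)).trans ?_
    rw [Finset.sum_add_distrib, ← Finset.mul_sum, ← Finset.sum_mul]
    have h3 : ∑ _x : Fin m → Bool, (1 - 50 * s) = (1 - 50 * s) * 2 ^ m := by
      rw [← hcard, Finset.mul_sum]
      simp
    rw [h3]
    have h4 : (∑ x, Real.exp (1 / 50 * D x)) * Real.exp (-(m / 5000)) ≤ 2 ^ m := by
      calc (∑ x, Real.exp (1 / 50 * D x)) * Real.exp (-(m / 5000))
          ≤ (Real.exp (m / 5000) * 2 ^ m) * Real.exp (-(m / 5000)) :=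
            mul_le_mul_of_nonneg_right h (Real.exp_pos _).le
        _ = 2 ^ m * (Real.exp (m / 5000) * Real.exp (-(m / 5000))) := by ring
        _ = 2 ^ m := by rw [← Real.exp_add]; simp
    have h5 := mul_le_mul_of_nonneg_left h4 (show 0 ≤ 50 * s by positivity)
    linarith
  rw [div_le_iff₀ hP]
  have h6 : Real.exp (s * (m / 100)) * Real.exp (-(s * (m / 100))) = 1 := by
    rw [← Real.exp_add]; simp
  have h7 := mul_le_mul_of_nonneg_right h2 (Real.exp_pos (s * (m / 100))).le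
  calc ∑ x, Real.exp (s * D x)
      = (∑ x, Real.exp (s * D x)) * Real.exp (-(s * (m / 100))) * Real.exp (s * (m / 100)) := by
        rw [mul_assoc, mul_comm (Real.exp (-(s * (m / 100)))), h6, mul_one]
    _ ≤ 2 ^ m * Real.exp (s * (m / 100)) := h7
    _ = _ := by ring

theorem blow_mean {m : ℕ} {D : (Fin m → Bool) → ℝ}
    (h : ∑ x, Real.exp (1 / 50 * D x) ≤ Real.exp (m / 5000) * 2 ^ m) :
    (∑ x, D x) / 2 ^ m ≤ m / 100 := by
  have hP : (0 : ℝ) < 2 ^ m := by positivity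
  have hcard : ∑ _x : Fin m → Bool, (1 : ℝ) = 2 ^ m := by
    rw [Finset.sum_const, Finset.card_univ, Fintype.card_fun, Fintype.card_bool, Fintype.card_fin,
      nsmul_eq_mul]
    push_cast
    ring
  have h1 : ∀ x, 1 / 50 * D x ≤ (Real.exp (1 / 50 * D x) * Real.exp (-(m / 5000)) - 1) + m / 5000 := by
    intro x
    rw [← Real.exp_add]
    have := Real.add_one_le_exp (1 / 50 * D x + -(m / 5000))
    linarith
  have h2 := Finset.sum_le_sum (fun x (_ : x ∈ (Finset.univ : Finset (Fin m → Bool))) => h1 x)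
  rw [← Finset.mul_sum, Finset.sum_add_distrib, Finset.sum_sub_distrib, ← Finset.sum_mul, hcard] at h2
  have h3 : ∑ _x : Fin m → Bool, ((m : ℝ) / 5000) = m / 5000 * 2 ^ m := by
    rw [← hcard, Finset.mul_sum]
    simp
  rw [h3] at h2
  have h4 : (∑ x, Real.exp (1 / 50 * D x)) * Real.exp (-(m / 5000)) ≤ 2 ^ m := by
    calc (∑ x, Real.exp (1 / 50 * D x)) * Real.exp (-(m / 5000))
        ≤ (Real.exp (m / 5000) * 2 ^ m) * Real.exp (-(m / 5000)) :=
          mul_le_mul_of_nonneg_right h (Real.exp_pos _).le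
      _ = 2 ^ m * (Real.exp (m / 5000) * Real.exp (-(m / 5000))) := by ring
      _ = 2 ^ m := by rw [← Real.exp_add]; simp
  rw [div_le_iff₀ hP]
  linarith

/-! ### Lipschitz property of the overlap -/

theorem ip_lip {m : ℕ} (x y u v : Fin m → Bool) :
    |((ip u v : ℤ) : ℝ) - ((ip x y : ℤ) : ℝ)|
      ≤ 2 * (hammingDist x u : ℝ) + 2 * (hammingDist y v : ℝ) := by
  rw [ipR, ipR, ← Finset.sum_sub_distrib]
  refine (Finset.abs_sum_le_sum_abs _ _).trans ?_
  have h1 : ∀ x u : Fin m → Bool, (hammingDist x u : ℝ) = ∑ i, (if x i ≠ u i then (1 : ℝ) else 0) := by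
    intro x u
    rw [hammingDist, Finset.card_filter]
    push_cast
    rfl
  rw [h1, h1, Finset.mul_sum, Finset.mul_sum, ← Finset.sum_add_distrib]
  refine Finset.sum_le_sum (fun i _ => ?_)
  cases x i <;> cases y i <;> cases u i <;> cases v i <;> norm_num [sg]

/-! ### assembly -/

theorem amgm3 {x y z : ℝ} (hx : 0 ≤ x) (hy : 0 ≤ y) (hz : 0 ≤ z) :
    x * y * z ≤ (x ^ 3 + y ^ 3 + z ^ 3) / 3 := by
  nlinarith [mul_nonneg (add_nonneg (add_nonneg hx hy) hz)
    (add_nonneg (add_nonneg (sq_nonneg (x - y)) (sq_nonneg (y - z))) (sq_nonneg (z - x)))]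

theorem exp_amgm3 (A B C : ℝ) :
    Real.exp (A + B + C) ≤ (Real.exp (3 * A) + Real.exp (3 * B) + Real.exp (3 * C)) / 3 := by
  have h := amgm3 (Real.exp_pos A).le (Real.exp_pos B).le (Real.exp_pos C).le
  rw [← Real.exp_add, ← Real.exp_add, ← Real.exp_nat_mul, ← Real.exp_nat_mul, ← Real.exp_nat_mul] at h
  exact_mod_cast h

theorem abs_sum_mul_le {m : ℕ} {u v : Fin m → ℝ} {c : ℝ} (hu : ∑ i, u i ^ 2 ≤ c)
    (hv : ∑ i, v i ^ 2 ≤ c) : |∑ i, u i * v i| ≤ c := by
  have h1 : |∑ i, u i * v i| ≤ ∑ i, (u i ^ 2 + v i ^ 2) / 2 := by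
    refine (Finset.abs_sum_le_sum_abs _ _).trans (Finset.sum_le_sum (fun i _ => ?_))
    rw [abs_le]
    constructor <;> nlinarith [sq_nonneg (u i + v i), sq_nonneg (u i - v i)]
  rw [← Finset.sum_div, Finset.sum_add_distrib] at h1
  linarith

/-- the two conditions of the noise module for the nearest point map -/
theorem gat_conditions {m : ℕ} {w : (Fin m → Bool) → (Fin m → Bool)}
    {q : (Fin m → Bool) → (Fin m → Bool) → ℝ}
    (hD : ∑ x, Real.exp (1 / 50 * (hammingDist x (w x) : ℝ)) ≤ Real.exp (m / 5000) * 2 ^ m)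
    (hq : ∀ x y, |q x y - (ip (w x) (w y) : ℤ) / m| ≤ 1 / 10000)
    (hm : 26 ≤ m) :
    (3 / 10 ≤ corr (2 / 5) q) ∧
    ∀ k : ℕ, 1 ≤ k → 300 * k ≤ m →
      corr (1 / 5) (fun x y => Real.exp (k * q x y)) < Real.exp (k * (3 / 10)) := by
  have hmr : (26 : ℝ) ≤ m := by exact_mod_cast hm
  have hm0 : (0 : ℝ) < m := by linarith
  -- pointwise two-sided estimate
  have hpt : ∀ x y, |q x y - 1 / m * ((ip x y : ℤ) : ℝ)|
      ≤ 2 / m * (hammingDist x (w x) : ℝ) + 2 / m * (hammingDist y (w y) : ℝ) + 1 / 10000 := by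
    intro x y
    have h1 := hq x y
    have h2 := ip_lip x y (w x) (w y)
    rw [abs_le] at h1 h2 ⊢
    have e1 : (((ip (w x) (w y) : ℤ) : ℝ) - ((ip x y : ℤ) : ℝ)) / m
        ≤ (2 * (hammingDist x (w x) : ℝ) + 2 * (hammingDist y (w y) : ℝ)) / m :=
      div_le_div_of_nonneg_right h2.2 hm0.le
    have e2 : -(2 * (hammingDist x (w x) : ℝ) + 2 * (hammingDist y (w y) : ℝ)) / m
        ≤ (((ip (w x) (w y) : ℤ) : ℝ) - ((ip x y : ℤ) : ℝ)) / m :=
      div_le_div_of_nonneg_right h2.1 hm0.le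
    have e3 : (((ip (w x) (w y) : ℤ) : ℝ) - ((ip x y : ℤ) : ℝ)) / m
        = ((ip (w x) (w y) : ℤ) : ℝ) / m - 1 / m * ((ip x y : ℤ) : ℝ) := by ring
    have e4 : (2 * (hammingDist x (w x) : ℝ) + 2 * (hammingDist y (w y) : ℝ)) / m
        = 2 / m * (hammingDist x (w x) : ℝ) + 2 / m * (hammingDist y (w y) : ℝ) := by ring
    have e5 : -(2 * (hammingDist x (w x) : ℝ) + 2 * (hammingDist y (w y) : ℝ)) / m
        = -(2 / m * (hammingDist x (w x) : ℝ) + 2 / m * (hammingDist y (w y) : ℝ)) := by ring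
    rw [e3, e4] at e1
    rw [e3, e5] at e2
    constructor <;> linarith [h1.1, h1.2]
  constructor
  · have h1 := blow_mean hD
    have h2 := corr_ip_lower hm
    have h3 : corr (m := m) (2 / 5) (fun x y => 1 / m * ((ip x y : ℤ) : ℝ)
        + (-(2 / m) * (hammingDist x (w x) : ℝ) + (-(2 / m) * (hammingDist y (w y) : ℝ)
          + (-(1 / 10000))))) ≤ corr (2 / 5) q := by
      refine corr_mono (by norm_num) (by norm_num) (fun x y => ?_)
      have := hpt x y
      rw [abs_le] at this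
      linarith [this.1]
    rw [corr_add, corr_add, corr_add, corr_smul, corr_smul, corr_smul, corr_const,
      corr_left (m := m) (2 / 5) (fun x => (hammingDist x (w x) : ℝ)),
      corr_right (m := m) (2 / 5) (fun x => (hammingDist x (w x) : ℝ))] at h3
    have h4 : (1 : ℝ) / m * (36 / 100 * m)
        ≤ 1 / m * corr (m := m) (2 / 5) (fun x y => ((ip x y : ℤ) : ℝ)) :=
      mul_le_mul_of_nonneg_left h2 (by positivity)
    have h5 : 2 / (m : ℝ) * ((∑ x, (hammingDist x (w x) : ℝ)) / 2 ^ m) ≤ 2 / m * (m / 100) :=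
      mul_le_mul_of_nonneg_left h1 (by positivity)
    have e1 : (1 : ℝ) / m * (36 / 100 * m) = 36 / 100 := by field_simp
    have e2 : 2 / (m : ℝ) * (m / 100) = 2 / 100 := by field_simp
    rw [e1] at h4
    rw [e2] at h5
    linarith
  · intro k hk hkm
    have hkr : (1 : ℝ) ≤ k := by exact_mod_cast hk
    have hkmr : 300 * (k : ℝ) ≤ m := by exact_mod_cast hkm
    have hk0 : (0 : ℝ) < k := by linarith
    have hkm1 : (k : ℝ) / m ≤ 1 / 300 := by
      rw [div_le_iff₀ hm0]; linarith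
    have hkm0 : 0 < (k : ℝ) / m := by positivity
    -- the pointwise bound
    have h1 : ∀ x y, Real.exp (k * q x y) ≤ Real.exp (k * (3 / 10)) / 3 *
        (Real.exp (-(69 / 100 * k)) * Real.exp (3 * k / m * ((ip x y : ℤ) : ℝ))
          + (Real.exp (-(9 / 100 * k)) * Real.exp (6 * k / m * (hammingDist x (w x) : ℝ))
          + Real.exp (-(9 / 100 * k)) * Real.exp (6 * k / m * (hammingDist y (w y) : ℝ)))) := by
      intro x y
      have h2 := hpt x y
      rw [abs_le] at h2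
      have h3 : k * q x y ≤ k * (3 / 10) + ((k / m * ((ip x y : ℤ) : ℝ) - 23 / 100 * k)
          + (2 * k / m * (hammingDist x (w x) : ℝ) - 3 / 100 * k)
          + (2 * k / m * (hammingDist y (w y) : ℝ) - 3 / 100 * k)) := by
        have h4 := mul_le_mul_of_nonneg_left h2.2 hk0.le
        have e : (k : ℝ) * (q x y - 1 / m * ((ip x y : ℤ) : ℝ))
            = k * q x y - k / m * ((ip x y : ℤ) : ℝ) := by ring
        have e' : (k : ℝ) * (2 / m * (hammingDist x (w x) : ℝ)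
            + 2 / m * (hammingDist y (w y) : ℝ) + 1 / 10000)
            = 2 * k / m * (hammingDist x (w x) : ℝ) + 2 * k / m * (hammingDist y (w y) : ℝ)
              + k / 10000 := by ring
        rw [e, e'] at h4
        linarith
      refine (Real.exp_le_exp.2 h3).trans ?_
      rw [Real.exp_add]
      have h5 := exp_amgm3 (k / m * ((ip x y : ℤ) : ℝ) - 23 / 100 * k)
          (2 * k / m * (hammingDist x (w x) : ℝ) - 3 / 100 * k)
          (2 * k / m * (hammingDist y (w y) : ℝ) - 3 / 100 * k)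
      have h6 := mul_le_mul_of_nonneg_left h5 (Real.exp_pos (k * (3 / 10))).le
      refine h6.trans (le_of_eq ?_)
      rw [← Real.exp_add, ← Real.exp_add, ← Real.exp_add]
      have a1 : 3 * (k / m * ((ip x y : ℤ) : ℝ) - 23 / 100 * k)
          = -(69 / 100 * k) + 3 * k / m * ((ip x y : ℤ) : ℝ) := by ring
      have a2 : ∀ d : ℝ, 3 * (2 * k / m * d - 3 / 100 * k)
          = -(9 / 100 * k) + 6 * k / m * d := by intro d; ring
      rw [a1, a2, a2]
      ring
    have h2 := corr_mono (m := m) (ρ := 1 / 5) (by norm_num) (by norm_num) h1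
    rw [corr_smul, corr_add, corr_add, corr_smul, corr_smul, corr_smul,
      corr_left (m := m) (1 / 5) (fun x => Real.exp (6 * k / m * (hammingDist x (w x) : ℝ))),
      corr_right (m := m) (1 / 5) (fun x => Real.exp (6 * k / m * (hammingDist x (w x) : ℝ)))] at h2
    have hA : corr (m := m) (1 / 5) (fun x y => Real.exp (3 * k / m * ((ip x y : ℤ) : ℝ)))
        ≤ Real.exp (m * (1 / 5 * (3 * k / m) + (3 * k / m) ^ 2)) := by
      refine corr_exp_le ?_ (by norm_num) (by norm_num)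
      rw [abs_of_pos (by positivity)]
      have : 3 * (k : ℝ) / m = 3 * (k / m) := by ring
      rw [this]
      linarith
    have hA' : Real.exp (-(69 / 100 * k))
        * corr (m := m) (1 / 5) (fun x y => Real.exp (3 * k / m * ((ip x y : ℤ) : ℝ))) < 1 := by
      refine lt_of_le_of_lt (mul_le_mul_of_nonneg_left hA (Real.exp_pos _).le) ?_
      rw [← Real.exp_add, Real.exp_lt_one_iff]
      have e : (m : ℝ) * (1 / 5 * (3 * k / m) + (3 * k / m) ^ 2)
          = 3 / 5 * k + 9 * k * (k / m) := by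
        field_simp
        ring
      rw [e]
      nlinarith
    have hB : (∑ x, Real.exp (6 * k / m * (hammingDist x (w x) : ℝ))) / 2 ^ m
        ≤ Real.exp (6 * k / m * (m / 100)) := by
      refine blow_exp hD (by positivity) ?_
      have : 6 * (k : ℝ) / m = 6 * (k / m) := by ring
      rw [this]
      linarith
    have hB' : Real.exp (-(9 / 100 * k))
        * ((∑ x, Real.exp (6 * k / m * (hammingDist x (w x) : ℝ))) / 2 ^ m) ≤ 1 := by
      refine (mul_le_mul_of_nonneg_left hB (Real.exp_pos _).le).trans ?_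
      rw [← Real.exp_add, Real.exp_le_one_iff]
      have e : 6 * (k : ℝ) / m * (m / 100) = 6 / 100 * k := by field_simp
      rw [e]
      linarith
    refine lt_of_le_of_lt h2 ?_
    have h3 := Real.exp_pos ((k : ℝ) * (3 / 10))
    nlinarith

theorem gat_of (hB : BlowStmt) (hN : NoiseStmt) (hC : ClusterStmt) : GATStmt := by
  classical
  refine ⟨1 / 10000, by norm_num, fun K e he => ?_⟩
  obtain ⟨ζ, hζ, kmin, hkmin, Φ, hΦ, hC⟩ := hC K e he
  obtain ⟨kmax, hN⟩ := hN ζ hζ Φ kmin hΦ hkmin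
  refine ⟨26 + 300 * kmax, fun m hm W b hW hb => ?_⟩
  have hm26 : 26 ≤ m := by omega
  have hmr : (26 : ℝ) ≤ m := by exact_mod_cast hm26
  have hm0 : (0 : ℝ) < m := by linarith
  have hP : (0 : ℝ) < 2 ^ m := by positivity
  have hWpos : (0 : ℝ) < W.card := lt_of_lt_of_le (by positivity) hW
  have hWne : W.Nonempty := by
    rw [← Finset.card_pos]
    exact_mod_cast hWpos
  obtain ⟨w, hwW, hw⟩ := hB m W hWne
  have hD : ∑ x, Real.exp (1 / 50 * (hammingDist x (w x) : ℝ)) ≤ Real.exp (m / 5000) * 2 ^ m := by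
    refine (hw (1 / 50) (by norm_num)).trans ?_
    rw [div_le_iff₀ hWpos]
    have h1 : Real.cosh ((1 : ℝ) / 50 / 2) ^ (2 * m) ≤ Real.exp (m / 10000) := by
      have h2 := Real.cosh_le_exp_half_sq ((1 : ℝ) / 50 / 2)
      have h3 := pow_le_pow_left₀ (Real.cosh_pos _).le h2 (2 * m)
      refine h3.trans (le_of_eq ?_)
      rw [← Real.exp_nat_mul]
      congr 1
      push_cast
      ring
    calc Real.cosh ((1 : ℝ) / 50 / 2) ^ (2 * m) * ((2 : ℝ) ^ m) ^ 2
        ≤ Real.exp (m / 10000) * ((2 : ℝ) ^ m) ^ 2 :=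
          mul_le_mul_of_nonneg_right h1 (by positivity)
      _ = Real.exp (m / 5000) * 2 ^ m * (Real.exp (-(1 / 10000 * m)) * 2 ^ m) := by
          have : Real.exp ((m : ℝ) / 10000) = Real.exp (m / 5000) * Real.exp (-(1 / 10000 * m)) := by
            rw [← Real.exp_add]
            congr 1
            ring
          rw [this]
          ring
      _ ≤ Real.exp (m / 5000) * 2 ^ m * W.card :=
          mul_le_mul_of_nonneg_left hW (by positivity)
  -- the vector valued map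
  set r : ℝ := 1 / Real.sqrt m with hr
  have hrr : r * r = 1 / m := by
    rw [hr, div_mul_div_comm, Real.mul_self_sqrt hm0.le, one_mul]
  let a : (Fin m → Bool) → Fin (m + m) → ℝ :=
    fun x i => r * Fin.append (fun i => sg (w x i)) (b (w x)) i
  have hqa : ∀ x y, qf a x y
      = 1 / m * (((ip (w x) (w y) : ℤ) : ℝ) + ∑ l, b (w x) l * b (w y) l) := by
    intro x y
    unfold qf
    rw [Fin.sum_univ_add]
    simp only [a, Fin.append_left, Fin.append_right]
    rw [ipR, ← hrr, mul_add, Finset.mul_sum, Finset.mul_sum]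
    congr 1 <;> exact Finset.sum_congr rfl (fun i _ => by ring)
  have hbb : ∀ x y, |∑ l, b (w x) l * b (w y) l| ≤ 1 / 10000 * m := fun x y =>
    abs_sum_mul_le (hb _ (hwW x)) (hb _ (hwW y))
  have hq : ∀ x y, |qf a x y - (ip (w x) (w y) : ℤ) / m| ≤ 1 / 10000 := by
    intro x y
    have h1 : qf a x y - (ip (w x) (w y) : ℤ) / m = (∑ l, b (w x) l * b (w y) l) / m := by
      rw [hqa]; ring
    rw [h1, abs_div, abs_of_pos hm0, div_le_iff₀ hm0]
    exact hbb x y
  have hqd : ∀ x, qf a x x ≤ 101 / 100 := by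
    intro x
    have h1 := hq x x
    rw [abs_le] at h1
    have h2 : ((ip (w x) (w x) : ℤ) : ℝ) = m := by
      rw [ipR, Finset.sum_congr rfl (fun i _ => sg_mul_self (w x i))]
      simp
    rw [h2, div_self hm0.ne'] at h1
    linarith [h1.2]
  obtain ⟨hc1, hc2⟩ := gat_conditions hD hq hm26
  obtain ⟨k, hk1, -, ξ, hξ, hξ1, hξ2⟩ := hN m (m + m) a hqd hc1 (by
    intro k hk1 hk2
    exact hc2 k (hkmin.trans hk1) (by omega))
  obtain ⟨x, hx⟩ := hC k hk1 (Fin m → Bool) ξ (m + m) a hξ hqd hξ1 hξ2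
  refine ⟨fun i => w (x i), fun i => hwW _, fun i j hij => ?_⟩
  have h1 := hx i j hij
  rw [hqa] at h1
  have h2 : (ip (w (x i)) (w (x j)) : ℝ) + ∑ l, b (w (x i)) l * b (w (x j)) l - 3 / 10 * m
      = (1 / m * ((ip (w (x i)) (w (x j)) : ℝ) + ∑ l, b (w (x i)) l * b (w (x j)) l) - 3 / 10) * m := by
    field_simp
  rw [h2, abs_mul, abs_of_pos hm0]
  exact mul_le_mul_of_nonneg_right h1 hm0.le

end Pool.Agent.MP3884c4
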