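import Mathlib

/-!
# Approximate theorem, abstract part

A finite probability space with a vector valued function `a` in a Euclidean ball.  If the
exponential moments of `⟪a ω, a ω'⟫` at two scales `k << k'` are compatible with the value `x`, there
are `K` points with all pairwise inner products close to `x`.
-/

set_option autoImplicit false
set_option linter.unusedSectionVars false

namespace Pool.Agent.Lib.MP_3884c4_co.Gat

open Finset Real
open scoped BigOperators RealInnerProductSpace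

variable {Ω E : Type*} [DecidableEq Ω] [NormedAddCommGroup E] [InnerProductSpace ℝ E]

/-- mass of a finite set -/
def mass (ξ : Ω → ℝ) (B : Finset Ω) : ℝ := ∑ ω ∈ B, ξ ω

/-- mean of `a` over a finite set -/
noncomputable def bary (ξ : Ω → ℝ) (a : Ω → E) (B : Finset Ω) : E :=
  (mass ξ B)⁻¹ • ∑ ω ∈ B, ξ ω • a ω

section

variable {ξ : Ω → ℝ} {a : Ω → E}

theorem mass_nonneg (h0 : ∀ ω, 0 ≤ ξ ω) (B : Finset Ω) : 0 ≤ mass ξ B :=
  Finset.sum_nonneg fun ω _ => h0 ω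

theorem mass_mono (h0 : ∀ ω, 0 ≤ ξ ω) {A B : Finset Ω} (h : A ⊆ B) : mass ξ A ≤ mass ξ B :=
  Finset.sum_le_sum_of_subset_of_nonneg h fun ω _ _ => h0 ω

theorem mass_smul_mean {B : Finset Ω} (hB : mass ξ B ≠ 0) :
    mass ξ B • bary ξ a B = ∑ ω ∈ B, ξ ω • a ω := by
  unfold bary
  rw [smul_smul, mul_inv_cancel₀ hB, one_smul]

theorem sum_inner_left {B : Finset Ω} (hB : mass ξ B ≠ 0) (u : E) :
    ∑ ω ∈ B, ξ ω * ⟪a ω, u⟫ = mass ξ B * ⟪bary ξ a B, u⟫ := by
  rw [← real_inner_smul_left, mass_smul_mean hB, sum_inner]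
  refine Finset.sum_congr rfl fun ω _ => ?_
  rw [real_inner_smul_left]

theorem norm_mean_sq_le (h0 : ∀ ω, 0 ≤ ξ ω) {R : ℝ} (hR : ∀ ω, ‖a ω‖ ^ 2 ≤ R) (hR0 : 0 ≤ R)
    {B : Finset Ω} (hB : 0 < mass ξ B) : ‖bary ξ a B‖ ^ 2 ≤ R := by
  have h1 : ‖bary ξ a B‖ ≤ √R := by
    unfold bary
    rw [norm_smul, Real.norm_of_nonneg (inv_nonneg.2 hB.le), inv_mul_le_iff₀ hB]
    calc ‖∑ ω ∈ B, ξ ω • a ω‖ ≤ ∑ ω ∈ B, ‖ξ ω • a ω‖ := norm_sum_le _ _
      _ ≤ ∑ ω ∈ B, ξ ω * √R := by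
          refine Finset.sum_le_sum fun ω _ => ?_
          rw [norm_smul, Real.norm_of_nonneg (h0 ω)]
          exact mul_le_mul_of_nonneg_left (Real.le_sqrt_of_sq_le (hR ω)) (h0 ω)
      _ = mass ξ B * √R := by rw [← Finset.sum_mul]; rfl
  calc ‖bary ξ a B‖ ^ 2 ≤ (√R) ^ 2 := pow_le_pow_left₀ (norm_nonneg _) h1 2
    _ = R := Real.sq_sqrt hR0

/-- two-piece identity: `P x + Q y = M z`, `P + Q = M`. -/
theorem split_identity {P Q M : ℝ} (hQ : 0 < Q) (hM : P + Q = M) {x y z : E}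
    (hz : P • x + Q • y = M • z) :
    P * ‖x‖ ^ 2 + Q * ‖y‖ ^ 2 = M * ‖z‖ ^ 2 + (P * M / Q) * ‖x - z‖ ^ 2 := by
  have hy : y = Q⁻¹ • (M • z - P • x) := by
    rw [← hz, add_sub_cancel_left, smul_smul, inv_mul_cancel₀ hQ.ne', one_smul]
  have h1 : ‖y‖ ^ 2 = (Q⁻¹) ^ 2 * (M ^ 2 * ‖z‖ ^ 2 - 2 * M * P * ⟪z, x⟫ + P ^ 2 * ‖x‖ ^ 2) := by
    rw [hy, norm_smul, mul_pow, Real.norm_eq_abs, sq_abs, norm_sub_sq_real, norm_smul, norm_smul,
      mul_pow, mul_pow, Real.norm_eq_abs, Real.norm_eq_abs, sq_abs, sq_abs, real_inner_smul_left,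
      real_inner_smul_right]
    ring
  have h2 : ‖x - z‖ ^ 2 = ‖x‖ ^ 2 - 2 * ⟪z, x⟫ + ‖z‖ ^ 2 := by
    rw [norm_sub_sq_real, real_inner_comm]
  rw [h1, h2]
  have hM' : M = P + Q := hM.symm
  subst hM'
  field_simp
  ring

/-- The maximal piece. -/
theorem exists_piece (h0 : ∀ ω, 0 ≤ ξ ω) {R lam e1 : ℝ} (hR : ∀ ω, ‖a ω‖ ^ 2 ≤ R) (hR0 : 0 < R)
    (hlam : 0 < lam) (he1 : 0 < e1) (S : Finset Ω) (hS : 0 < mass ξ S) :
    ∃ B ⊆ S, mass ξ S * exp (-(R / lam)) ≤ mass ξ B ∧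
      ∀ u : E, ‖u‖ ^ 2 ≤ R →
        mass ξ (B.filter fun ω => e1 < ⟪a ω - bary ξ a B, u⟫) ≤ (lam * R / e1 ^ 2) * mass ξ B := by
  classical
  set C := S.powerset.filter fun B => 0 < mass ξ B with hC
  have hSC : S ∈ C := by
    rw [hC, mem_filter, mem_powerset]
    exact ⟨Subset.refl _, hS⟩
  obtain ⟨B, hBC, hmax⟩ := Finset.exists_max_image C
    (fun B => ‖bary ξ a B‖ ^ 2 + lam * log (mass ξ B)) ⟨S, hSC⟩
  have hB := hBC
  rw [hC, mem_filter, mem_powerset] at hB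
  obtain ⟨hBS, hBpos⟩ := hB
  refine ⟨B, hBS, ?_, ?_⟩
  · have h1 := hmax S hSC
    have h2 : ‖bary ξ a B‖ ^ 2 ≤ R := norm_mean_sq_le h0 hR hR0.le hBpos
    have h3 : 0 ≤ ‖bary ξ a S‖ ^ 2 := sq_nonneg _
    have h4 : lam * log (mass ξ S) - R ≤ lam * log (mass ξ B) := by
      linarith
    have h5 : log (mass ξ S) - R / lam ≤ log (mass ξ B) := by
      have : lam * (log (mass ξ S) - R / lam) ≤ lam * log (mass ξ B) := by
        rw [mul_sub, mul_div_cancel₀ _ hlam.ne']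
        exact h4
      exact le_of_mul_le_mul_left this hlam
    calc mass ξ S * exp (-(R / lam)) = exp (log (mass ξ S) - R / lam) := by
          rw [sub_eq_add_neg, exp_add, exp_log hS]
      _ ≤ exp (log (mass ξ B)) := exp_le_exp.2 h5
      _ = mass ξ B := exp_log hBpos
  · intro u hu
    set B' := B.filter fun ω => e1 < ⟪a ω - bary ξ a B, u⟫ with hB'
    have hsub : B' ⊆ B := filter_subset _ _
    have hMu : mass ξ B' ≤ mass ξ B := mass_mono h0 hsub
    rcases (mass_nonneg h0 B').eq_or_lt with hz | hpos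
    · rw [← hz]
      positivity
    set B'' := B \ B' with hB''
    have hadd : mass ξ B' + mass ξ B'' = mass ξ B := by
      unfold mass
      rw [hB'', add_comm]
      exact Finset.sum_sdiff hsub
    have hvec : (∑ ω ∈ B', ξ ω • a ω) + (∑ ω ∈ B'', ξ ω • a ω) = ∑ ω ∈ B, ξ ω • a ω := by
      rw [hB'', add_comm]
      exact Finset.sum_sdiff hsub
    -- mean of B' is far in direction u
    have hfar : e1 ≤ ⟪bary ξ a B' - bary ξ a B, u⟫ := by
      have h1 : mass ξ B' * e1 ≤ ∑ ω ∈ B', ξ ω * ⟪a ω - bary ξ a B, u⟫ := by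
        unfold mass
        rw [Finset.sum_mul]
        refine Finset.sum_le_sum fun ω hω => ?_
        exact mul_le_mul_of_nonneg_left (mem_filter.1 hω).2.le (h0 ω)
      have h2 : ∑ ω ∈ B', ξ ω * ⟪a ω - bary ξ a B, u⟫
          = mass ξ B' * ⟪bary ξ a B' - bary ξ a B, u⟫ := by
        rw [inner_sub_left, mul_sub, ← sum_inner_left hpos.ne']
        unfold mass
        rw [Finset.sum_mul, ← Finset.sum_sub_distrib]
        refine Finset.sum_congr rfl fun ω _ => ?_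
        rw [inner_sub_left, mul_sub]
      rw [h2] at h1
      exact le_of_mul_le_mul_left h1 hpos
    have hfar2 : e1 ^ 2 ≤ ‖bary ξ a B' - bary ξ a B‖ ^ 2 * R := by
      have h1 : e1 ≤ ‖bary ξ a B' - bary ξ a B‖ * ‖u‖ := hfar.trans (real_inner_le_norm _ _)
      calc e1 ^ 2 ≤ (‖bary ξ a B' - bary ξ a B‖ * ‖u‖) ^ 2 := pow_le_pow_left₀ he1.le h1 2
        _ = ‖bary ξ a B' - bary ξ a B‖ ^ 2 * ‖u‖ ^ 2 := by ring
        _ ≤ _ := mul_le_mul_of_nonneg_left hu (sq_nonneg _)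
    rcases (mass_nonneg h0 B'').eq_or_lt with hz | hpos2
    · -- no mass outside: means agree
      exfalso
      have h1 : ∀ ω ∈ B'', ξ ω = 0 := by
        intro ω hω
        exact (Finset.sum_eq_zero_iff_of_nonneg fun ω _ => h0 ω).1 hz.symm ω hω
      have h2 : ∑ ω ∈ B'', ξ ω • a ω = 0 :=
        Finset.sum_eq_zero fun ω hω => by rw [h1 ω hω, zero_smul]
      have h3 : bary ξ a B' = bary ξ a B := by
        unfold bary
        rw [← hvec, h2, add_zero, ← hadd, ← hz, add_zero]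
      rw [h3, sub_self, inner_zero_left] at hfar
      exact absurd hfar (not_le.2 he1)
    have hid := split_identity (P := mass ξ B') (Q := mass ξ B'') (M := mass ξ B)
      (x := bary ξ a B') (y := bary ξ a B'') (z := bary ξ a B) hpos2 hadd (by
        rw [mass_smul_mean hpos.ne', mass_smul_mean hpos2.ne', mass_smul_mean hBpos.ne', hvec])
    have hm1 := hmax B' (by
      rw [hC, mem_filter, mem_powerset]
      exact ⟨hsub.trans hBS, hpos⟩)
    have hm2 := hmax B'' (by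
      rw [hC, mem_filter, mem_powerset]
      exact ⟨(Finset.sdiff_subset).trans hBS, hpos2⟩)
    -- log bounds
    have hl1 : mass ξ B' * (log (mass ξ B) - log (mass ξ B')) ≤ mass ξ B - mass ξ B' := by
      rw [← log_div hBpos.ne' hpos.ne']
      have := Real.log_le_sub_one_of_pos (div_pos hBpos hpos)
      calc mass ξ B' * log (mass ξ B / mass ξ B') ≤ mass ξ B' * (mass ξ B / mass ξ B' - 1) :=
            mul_le_mul_of_nonneg_left this hpos.le
        _ = mass ξ B - mass ξ B' := by field_simp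
    have hl2 : mass ξ B'' * (log (mass ξ B) - log (mass ξ B'')) ≤ mass ξ B - mass ξ B'' := by
      rw [← log_div hBpos.ne' hpos2.ne']
      have := Real.log_le_sub_one_of_pos (div_pos hBpos hpos2)
      calc mass ξ B'' * log (mass ξ B / mass ξ B'') ≤ mass ξ B'' * (mass ξ B / mass ξ B'' - 1) :=
            mul_le_mul_of_nonneg_left this hpos2.le
        _ = mass ξ B - mass ξ B'' := by field_simp
    have hkey : mass ξ B' * mass ξ B / mass ξ B'' * ‖bary ξ a B' - bary ξ a B‖ ^ 2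
        ≤ lam * mass ξ B := by
      have e1' := mul_le_mul_of_nonneg_left hm1 hpos.le
      have e2' := mul_le_mul_of_nonneg_left hm2 hpos2.le
      have e3' := mul_le_mul_of_nonneg_left hl1 hlam.le
      have e4' := mul_le_mul_of_nonneg_left hl2 hlam.le
      have hMM : mass ξ B * ‖bary ξ a B‖ ^ 2 = mass ξ B' * ‖bary ξ a B‖ ^ 2
          + mass ξ B'' * ‖bary ξ a B‖ ^ 2 := by rw [← hadd]; ring
      nlinarith [hid, e1', e2', e3', e4', hMM, hadd]
    have hkey2 : mass ξ B' * ‖bary ξ a B' - bary ξ a B‖ ^ 2 ≤ lam * mass ξ B := by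
      have h1 : mass ξ B' * ‖bary ξ a B' - bary ξ a B‖ ^ 2
          = (mass ξ B' * mass ξ B / mass ξ B'' * ‖bary ξ a B' - bary ξ a B‖ ^ 2)
            * (mass ξ B'' / mass ξ B) := by
        field_simp
      have h2 : mass ξ B'' / mass ξ B ≤ 1 := by
        rw [div_le_one hBpos]
        linarith
      rw [h1]
      calc _ ≤ (lam * mass ξ B) * (mass ξ B'' / mass ξ B) :=
            mul_le_mul_of_nonneg_right hkey (by positivity)
        _ ≤ (lam * mass ξ B) * 1 := mul_le_mul_of_nonneg_left h2 (by positivity)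
        _ = _ := mul_one _
    have : mass ξ B' * e1 ^ 2 ≤ lam * R * mass ξ B := by
      calc mass ξ B' * e1 ^ 2 ≤ mass ξ B' * (‖bary ξ a B' - bary ξ a B‖ ^ 2 * R) :=
            mul_le_mul_of_nonneg_left hfar2 hpos.le
        _ = (mass ξ B' * ‖bary ξ a B' - bary ξ a B‖ ^ 2) * R := by ring
        _ ≤ (lam * mass ξ B) * R := mul_le_mul_of_nonneg_right hkey2 hR0.le
        _ = _ := by ring
    rw [div_mul_eq_mul_div, le_div_iff₀ (by positivity)]
    exact this

/-- A good piece: not too small, and `a` is concentrated in each direction. -/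
def Good (ξ : Ω → ℝ) (a : Ω → E) (R t0 e1 p1 : ℝ) (B : Finset Ω) : Prop :=
  t0 ≤ mass ξ B ∧ ∀ u : E, ‖u‖ ^ 2 ≤ R →
    mass ξ (B.filter fun ω => e1 < |⟪a ω - bary ξ a B, u⟫|) ≤ 2 * p1 * mass ξ B

theorem exists_good (h0 : ∀ ω, 0 ≤ ξ ω) {R p1 e1 eps : ℝ} (hR : ∀ ω, ‖a ω‖ ^ 2 ≤ R)
    (hR0 : 0 < R) (hp1 : 0 < p1) (he1 : 0 < e1) (heps : 0 < eps) (S : Finset Ω)
    (hS : eps < mass ξ S) :
    ∃ B ⊆ S, 0 < mass ξ B ∧
      Good ξ a R (eps * exp (-(R / (p1 * e1 ^ 2 / R)))) e1 p1 B := by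
  classical
  have hlam : 0 < p1 * e1 ^ 2 / R := by positivity
  obtain ⟨B, hBS, h1, h2⟩ := exists_piece h0 hR hR0 hlam he1 S (heps.trans hS)
  have hpos : 0 < mass ξ B := lt_of_lt_of_le (by
    have := heps.trans hS
    positivity) h1
  refine ⟨B, hBS, hpos, ?_, ?_⟩
  · refine le_trans ?_ h1
    exact mul_le_mul_of_nonneg_right hS.le (exp_pos _).le
  · intro u hu
    have hc : p1 * e1 ^ 2 / R * R / e1 ^ 2 = p1 := by field_simp
    have hu1 := h2 u hu
    have hu2 := h2 (-u) (by rwa [norm_neg])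
    rw [hc] at hu1 hu2
    have hsub : (B.filter fun ω => e1 < |⟪a ω - bary ξ a B, u⟫|) ⊆
        (B.filter fun ω => e1 < ⟪a ω - bary ξ a B, u⟫) ∪
        (B.filter fun ω => e1 < ⟪a ω - bary ξ a B, -u⟫) := by
      intro ω hω
      rw [mem_filter] at hω
      rw [mem_union, mem_filter, mem_filter]
      rcases lt_abs.1 hω.2 with h | h
      · exact Or.inl ⟨hω.1, h⟩
      · refine Or.inr ⟨hω.1, ?_⟩
        rw [inner_neg_right]
        exact h
    calc _ ≤ mass ξ ((B.filter fun ω => e1 < ⟪a ω - bary ξ a B, u⟫) ∪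
        (B.filter fun ω => e1 < ⟪a ω - bary ξ a B, -u⟫)) := mass_mono h0 hsub
      _ ≤ mass ξ (B.filter fun ω => e1 < ⟪a ω - bary ξ a B, u⟫)
          + mass ξ (B.filter fun ω => e1 < ⟪a ω - bary ξ a B, -u⟫) := by
          unfold mass
          have := Finset.sum_union_inter (s₁ := B.filter fun ω => e1 < ⟪a ω - bary ξ a B, u⟫)
            (s₂ := B.filter fun ω => e1 < ⟪a ω - bary ξ a B, -u⟫) (f := ξ)
          have h3 : 0 ≤ ∑ x ∈ (B.filter fun ω => e1 < ⟪a ω - bary ξ a B, u⟫) ∩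
            (B.filter fun ω => e1 < ⟪a ω - bary ξ a B, -u⟫), ξ x :=
            Finset.sum_nonneg fun ω _ => h0 ω
          linarith
      _ ≤ _ := by linarith

/-- decomposition into good pieces up to a small remainder -/
theorem exists_decomp (h0 : ∀ ω, 0 ≤ ξ ω) {R p1 e1 eps t0 : ℝ} (hR : ∀ ω, ‖a ω‖ ^ 2 ≤ R)
    (hR0 : 0 < R) (hp1 : 0 < p1) (he1 : 0 < e1) (heps : 0 < eps)
    (ht0 : t0 = eps * exp (-(R / (p1 * e1 ^ 2 / R)))) (S : Finset Ω) :
    ∃ C : Finset (Finset Ω), (∀ B ∈ C, B ⊆ S ∧ 0 < mass ξ B ∧ Good ξ a R t0 e1 p1 B) ∧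
      (∀ B ∈ C, ∀ B' ∈ C, B ≠ B' → Disjoint B B') ∧
      mass ξ (S \ C.biUnion id) ≤ eps := by
  classical
  induction S using Finset.strongInduction with
  | H S ih =>
    by_cases hS : mass ξ S ≤ eps
    · refine ⟨∅, by simp, by simp, ?_⟩
      simpa using hS
    · obtain ⟨B, hBS, hBpos, hgood⟩ := exists_good h0 hR hR0 hp1 he1 heps S (not_le.1 hS)
      have hne : B.Nonempty := by
        rw [Finset.nonempty_iff_ne_empty]
        rintro rfl
        simp [mass] at hBpos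
      have hss : S \ B ⊂ S := by
        refine Finset.sdiff_ssubset hBS hne
      obtain ⟨C, hC1, hC2, hC3⟩ := ih (S \ B) hss
      refine ⟨insert B C, ?_, ?_, ?_⟩
      · intro B' hB'
        rcases Finset.mem_insert.1 hB' with rfl | h
        · exact ⟨hBS, hBpos, by rw [ht0]; exact hgood⟩
        · obtain ⟨h1, h2, h3⟩ := hC1 B' h
          exact ⟨h1.trans Finset.sdiff_subset, h2, h3⟩
      · intro X hX Y hY hXY
        rcases Finset.mem_insert.1 hX with rfl | hX'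
        · rcases Finset.mem_insert.1 hY with rfl | hY'
          · exact absurd rfl hXY
          · exact (Finset.disjoint_sdiff.mono_right (hC1 Y hY').1)
        · rcases Finset.mem_insert.1 hY with rfl | hY'
          · exact (Finset.disjoint_sdiff.mono_right (hC1 X hX').1).symm
          · exact hC2 X hX' Y hY' hXY
      · have : S \ (insert B C).biUnion id = (S \ B) \ C.biUnion id := by
          rw [Finset.biUnion_insert, id, Finset.sdiff_union_distrib]
          ext x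
          simp only [mem_inter, mem_sdiff]
          tauto
        rw [this]
        exact hC3

/-- pair bound inside two pieces -/
theorem pair_bound (h0 : ∀ ω, 0 ≤ ξ ω) {R p1 e1 t0 th : ℝ} (hR : ∀ ω, ‖a ω‖ ^ 2 ≤ R)
    (hR0 : 0 ≤ R) {B C : Finset Ω} (hB0 : 0 < mass ξ B)
    (hB : Good ξ a R t0 e1 p1 B) (hC : Good ξ a R t0 e1 p1 C)
    (hBC : ⟪bary ξ a B, bary ξ a C⟫ < th - 2 * e1) :
    ∑ x ∈ B, ∑ y ∈ C, ξ x * ξ y * (if th ≤ ⟪a x, a y⟫ then 1 else 0)
      ≤ 4 * p1 * (mass ξ B * mass ξ C) := by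
  classical
  have hterm : ∀ x y, (if th ≤ ⟪a x, a y⟫ then (1 : ℝ) else 0) ≤
      (if e1 < |⟪a x - bary ξ a B, a y⟫| then 1 else 0)
      + (if e1 < |⟪a y - bary ξ a C, bary ξ a B⟫| then 1 else 0) := by
    intro x y
    by_cases h1 : e1 < |⟪a x - bary ξ a B, a y⟫|
    · rw [if_pos h1]
      split_ifs <;> norm_num
    · by_cases h2 : e1 < |⟪a y - bary ξ a C, bary ξ a B⟫|
      · rw [if_pos h2]
        split_ifs <;> norm_num
      · have h3 : ¬ th ≤ ⟪a x, a y⟫ := by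
          rw [not_lt, abs_le] at h1 h2
          have : ⟪a x, a y⟫ = ⟪a x - bary ξ a B, a y⟫ + ⟪a y - bary ξ a C, bary ξ a B⟫
              + ⟪bary ξ a B, bary ξ a C⟫ := by
            rw [inner_sub_left, inner_sub_left, real_inner_comm (bary ξ a B) (bary ξ a C),
              real_inner_comm (bary ξ a B) (a y)]
            ring
          rw [this, not_le]
          linarith [h1.2, h2.2]
        rw [if_neg h1, if_neg h2, if_neg h3]
        norm_num
  have hx : ∀ y, ∑ x ∈ B, ξ x * (if e1 < |⟪a x - bary ξ a B, a y⟫| then (1 : ℝ) else 0)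
      ≤ 2 * p1 * mass ξ B := by
    intro y
    have := hB.2 (a y) (hR y)
    refine le_trans (le_of_eq ?_) this
    unfold mass
    rw [Finset.sum_filter]
    refine Finset.sum_congr rfl fun x _ => ?_
    split_ifs <;> simp
  have hy : ∑ y ∈ C, ξ y * (if e1 < |⟪a y - bary ξ a C, bary ξ a B⟫| then (1 : ℝ) else 0)
      ≤ 2 * p1 * mass ξ C := by
    have := hC.2 (bary ξ a B) (norm_mean_sq_le h0 hR hR0 hB0)
    refine le_trans (le_of_eq ?_) this
    unfold mass
    rw [Finset.sum_filter]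
    refine Finset.sum_congr rfl fun x _ => ?_
    split_ifs <;> simp
  calc ∑ x ∈ B, ∑ y ∈ C, ξ x * ξ y * (if th ≤ ⟪a x, a y⟫ then 1 else 0)
      ≤ ∑ x ∈ B, ∑ y ∈ C, (ξ y * (ξ x * (if e1 < |⟪a x - bary ξ a B, a y⟫| then 1 else 0))
        + ξ x * (ξ y * (if e1 < |⟪a y - bary ξ a C, bary ξ a B⟫| then 1 else 0))) := by
        refine Finset.sum_le_sum fun x _ => Finset.sum_le_sum fun y _ => ?_
        have := mul_le_mul_of_nonneg_left (hterm x y) (mul_nonneg (h0 x) (h0 y))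
        linarith
    _ = ∑ y ∈ C, ξ y * ∑ x ∈ B, ξ x * (if e1 < |⟪a x - bary ξ a B, a y⟫| then (1 : ℝ) else 0)
        + ∑ x ∈ B, ξ x * ∑ y ∈ C, ξ y *
            (if e1 < |⟪a y - bary ξ a C, bary ξ a B⟫| then (1 : ℝ) else 0) := by
        simp only [Finset.sum_add_distrib, ← Finset.mul_sum]
        congr 1
        rw [Finset.sum_comm]
        simp only [← Finset.mul_sum]
    _ ≤ ∑ y ∈ C, ξ y * (2 * p1 * mass ξ B) + ∑ x ∈ B, ξ x * (2 * p1 * mass ξ C) := by
        refine add_le_add ?_ ?_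
        · exact Finset.sum_le_sum fun y _ => mul_le_mul_of_nonneg_left (hx y) (h0 y)
        · exact Finset.sum_le_sum fun x _ => mul_le_mul_of_nonneg_left hy (h0 x)
    _ = 4 * p1 * (mass ξ B * mass ξ C) := by
        rw [← Finset.sum_mul, ← Finset.sum_mul]
        unfold mass
        ring

theorem mass_union_le (h0 : ∀ ω, 0 ≤ ξ ω) (A B : Finset Ω) :
    mass ξ (A ∪ B) ≤ mass ξ A + mass ξ B := by
  unfold mass
  have := Finset.sum_union_inter (s₁ := A) (s₂ := B) (f := ξ)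
  have h3 : 0 ≤ ∑ x ∈ A ∩ B, ξ x := Finset.sum_nonneg fun ω _ => h0 ω
  linarith

theorem mass_biUnion_le {κ : Type*} [DecidableEq κ] (h0 : ∀ ω, 0 ≤ ξ ω) (s : Finset κ)
    (F : κ → Finset Ω) : mass ξ (s.biUnion F) ≤ ∑ i ∈ s, mass ξ (F i) := by
  induction s using Finset.induction_on with
  | empty => simp [mass]
  | insert i s his ih =>
    rw [Finset.biUnion_insert, Finset.sum_insert his]
    exact (mass_union_le h0 _ _).trans (add_le_add le_rfl ih)

/-- a `K`-tuple inside a good piece -/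
theorem exists_tuple (h0 : ∀ ω, 0 ≤ ξ ω) {R p1 e1 t0 : ℝ} (hR : ∀ ω, ‖a ω‖ ^ 2 ≤ R)
    (hR0 : 0 ≤ R) {B : Finset Ω} (hB0 : 0 < mass ξ B) (hB : Good ξ a R t0 e1 p1 B) (K : ℕ)
    (hK : 2 * p1 * (K + 1) < 1) (hp1 : 0 < p1) :
    ∃ f : Fin K → Ω, (∀ i, |⟪a (f i) - bary ξ a B, bary ξ a B⟫| ≤ e1) ∧
      ∀ i j, i < j → |⟪a (f j) - bary ξ a B, a (f i)⟫| ≤ e1 := by
  classical
  induction K with
  | zero => exact ⟨fun i => i.elim0, fun i => i.elim0, fun i => i.elim0⟩
  | succ K ih =>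
    have hK' : 2 * p1 * (K + 1) < 1 := by
      push_cast at hK
      nlinarith
    obtain ⟨f, hf1, hf2⟩ := ih hK'
    -- bad sets
    set bad : Finset Ω := (B.filter fun ω => e1 < |⟪a ω - bary ξ a B, bary ξ a B⟫|) ∪
      (Finset.univ : Finset (Fin K)).biUnion
        (fun i => B.filter fun ω => e1 < |⟪a ω - bary ξ a B, a (f i)⟫|) with hbad
    have hmb : mass ξ bad ≤ 2 * p1 * (K + 1) * mass ξ B := by
      have h1 : mass ξ bad ≤ mass ξ (B.filter fun ω => e1 < |⟪a ω - bary ξ a B, bary ξ a B⟫|) +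
          mass ξ ((Finset.univ : Finset (Fin K)).biUnion
        (fun i => B.filter fun ω => e1 < |⟪a ω - bary ξ a B, a (f i)⟫|)) := by
        unfold mass
        have := Finset.sum_union_inter (s₁ := B.filter fun ω =>
            e1 < |⟪a ω - bary ξ a B, bary ξ a B⟫|)
          (s₂ := (Finset.univ : Finset (Fin K)).biUnion
        (fun i => B.filter fun ω => e1 < |⟪a ω - bary ξ a B, a (f i)⟫|)) (f := ξ)
        have h3 : 0 ≤ ∑ x ∈ (B.filter fun ω => e1 < |⟪a ω - bary ξ a B, bary ξ a B⟫|) ∩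
          ((Finset.univ : Finset (Fin K)).biUnion
        (fun i => B.filter fun ω => e1 < |⟪a ω - bary ξ a B, a (f i)⟫|)), ξ x :=
          Finset.sum_nonneg fun ω _ => h0 ω
        linarith
      have h2 : mass ξ ((Finset.univ : Finset (Fin K)).biUnion
        (fun i => B.filter fun ω => e1 < |⟪a ω - bary ξ a B, a (f i)⟫|)) ≤
          ∑ i : Fin K, mass ξ (B.filter fun ω => e1 < |⟪a ω - bary ξ a B, a (f i)⟫|) := by
        exact mass_biUnion_le h0 _ _
      have h3 : ∑ i : Fin K, mass ξ (B.filter fun ω => e1 < |⟪a ω - bary ξ a B, a (f i)⟫|) ≤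
          ∑ i : Fin K, 2 * p1 * mass ξ B :=
        Finset.sum_le_sum fun i _ => hB.2 _ (hR _)
      rw [Finset.sum_const, Finset.card_univ, Fintype.card_fin, nsmul_eq_mul] at h3
      have h4 := hB.2 (bary ξ a B) (norm_mean_sq_le h0 hR hR0 hB0)
      linarith
    have hlt : mass ξ bad < mass ξ B := by
      have : 2 * p1 * (K + 1) * mass ξ B < 1 * mass ξ B := mul_lt_mul_of_pos_right hK' hB0
      linarith
    have hex : ∃ ω ∈ B, ω ∉ bad := by
      by_contra hcon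
      push Not at hcon
      exact absurd (mass_mono h0 hcon) (not_le.2 hlt)
    obtain ⟨ω, hωB, hω⟩ := hex
    rw [hbad, mem_union, not_or, mem_filter, mem_biUnion] at hω
    obtain ⟨hω1, hω2⟩ := hω
    push Not at hω1 hω2
    refine ⟨Fin.snoc f ω, ?_, ?_⟩
    · intro i
      refine Fin.lastCases ?_ (fun i => ?_) i
      · rw [Fin.snoc_last]
        exact hω1 hωB
      · rw [Fin.snoc_castSucc]
        exact hf1 i
    · intro i j hij
      revert hij
      refine Fin.lastCases ?_ (fun j => ?_) j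
      · refine Fin.lastCases ?_ (fun i => ?_) i
        · intro h
          exact absurd h (lt_irrefl _)
        · intro _
          rw [Fin.snoc_last, Fin.snoc_castSucc]
          have := hω2 i (mem_univ _)
          rw [mem_filter, not_and, not_lt] at this
          exact this hωB
      · refine Fin.lastCases ?_ (fun i => ?_) i
        · intro h
          exact absurd h (not_lt.2 (Fin.castSucc_lt_last j).le)
        · intro h
          rw [Fin.snoc_castSucc, Fin.snoc_castSucc]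
          exact hf2 i j (Fin.castSucc_lt_castSucc_iff.1 h)

/-- Jensen on a set of positive mass -/
theorem upper_mean (h0 : ∀ ω, 0 ≤ ξ ω) {B : Finset Ω} (hB : 0 < mass ξ B) (k : ℝ) :
    mass ξ B ^ 2 * exp (k * ‖bary ξ a B‖ ^ 2)
      ≤ ∑ x ∈ B, ∑ y ∈ B, ξ x * ξ y * exp (k * ⟪a x, a y⟫) := by
  set c := k * ‖bary ξ a B‖ ^ 2 with hc
  have h1 : ∀ x y, ξ x * ξ y * (exp c * (1 + (k * ⟪a x, a y⟫ - c)))
      ≤ ξ x * ξ y * exp (k * ⟪a x, a y⟫) := by
    intro x y
    refine mul_le_mul_of_nonneg_left ?_ (mul_nonneg (h0 x) (h0 y))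
    have h2 : exp (k * ⟪a x, a y⟫) = exp c * exp (k * ⟪a x, a y⟫ - c) := by
      rw [← exp_add]
      congr 1
      ring
    rw [h2]
    refine mul_le_mul_of_nonneg_left ?_ (exp_pos _).le
    have := Real.add_one_le_exp (k * ⟪a x, a y⟫ - c)
    linarith
  have hsum : ∑ x ∈ B, ∑ y ∈ B, ξ x * ξ y * (exp c * (1 + (k * ⟪a x, a y⟫ - c)))
      = mass ξ B ^ 2 * exp c := by
    have h3 : ∀ x y, ξ x * ξ y * (exp c * (1 + (k * ⟪a x, a y⟫ - c)))
        = exp c * (1 - c) * (ξ x * ξ y) + exp c * k * (ξ x * (ξ y * ⟪a y, a x⟫)) := by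
      intro x y
      rw [real_inner_comm]
      ring
    simp only [h3, Finset.sum_add_distrib, ← Finset.mul_sum, sum_inner_left hB.ne']
    have h4 : ∑ x ∈ B, ξ x * (mass ξ B * ⟪bary ξ a B, a x⟫)
        = mass ξ B * (mass ξ B * ‖bary ξ a B‖ ^ 2) := by
      have : ∀ x, ξ x * (mass ξ B * ⟪bary ξ a B, a x⟫) = mass ξ B * (ξ x * ⟪a x, bary ξ a B⟫) := by
        intro x
        rw [real_inner_comm]
        ring
      simp only [this, ← Finset.mul_sum, sum_inner_left hB.ne']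
      rw [real_inner_self_eq_norm_sq]
    have h5 : ∑ x ∈ B, ξ x * ∑ y ∈ B, ξ y = mass ξ B ^ 2 := by
      rw [← Finset.sum_mul]
      unfold mass
      ring
    rw [h4, h5, hc]
    ring
  rw [← hsum]
  exact Finset.sum_le_sum fun x _ => Finset.sum_le_sum fun y _ => h1 x y

/-- one good piece with large mean -/
theorem exists_large [Fintype Ω] (h0 : ∀ ω, 0 ≤ ξ ω) (h1 : ∑ ω, ξ ω = 1) {R p1 e1 eps t0 th c1 : ℝ}
    (hR : ∀ ω, ‖a ω‖ ^ 2 ≤ R)
    (hR0 : 0 < R) (hp1 : 0 < p1) (he1 : 0 < e1) (heps : 0 < eps)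
    (ht0 : t0 = eps * exp (-(R / (p1 * e1 ^ 2 / R))))
    (hc1 : 4 * p1 + 2 * eps < c1)
    (hq : c1 ≤ ∑ x, ∑ y, ξ x * ξ y * (if th ≤ ⟪a x, a y⟫ then 1 else 0)) :
    ∃ B, 0 < mass ξ B ∧ Good ξ a R t0 e1 p1 B ∧ th - 2 * e1 ≤ ‖bary ξ a B‖ ^ 2 := by
  classical
  obtain ⟨C, hC1, hC2, hC3⟩ := exists_decomp h0 hR hR0 hp1 he1 heps ht0 Finset.univ
  by_contra hcon
  push Not at hcon
  have hpair : ∀ B ∈ C, ∀ B' ∈ C, ⟪bary ξ a B, bary ξ a B'⟫ < th - 2 * e1 := by
    intro B hB B' hB'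
    have e1' := hcon B (hC1 B hB).2.1 (hC1 B hB).2.2
    have e2' := hcon B' (hC1 B' hB').2.1 (hC1 B' hB').2.2
    have h3 := real_inner_le_norm (bary ξ a B) (bary ξ a B')
    nlinarith [sq_nonneg (‖bary ξ a B‖ - ‖bary ξ a B'‖)]
  set U := C.biUnion id with hU
  set T : Ω → Ω → ℝ := fun x y => ξ x * ξ y * (if th ≤ ⟪a x, a y⟫ then 1 else 0) with hT
  have hTle : ∀ x y, T x y ≤ ξ x * ξ y := by
    intro x y
    have h2 := mul_nonneg (h0 x) (h0 y)
    simp only [hT]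
    split_ifs
    · rw [mul_one]
    · rw [mul_zero]
      exact h2
  have hdisj : (C : Set (Finset Ω)).PairwiseDisjoint id := by
    intro B hB B' hB' hne
    exact hC2 B hB B' hB' hne
  have hsumU : ∀ f : Ω → ℝ, ∑ x ∈ U, f x = ∑ B ∈ C, ∑ x ∈ B, f x := by
    intro f
    rw [hU, Finset.sum_biUnion hdisj]
    rfl
  have hmassU : ∑ B ∈ C, mass ξ B ≤ 1 := by
    have : ∑ B ∈ C, mass ξ B = ∑ x ∈ U, ξ x := (hsumU ξ).symm
    rw [this, ← h1]
    exact Finset.sum_le_sum_of_subset_of_nonneg (Finset.subset_univ _) fun ω _ _ => h0 ω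
  have hmassU0 : 0 ≤ ∑ B ∈ C, mass ξ B := Finset.sum_nonneg fun B _ => mass_nonneg h0 B
  have hUU : ∑ x ∈ U, ∑ y ∈ U, T x y ≤ 4 * p1 := by
    have e1' : ∑ x ∈ U, ∑ y ∈ U, T x y = ∑ B ∈ C, ∑ B' ∈ C, ∑ x ∈ B, ∑ y ∈ B', T x y := by
      rw [hsumU]
      refine Finset.sum_congr rfl fun B _ => ?_
      rw [Finset.sum_comm' (s := C) (t := fun _ => B) (t' := B) (s' := fun _ => C)
        (by intro x y; tauto)]
      exact Finset.sum_congr rfl fun x _ => hsumU _
    rw [e1']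
    calc ∑ B ∈ C, ∑ B' ∈ C, ∑ x ∈ B, ∑ y ∈ B', T x y
        ≤ ∑ B ∈ C, ∑ B' ∈ C, 4 * p1 * (mass ξ B * mass ξ B') := by
          refine Finset.sum_le_sum fun B hB => Finset.sum_le_sum fun B' hB' => ?_
          exact pair_bound h0 hR hR0.le (hC1 B hB).2.1 (hC1 B hB).2.2 (hC1 B' hB').2.2
            (hpair B hB B' hB')
      _ = 4 * p1 * ((∑ B ∈ C, mass ξ B) * (∑ B ∈ C, mass ξ B)) := by
          rw [Finset.sum_mul_sum]
          simp only [Finset.mul_sum]
      _ ≤ 4 * p1 * (1 * 1) := by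
          refine mul_le_mul_of_nonneg_left ?_ (by positivity)
          exact mul_le_mul hmassU hmassU hmassU0 zero_le_one
      _ = 4 * p1 := by ring
  have hrow : ∀ x, ∑ y, T x y ≤ ξ x := by
    intro x
    calc ∑ y, T x y ≤ ∑ y, ξ x * ξ y := Finset.sum_le_sum fun y _ => hTle x y
      _ = ξ x := by rw [← Finset.mul_sum, h1, mul_one]
  have htot : ∑ x, ∑ y, T x y ≤ 4 * p1 + 2 * eps := by
    have e1' : ∑ x, ∑ y, T x y = ∑ x ∈ Finset.univ \ U, ∑ y, T x y + ∑ x ∈ U, ∑ y, T x y :=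
      (Finset.sum_sdiff (Finset.subset_univ U)).symm
    have e2' : ∑ x ∈ U, ∑ y, T x y = ∑ x ∈ U, ∑ y ∈ Finset.univ \ U, T x y
        + ∑ x ∈ U, ∑ y ∈ U, T x y := by
      rw [← Finset.sum_add_distrib]
      exact Finset.sum_congr rfl fun x _ => (Finset.sum_sdiff (Finset.subset_univ U)).symm
    have e3' : ∑ x ∈ Finset.univ \ U, ∑ y, T x y ≤ eps :=
      (Finset.sum_le_sum fun x _ => hrow x).trans hC3
    have e4' : ∑ x ∈ U, ∑ y ∈ Finset.univ \ U, T x y ≤ eps := by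
      calc ∑ x ∈ U, ∑ y ∈ Finset.univ \ U, T x y
          ≤ ∑ x ∈ U, ∑ y ∈ Finset.univ \ U, ξ x * ξ y :=
            Finset.sum_le_sum fun x _ => Finset.sum_le_sum fun y _ => hTle x y
        _ = (∑ x ∈ U, ξ x) * mass ξ (Finset.univ \ U) := by
            rw [Finset.sum_mul]
            refine Finset.sum_congr rfl fun x _ => ?_
            rw [← Finset.mul_sum]
            rfl
        _ ≤ 1 * mass ξ (Finset.univ \ U) := by
            refine mul_le_mul_of_nonneg_right ?_ (mass_nonneg h0 _)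
            rw [← h1]
            exact Finset.sum_le_sum_of_subset_of_nonneg (Finset.subset_univ _) fun ω _ _ => h0 ω
        _ ≤ eps := by rw [one_mul]; exact hC3
    linarith
  linarith

end

end Pool.Agent.Lib.MP_3884c4_co.Gat
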