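import Mathlib

/-!
# Regular simplices, integer points in balls
-/

set_option autoImplicit false
set_option linter.unusedSectionVars false

namespace Pool.Agent.Lib.MP_3884c4_co

open Finset MeasureTheory

section Simplex

variable {E : Type} [NormedAddCommGroup E] [InnerProductSpace ℝ E] {ι : Type} [DecidableEq ι]

theorem sum_dist (s : Finset ι) (u : ι → E) :
    ∑ i ∈ s, ∑ j ∈ s, ‖u i - u j‖ ^ 2 = 2 * s.card * ∑ i ∈ s, ‖u i‖ ^ 2 - 2 * ‖∑ i ∈ s, u i‖ ^ 2 := by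
  have h1 : ∀ i ∈ s, ∑ j ∈ s, ‖u i - u j‖ ^ 2
      = s.card * ‖u i‖ ^ 2 - 2 * inner ℝ (u i) (∑ j ∈ s, u j) + ∑ j ∈ s, ‖u j‖ ^ 2 := by
    intro i _
    rw [inner_sum, Finset.mul_sum, Finset.sum_congr rfl (fun j _ => norm_sub_sq_real (u i) (u j)),
      Finset.sum_add_distrib, Finset.sum_sub_distrib, Finset.sum_const, nsmul_eq_mul]
  rw [Finset.sum_congr rfl h1, Finset.sum_add_distrib, Finset.sum_sub_distrib, ← Finset.mul_sum,
    ← Finset.mul_sum, ← sum_inner, real_inner_self_eq_norm_sq, Finset.sum_const, nsmul_eq_mul]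
  ring

theorem sum_dist_eq (s : Finset ι) (x : ι → E) {t : ℝ}
    (h : ∀ i ∈ s, ∀ j ∈ s, i ≠ j → ‖x i - x j‖ = t) :
    ∑ i ∈ s, ∑ j ∈ s, ‖x i - x j‖ ^ 2 = s.card * (s.card - 1) * t ^ 2 := by
  have h1 : ∀ i ∈ s, ∑ j ∈ s, ‖x i - x j‖ ^ 2 = (s.card - 1) * t ^ 2 := by
    intro i hi
    rw [← Finset.add_sum_erase s _ hi, sub_self, norm_zero,
      Finset.sum_congr rfl (g := fun _ => t ^ 2) (fun j hj => by
        rw [h i hi j (Finset.mem_of_mem_erase hj) (Finset.ne_of_mem_erase hj).symm]),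
      Finset.sum_const, nsmul_eq_mul, Finset.card_erase_of_mem hi,
      Nat.cast_sub (Finset.card_pos.2 ⟨i, hi⟩)]
    push_cast
    ring
  rw [Finset.sum_congr rfl h1, Finset.sum_const, nsmul_eq_mul]
  ring

theorem card_le_of_ball (s : Finset ι) (x : ι → E) {t R : ℝ} (p : E)
    (h : ∀ i ∈ s, ∀ j ∈ s, i ≠ j → ‖x i - x j‖ = t) (hR : ∀ i ∈ s, ‖x i - p‖ ≤ R) (hs : s.Nonempty) :
    ((s.card : ℝ) - 1) * t ^ 2 ≤ 2 * s.card * R ^ 2 := by
  have h1 := sum_dist s (fun i => x i - p)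
  have h2 : ∑ i ∈ s, ∑ j ∈ s, ‖(x i - p) - (x j - p)‖ ^ 2 = s.card * (s.card - 1) * t ^ 2 := by
    rw [← sum_dist_eq s x h]
    apply Finset.sum_congr rfl
    intro i _
    apply Finset.sum_congr rfl
    intro j _
    rw [sub_sub_sub_cancel_right]
  rw [h2] at h1
  have h3 : ∑ i ∈ s, ‖x i - p‖ ^ 2 ≤ s.card * R ^ 2 := by
    have := Finset.sum_le_sum (f := fun i => ‖x i - p‖ ^ 2) (g := fun _ => R ^ 2) (s := s)
      (fun i hi => pow_le_pow_left₀ (norm_nonneg _) (hR i hi) 2)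
    rwa [Finset.sum_const, nsmul_eq_mul] at this
  have hs' : (0 : ℝ) < s.card := by exact_mod_cast Finset.card_pos.2 hs
  have h4 : (s.card : ℝ) * (((s.card : ℝ) - 1) * t ^ 2) ≤ s.card * (2 * s.card * R ^ 2) := by
    have h5 := mul_le_mul_of_nonneg_left h3 (by positivity : (0 : ℝ) ≤ 2 * s.card)
    have h6 : 0 ≤ ‖∑ i ∈ s, (x i - p)‖ ^ 2 := by positivity
    nlinarith
  exact le_of_mul_le_mul_left h4 hs'

/-- there is a point at distance at most `t / √2` of all the vertices -/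
theorem exists_center (s : Finset ι) (x : ι → E) {t : ℝ}
    (h : ∀ i ∈ s, ∀ j ∈ s, i ≠ j → ‖x i - x j‖ = t) (hs : s.Nonempty) :
    ∃ o : E, ∀ i ∈ s, 2 * ‖x i - o‖ ^ 2 ≤ t ^ 2 := by
  have hs' : (0 : ℝ) < s.card := by exact_mod_cast Finset.card_pos.2 hs
  refine ⟨(s.card : ℝ)⁻¹ • ∑ j ∈ s, x j, fun i hi => ?_⟩
  have h1 := sum_dist s (fun j => x j - x i)
  have h2 : ∑ k ∈ s, ∑ j ∈ s, ‖(x k - x i) - (x j - x i)‖ ^ 2 = s.card * (s.card - 1) * t ^ 2 := by
    rw [← sum_dist_eq s x h]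
    apply Finset.sum_congr rfl
    intro k _
    apply Finset.sum_congr rfl
    intro j _
    rw [sub_sub_sub_cancel_right]
  have h3 : ∑ j ∈ s, ‖x j - x i‖ ^ 2 = (s.card - 1) * t ^ 2 := by
    rw [← Finset.add_sum_erase s _ hi, sub_self, norm_zero,
      Finset.sum_congr rfl (g := fun _ => t ^ 2) (fun j hj => by
        rw [h j (Finset.mem_of_mem_erase hj) i hi (Finset.ne_of_mem_erase hj)]),
      Finset.sum_const, nsmul_eq_mul, Finset.card_erase_of_mem hi,
      Nat.cast_sub (Finset.card_pos.2 ⟨i, hi⟩)]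
    push_cast
    ring
  rw [h2, h3] at h1
  have h4 : ∑ j ∈ s, (x j - x i) = (s.card : ℝ) • ((s.card : ℝ)⁻¹ • ∑ j ∈ s, x j - x i) := by
    rw [Finset.sum_sub_distrib, Finset.sum_const, smul_sub, smul_smul, mul_inv_cancel₀ hs'.ne',
      one_smul, Nat.cast_smul_eq_nsmul]
  rw [h4, norm_smul, mul_pow, Real.norm_of_nonneg hs'.le] at h1
  have h5 : ‖x i - (s.card : ℝ)⁻¹ • ∑ j ∈ s, x j‖ = ‖(s.card : ℝ)⁻¹ • ∑ j ∈ s, x j - x i‖ :=
    norm_sub_rev _ _
  rw [h5]
  set b := ‖(s.card : ℝ)⁻¹ • ∑ j ∈ s, x j - x i‖ ^ 2 with hb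
  set N : ℝ := (s.card : ℝ) with hN
  have h6 : 2 * N ^ 2 * b = N * (N - 1) * t ^ 2 := by linarith
  have h7 : N * (N - 1) * t ^ 2 ≤ N ^ 2 * t ^ 2 := by
    have : 0 ≤ t ^ 2 := sq_nonneg t
    nlinarith
  have h8 : N ^ 2 * (2 * b) ≤ N ^ 2 * t ^ 2 := by linarith
  exact le_of_mul_le_mul_left h8 (by positivity)

end Simplex

/-! ### integer points -/

/-- an integer vector as a point of the Euclidean space -/
noncomputable def toE {n : ℕ} (z : Fin n → ℤ) : EuclideanSpace ℝ (Fin n) :=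
  WithLp.toLp 2 (fun i => (z i : ℝ))

@[simp] theorem toE_apply {n : ℕ} (z : Fin n → ℤ) (i : Fin n) : (toE z) i = z i := rfl

theorem toE_add {n : ℕ} (z w : Fin n → ℤ) : toE (z + w) = toE z + toE w := by
  ext i
  simp [toE]

theorem toE_neg {n : ℕ} (z : Fin n → ℤ) : toE (-z) = - toE z := by
  ext i
  simp [toE]

theorem toE_sub {n : ℕ} (z w : Fin n → ℤ) : toE (z - w) = toE z - toE w := by
  rw [sub_eq_add_neg, toE_add, toE_neg, sub_eq_add_neg]

/-- coordinatewise floor -/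
noncomputable def fl {n : ℕ} (y : EuclideanSpace ℝ (Fin n)) : Fin n → ℤ := fun i => ⌊y i⌋

theorem norm_sub_fl {n : ℕ} (y : EuclideanSpace ℝ (Fin n)) : ‖y - toE (fl y)‖ ≤ √n := by
  apply Real.le_sqrt_of_sq_le
  rw [EuclideanSpace.real_norm_sq_eq]
  have : ∀ i ∈ (Finset.univ : Finset (Fin n)), ((y - toE (fl y)).ofLp i) ^ 2 ≤ (1 : ℝ) := by
    intro i _
    have h1 : (y - toE (fl y)).ofLp i = Int.fract (y i) := by
      simp [fl, Int.self_sub_floor]
    rw [h1]
    have h2 := Int.fract_nonneg (y i)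
    have h3 := (Int.fract_lt_one (y i)).le
    exact pow_le_one₀ h2 h3
  refine (Finset.sum_le_sum this).trans ?_
  simp

theorem abs_le_norm {n : ℕ} (z : Fin n → ℤ) (i : Fin n) : |(z i : ℝ)| ≤ ‖toE z‖ := by
  have := PiLp.norm_apply_le (toE z) i
  rwa [toE_apply, Real.norm_eq_abs] at this

open Classical in
/-- integer points of the ball of radius `r` (`S` is an integer bound for `r`) -/
noncomputable def zball (n S : ℕ) (r : ℝ) : Finset (Fin n → ℤ) :=
  (Fintype.piFinset fun _ : Fin n => Finset.Icc (-(S : ℤ)) S).filter (fun z => ‖toE z‖ ≤ r)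

theorem mem_zball {n S : ℕ} {r : ℝ} (hr : r ≤ S) (z : Fin n → ℤ) :
    z ∈ zball n S r ↔ ‖toE z‖ ≤ r := by
  unfold zball
  rw [Finset.mem_filter, Fintype.mem_piFinset]
  constructor
  · exact fun h => h.2
  · intro h
    refine ⟨fun i => ?_, h⟩
    have h1 := (abs_le_norm z i).trans (h.trans hr)
    rw [Finset.mem_Icc]
    have h2 := abs_le.1 h1
    constructor
    · exact_mod_cast h2.1
    · exact_mod_cast h2.2

theorem card_zball_le_box (n S : ℕ) (r : ℝ) : (zball n S r).card ≤ (2 * S + 1) ^ n := by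
  classical
  unfold zball
  refine (Finset.card_le_card (Finset.filter_subset _ _)).trans ?_
  rw [Fintype.card_piFinset]
  simp only [Int.card_Icc, Finset.prod_const, Finset.card_univ, Fintype.card_fin]
  apply le_of_eq
  congr 1
  omega

theorem sum_half_pow (S : ℕ) : ∑ j ∈ Finset.Icc (-(S : ℤ)) S, ((1 : ℝ) / 2) ^ (j.natAbs) ≤ 3 := by
  have h : ∀ S : ℕ, ∑ j ∈ Finset.Icc (-(S : ℤ)) S, ((1 : ℝ) / 2) ^ (j.natAbs)
      = 3 - 2 * (1 / 2) ^ S := by
    intro S
    induction S with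
    | zero => norm_num
    | succ S ih =>
      have h1 : Finset.Icc (-((S + 1 : ℕ) : ℤ)) ((S + 1 : ℕ) : ℤ)
          = insert (-((S + 1 : ℕ) : ℤ)) (insert (((S + 1 : ℕ) : ℤ)) (Finset.Icc (-(S : ℤ)) S)) := by
        ext x
        simp only [Finset.mem_Icc, Finset.mem_insert]
        omega
      rw [h1, Finset.sum_insert, Finset.sum_insert, ih]
      · rw [Int.natAbs_neg, Int.natAbs_natCast, pow_succ]
        ring
      · simp
      · simp only [Finset.mem_insert, Finset.mem_Icc]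
        omega
  rw [h]
  have : (0 : ℝ) ≤ 2 * (1 / 2) ^ S := by positivity
  linarith

/-- number of integer points with small `ℓ¹` norm -/
theorem card_zball_le (n S L : ℕ) (r : ℝ) (hL : √n * r ≤ L) :
    ((zball n S r).card : ℝ) ≤ 2 ^ L * 3 ^ n := by
  classical
  have h1 : ∀ z ∈ zball n S r, ∑ i, (z i).natAbs ≤ L := by
    intro z hz
    unfold zball at hz
    rw [Finset.mem_filter] at hz
    have h2 : (∑ i, |(z i : ℝ)|) ≤ √n * ‖toE z‖ := by
      have h3 := Finset.sum_mul_sq_le_sq_mul_sq (Finset.univ : Finset (Fin n))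
        (fun _ => (1 : ℝ)) (fun i => |(z i : ℝ)|)
      simp only [one_mul, one_pow, Finset.sum_const, Finset.card_univ, Fintype.card_fin,
        nsmul_eq_mul, mul_one] at h3
      have h4 : ∑ i, |(z i : ℝ)| ^ 2 = ‖toE z‖ ^ 2 := by
        rw [EuclideanSpace.real_norm_sq_eq]
        apply Finset.sum_congr rfl
        intro i _
        rw [sq_abs]
        rfl
      rw [h4] at h3
      have h5 : (∑ i, |(z i : ℝ)|) ≤ √((n : ℝ) * ‖toE z‖ ^ 2) := Real.le_sqrt_of_sq_le h3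
      rwa [Real.sqrt_mul (Nat.cast_nonneg n), Real.sqrt_sq (norm_nonneg _)] at h5
    have h6 : (∑ i, |(z i : ℝ)|) ≤ L :=
      h2.trans ((mul_le_mul_of_nonneg_left hz.2 (Real.sqrt_nonneg _)).trans hL)
    have h7 : ((∑ i, (z i).natAbs : ℕ) : ℝ) = ∑ i, |(z i : ℝ)| := by
      push_cast
      apply Finset.sum_congr rfl
      intro i _
      exact (Nat.cast_natAbs (α := ℝ) (z i)).trans (by push_cast; rfl)
    rw [← h7] at h6
    exact_mod_cast h6
  have h8 : ∑ z ∈ zball n S r, ((1 : ℝ) / 2) ^ L ≤ 3 ^ n := by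
    calc ∑ z ∈ zball n S r, ((1 : ℝ) / 2) ^ L
        ≤ ∑ z ∈ zball n S r, ∏ i, ((1 : ℝ) / 2) ^ (z i).natAbs := by
          apply Finset.sum_le_sum
          intro z hz
          rw [Finset.prod_pow_eq_pow_sum]
          exact pow_le_pow_of_le_one (by norm_num) (by norm_num) (h1 z hz)
      _ ≤ ∑ z ∈ Fintype.piFinset fun _ : Fin n => Finset.Icc (-(S : ℤ)) S,
            ∏ i, ((1 : ℝ) / 2) ^ (z i).natAbs := by
          apply Finset.sum_le_sum_of_subset_of_nonneg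
          · unfold zball
            exact Finset.filter_subset _ _
          · intro z _ _
            positivity
      _ = ∏ _i : Fin n, ∑ j ∈ Finset.Icc (-(S : ℤ)) S, ((1 : ℝ) / 2) ^ (j.natAbs) := by
          rw [Finset.prod_univ_sum]
      _ = (∑ j ∈ Finset.Icc (-(S : ℤ)) S, ((1 : ℝ) / 2) ^ (j.natAbs)) ^ n := by
          rw [Finset.prod_const, Finset.card_univ, Fintype.card_fin]
      _ ≤ 3 ^ n := pow_le_pow_left₀ (Finset.sum_nonneg (fun _ _ => by positivity))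
          (sum_half_pow S) n
  rw [Finset.sum_const, nsmul_eq_mul] at h8
  have h9 : ((zball n S r).card : ℝ) = 2 ^ L * (((zball n S r).card : ℝ) * (1 / 2) ^ L) := by
    rw [mul_comm ((zball n S r).card : ℝ), ← mul_assoc, ← mul_pow]
    norm_num
  rw [h9]
  exact mul_le_mul_of_nonneg_left h8 (by positivity)

end Pool.Agent.Lib.MP_3884c4_co
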