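import Pool.Agent.Lib.MP_3884c4_co.Stmts

/-!
# NoiseStmt
-/

set_option autoImplicit false
set_option linter.unusedSectionVars false

namespace Pool.Agent.MP3884c4

open Finset Real
open scoped BigOperators

namespace Noise

/-! ### products over the cube -/

theorem sum_cube_prod {m : ℕ} (g : Fin m → Bool → ℝ) :
    ∑ x : Fin m → Bool, ∏ i, g i (x i) = ∏ i, (g i true + g i false) := by
  have := Finset.prod_univ_sum (fun _ : Fin m => (Finset.univ : Finset Bool)) g
  rw [Fintype.piFinset_univ] at this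
  rw [← this]
  refine Finset.prod_congr rfl fun i _ => ?_
  simp

theorem sg_sq (b : Bool) : sg b * sg b = 1 := by
  cases b <;> simp [sg]

theorem abs_sg (b : Bool) : |sg b| = 1 := by
  cases b <;> simp [sg]

/-- weight -/
noncomputable def wt {m : ℕ} (ρ : ℝ) (x y : Fin m → Bool) : ℝ :=
  ∏ i, (1 + ρ * (sg (x i) * sg (y i))) / 4

theorem corr_eq {m : ℕ} (ρ : ℝ) (f : (Fin m → Bool) → (Fin m → Bool) → ℝ) :
    corr ρ f = ∑ x, ∑ y, wt ρ x y * f x y := rfl

theorem fac_nonneg {ρ : ℝ} (h1 : |ρ| ≤ 1) (b c : Bool) : 0 ≤ 1 + ρ * (sg b * sg c) := by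
  have h2 : |ρ * (sg b * sg c)| ≤ 1 := by
    rw [abs_mul, abs_mul, abs_sg, abs_sg]
    simpa using h1
  linarith [(abs_le.1 h2).1]

theorem wt_nonneg {m : ℕ} {ρ : ℝ} (h1 : |ρ| ≤ 1) (x y : Fin m → Bool) : 0 ≤ wt ρ x y :=
  Finset.prod_nonneg fun i _ => div_nonneg (fac_nonneg h1 _ _) (by norm_num)

theorem sum_wt_right {m : ℕ} (ρ : ℝ) (x : Fin m → Bool) : ∑ y, wt ρ x y = (1 / 2) ^ m := by
  unfold wt
  rw [sum_cube_prod (fun i b => (1 + ρ * (sg (x i) * sg b)) / 4)]
  have : ∀ i : Fin m, (1 + ρ * (sg (x i) * sg true)) / 4 + (1 + ρ * (sg (x i) * sg false)) / 4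
      = 1 / 2 := by
    intro i
    simp only [sg]
    norm_num
    ring
  rw [Finset.prod_congr rfl fun i _ => this i, Finset.prod_const, Finset.card_univ,
    Fintype.card_fin]

theorem sum_wt {m : ℕ} (ρ : ℝ) : ∑ x : Fin m → Bool, ∑ y, wt ρ x y = 1 := by
  simp only [sum_wt_right, Finset.sum_const, Finset.card_univ, Fintype.card_fun, Fintype.card_bool,
    Fintype.card_fin, nsmul_eq_mul]
  push_cast
  rw [← mul_pow]
  norm_num

/-! ### expansion -/

/-- character -/
noncomputable def chi {m : ℕ} (S : Finset (Fin m)) (x : Fin m → Bool) : ℝ := ∏ i ∈ S, sg (x i)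

theorem wt_expand {m : ℕ} (ρ : ℝ) (x y : Fin m → Bool) :
    wt ρ x y = ∑ S ∈ (Finset.univ : Finset (Fin m)).powerset,
      ρ ^ S.card * ((1 / 4) ^ m * (chi S x * chi S y)) := by
  unfold wt chi
  rw [Finset.prod_div_distrib, Finset.prod_one_add, Finset.prod_const, Finset.card_univ,
    Fintype.card_fin, Finset.sum_div]
  refine Finset.sum_congr rfl fun S _ => ?_
  rw [Finset.prod_mul_distrib, Finset.prod_mul_distrib, Finset.prod_const]
  rw [one_div, inv_pow]
  field_simp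

/-- coefficients -/
noncomputable def co {m : ℕ} (f : (Fin m → Bool) → (Fin m → Bool) → ℝ) (S : Finset (Fin m)) : ℝ :=
  ∑ x, ∑ y, (1 / 4) ^ m * (chi S x * chi S y) * f x y

theorem corr_expand {m : ℕ} (ρ : ℝ) (f : (Fin m → Bool) → (Fin m → Bool) → ℝ) :
    corr ρ f = ∑ S ∈ (Finset.univ : Finset (Fin m)).powerset, ρ ^ S.card * co f S := by
  rw [corr_eq]
  unfold co
  simp only [wt_expand, Finset.mul_sum, Finset.sum_mul]
  rw [Finset.sum_comm' (s := (Finset.univ : Finset (Fin m)).powerset)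
    (t := fun _ => (Finset.univ : Finset (Fin m → Bool))) (t' := Finset.univ)
    (s' := fun _ => (Finset.univ : Finset (Fin m)).powerset) (by intro x y; simp)]
  refine Finset.sum_congr rfl fun x _ => ?_
  rw [Finset.sum_comm]
  refine Finset.sum_congr rfl fun y _ => Finset.sum_congr rfl fun S _ => ?_
  ring

/-! ### positivity -/

theorem psd_pow {α : Type*} [Fintype α] {d : ℕ} (a : α → Fin d → ℝ) (v : α → ℝ) (n : ℕ) :
    0 ≤ ∑ x, ∑ y, v x * v y * qf a x y ^ n := by
  have h1 : ∀ x y, qf a x y ^ n = ∑ p ∈ Fintype.piFinset (fun _ : Fin n => (univ : Finset (Fin d))),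
      (∏ j, a x (p j)) * ∏ j, a y (p j) := by
    intro x y
    unfold qf
    rw [Finset.sum_pow']
    refine Finset.sum_congr rfl fun p _ => ?_
    rw [Finset.prod_mul_distrib]
  simp only [h1, Finset.mul_sum]
  have h2 : ∑ x, ∑ y, ∑ p ∈ Fintype.piFinset (fun _ : Fin n => (univ : Finset (Fin d))),
      v x * v y * ((∏ j, a x (p j)) * ∏ j, a y (p j))
      = ∑ p ∈ Fintype.piFinset (fun _ : Fin n => (univ : Finset (Fin d))),
        (∑ x, v x * ∏ j, a x (p j)) ^ 2 := by
    rw [Finset.sum_congr rfl fun x _ => Finset.sum_comm, Finset.sum_comm]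
    refine Finset.sum_congr rfl fun p _ => ?_
    rw [sq, Finset.sum_mul_sum]
    refine Finset.sum_congr rfl fun x _ => Finset.sum_congr rfl fun y _ => ?_
    ring
  rw [h2]
  exact Finset.sum_nonneg fun p _ => sq_nonneg _

theorem psd_exp {α : Type*} [Fintype α] {d : ℕ} (a : α → Fin d → ℝ) (v : α → ℝ) {k : ℝ}
    (hk : 0 ≤ k) : 0 ≤ ∑ x, ∑ y, v x * v y * exp (k * qf a x y) := by
  have h1 : ∀ x y, HasSum (fun n : ℕ => v x * v y * ((k * qf a x y) ^ n / n.factorial))
      (v x * v y * exp (k * qf a x y)) := by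
    intro x y
    have := (NormedSpace.expSeries_div_hasSum_exp (𝔸 := ℝ) (k * qf a x y))
    rw [← Real.exp_eq_exp_ℝ] at this
    exact this.mul_left _
  have h2 : HasSum (fun n : ℕ => ∑ x, ∑ y, v x * v y * ((k * qf a x y) ^ n / n.factorial))
      (∑ x, ∑ y, v x * v y * exp (k * qf a x y)) :=
    hasSum_sum fun x _ => hasSum_sum fun y _ => h1 x y
  refine h2.nonneg fun n => ?_
  have h3 : ∑ x, ∑ y, v x * v y * ((k * qf a x y) ^ n / n.factorial)
      = k ^ n / n.factorial * ∑ x, ∑ y, v x * v y * qf a x y ^ n := by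
    simp only [Finset.mul_sum]
    refine Finset.sum_congr rfl fun x _ => Finset.sum_congr rfl fun y _ => ?_
    rw [mul_pow]
    ring
  rw [h3]
  exact mul_nonneg (by positivity) (psd_pow a v n)

/-- exponential kernel -/
noncomputable def ek {α : Type*} {d : ℕ} (a : α → Fin d → ℝ) (k : ℝ) (x y : α) : ℝ :=
  exp (k * qf a x y)

theorem co_nonneg {m d : ℕ} (a : (Fin m → Bool) → Fin d → ℝ) {k : ℝ} (hk : 0 ≤ k)
    (S : Finset (Fin m)) : 0 ≤ co (ek a k) S := by
  unfold co ek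
  have h1 : ∑ x, ∑ y, (1 / 4) ^ m * (chi S x * chi S y) * exp (k * qf a x y)
      = (1 / 4) ^ m * ∑ x, ∑ y, chi S x * chi S y * exp (k * qf a x y) := by
    simp only [Finset.mul_sum]
    refine Finset.sum_congr rfl fun x _ => Finset.sum_congr rfl fun y _ => ?_
    ring
  rw [h1]
  exact mul_nonneg (by positivity) (psd_exp a (chi S) hk)

theorem one_le_co_empty {m d : ℕ} (a : (Fin m → Bool) → Fin d → ℝ) {k : ℝ} (hk : 0 ≤ k) :
    1 ≤ co (ek a k) ∅ := by
  unfold co ek chi
  simp only [Finset.prod_empty, mul_one]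
  have h1 : ∀ x y, (1 / 4 : ℝ) ^ m * (1 + k * qf a x y)
      ≤ (1 / 4) ^ m * exp (k * qf a x y) := by
    intro x y
    refine mul_le_mul_of_nonneg_left ?_ (by positivity)
    have := Real.add_one_le_exp (k * qf a x y)
    linarith
  have h2 : (1 : ℝ) ≤ ∑ x : Fin m → Bool, ∑ y : Fin m → Bool,
      (1 / 4 : ℝ) ^ m * (1 + k * qf a x y) := by
    have h3 : ∑ x : Fin m → Bool, ∑ y : Fin m → Bool, (1 / 4 : ℝ) ^ m * (1 + k * qf a x y)
        = 1 + (1 / 4) ^ m * k * ∑ x : Fin m → Bool, ∑ y : Fin m → Bool,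
          (1 : ℝ) * 1 * qf a x y ^ 1 := by
      have h4 : ∀ x y, (1 / 4 : ℝ) ^ m * (1 + k * qf a x y) = (1 / 4) ^ m
          + (1 / 4) ^ m * k * (1 * 1 * qf a x y ^ 1) := by
        intro x y
        ring
      simp only [h4, Finset.sum_add_distrib, Finset.mul_sum]
      congr 1
      simp only [Finset.sum_const, Finset.card_univ, Fintype.card_fun, Fintype.card_bool,
        Fintype.card_fin, nsmul_eq_mul]
      push_cast
      rw [← mul_assoc, ← mul_pow, ← mul_pow]
      norm_num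
    rw [h3]
    have h5 := psd_pow a (fun _ => (1 : ℝ)) 1
    have h6 : 0 ≤ (1 / 4 : ℝ) ^ m * k * ∑ x : Fin m → Bool, ∑ y : Fin m → Bool,
          (1 : ℝ) * 1 * qf a x y ^ 1 := mul_nonneg (by positivity) h5
    linarith
  refine h2.trans ?_
  exact Finset.sum_le_sum fun x _ => Finset.sum_le_sum fun y _ => h1 x y

theorem one_le_corr {m d : ℕ} (a : (Fin m → Bool) → Fin d → ℝ) {k ρ : ℝ} (hk : 0 ≤ k)
    (hρ : 0 ≤ ρ) : 1 ≤ corr ρ (ek a k) := by
  rw [corr_expand]
  have h1 : (∅ : Finset (Fin m)) ∈ (Finset.univ : Finset (Fin m)).powerset := by simp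
  have h2 := Finset.single_le_sum (s := (Finset.univ : Finset (Fin m)).powerset)
    (f := fun S => ρ ^ S.card * co (ek a k) S)
    (fun S _ => mul_nonneg (pow_nonneg hρ _) (co_nonneg a hk S)) h1
  refine (one_le_co_empty a hk).trans (le_trans ?_ h2)
  simp

theorem corr_le {m d : ℕ} (a : (Fin m → Bool) → Fin d → ℝ) {k ρ R : ℝ} (hk : 0 ≤ k)
    (hρ : |ρ| ≤ 1) (hR : ∀ x y, qf a x y ≤ R) : corr ρ (ek a k) ≤ exp (R * k) := by
  rw [corr_eq]
  calc ∑ x, ∑ y, wt ρ x y * ek a k x y ≤ ∑ x : Fin m → Bool, ∑ y, wt ρ x y * exp (R * k) := by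
        refine Finset.sum_le_sum fun x _ => Finset.sum_le_sum fun y _ => ?_
        refine mul_le_mul_of_nonneg_left ?_ (wt_nonneg hρ x y)
        unfold ek
        apply exp_le_exp.2
        rw [mul_comm R k]
        exact mul_le_mul_of_nonneg_left (hR x y) hk
    _ = exp (R * k) := by
        simp only [← Finset.sum_mul, sum_wt, one_mul]

/-- increment in `ρ` -/
theorem corr_incr {m d : ℕ} (a : (Fin m → Bool) → Fin d → ℝ) {k ρ r : ℝ} {J : ℕ} (hk : 0 ≤ k)
    (hρ : 0 < ρ) (hr : 0 ≤ r) (hrJ : r ^ J = 2) :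
    (corr (ρ * r) (ek a k) / corr ρ (ek a k)) ^ J
      ≤ corr (ρ * 2) (ek a k) / corr ρ (ek a k) := by
  have hF : 0 < corr ρ (ek a k) := lt_of_lt_of_le one_pos (one_le_corr a hk hρ.le)
  have h1 : corr (ρ * r) (ek a k) / corr ρ (ek a k)
      = ∑ S ∈ (Finset.univ : Finset (Fin m)).powerset,
        (ρ ^ S.card * co (ek a k) S / corr ρ (ek a k)) * r ^ S.card := by
    rw [corr_expand (ρ * r), Finset.sum_div]
    refine Finset.sum_congr rfl fun S _ => ?_
    rw [mul_pow]
    ring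
  have h2 : corr (ρ * 2) (ek a k) / corr ρ (ek a k)
      = ∑ S ∈ (Finset.univ : Finset (Fin m)).powerset,
        (ρ ^ S.card * co (ek a k) S / corr ρ (ek a k)) * (r ^ S.card) ^ J := by
    rw [corr_expand (ρ * 2), Finset.sum_div]
    refine Finset.sum_congr rfl fun S _ => ?_
    rw [← pow_mul, mul_comm S.card J, pow_mul, hrJ, mul_pow]
    ring
  rw [h1, h2]
  refine Real.pow_arith_mean_le_arith_mean_pow _ _ _ ?_ ?_ ?_ J
  · intro S _
    exact div_nonneg (mul_nonneg (pow_nonneg hρ.le _) (co_nonneg a hk S)) hF.le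
  · rw [← Finset.sum_div, ← corr_expand]
    exact div_self hF.ne'
  · intro S _
    exact pow_nonneg hr _

/-- Lyapunov -/
theorem corr_lyap {m d : ℕ} (a : (Fin m → Bool) → Fin d → ℝ) {k k' ρ x0 : ℝ} (hk : 0 < k)
    (hkk : k ≤ k') (hρ : |ρ| ≤ 1) (h : exp (k * x0) ≤ corr ρ (ek a k)) :
    exp (k' * x0) ≤ corr ρ (ek a k') := by
  have hp : 1 ≤ k' / k := by rwa [one_le_div hk]
  have hpt : ∀ x y, exp (k' * x0) * (1 + k' / k * (exp (-(k * x0)) * ek a k x y - 1))
      ≤ ek a k' x y := by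
    intro x y
    have h1 := one_add_mul_self_le_rpow_one_add
      (s := exp (-(k * x0)) * ek a k x y - 1) (by
        have : 0 < exp (-(k * x0)) * ek a k x y := mul_pos (exp_pos _) (exp_pos _)
        linarith) hp
    have h2 : (1 + (exp (-(k * x0)) * ek a k x y - 1)) ^ (k' / k)
        = exp (-(k' * x0)) * ek a k' x y := by
      unfold ek
      rw [add_sub_cancel, ← exp_add, ← exp_mul, ← exp_add]
      congr 1
      field_simp
    rw [h2] at h1
    calc exp (k' * x0) * (1 + k' / k * (exp (-(k * x0)) * ek a k x y - 1))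
        ≤ exp (k' * x0) * (exp (-(k' * x0)) * ek a k' x y) :=
          mul_le_mul_of_nonneg_left h1 (exp_pos _).le
      _ = ek a k' x y := by rw [← mul_assoc, ← exp_add, add_neg_cancel, exp_zero, one_mul]
  have hs : corr ρ (fun x y => exp (k' * x0) * (1 + k' / k * (exp (-(k * x0)) * ek a k x y - 1)))
      ≤ corr ρ (ek a k') := by
    rw [corr_eq, corr_eq]
    exact Finset.sum_le_sum fun x _ => Finset.sum_le_sum fun y _ =>
      mul_le_mul_of_nonneg_left (hpt x y) (wt_nonneg hρ x y)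
  have he : corr ρ (fun x y => exp (k' * x0) * (1 + k' / k * (exp (-(k * x0)) * ek a k x y - 1)))
      = exp (k' * x0) * (1 + k' / k * (exp (-(k * x0)) * corr ρ (ek a k) - 1)) := by
    rw [corr_eq, corr_eq]
    have h3 : ∀ x y : Fin m → Bool, wt ρ x y
        * (exp (k' * x0) * (1 + k' / k * (exp (-(k * x0)) * ek a k x y - 1)))
        = exp (k' * x0) * (1 - k' / k) * wt ρ x y
          + exp (k' * x0) * (k' / k) * exp (-(k * x0)) * (wt ρ x y * ek a k x y) := by
      intro x y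
      ring
    simp only [h3, Finset.sum_add_distrib, ← Finset.mul_sum, sum_wt]
    ring
  rw [he] at hs
  refine le_trans ?_ hs
  have h4 : 1 ≤ exp (-(k * x0)) * corr ρ (ek a k) := by
    calc (1 : ℝ) = exp (-(k * x0)) * exp (k * x0) := by
          rw [← exp_add, neg_add_cancel, exp_zero]
      _ ≤ _ := mul_le_mul_of_nonneg_left h (exp_pos _).le
  have h5 : 0 ≤ k' / k * (exp (-(k * x0)) * corr ρ (ek a k) - 1) :=
    mul_nonneg (by linarith) (by linarith)
  calc exp (k' * x0) = exp (k' * x0) * 1 := (mul_one _).symm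
    _ ≤ _ := mul_le_mul_of_nonneg_left (by linarith) (exp_pos _).le

/-- Jensen -/
theorem corr_jensen {m d : ℕ} (a : (Fin m → Bool) → Fin d → ℝ) {k ρ x0 : ℝ} (hk : 0 ≤ k)
    (hρ : |ρ| ≤ 1) (h : x0 ≤ corr ρ (qf a)) : exp (k * x0) ≤ corr ρ (ek a k) := by
  have hpt : ∀ x y, exp (k * x0) * (1 + (k * qf a x y - k * x0)) ≤ ek a k x y := by
    intro x y
    unfold ek
    have h1 := Real.add_one_le_exp (k * qf a x y - k * x0)
    calc exp (k * x0) * (1 + (k * qf a x y - k * x0))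
        ≤ exp (k * x0) * exp (k * qf a x y - k * x0) :=
          mul_le_mul_of_nonneg_left (by linarith) (exp_pos _).le
      _ = _ := by rw [← exp_add]; congr 1; ring
  have hs : corr ρ (fun x y => exp (k * x0) * (1 + (k * qf a x y - k * x0)))
      ≤ corr ρ (ek a k) := by
    rw [corr_eq, corr_eq]
    exact Finset.sum_le_sum fun x _ => Finset.sum_le_sum fun y _ =>
      mul_le_mul_of_nonneg_left (hpt x y) (wt_nonneg hρ x y)
  have he : corr ρ (fun x y => exp (k * x0) * (1 + (k * qf a x y - k * x0)))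
      = exp (k * x0) * (1 + (k * corr ρ (qf a) - k * x0)) := by
    rw [corr_eq, corr_eq]
    have h3 : ∀ x y : Fin m → Bool, wt ρ x y * (exp (k * x0) * (1 + (k * qf a x y - k * x0)))
        = exp (k * x0) * (1 - k * x0) * wt ρ x y + exp (k * x0) * k * (wt ρ x y * qf a x y) := by
      intro x y
      ring
    simp only [h3, Finset.sum_add_distrib, ← Finset.mul_sum, sum_wt]
    ring
  rw [he] at hs
  refine le_trans ?_ hs
  have h5 : 0 ≤ k * corr ρ (qf a) - k * x0 := by nlinarith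
  calc exp (k * x0) = exp (k * x0) * 1 := (mul_one _).symm
    _ ≤ _ := mul_le_mul_of_nonneg_left (by linarith) (exp_pos _).le

/-! ### common source -/

/-- law given the source -/
noncomputable def src {m : ℕ} (σ : ℝ) (V x : Fin m → Bool) : ℝ :=
  ∏ i, (1 + σ * (sg (V i) * sg (x i))) / 2

theorem src_nonneg {m : ℕ} {σ : ℝ} (h1 : |σ| ≤ 1) (V x : Fin m → Bool) : 0 ≤ src σ V x :=
  Finset.prod_nonneg fun i _ => div_nonneg (fac_nonneg h1 _ _) (by norm_num)

theorem sum_src {m : ℕ} (σ : ℝ) (V : Fin m → Bool) : ∑ x, src σ V x = 1 := by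
  unfold src
  rw [sum_cube_prod (fun i b => (1 + σ * (sg (V i) * sg b)) / 2)]
  have : ∀ i : Fin m, (1 + σ * (sg (V i) * sg true)) / 2 + (1 + σ * (sg (V i) * sg false)) / 2
      = 1 := by
    intro i
    simp only [sg]
    norm_num
    ring
  rw [Finset.prod_congr rfl fun i _ => this i, Finset.prod_const_one]

theorem sum_src_mul {m : ℕ} (σ : ℝ) (x y : Fin m → Bool) :
    ∑ V, (1 / 2) ^ m * (src σ V x * src σ V y) = wt (σ ^ 2) x y := by
  unfold src wt
  have h1 : ∀ V : Fin m → Bool, (1 / 2 : ℝ) ^ m * ((∏ i, (1 + σ * (sg (V i) * sg (x i))) / 2) *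
      ∏ i, (1 + σ * (sg (V i) * sg (y i))) / 2)
      = ∏ i, ((1 / 2) * ((1 + σ * (sg (V i) * sg (x i))) / 2 *
        ((1 + σ * (sg (V i) * sg (y i))) / 2))) := by
    intro V
    rw [Finset.prod_mul_distrib, Finset.prod_mul_distrib, Finset.prod_const, Finset.card_univ,
      Fintype.card_fin]
  simp only [h1]
  rw [sum_cube_prod (fun i b => ((1 / 2) * ((1 + σ * (sg b * sg (x i))) / 2 *
        ((1 + σ * (sg b * sg (y i))) / 2))))]
  refine Finset.prod_congr rfl fun i _ => ?_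
  have ht : sg true = 1 := rfl
  have hf : sg false = -1 := rfl
  rw [ht, hf]
  ring

theorem exists_source {m d : ℕ} (a : (Fin m → Bool) → Fin d → ℝ) {k k' σ x0 R ζ : ℝ}
    (hk : 0 ≤ k) (hx0 : 0 ≤ x0) (hσ : |σ| ≤ 1) (hR : ∀ x y, qf a x y ≤ R)
    (h1 : exp (k * x0) ≤ corr (σ ^ 2) (ek a k))
    (h2 : corr (σ ^ 2) (ek a k') ≤ exp (k' * (x0 + ζ))) :
    ∃ V : Fin m → Bool,
      exp (k * x0) / 2 ≤ ∑ x, ∑ y, src σ V x * src σ V y * ek a k x y ∧
      ∑ x, ∑ y, src σ V x * src σ V y * ek a k' x y ≤ 2 * exp (R * k) * exp (k' * (x0 + ζ)) := by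
  set Y : ℝ → (Fin m → Bool) → ℝ := fun κ V => ∑ x, ∑ y, src σ V x * src σ V y * ek a κ x y
    with hY
  have havg : ∀ κ : ℝ, ∑ V, (1 / 2) ^ m * Y κ V = corr (σ ^ 2) (ek a κ) := by
    intro κ
    rw [corr_eq]
    simp only [hY, Finset.mul_sum]
    rw [Finset.sum_comm]
    refine Finset.sum_congr rfl fun x _ => ?_
    rw [Finset.sum_comm]
    refine Finset.sum_congr rfl fun y _ => ?_
    rw [← sum_src_mul, Finset.sum_mul]
    refine Finset.sum_congr rfl fun V _ => ?_
    ring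
  have hYpos : ∀ κ V, 0 ≤ Y κ V := fun κ V => Finset.sum_nonneg fun x _ =>
    Finset.sum_nonneg fun y _ =>
      mul_nonneg (mul_nonneg (src_nonneg hσ _ _) (src_nonneg hσ _ _)) (exp_pos _).le
  have hYle : ∀ V, Y k V ≤ exp (R * k) := by
    intro V
    calc Y k V ≤ ∑ x, ∑ y, src σ V x * src σ V y * exp (R * k) := by
          refine Finset.sum_le_sum fun x _ => Finset.sum_le_sum fun y _ => ?_
          refine mul_le_mul_of_nonneg_left ?_ (mul_nonneg (src_nonneg hσ _ _) (src_nonneg hσ _ _))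
          unfold ek
          apply exp_le_exp.2
          rw [mul_comm R k]
          exact mul_le_mul_of_nonneg_left (hR x y) hk
      _ = exp (R * k) := by
          have : ∀ x, ∑ y, src σ V x * src σ V y * exp (R * k) = src σ V x * exp (R * k) := by
            intro x
            rw [← Finset.sum_mul, ← Finset.mul_sum, sum_src, mul_one]
          simp only [this, ← Finset.sum_mul, sum_src, one_mul]
  by_contra hcon
  push Not at hcon
  -- pointwise strict bound
  have hlt : ∀ V, Y k V < exp (k * x0) / 2 + Y k' V / (2 * exp (k' * (x0 + ζ))) := by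
    intro V
    have hden : 0 < 2 * exp (k' * (x0 + ζ)) := by positivity
    by_cases hV : exp (k * x0) / 2 ≤ Y k V
    · have h3 := hcon V hV
      have h4 : exp (R * k) < Y k' V / (2 * exp (k' * (x0 + ζ))) := by
        rw [lt_div_iff₀ hden]
        calc exp (R * k) * (2 * exp (k' * (x0 + ζ)))
            = 2 * exp (R * k) * exp (k' * (x0 + ζ)) := by ring
          _ < _ := h3
      have h5 : 0 < exp (k * x0) / 2 := by positivity
      linarith [hYle V]
    · have h5 : 0 ≤ Y k' V / (2 * exp (k' * (x0 + ζ))) := div_nonneg (hYpos _ _) hden.le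
      linarith [not_le.1 hV]
  have hsum : ∑ V, (1 / 2) ^ m * Y k V
      < ∑ V : Fin m → Bool, (1 / 2) ^ m * (exp (k * x0) / 2
        + Y k' V / (2 * exp (k' * (x0 + ζ)))) := by
    refine Finset.sum_lt_sum_of_nonempty ⟨fun _ => true, Finset.mem_univ _⟩ fun V _ => ?_
    exact mul_lt_mul_of_pos_left (hlt V) (by positivity)
  have hrhs : ∑ V : Fin m → Bool, (1 / 2 : ℝ) ^ m * (exp (k * x0) / 2
        + Y k' V / (2 * exp (k' * (x0 + ζ))))
      = exp (k * x0) / 2 + corr (σ ^ 2) (ek a k') / (2 * exp (k' * (x0 + ζ))) := by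
    rw [← havg k']
    simp only [mul_add, Finset.sum_add_distrib, Finset.sum_div]
    congr 1
    · rw [Finset.sum_const, Finset.card_univ, Fintype.card_fun, Fintype.card_bool,
        Fintype.card_fin, nsmul_eq_mul]
      push_cast
      rw [← mul_assoc, ← mul_pow]
      norm_num
    · exact Finset.sum_congr rfl fun V _ => by ring
  rw [havg, hrhs] at hsum
  have h6 : corr (σ ^ 2) (ek a k') / (2 * exp (k' * (x0 + ζ))) ≤ 1 / 2 := by
    rw [div_le_div_iff₀ (by positivity) (by norm_num)]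
    linarith
  have h7 : 1 ≤ exp (k * x0) := one_le_exp (mul_nonneg hk hx0)
  linarith

/-! ### the grid -/

theorem qf_le {m d : ℕ} (a : (Fin m → Bool) → Fin d → ℝ) {R : ℝ} (h : ∀ x, qf a x x ≤ R) (x y) :
    qf a x y ≤ R := by
  have h1 : 0 ≤ ∑ i, (a x i - a y i) ^ 2 := Finset.sum_nonneg fun i _ => sq_nonneg _
  have h2 : ∑ i, (a x i - a y i) ^ 2 = qf a x x + qf a y y - 2 * qf a x y := by
    unfold qf
    rw [Finset.mul_sum, ← Finset.sum_add_distrib, ← Finset.sum_sub_distrib]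
    exact Finset.sum_congr rfl fun i _ => by ring
  linarith [h x, h y]

end Noise

open Noise

theorem noiseStmt : NoiseStmt := by
  classical
  intro ζ hζ Φ kmin hΦ hkmin
  -- number of grid steps
  obtain ⟨J, hJ⟩ : ∃ J : ℕ, (101 / 100 : ℝ) / ζ ≤ J := exists_nat_ge _
  have hJ1 : 1 ≤ J := by
    have h1 : (0 : ℝ) < 101 / 100 / ζ := by positivity
    have h2 : (0 : ℝ) < J := h1.trans_le hJ
    exact_mod_cast h2
  have hJr : (0 : ℝ) < J := by exact_mod_cast hJ1
  -- the scales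
  set κ : ℕ → ℕ := fun l => Φ^[l] kmin with hκ
  have hκ0 : κ 0 = kmin := rfl
  have hκs : ∀ l, κ (l + 1) = Φ (κ l) := fun l => Function.iterate_succ_apply' Φ l kmin
  have hκmono : Monotone κ := monotone_nat_of_le_succ fun l => by rw [hκs]; exact hΦ _
  have hκmin : ∀ l, kmin ≤ κ l := fun l => hκmono (Nat.zero_le l)
  refine ⟨κ J, ?_⟩
  intro m d a ha hcorr hlow
  have hR : ∀ x y, qf a x y ≤ 101 / 100 := qf_le a ha
  -- the grid
  set r : ℝ := (2 : ℝ) ^ ((1 : ℝ) / J) with hr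
  have hr0 : 0 < r := Real.rpow_pos_of_pos two_pos _
  have hr1 : 1 ≤ r := Real.one_le_rpow one_le_two (by positivity)
  have hrJ : r ^ J = 2 := by
    rw [hr, ← Real.rpow_natCast, ← Real.rpow_mul two_pos.le, one_div, inv_mul_cancel₀ hJr.ne',
      Real.rpow_one]
  set ρ : ℕ → ℝ := fun g => 1 / 5 * r ^ g with hρ
  have hρpos : ∀ g, 0 < ρ g := fun g => by simp only [hρ]; positivity
  have hρJ : ρ J = 2 / 5 := by
    simp only [hρ]
    rw [hrJ]
    norm_num
  have hρle : ∀ g, g ≤ J → ρ g ≤ 2 / 5 := by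
    intro g hg
    rw [← hρJ]
    simp only [hρ]
    exact mul_le_mul_of_nonneg_left (pow_le_pow_right₀ hr1 hg) (by norm_num)
  have habs : ∀ g, g ≤ J → |ρ g| ≤ 1 := by
    intro g hg
    rw [abs_of_pos (hρpos g)]
    linarith [hρle g hg]
  -- first index
  have hex : ∀ l, ∃ g, exp (κ l * (3 / 10)) ≤ corr (ρ g) (ek a (κ l)) := by
    intro l
    refine ⟨J, ?_⟩
    rw [hρJ]
    exact corr_jensen a (Nat.cast_nonneg _) (by rw [abs_of_pos] <;> norm_num) hcorr
  set g : ℕ → ℕ := fun l => Nat.find (hex l) with hg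
  have hgspec : ∀ l, exp (κ l * (3 / 10)) ≤ corr (ρ (g l)) (ek a (κ l)) :=
    fun l => Nat.find_spec (hex l)
  have hgJ : ∀ l, g l ≤ J := by
    intro l
    refine Nat.find_min' (hex l) ?_
    rw [hρJ]
    exact corr_jensen a (Nat.cast_nonneg _) (by rw [abs_of_pos] <;> norm_num) hcorr
  have hkpos : ∀ l, (0 : ℝ) < κ l := fun l => by
    have := hκmin l
    exact_mod_cast (lt_of_lt_of_le hkmin this)
  have hanti : ∀ l, g (l + 1) ≤ g l := by
    intro l
    refine Nat.find_min' (hex (l + 1)) ?_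
    refine corr_lyap a (hkpos l) ?_ (habs _ (hgJ l)) (hgspec l)
    exact_mod_cast hκmono (Nat.le_succ l)
  have hg1 : ∀ l, l ≤ J → 1 ≤ g l := by
    intro l hl
    rcases Nat.eq_zero_or_pos (g l) with h0 | h0
    · exfalso
      have h1 := hgspec l
      rw [h0] at h1
      have h2 : ρ 0 = 1 / 5 := by simp [hρ]
      rw [h2] at h1
      have h3 := hlow (κ l) (hκmin l) (hκmono hl)
      exact absurd h1 (not_le.2 h3)
    · exact h0
  obtain ⟨l, hlJ, hgl⟩ : ∃ l, l < J ∧ g (l + 1) = g l := by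
    by_contra hcon
    push Not at hcon
    have h1 : ∀ l, l ≤ J → g l + l ≤ g 0 := by
      intro l
      induction l with
      | zero => intro _; simp
      | succ l ih =>
        intro hl
        have h2 := ih (by omega)
        have h3 := hcon l (by omega)
        have h4 := hanti l
        have h5 : g (l + 1) < g l := lt_of_le_of_ne h4 h3
        omega
    have h2 := h1 J le_rfl
    have h3 := hg1 J le_rfl
    have h4 := hgJ 0
    omega
  -- the bound at the larger scale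
  have hglt : g (l + 1) - 1 < g (l + 1) := by
    have := hg1 (l + 1) (by omega)
    omega
  have hprev := Nat.find_min (hex (l + 1)) hglt
  rw [not_le] at hprev
  set ρ0 := ρ (g (l + 1) - 1) with hρ0
  have hρ1 : ρ (g l) = ρ0 * r := by
    rw [← hgl, hρ0]
    simp only [hρ]
    have : g (l + 1) = (g (l + 1) - 1) + 1 := by
      have := hg1 (l + 1) (by omega)
      omega
    conv_lhs => rw [this, pow_succ]
    ring
  have hρ0pos : 0 < ρ0 := hρpos _
  have hρ0le : ρ0 ≤ 2 / 5 := hρle _ (by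
    have := hgJ (l + 1)
    omega)
  have hF1 : 1 ≤ corr ρ0 (ek a (κ (l + 1))) := one_le_corr a (Nat.cast_nonneg _) hρ0pos.le
  have hinc := corr_incr a (k := (κ (l + 1) : ℝ)) (Nat.cast_nonneg _) hρ0pos hr0.le hrJ
  have h2ρ : corr (ρ0 * 2) (ek a (κ (l + 1))) ≤ exp (101 / 100 * κ (l + 1)) :=
    corr_le a (Nat.cast_nonneg _) (by
      rw [abs_of_pos (by positivity)]
      linarith) hR
  have hratio : corr (ρ0 * r) (ek a (κ (l + 1))) / corr ρ0 (ek a (κ (l + 1)))
      ≤ exp (κ (l + 1) * ζ) := by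
    have h1 : (corr (ρ0 * r) (ek a (κ (l + 1))) / corr ρ0 (ek a (κ (l + 1)))) ^ J
        ≤ (exp (κ (l + 1) * ζ)) ^ J := by
      refine hinc.trans ?_
      rw [← exp_nat_mul]
      calc corr (ρ0 * 2) (ek a (κ (l + 1))) / corr ρ0 (ek a (κ (l + 1)))
          ≤ exp (101 / 100 * κ (l + 1)) / 1 := by
            refine div_le_div₀ (exp_pos _).le h2ρ one_pos hF1
        _ = exp (101 / 100 * κ (l + 1)) := div_one _
        _ ≤ exp (J * (κ (l + 1) * ζ)) := by
            apply exp_le_exp.2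
            have h3 : (101 / 100 : ℝ) ≤ J * ζ := by
              rwa [div_le_iff₀ hζ] at hJ
            have h4 : (0 : ℝ) ≤ κ (l + 1) := Nat.cast_nonneg _
            nlinarith
    exact le_of_pow_le_pow_left₀ (by omega) (exp_pos _).le h1
  have hupper : corr (ρ (g l)) (ek a (κ (l + 1))) ≤ exp (κ (l + 1) * (3 / 10 + ζ)) := by
    rw [hρ1]
    rw [div_le_iff₀ (by linarith)] at hratio
    calc corr (ρ0 * r) (ek a (κ (l + 1)))
        ≤ exp (κ (l + 1) * ζ) * corr ρ0 (ek a (κ (l + 1))) := hratio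
      _ ≤ exp (κ (l + 1) * ζ) * exp (κ (l + 1) * (3 / 10)) :=
          mul_le_mul_of_nonneg_left hprev.le (exp_pos _).le
      _ = _ := by rw [← exp_add]; congr 1; ring
  -- source
  set σ := √(ρ (g l)) with hσ
  have hσ2 : σ ^ 2 = ρ (g l) := Real.sq_sqrt (hρpos _).le
  have hσ1 : |σ| ≤ 1 := by
    rw [abs_of_nonneg (Real.sqrt_nonneg _)]
    calc σ ≤ √1 := Real.sqrt_le_sqrt (by linarith [hρle _ (hgJ l)])
      _ = 1 := Real.sqrt_one
  have hs1 : exp (κ l * (3 / 10 : ℝ)) ≤ corr (σ ^ 2) (ek a (κ l)) := by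
    rw [hσ2]
    exact hgspec l
  have hs2 : corr (σ ^ 2) (ek a (κ (l + 1))) ≤ exp (κ (l + 1) * (3 / 10 + ζ)) := by
    rw [hσ2]
    exact hupper
  obtain ⟨V, hV1, hV2⟩ := exists_source a (k := (κ l : ℝ)) (k' := (κ (l + 1) : ℝ)) (σ := σ)
    (x0 := 3 / 10) (R := 101 / 100) (ζ := ζ) (Nat.cast_nonneg _) (by norm_num) hσ1 hR hs1 hs2
  refine ⟨κ l, hκmin l, hκmono (by omega), src σ V, ⟨src_nonneg hσ1 V, fun x hx =>
    absurd (Finset.mem_univ x) hx, sum_src σ V⟩, ?_, ?_⟩
  · exact hV1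
  · rw [← hκs l]
    exact hV2

end Pool.Agent.MP3884c4
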