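import Pool.Agent.Lib.MP_3884c4_co.Blow
import Pool.Agent.Lib.MP_3884c4_co.Noise
import Pool.Agent.Lib.MP_3884c4_co.Cluster
import Pool.Agent.Lib.MP_3884c4_co.Entropy
import Pool.Agent.Lib.MP_3884c4_co.Exact
import Pool.Agent.Lib.MP_3884c4_co.Gat
import Pool.Agent.Lib.MP_3884c4_co.FinalF

/-!
Glue for MP_3884c4_co: everything except the K replica theorem.
-/

set_option autoImplicit false

noncomputable section

namespace Pool.Agent.MP3884c4

open Finset

theorem gat : GATStmt := gat_of blow noiseStmt clusterStmt

theorem exact_of_krep (hK : KRepStmt) : ExactStmt :=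
  exact_of hK gat (fun N G p hp => by
    have h := Psi_lower (R := ∅) hp (by intro y _ z _ i hi; simp at hi)
    simpa using h)

theorem final_of_krep (hK : KRepStmt) : FinalStmt := final_of_exact (exact_of_krep hK)

end Pool.Agent.MP3884c4
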