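import Pool.Agent.Lib.MP_3884c4_co.Aml
import Pool.Agent.Lib.MP_3884c4_co.Entropy
import Pool.Agent.Lib.MP_3884c4_co.Stmts

/-!
Module K of MP_3884c4_co: the `K` replica theorem from the pair lemma.
-/

set_option autoImplicit false

noncomputable section

namespace Pool.Agent.MP3884c4

open Finset

/-- the pair lemma at fixed parameters -/
def PLat (d0 z2 z1 : ℝ) (N : ℕ) : Prop :=
    ∀ (q0 X : ℤ) (R R' : Finset (Fin N)) (G G' h h' : Finset (Fin N → Bool))
      (p p' : (Fin N → Bool) → ℝ),
      IsMin R G p → IsMin R' G' p' → Psi R p ≤ d0 * N → Psi R' p' ≤ d0 * N →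
      (R.card : ℝ) ≤ d0 * N → (R'.card : ℝ) ≤ d0 * N →
      |(q0 : ℝ) + ∑ i, mean p i * mean p' i - X| ≤ z1 * N →
      (∀ y ∈ G, ∀ z ∈ G', (4 : ℤ) ∣ q0 + ip y z - X) →
      h ⊆ G → h' ⊆ G' →
      Real.exp (-(z1 * N)) ≤ ∑ y ∈ h, p y → Real.exp (-(z1 * N)) ≤ ∑ y ∈ h', p' y →
      (Real.exp (-(z2 * N)) ≤ ∑ y ∈ h, ∑ z ∈ h', (if q0 + ip y z = X then p y * p' z else 0)) ∨
      (∃ (S : Finset (Fin N)) (a : Fin N → Bool) (q : (Fin N → Bool) → ℝ),
        Disjoint S (R ∪ R') ∧ IsPr (slice h S a) q ∧
        Psi (R ∪ S) q + 1 / 2000 * (S.card : ℝ) ≤ Psi R p - z2 / 1600000 * N) ∨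
      (∃ (S : Finset (Fin N)) (a : Fin N → Bool) (q : (Fin N → Bool) → ℝ),
        Disjoint S (R ∪ R') ∧ IsPr (slice h' S a) q ∧
        Psi (R' ∪ S) q + 1 / 2000 * (S.card : ℝ) ≤ Psi R' p' - z2 / 1600000 * N)

theorem mem_slice' {ι : Type*} [Fintype ι] [DecidableEq ι] {h : Finset (ι → Bool)} {S : Finset ι}
    {a y : ι → Bool} : y ∈ slice h S a ↔ y ∈ h ∧ ∀ i ∈ S, y i = a i := by
  unfold slice
  exact Finset.mem_filter

theorem PLat.mono {d0 z2 z1 z1' : ℝ} {N : ℕ} (h : PLat d0 z2 z1 N) (hz : z1' ≤ z1) :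
    PLat d0 z2 z1' N := by
  intro q0 X R R' G G' g g' p p' h1 h2 h3 h4 h5 h6 h7 h8 h9 h10 h11 h12
  have hN : (0 : ℝ) ≤ N := Nat.cast_nonneg N
  have hm : z1' * N ≤ z1 * N := mul_le_mul_of_nonneg_right hz hN
  have he : Real.exp (-(z1 * N)) ≤ Real.exp (-(z1' * N)) := Real.exp_le_exp.mpr (by linarith)
  exact h q0 X R R' G G' g g' p p' h1 h2 h3 h4 h5 h6 (h7.trans hm) h8 h9 h10
    (he.trans h11) (he.trans h12)

theorem exists_seq (hPL : PLStmt) : ∃ dP : ℝ, 0 < dP ∧ ∃ δ : ℕ → ℝ, (∀ r, 0 < δ r) ∧
    (∀ r, δ r ≤ dP) ∧ (∀ r, δ (r + 1) ≤ δ r) ∧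
    ∀ r, ∃ N0 : ℕ, ∀ N : ℕ, N0 ≤ N → PLat dP (δ r) (2 * δ (r + 1)) N := by
  obtain ⟨dP, hdP, h⟩ := hPL
  have h' : ∀ z : {z : ℝ // 0 < z ∧ z ≤ dP}, ∃ w : {z : ℝ // 0 < z ∧ z ≤ dP},
      w.1 ≤ z.1 ∧ ∃ N0 : ℕ, ∀ N : ℕ, N0 ≤ N → PLat dP z.1 (2 * w.1) N := by
    rintro ⟨z, hz, hzd⟩
    obtain ⟨z1, hz1, N0, hN0⟩ := h z hz hzd
    refine ⟨⟨min z (z1 / 2), lt_min hz (by positivity), (min_le_left _ _).trans hzd⟩,
      min_le_left _ _, N0, fun N hN => ?_⟩
    have h1 : PLat dP z z1 N := hN0 N hN
    refine h1.mono ?_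
    have := min_le_right z (z1 / 2)
    simp only
    linarith
  choose f hf1 hf2 using h'
  let δ : ℕ → {z : ℝ // 0 < z ∧ z ≤ dP} := fun n => Nat.rec ⟨dP, hdP, le_rfl⟩ (fun _ z => f z) n
  exact ⟨dP, hdP, fun n => (δ n).1, fun n => (δ n).2.1, fun n => (δ n).2.2,
    fun n => hf1 (δ n), fun n => hf2 (δ n)⟩

section

variable {N K : ℕ}

open Classical in
/-- window set -/
def Hset (q : Fin K → Fin K → ℤ) (X : ℤ) (E : ℝ) (G : Fin K → Finset (Fin N → Bool))
    (p : Fin K → (Fin N → Bool) → ℝ) (i : Fin K) : Finset (Fin N → Bool) :=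
  (G i).filter (fun y => ∀ l, l ≠ i →
    |(q i l : ℝ) + ∑ c, sg (y c) * mean (p l) c - X| ≤ 2 * E)

/-- state of the iteration -/
structure St (A : Fin K → Finset (Fin N → Bool)) (q : Fin K → Fin K → ℤ) (X : ℤ) (dN γN : ℝ)
    (s : ℕ) (E : ℝ) (G : Fin K → Finset (Fin N → Bool)) (R : Fin K → Finset (Fin N))
    (p : Fin K → (Fin N → Bool) → ℝ) : Prop where
  mins : ∀ i, IsMin (R i) (G i) (p i)
  sub : ∀ i, G i ⊆ A i
  U : ∀ i, Psi (R i) (p i) + 1 / 2000 * ((R i).card : ℝ) ≤ dN
  tot : ∑ i, (Psi (R i) (p i) + 1 / 2000 * ((R i).card : ℝ)) ≤ K * dN - s * γN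
  ov : ∀ i j, i ≠ j → |(q i j : ℝ) + ∑ l, mean (p i) l * mean (p j) l - X| ≤ E

variable {A : Fin K → Finset (Fin N → Bool)} {q : Fin K → Fin K → ℤ} {X : ℤ} {dN γN : ℝ}
    {s : ℕ} {E : ℝ} {G : Fin K → Finset (Fin N → Bool)} {R : Fin K → Finset (Fin N)}
    {p : Fin K → (Fin N → Bool) → ℝ}

theorem sum_mean_sq_le {G : Finset (Fin N → Bool)} {p : (Fin N → Bool) → ℝ} (hp : IsPr G p)
    (T : Finset (Fin N)) : ∑ i ∈ T, mean p i ^ 2 ≤ N := by
  calc ∑ i ∈ T, mean p i ^ 2 ≤ ∑ i ∈ T, (1 : ℝ) := by
        refine Finset.sum_le_sum fun i _ => ?_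
        have := abs_mean_le hp i
        rw [← sq_abs]
        exact pow_le_one₀ (abs_nonneg _) this
    _ = T.card := by simp
    _ ≤ N := by
        have := Finset.card_le_univ T
        rw [Fintype.card_fin] at this
        exact_mod_cast this

theorem Hset_mass (hst : St A q X dN γN s E G R p) (hE : 0 < E)
    (hN : 2 * ((K : ℝ) * N) ≤ E ^ 2) (i : Fin K) :
    1 / 2 ≤ ∑ y ∈ Hset q X E G p i, p i y := by
  classical
  have hm := hst.mins i
  set H := Hset q X E G p i with hH
  let T : Fin K → (Fin N → Bool) → ℝ := fun l y =>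
    ∑ c, mean (p l) c * (sg (y c) - mean (p i) c)
  have key : ∀ y, y ∉ H → p i y ≤ p i y * ∑ l, (T l y) ^ 2 / E ^ 2 := by
    intro y hy
    by_cases hyG : y ∈ G i
    · have h1 : ∃ l, l ≠ i ∧ 2 * E < |(q i l : ℝ) + ∑ c, sg (y c) * mean (p l) c - X| := by
        by_contra hcon
        push Not at hcon
        exact hy (Finset.mem_filter.mpr ⟨hyG, hcon⟩)
      obtain ⟨l, hli, hl⟩ := h1
      have h2 := hst.ov i l (Ne.symm hli)
      have h3 : (q i l : ℝ) + ∑ c, sg (y c) * mean (p l) c - X
          = ((q i l : ℝ) + ∑ c, mean (p i) c * mean (p l) c - X) + T l y := by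
        simp only [T]
        have : ∑ c, sg (y c) * mean (p l) c = ∑ c, mean (p i) c * mean (p l) c
            + ∑ c, mean (p l) c * (sg (y c) - mean (p i) c) := by
          rw [← Finset.sum_add_distrib]
          refine Finset.sum_congr rfl fun c _ => ?_
          ring
        rw [this]
        ring
      rw [h3] at hl
      have h4 : E < |T l y| := by
        have := abs_add_le ((q i l : ℝ) + ∑ c, mean (p i) c * mean (p l) c - X) (T l y)
        linarith
      have h5 : 1 ≤ (T l y) ^ 2 / E ^ 2 := by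
        rw [le_div_iff₀ (by positivity), one_mul, ← sq_abs (T l y)]
        exact pow_le_pow_left₀ hE.le h4.le 2
      have h6 : (T l y) ^ 2 / E ^ 2 ≤ ∑ l, (T l y) ^ 2 / E ^ 2 :=
        Finset.single_le_sum (f := fun l => (T l y) ^ 2 / E ^ 2)
          (fun l _ => by positivity) (Finset.mem_univ l)
      calc p i y = p i y * 1 := (mul_one _).symm
        _ ≤ p i y * ∑ l, (T l y) ^ 2 / E ^ 2 :=
            mul_le_mul_of_nonneg_left (h5.trans h6) (hm.pr.nonneg y)
    · rw [hm.pr.supp y hyG]; simp
  have h7 : ∑ y ∈ Hᶜ, p i y ≤ ∑ y, p i y * ∑ l, (T l y) ^ 2 / E ^ 2 := by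
    calc ∑ y ∈ Hᶜ, p i y ≤ ∑ y ∈ Hᶜ, p i y * ∑ l, (T l y) ^ 2 / E ^ 2 :=
          Finset.sum_le_sum fun y hy => key y (Finset.mem_compl.mp hy)
      _ ≤ ∑ y, p i y * ∑ l, (T l y) ^ 2 / E ^ 2 := by
          refine Finset.sum_le_sum_of_subset_of_nonneg (Finset.subset_univ _) fun y _ _ => ?_
          exact mul_nonneg (hm.pr.nonneg y) (Finset.sum_nonneg fun l _ => by positivity)
  have h8 : ∑ y, p i y * ∑ l, (T l y) ^ 2 / E ^ 2 = ∑ l, ex (p i) (fun y => (T l y) ^ 2) / E ^ 2 := by
    unfold ex
    simp_rw [Finset.mul_sum, Finset.sum_div]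
    rw [Finset.sum_comm]
    refine Finset.sum_congr rfl fun l _ => Finset.sum_congr rfl fun y _ => ?_
    ring
  have h9 : ∀ l, ex (p i) (fun y => (T l y) ^ 2) ≤ N := fun l =>
    (hm.var (mean (p l))).trans (sum_mean_sq_le (hst.mins l).pr _)
  have h10 : ∑ l, ex (p i) (fun y => (T l y) ^ 2) / E ^ 2 ≤ 1 / 2 := by
    calc ∑ l, ex (p i) (fun y => (T l y) ^ 2) / E ^ 2 ≤ ∑ _l : Fin K, (N : ℝ) / E ^ 2 :=
          Finset.sum_le_sum fun l _ => div_le_div_of_nonneg_right (h9 l) (by positivity)
      _ = (K : ℝ) * N / E ^ 2 := by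
          rw [Finset.sum_const, Finset.card_univ, Fintype.card_fin, nsmul_eq_mul]
          ring
      _ ≤ 1 / 2 := by
          rw [div_le_iff₀ (by positivity)]
          linarith
  have h11 : ∑ y ∈ H, p i y + ∑ y ∈ Hᶜ, p i y = 1 := by
    rw [Finset.sum_add_sum_compl, hm.pr.sum_eq]
  linarith

theorem improve (hst : St A q X dN γN s E G R p) (hq : ∀ i j, q i j = q j i) (hE : 0 ≤ E)
    (hγ : 0 ≤ γN)
    (i : Fin K) {S : Finset (Fin N)} {a : Fin N → Bool} {h : Finset (Fin N → Bool)}
    (hh : h ⊆ Hset q X E G p i) {v : (Fin N → Bool) → ℝ} (hS : Disjoint S (R i))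
    (hv : IsPr (slice h S a) v)
    (hdrop : Psi (R i ∪ S) v + 1 / 2000 * (S.card : ℝ) ≤ Psi (R i) (p i) - γN) :
    ∃ (G' : Fin K → Finset (Fin N → Bool)) (R' : Fin K → Finset (Fin N))
      (p' : Fin K → (Fin N → Bool) → ℝ), St A q X dN γN (s + 1) (2 * E) G' R' p' := by
  classical
  have hsub : slice h S a ⊆ Hset q X E G p i := fun y hy => hh (mem_slice'.mp hy).1
  have hHG : Hset q X E G p i ⊆ G i := Finset.filter_subset _ _
  have hne : (slice h S a).Nonempty := by
    rw [Finset.nonempty_iff_ne_empty]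
    intro hcon
    have := hv.sum_eq
    rw [Finset.sum_eq_zero (fun x _ => hv.supp x (by simp [hcon]))] at this
    exact zero_ne_one this
  have hfr : Frozen (R i ∪ S) (slice h S a) := by
    intro y hy z hz c hc
    rcases Finset.mem_union.mp hc with hc | hc
    · exact (hst.mins i).frozen y (hHG (hsub hy)) z (hHG (hsub hz)) c hc
    · rw [(mem_slice'.mp hy).2 c hc, (mem_slice'.mp hz).2 c hc]
  obtain ⟨w, hw⟩ := exists_isMin hne hfr
  have hcard : ((R i ∪ S).card : ℝ) = (R i).card + S.card := by
    rw [Finset.card_union_of_disjoint hS.symm]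
    push_cast
    ring
  have hU : Psi (R i ∪ S) w + 1 / 2000 * ((R i ∪ S).card : ℝ)
      ≤ Psi (R i) (p i) + 1 / 2000 * ((R i).card : ℝ) - γN := by
    have := hw.min v hv
    rw [hcard]
    linarith
  -- the new overlaps
  have hov : ∀ l, l ≠ i → |(q i l : ℝ) + ∑ c, mean w c * mean (p l) c - X| ≤ 2 * E := by
    intro l hl
    have h1 : (q i l : ℝ) + ∑ c, mean w c * mean (p l) c - X
        = ∑ y, w y * ((q i l : ℝ) + ∑ c, sg (y c) * mean (p l) c - X) := by
      have h2 : ∑ c, mean w c * mean (p l) c = ∑ y, w y * ∑ c, sg (y c) * mean (p l) c := by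
        unfold mean
        simp_rw [Finset.sum_mul, Finset.mul_sum]
        rw [Finset.sum_comm]
        refine Finset.sum_congr rfl fun y _ => Finset.sum_congr rfl fun c _ =>
          Finset.sum_congr rfl fun z _ => ?_
        ring
      rw [h2]
      have h3 : ∑ y, w y * ((q i l : ℝ) + ∑ c, sg (y c) * mean (p l) c - X)
          = ∑ y, (w y * ((q i l : ℝ) - X) + w y * ∑ c, sg (y c) * mean (p l) c) := by
        refine Finset.sum_congr rfl fun y _ => ?_
        ring
      rw [h3, Finset.sum_add_distrib, ← Finset.sum_mul, hw.pr.sum_eq]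
      ring
    rw [h1]
    calc |∑ y, w y * ((q i l : ℝ) + ∑ c, sg (y c) * mean (p l) c - X)|
        ≤ ∑ y, |w y * ((q i l : ℝ) + ∑ c, sg (y c) * mean (p l) c - X)| :=
          Finset.abs_sum_le_sum_abs _ _
      _ ≤ ∑ y, w y * (2 * E) := by
          refine Finset.sum_le_sum fun y _ => ?_
          rw [abs_mul, abs_of_nonneg (hw.pr.nonneg y)]
          by_cases hy : y ∈ slice h S a
          · exact mul_le_mul_of_nonneg_left
              ((Finset.mem_filter.mp (hsub hy)).2 l hl) (hw.pr.nonneg y)
          · rw [hw.pr.supp y hy]; simp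
      _ = 2 * E := by rw [← Finset.sum_mul, hw.pr.sum_eq, one_mul]
  refine ⟨Function.update G i (slice h S a), Function.update R i (R i ∪ S),
    Function.update p i w, ?_, ?_, ?_, ?_, ?_⟩
  · intro j
    by_cases hj : j = i
    · subst hj
      simpa using hw
    · simpa [Function.update_of_ne hj] using hst.mins j
  · intro j
    by_cases hj : j = i
    · subst hj
      simpa using (hsub.trans hHG).trans (hst.sub j)
    · simpa [Function.update_of_ne hj] using hst.sub j
  · intro j
    by_cases hj : j = i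
    · subst hj
      rw [Function.update_self, Function.update_self]
      have := hst.U j
      linarith
    · rw [Function.update_of_ne hj, Function.update_of_ne hj]
      exact hst.U j
  · have h1 := hst.tot
    have h2 : ∀ j ∈ univ.erase i, Psi (Function.update R i (R i ∪ S) j) (Function.update p i w j)
        + 1 / 2000 * ((Function.update R i (R i ∪ S) j).card : ℝ)
        = Psi (R j) (p j) + 1 / 2000 * ((R j).card : ℝ) := by
      intro j hj
      have hj' := Finset.ne_of_mem_erase hj
      rw [Function.update_of_ne hj', Function.update_of_ne hj']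
    rw [← Finset.add_sum_erase _ _ (Finset.mem_univ i)] at h1
    rw [← Finset.add_sum_erase _ _ (Finset.mem_univ i), Finset.sum_congr rfl h2,
      Function.update_self, Function.update_self]
    push_cast
    linarith
  · intro j l hjl
    by_cases hj : j = i
    · subst hj
      rw [Function.update_self, Function.update_of_ne (Ne.symm hjl)]
      exact hov l (Ne.symm hjl)
    · by_cases hl : l = i
      · subst hl
        rw [Function.update_self, Function.update_of_ne hj, hq j l]
        have := hov j hj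
        simp_rw [mul_comm (mean (p j) _)]
        exact this
      · rw [Function.update_of_ne hj, Function.update_of_ne hl]
        have := hst.ov j l hjl
        linarith

/-- invariant of the extraction -/
def Ext (X : ℤ) (q : Fin K → Fin K → ℤ) (G : Fin K → Finset (Fin N → Bool))
    (p : Fin K → (Fin N → Bool) → ℝ) (H0 : Fin K → Finset (Fin N → Bool)) (m : ℝ) (k : ℕ) : Prop :=
  ∃ (x : Fin K → (Fin N → Bool)) (H : Fin K → Finset (Fin N → Bool)),
    (∀ j, H j ⊆ H0 j) ∧ (∀ j : Fin K, k ≤ j.val → m ≤ ∑ y ∈ H j, p j y) ∧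
    (∀ i : Fin K, i.val < k → x i ∈ G i) ∧
    (∀ i j : Fin K, i.val < k → k ≤ j.val → ∀ z ∈ H j, q i j + ip (x i) z = X) ∧
    (∀ i j : Fin K, i < j → j.val < k → q i j + ip (x i) (x j) = X)

theorem stages {dP : ℝ} {δ : ℕ → ℝ} (hst : St A q X dN γN s E G R p)
    (hq : ∀ i j, q i j = q j i) (hE : 0 < E) (hγ : 0 ≤ γN)
    (hdiv : ∀ i j, i ≠ j → ∀ y ∈ A i, ∀ z ∈ A j, (4 : ℤ) ∣ q i j + ip y z - X)
    (hδ : ∀ r, 0 < δ r) (hδ' : ∀ r, δ (r + 1) ≤ δ r)
    (hPL : ∀ r, r < K → PLat dP (δ r) (2 * δ (r + 1)) N)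
    (hdN : dN ≤ dP * N) (hdN' : 2000 * dN ≤ dP * N)
    (hK : (K : ℝ) ≤ Real.exp (δ K * N)) (hhalf : Real.exp (-(δ K * N)) ≤ 1 / 2)
    (hmass : 2 * ((K : ℝ) * N) ≤ E ^ 2)
    (hEδ : E ≤ δ K * N) (hγδ : γN ≤ δ K / 1600000 * N) :
    ∀ k, k ≤ K → Ext X q G p (Hset q X E G p) (Real.exp (-(δ (K - k) * N))) k ∨
      ∃ (G' : Fin K → Finset (Fin N → Bool)) (R' : Fin K → Finset (Fin N))
      (p' : Fin K → (Fin N → Bool) → ℝ), St A q X dN γN (s + 1) (2 * E) G' R' p' := by
  classical
  have hN0 : (0 : ℝ) ≤ N := Nat.cast_nonneg N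
  have hδanti : ∀ a b : ℕ, a ≤ b → δ b ≤ δ a := by
    intro a b hab
    induction b, hab using Nat.le_induction with
    | base => exact le_rfl
    | succ n _ ih => exact (hδ' n).trans ih
  intro k
  induction k with
  | zero =>
    intro _
    left
    refine ⟨fun _ _ => true, Hset q X E G p, fun j => subset_rfl, fun j _ => ?_,
      fun i hi => absurd hi (Nat.not_lt_zero _), fun i j hi => absurd hi (Nat.not_lt_zero _),
      fun i j _ hj => absurd hj (Nat.not_lt_zero _)⟩
    rw [Nat.sub_zero]
    exact hhalf.trans (Hset_mass hst hE hmass j)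
  | succ k ih =>
    intro hkK
    rcases ih (by omega) with ih | ih
    · obtain ⟨x, H, hH, hHm, hx, hxH, hxx⟩ := ih
      let kk : Fin K := ⟨k, by omega⟩
      have hkr : K - k = (K - (k + 1)) + 1 := by omega
      set r := K - (k + 1) with hr
      have hrK : r < K := by omega
      by_cases hgood : ∃ y ∈ H kk, ∀ j : Fin K, k < j.val →
          Real.exp (-(δ r * N)) ≤ ∑ z ∈ (H j).filter (fun z => q kk j + ip y z = X), p j z
      · left
        obtain ⟨y, hy, hyj⟩ := hgood
        have hHG : ∀ j, H j ⊆ G j := fun j => (hH j).trans (Finset.filter_subset _ _)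
        refine ⟨Function.update x kk y, fun j => (H j).filter (fun z => q kk j + ip y z = X),
          fun j => (Finset.filter_subset _ _).trans (hH j), fun j hj => hyj j (by omega),
          ?_, ?_, ?_⟩
        · intro i hi
          by_cases hik : i = kk
          · subst hik
            rw [Function.update_self]
            exact hHG _ hy
          · rw [Function.update_of_ne hik]
            apply hx
            have : i.val ≠ k := fun h => hik (Fin.ext h)
            omega
        · intro i j hi hj z hz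
          rw [Finset.mem_filter] at hz
          by_cases hik : i = kk
          · subst hik
            rw [Function.update_self]
            exact hz.2
          · rw [Function.update_of_ne hik]
            have : i.val ≠ k := fun h => hik (Fin.ext h)
            exact hxH i j (by omega) (by omega) z hz.1
        · intro i j hij hj
          have hij' : i.val < j.val := hij
          by_cases hjk : j = kk
          · subst hjk
            have hik : i ≠ kk := ne_of_lt hij
            rw [Function.update_self, Function.update_of_ne hik]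
            exact hxH i kk hij' le_rfl y hy
          · have hjk' : j.val ≠ k := fun h => hjk (Fin.ext h)
            have hik : i ≠ kk := by
              intro h
              have : i.val = k := by rw [h]
              omega
            rw [Function.update_of_ne hjk, Function.update_of_ne hik]
            exact hxx i j hij (by omega)
      · right
        push Not at hgood
        -- pigeonhole
        have hHkm := hHm kk le_rfl
        rw [hkr] at hHkm
        let bad : Fin K → Finset (Fin N → Bool) := fun j => (H kk).filter (fun y =>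
          k < j.val ∧ ∑ z ∈ (H j).filter (fun z => q kk j + ip y z = X), p j z
            < Real.exp (-(δ r * N)))
        have hpk := (hst.mins kk).pr
        have hKpos : (0 : ℝ) < K := by
          have : 0 < K := by omega
          exact_mod_cast this
        have hex : ∃ j, (∑ y ∈ H kk, p kk y) / K ≤ ∑ y ∈ bad j, p kk y := by
          by_contra hcon
          push Not at hcon
          have h1 : ∑ j, ∑ y ∈ bad j, p kk y < ∑ _j : Fin K, (∑ y ∈ H kk, p kk y) / K :=
            Finset.sum_lt_sum_of_nonempty ⟨kk, Finset.mem_univ _⟩ fun j _ => hcon j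
          rw [Finset.sum_const, Finset.card_univ, Fintype.card_fin, nsmul_eq_mul,
            mul_div_cancel₀ _ hKpos.ne'] at h1
          have h2 : ∑ y ∈ H kk, p kk y ≤ ∑ j, ∑ y ∈ bad j, p kk y := by
            have h3 : ∀ j, ∑ y ∈ bad j, p kk y = ∑ y ∈ H kk, if (k < j.val ∧
                ∑ z ∈ (H j).filter (fun z => q kk j + ip y z = X), p j z
                < Real.exp (-(δ r * N))) then p kk y else 0 := by
              intro j
              rw [Finset.sum_filter]
            rw [Finset.sum_congr rfl fun j _ => h3 j, Finset.sum_comm]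
            refine Finset.sum_le_sum fun y hy => ?_
            obtain ⟨j, hj1, hj2⟩ := hgood y hy
            have h4 : p kk y = if (k < j.val ∧
                ∑ z ∈ (H j).filter (fun z => q kk j + ip y z = X), p j z
                < Real.exp (-(δ r * N))) then p kk y else 0 := by
              rw [if_pos ⟨hj1, hj2⟩]
            refine h4.le.trans ?_
            refine Finset.single_le_sum (f := fun j : Fin K => if (k < j.val ∧
                ∑ z ∈ (H j).filter (fun z => q kk j + ip y z = X), p j z
                < Real.exp (-(δ r * N))) then p kk y else 0) (fun j _ => ?_) (Finset.mem_univ j)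
            split_ifs
            · exact hpk.nonneg y
            · exact le_rfl
          linarith
        obtain ⟨j, hj⟩ := hex
        have hHkpos : 0 < ∑ y ∈ H kk, p kk y := lt_of_lt_of_le (Real.exp_pos _) hHkm
        have hbadpos : 0 < ∑ y ∈ bad j, p kk y := lt_of_lt_of_le (by positivity) hj
        have hbadne : (bad j).Nonempty := by
          rw [Finset.nonempty_iff_ne_empty]
          intro h
          rw [h, Finset.sum_empty] at hbadpos
          exact lt_irrefl _ hbadpos
        obtain ⟨y0, hy0⟩ := hbadne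
        have hkj : k < j.val := (Finset.mem_filter.mp hy0).2.1
        have hkkj : kk ≠ j := by
          intro h
          rw [← h] at hkj
          exact lt_irrefl _ hkj
        have hbadm : Real.exp (-(2 * δ (r + 1) * N)) ≤ ∑ y ∈ bad j, p kk y := by
          refine le_trans ?_ hj
          rw [le_div_iff₀ hKpos]
          calc Real.exp (-(2 * δ (r + 1) * N)) * K
              ≤ Real.exp (-(2 * δ (r + 1) * N)) * Real.exp (δ K * N) :=
                mul_le_mul_of_nonneg_left hK (Real.exp_pos _).le
            _ ≤ Real.exp (-(2 * δ (r + 1) * N)) * Real.exp (δ (r + 1) * N) := by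
                refine mul_le_mul_of_nonneg_left (Real.exp_le_exp.mpr ?_) (Real.exp_pos _).le
                exact mul_le_mul_of_nonneg_right (hδanti _ _ (by omega)) hN0
            _ = Real.exp (-(δ (r + 1) * N)) := by
                rw [← Real.exp_add]
                congr 1
                ring
            _ ≤ ∑ y ∈ H kk, p kk y := hHkm
        have hHjm : Real.exp (-(2 * δ (r + 1) * N)) ≤ ∑ y ∈ H j, p j y := by
          refine le_trans ?_ (hHm j (by omega))
          rw [hkr]
          refine Real.exp_le_exp.mpr ?_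
          have : 0 ≤ δ (r + 1) * N := mul_nonneg (hδ _).le hN0
          linarith
        have hHG : ∀ j, H j ⊆ G j := fun j => (hH j).trans (Finset.filter_subset _ _)
        have hPsi : ∀ i, Psi (R i) (p i) ≤ dP * N ∧ ((R i).card : ℝ) ≤ dP * N := by
          intro i
          have h1 := hst.U i
          have h2 := Psi_nonneg (hst.mins i).pr (hst.mins i).frozen
          have h3 : (0 : ℝ) ≤ ((R i).card : ℝ) := Nat.cast_nonneg _
          constructor
          · linarith
          · linarith
        have hδKr : δ K ≤ δ (r + 1) := hδanti _ _ (by omega)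
        have hov : |(q kk j : ℝ) + ∑ l, mean (p kk) l * mean (p j) l - X|
            ≤ 2 * δ (r + 1) * N := by
          refine (hst.ov kk j hkkj).trans (hEδ.trans ?_)
          have h1 : δ K * N ≤ δ (r + 1) * N := mul_le_mul_of_nonneg_right hδKr hN0
          have h2 : 0 ≤ δ (r + 1) * N := mul_nonneg (hδ _).le hN0
          linarith
        have hγr : γN ≤ δ r / 1600000 * N := by
          refine hγδ.trans ?_
          refine mul_le_mul_of_nonneg_right ?_ hN0
          have := hδanti r K (by omega)
          linarith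
        rcases hPL r hrK (q kk j) X (R kk) (R j) (G kk) (G j) (bad j) (H j) (p kk) (p j)
          (hst.mins kk) (hst.mins j) (hPsi kk).1 (hPsi j).1 (hPsi kk).2 (hPsi j).2 hov
          (fun y hy z hz => hdiv kk j hkkj y (hst.sub kk hy) z (hst.sub j hz))
          ((Finset.filter_subset _ _).trans (hHG kk)) (hHG j) hbadm hHjm with h1 | h1 | h1
        · exfalso
          have h2 : ∑ y ∈ bad j, ∑ z ∈ H j, (if q kk j + ip y z = X then p kk y * p j z else 0)
              < ∑ y ∈ bad j, p kk y * Real.exp (-(δ r * N)) := by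
            have h3 : ∀ y ∈ bad j, ∑ z ∈ H j,
                (if q kk j + ip y z = X then p kk y * p j z else 0)
                = p kk y * ∑ z ∈ (H j).filter (fun z => q kk j + ip y z = X), p j z := by
              intro y _
              rw [Finset.sum_filter, Finset.mul_sum]
              refine Finset.sum_congr rfl fun z _ => ?_
              split_ifs
              · rfl
              · rw [mul_zero]
            rw [Finset.sum_congr rfl h3]
            have h4 : ∃ y ∈ bad j, 0 < p kk y := by
              by_contra hcon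
              push Not at hcon
              have : ∑ y ∈ bad j, p kk y ≤ 0 := Finset.sum_nonpos hcon
              linarith
            obtain ⟨y1, hy1, hy1p⟩ := h4
            refine Finset.sum_lt_sum (fun y hy => ?_) ⟨y1, hy1, ?_⟩
            · exact mul_le_mul_of_nonneg_left (Finset.mem_filter.mp hy).2.2.le (hpk.nonneg y)
            · exact mul_lt_mul_of_pos_left (Finset.mem_filter.mp hy1).2.2 hy1p
          rw [← Finset.sum_mul] at h2
          have h5 : ∑ y ∈ bad j, p kk y ≤ 1 := by
            rw [← hpk.sum_eq]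
            exact Finset.sum_le_sum_of_subset_of_nonneg (Finset.subset_univ _)
              fun y _ _ => hpk.nonneg y
          have h6 : (∑ y ∈ bad j, p kk y) * Real.exp (-(δ r * N))
              ≤ 1 * Real.exp (-(δ r * N)) :=
            mul_le_mul_of_nonneg_right h5 (Real.exp_pos _).le
          linarith
        · obtain ⟨S, a, v, hS, hv, hdrop⟩ := h1
          refine improve hst hq hE.le hγ kk (h := bad j)
            ((Finset.filter_subset _ _).trans (hH kk))
            (Disjoint.mono_right Finset.subset_union_left hS) hv ?_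
          linarith
        · obtain ⟨S, a, v, hS, hv, hdrop⟩ := h1
          refine improve hst hq hE.le hγ j (h := H j) (hH j)
            (Disjoint.mono_right Finset.subset_union_right hS) hv ?_
          linarith
    · exact Or.inr ih

end

theorem krep_of_pl (hPL : PLStmt) : KRepStmt := by
  classical
  obtain ⟨dP, hdP, δ, hδ, hδP, hδ', hseq⟩ := exists_seq hPL
  choose N0f hN0f using hseq
  refine ⟨dP / 2000, by positivity, fun K => ?_⟩
  have hδK := hδ K
  -- number of steps
  set γ : ℝ := δ K / 1600000 with hγ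
  have hγpos : 0 < γ := by positivity
  obtain ⟨T, hT⟩ := exists_nat_gt (K * (dP / 2000) / γ)
  set e0 : ℝ := δ K / 2 ^ T with he0
  have he0pos : 0 < e0 := by positivity
  obtain ⟨N1, hN1⟩ := exists_nat_gt (2 * K / e0 ^ 2)
  obtain ⟨N2, hN2⟩ := exists_nat_gt ((K + 1 : ℝ) / δ K)
  refine ⟨e0, he0pos, (∑ r ∈ range K, N0f r) + N1 + N2 + 1, ?_⟩
  intro N hN A q X p hq hmin hPsi hov hdiv
  have hNr : ((1 : ℕ) : ℝ) ≤ N := by exact_mod_cast (by omega : 1 ≤ N)
  have hNpos : (0 : ℝ) < N := by
    push_cast at hNr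
    linarith
  have hN1' : 2 * K / e0 ^ 2 ≤ N := by
    have : (N1 : ℝ) ≤ N := by exact_mod_cast (by omega : N1 ≤ N)
    linarith
  have hN2' : (K + 1 : ℝ) / δ K ≤ N := by
    have : (N2 : ℝ) ≤ N := by exact_mod_cast (by omega : N2 ≤ N)
    linarith
  have hPLs : ∀ r, r < K → PLat dP (δ r) (2 * δ (r + 1)) N := by
    intro r hr
    apply hN0f r
    have : N0f r ≤ ∑ r ∈ range K, N0f r :=
      Finset.single_le_sum (f := N0f) (fun _ _ => Nat.zero_le _) (Finset.mem_range.mpr hr)
    omega
  have hKN : (K + 1 : ℝ) ≤ δ K * N := by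
    rw [div_le_iff₀ hδK] at hN2'
    linarith
  have hKexp : (K : ℝ) + 2 ≤ Real.exp (δ K * N) := by
    have := Real.add_one_le_exp (δ K * N)
    linarith
  have hhalf : Real.exp (-(δ K * N)) ≤ 1 / 2 := by
    rw [Real.exp_neg, inv_le_comm₀ (Real.exp_pos _) (by norm_num)]
    have : (0 : ℝ) ≤ K := Nat.cast_nonneg K
    norm_num
    linarith
  have hstep : ∀ s : ℕ, s ≤ T → (∃ y : Fin K → (Fin N → Bool), (∀ i, y i ∈ A i) ∧
        ∀ i j, i ≠ j → q i j + ip (y i) (y j) = X) ∨
      ∃ (G : Fin K → Finset (Fin N → Bool)) (R : Fin K → Finset (Fin N))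
      (p : Fin K → (Fin N → Bool) → ℝ),
        St A q X (dP / 2000 * N) (γ * N) s (2 ^ s * e0 * N) G R p := by
    intro s
    induction s with
    | zero =>
      intro _
      right
      refine ⟨A, fun _ => ∅, p, hmin, fun i => subset_rfl, fun i => ?_, ?_, fun i j hij => ?_⟩
      · have := hPsi i
        simpa using this
      · have : ∑ i, (Psi ∅ (p i) + 1 / 2000 * (((∅ : Finset (Fin N)).card : ℕ) : ℝ))
            ≤ ∑ _i : Fin K, dP / 2000 * N := Finset.sum_le_sum fun i _ => by
              simpa using hPsi i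
        rw [Finset.sum_const, Finset.card_univ, Fintype.card_fin, nsmul_eq_mul] at this
        simpa using this
      · simpa using hov i j hij
    | succ s ih =>
      intro hs
      rcases ih (by omega) with ih | ih
      · exact Or.inl ih
      · obtain ⟨G, R, p', hst⟩ := ih
        have h2s : (1 : ℝ) ≤ 2 ^ s := one_le_pow₀ (by norm_num)
        have hEpos : 0 < 2 ^ s * e0 * N := by positivity
        have hEδ : 2 ^ s * e0 * N ≤ δ K * N := by
          refine mul_le_mul_of_nonneg_right ?_ hNpos.le
          rw [he0]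
          have : (2 : ℝ) ^ s ≤ 2 ^ T := pow_le_pow_right₀ (by norm_num) (by omega)
          rw [mul_div_assoc', div_le_iff₀ (by positivity)]
          nlinarith
        have hmass : 2 * ((K : ℝ) * N) ≤ (2 ^ s * e0 * N) ^ 2 := by
          rw [div_le_iff₀ (by positivity)] at hN1'
          have h1 : e0 ≤ 2 ^ s * e0 := by nlinarith
          have h2 : e0 ^ 2 ≤ (2 ^ s * e0) ^ 2 := pow_le_pow_left₀ he0pos.le h1 2
          calc 2 * ((K : ℝ) * N) = (2 * K) * N := by ring
            _ ≤ (N * e0 ^ 2) * N := mul_le_mul_of_nonneg_right hN1' hNpos.le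
            _ = e0 ^ 2 * N ^ 2 := by ring
            _ ≤ (2 ^ s * e0) ^ 2 * N ^ 2 := mul_le_mul_of_nonneg_right h2 (by positivity)
            _ = (2 ^ s * e0 * N) ^ 2 := by ring
        have := stages hst hq hEpos (by positivity) hdiv hδ hδ' hPLs
          (by nlinarith [mul_pos hdP hNpos]) (by nlinarith [mul_pos hdP hNpos])
          (by linarith) hhalf hmass hEδ (le_of_eq (by rw [hγ])) K le_rfl
        rcases this with h | h
        · left
          obtain ⟨x, H, -, -, hx, -, hxx⟩ := h
          refine ⟨x, fun i => hst.sub i (hx i i.2), fun i j hij => ?_⟩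
          rcases lt_or_gt_of_ne hij with h | h
          · exact hxx i j h j.2
          · have h1 := hxx j i h i.2
            rw [hq i j]
            have h2 : ip (x i) (x j) = ip (x j) (x i) := by
              unfold ip
              exact Finset.sum_congr rfl fun c _ => mul_comm _ _
            rw [h2]
            exact h1
        · right
          obtain ⟨G', R', p'', hst'⟩ := h
          refine ⟨G', R', p'', ?_⟩
          have h1 : (2 : ℝ) ^ (s + 1) * e0 * N = 2 * (2 ^ s * e0 * N) := by ring
          rw [h1]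
          exact hst'
  rcases hstep T le_rfl with h | h
  · exact h
  · exfalso
    obtain ⟨G, R, p', hst⟩ := h
    have h1 := hst.tot
    have h2 : 0 ≤ ∑ i, (Psi (R i) (p' i) + 1 / 2000 * ((R i).card : ℝ)) := by
      refine Finset.sum_nonneg fun i _ => ?_
      have h3 := Psi_nonneg (hst.mins i).pr (hst.mins i).frozen
      positivity
    rw [div_lt_iff₀ hγpos] at hT
    have h4 : K * (dP / 2000) * N < T * γ * N := mul_lt_mul_of_pos_right hT hNpos
    nlinarith [h1, h2, h4]

end Pool.Agent.MP3884c4
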