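import Pool.Agent.Lib.MP_3884c4_co.Beck

/-!
The `L²` bound.
-/

set_option autoImplicit false

open Finset Real

namespace Pool.Agent.MP3884c4

open Bk

theorem two_point_l2 {τ : ℝ} (h1 : |τ| ≤ 1) (a b : ℂ) :
    (‖a + Complex.I * τ * b‖ ^ (2:ℝ) + ‖a - Complex.I * τ * b‖ ^ (2:ℝ)) / 2
      ≤ ((‖a + b‖ ^ (2:ℝ) + ‖a - b‖ ^ (2:ℝ)) / 2) ^ ((2:ℝ) / 2) := by
  have h2 : (2:ℝ) / 2 = 1 := by norm_num
  have hsq : τ ^ 2 ≤ 1 := by rw [← sq_abs]; exact pow_le_one₀ (abs_nonneg τ) h1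
  rw [h2, rpow_one]
  simp only [show (2:ℝ) = ((2:ℕ):ℝ) by norm_num, Real.rpow_natCast]
  simp only [Complex.sq_norm, Complex.normSq_apply]
  simp
  have := mul_le_mul_of_nonneg_right hsq (add_nonneg (sq_nonneg b.re) (sq_nonneg b.im))
  nlinarith

theorem l2 : L2Stmt := by
  intro N τ D hD0 hτ P P' hP hP' hD hD'
  have hconj : (2:ℝ).HolderConjugate 2 := by
    rw [Real.holderConjugate_iff]; norm_num
  refine (bilin (Complex.I * τ) hconj le_rfl (two_point_l2 hτ) P P' hP hP' hD hD').trans ?_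
  apply Real.exp_le_exp.2
  linarith

end Pool.Agent.MP3884c4
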