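import Pool.Agent.Lib.MP_3884c4_co.Aml

/-!
Moment analysis at a minimiser of the pair functional: the overlap has second moment
at most `2.1 N` about the target.
-/

set_option autoImplicit false

noncomputable section

namespace Pool.Agent.MP3884c4

open Finset

section

variable {ι : Type*} [Fintype ι] [DecidableEq ι]

/-- a probability vector frozen on `R`, with sub-Gaussian centred coordinates -/
structure SubG (k : ℝ) (R : Finset ι) (p : (ι → Bool) → ℝ) : Prop where
  pr : IsPr univ p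
  fro : ∀ y, p y ≠ 0 → ∀ i ∈ R, sg (y i) = mean p i
  mgf : ∀ θ : ι → ℝ, ex p (fun y => Real.exp (∑ i, θ i * (sg (y i) - mean p i)))
      ≤ Real.exp ((∑ i ∈ Rᶜ, θ i ^ 2) / (4 * k))
  var : ∀ θ : ι → ℝ, ex p (fun y => (∑ i, θ i * (sg (y i) - mean p i)) ^ 2)
      ≤ (∑ i ∈ Rᶜ, θ i ^ 2) / (2 * k)

/-- expectation of a function of two independent points -/
def ex2 (p p' : (ι → Bool) → ℝ) (F : (ι → Bool) → (ι → Bool) → ℝ) : ℝ :=
  ∑ y, ∑ z, p y * p' z * F y z

variable {p p' : (ι → Bool) → ℝ}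

theorem ex2_add (F H : (ι → Bool) → (ι → Bool) → ℝ) :
    ex2 p p' (fun y z => F y z + H y z) = ex2 p p' F + ex2 p p' H := by
  simp [ex2, mul_add, sum_add_distrib]

theorem ex2_const_mul (c : ℝ) (F : (ι → Bool) → (ι → Bool) → ℝ) :
    ex2 p p' (fun y z => c * F y z) = c * ex2 p p' F := by
  simp only [ex2, mul_sum]
  exact sum_congr rfl fun y _ => sum_congr rfl fun z _ => by ring

theorem ex2_prod (f g : (ι → Bool) → ℝ) :
    ex2 p p' (fun y z => f y * g z) = ex p f * ex p' g := by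
  simp only [ex2, ex, sum_mul_sum]
  exact sum_congr rfl fun y _ => sum_congr rfl fun z _ => by ring

theorem ex2_sum {κ : Type*} (s : Finset κ) (F : κ → (ι → Bool) → (ι → Bool) → ℝ) :
    ex2 p p' (fun y z => ∑ i ∈ s, F i y z) = ∑ i ∈ s, ex2 p p' (F i) := by
  simp only [ex2, mul_sum]
  rw [sum_comm]
  have : ∀ y, ∑ z, ∑ i ∈ s, p y * p' z * F i y z = ∑ i ∈ s, ∑ z, p y * p' z * F i y z :=
    fun y => sum_comm
  rw [← sum_comm, sum_congr rfl fun y _ => this y, sum_comm]

theorem ex2_left (F : (ι → Bool) → (ι → Bool) → ℝ) :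
    ex2 p p' F = ex p (fun y => ex p' (F y)) := by
  simp only [ex2, ex, mul_sum]
  exact sum_congr rfl fun y _ => sum_congr rfl fun z _ => by ring

theorem ex2_right (F : (ι → Bool) → (ι → Bool) → ℝ) :
    ex2 p p' F = ex p' (fun z => ex p (fun y => F y z)) := by
  simp only [ex2, ex, mul_sum]
  rw [sum_comm]
  exact sum_congr rfl fun y _ => sum_congr rfl fun z _ => by ring

theorem ex2_mono (hp : ∀ y, 0 ≤ p y) (hp' : ∀ y, 0 ≤ p' y)
    {F H : (ι → Bool) → (ι → Bool) → ℝ} (h : ∀ y z, F y z ≤ H y z) :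
    ex2 p p' F ≤ ex2 p p' H :=
  sum_le_sum fun y _ => sum_le_sum fun z _ =>
    mul_le_mul_of_nonneg_left (h y z) (mul_nonneg (hp y) (hp' z))

theorem ex2_fst (hp' : IsPr univ p') (f : (ι → Bool) → ℝ) :
    ex2 p p' (fun y _ => f y) = ex p f := by
  have := ex2_prod (p := p) (p' := p') f (fun _ => 1)
  simp only [mul_one] at this
  rw [this, ex_const hp', mul_one]

theorem ex2_snd (hp : IsPr univ p) (g : (ι → Bool) → ℝ) :
    ex2 p p' (fun _ z => g z) = ex p' g := by
  have := ex2_prod (p := p) (p' := p') (fun _ => 1) g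
  simp only [one_mul] at this
  rw [this, ex_const hp, one_mul]

/-- centred coordinate -/
def xi (p : (ι → Bool) → ℝ) (i : ι) (y : ι → Bool) : ℝ := sg (y i) - mean p i

theorem ex_xi (hp : IsPr univ p) (i : ι) : ex p (xi p i) = 0 := by
  have h1 : ex p (xi p i) = mean p i - ex p (fun _ => mean p i) := by
    unfold ex xi mean
    rw [← sum_sub_distrib]
    exact sum_congr rfl fun y _ => by ring
  rw [h1, ex_const hp, sub_self]

theorem cov_eq_ex (p : (ι → Bool) → ℝ) (i j : ι) :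
    cov p i j = ex p (fun y => xi p i y * xi p j y) := rfl

theorem sg_sq (b : Bool) : sg b ^ 2 = 1 := by cases b <;> simp [sg]

theorem cov_self (hp : IsPr univ p) (i : ι) : cov p i i = 1 - mean p i ^ 2 := by
  have h1 : (fun y => xi p i y * xi p i y)
      = fun y => 1 + (-mean p i ^ 2 + (-2 * mean p i) * xi p i y) := by
    funext y
    have := sg_sq (y i)
    unfold xi
    linear_combination this
  rw [cov_eq_ex, h1, ex_add, ex_add, ex_const hp, ex_const hp, ex_const_mul, ex_xi hp]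
  ring

theorem xi_frozen {k : ℝ} {R : Finset ι} (h : SubG k R p) {i : ι} (hi : i ∈ R) {y : ι → Bool}
    (hy : p y ≠ 0) : xi p i y = 0 := by
  unfold xi
  rw [h.fro y hy i hi, sub_self]

theorem cov_frozen {k : ℝ} {R : Finset ι} (h : SubG k R p) {i : ι} (hi : i ∈ R) (j : ι) :
    cov p i j = 0 := by
  unfold cov
  refine sum_eq_zero fun y _ => ?_
  by_cases hy : p y = 0
  · simp [hy]
  · have := xi_frozen h hi hy
    unfold xi at this
    rw [this]; ring

theorem cov_comm' (p : (ι → Bool) → ℝ) (i j : ι) : cov p i j = cov p j i := by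
  unfold cov
  exact sum_congr rfl fun y _ => by ring

/-- the fluctuating part of the overlap -/
def Zf (p p' : (ι → Bool) → ℝ) (y z : ι → Bool) : ℝ := ∑ i, xi p i y * xi p' i z

theorem ex2_left_Z (hp' : IsPr univ p') (f : (ι → Bool) → ℝ) :
    ex2 p p' (fun y z => f y * Zf p p' y z) = 0 := by
  have : (fun y z => f y * Zf p p' y z) = fun y z => ∑ i, (f y * xi p i y) * xi p' i z := by
    funext y z
    unfold Zf
    rw [mul_sum]
    exact sum_congr rfl fun i _ => by ring
  rw [this, ex2_sum]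
  refine sum_eq_zero fun i _ => ?_
  rw [ex2_prod (fun y => f y * xi p i y) (xi p' i), ex_xi hp', mul_zero]

theorem ex2_right_Z (hp : IsPr univ p) (g : (ι → Bool) → ℝ) :
    ex2 p p' (fun y z => g z * Zf p p' y z) = 0 := by
  have : (fun y z => g z * Zf p p' y z) = fun y z => ∑ i, xi p i y * (g z * xi p' i z) := by
    funext y z
    unfold Zf
    rw [mul_sum]
    exact sum_congr rfl fun i _ => by ring
  rw [this, ex2_sum]
  refine sum_eq_zero fun i _ => ?_
  rw [ex2_prod (xi p i) (fun z => g z * xi p' i z), ex_xi hp, zero_mul]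

theorem ex2_Z_sq : ex2 p p' (fun y z => Zf p p' y z ^ 2) = ∑ i, ∑ j, cov p i j * cov p' i j := by
  have : (fun y z => Zf p p' y z ^ 2)
      = fun y z => ∑ i, ∑ j, (xi p i y * xi p j y) * (xi p' i z * xi p' j z) := by
    funext y z
    unfold Zf
    rw [sq, sum_mul_sum]
    exact sum_congr rfl fun i _ => sum_congr rfl fun j _ => by ring
  rw [this, ex2_sum]
  refine sum_congr rfl fun i _ => ?_
  rw [ex2_sum]
  refine sum_congr rfl fun j _ => ?_
  rw [ex2_prod (fun y => xi p i y * xi p j y) (fun z => xi p' i z * xi p' j z)]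
  rfl

/-- the elementary inequality behind the one-sided tail estimate -/
theorem tail_ineq {t : ℝ} (ht : 1 ≤ t) : (t - 1) * t ≤ 1 / 20 * Real.exp (2 * t) := by
  have h1 : Real.exp (2 * t) = Real.exp 1 ^ 3 * Real.exp (2 * t - 3) := by
    rw [← Real.exp_nat_mul, ← Real.exp_add]
    congr 1
    push_cast
    ring
  have h2 : (2.7182818283 : ℝ) < Real.exp 1 := Real.exp_one_gt_d9
  have h3 : (20.08 : ℝ) ≤ Real.exp 1 ^ 3 := by
    have : (2.7182818283 : ℝ) ^ 3 ≤ Real.exp 1 ^ 3 := pow_le_pow_left₀ (by norm_num) h2.le 3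
    refine le_trans ?_ this
    norm_num
  -- lower bound of the exponential by a cubic, at a base point
  have h4 : ∀ x : ℝ, -1 ≤ x → 1 + x + x ^ 2 / 2 + x ^ 3 / 6 ≤ Real.exp x := by
    intro x hx
    have hx4 : Real.exp x = Real.exp (x + 1) * Real.exp (-1) := by
      rw [← Real.exp_add]; congr 1; ring
    rcases le_total 0 x with h | h
    · have := Real.sum_le_exp_of_nonneg h 4
      simp [Finset.sum_range_succ, Nat.factorial] at this
      linarith
    · -- for negative x use the derivative-free bound through `exp (-x)`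
      have hy : 0 ≤ -x := by linarith
      have hE : Real.exp x = (Real.exp (-x))⁻¹ := by rw [← Real.exp_neg, neg_neg]
      have hub : Real.exp (-x) ≤ 1 + (-x) + (-x) ^ 2 / 2 + (-x) ^ 3 / 6 + (-x) ^ 4 * (5 / 96) := by
        have := Real.exp_bound' hy (by linarith) (n := 4) (by norm_num)
        simp [Finset.sum_range_succ, Nat.factorial] at this
        linarith
      rw [hE]
      have hpos := Real.exp_pos (-x)
      rw [← one_div, le_div_iff₀ hpos]
      have hnn : 0 ≤ 1 + x + x ^ 2 / 2 + x ^ 3 / 6 := by nlinarith [sq_nonneg x, sq_nonneg (x + 1)]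
      refine (mul_le_mul_of_nonneg_left hub hnn).trans ?_
      nlinarith [sq_nonneg x, sq_nonneg (x + 1), pow_nonneg hy 3, pow_nonneg hy 4, pow_nonneg hy 5,
        mul_nonneg (pow_nonneg hy 4) (by linarith : 0 ≤ 1 + x)]
  have h5 := h4 (2 * t - 3) (by linarith)
  have h6 : 0 ≤ Real.exp (2 * t - 3) := (Real.exp_pos _).le
  rw [h1]
  have h7 : 20.08 * Real.exp (2 * t - 3) ≤ Real.exp 1 ^ 3 * Real.exp (2 * t - 3) :=
    mul_le_mul_of_nonneg_right h3 h6
  nlinarith [sq_nonneg (t - 1), sq_nonneg (t - 2), mul_nonneg (by linarith : 0 ≤ t - 1) (sq_nonneg (t - 2)),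
    mul_nonneg (by linarith : 0 ≤ t - 1) (sq_nonneg (t - 3 / 2)), sq_nonneg (t - 17 / 10)]

theorem sgz_cast (b : Bool) : ((sgz b : ℤ) : ℝ) = sg b := by cases b <;> simp [sg, sgz]

omit [DecidableEq ι] in
theorem ip_cast_real (y z : ι → Bool) : ((ip y z : ℤ) : ℝ) = ∑ i, sg (y i) * sg (z i) := by
  unfold ip
  push_cast
  simp only [sgz_cast]

/-- the deviation of the overlap from the target -/
def Wf (q0 X : ℤ) (y z : ι → Bool) : ℝ := ((q0 + ip y z - X : ℤ) : ℝ)

/-- mean deviation -/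
def E0f (q0 X : ℤ) (p p' : (ι → Bool) → ℝ) : ℝ := (q0 : ℝ) + ∑ i, mean p i * mean p' i - X

/-- linear part -/
def lf (p p' : (ι → Bool) → ℝ) (y : ι → Bool) : ℝ := ∑ i, mean p' i * xi p i y

theorem Wf_eq (q0 X : ℤ) (y z : ι → Bool) :
    Wf q0 X y z = E0f q0 X p p' + lf p p' y + lf p' p z + Zf p p' y z := by
  unfold Wf E0f lf Zf xi
  push_cast
  rw [ip_cast_real]
  have : ∑ i, sg (y i) * sg (z i) = ∑ i, mean p i * mean p' i
      + ∑ i, mean p' i * (sg (y i) - mean p i) + ∑ i, mean p i * (sg (z i) - mean p' i)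
      + ∑ i, (sg (y i) - mean p i) * (sg (z i) - mean p' i) := by
    rw [← sum_add_distrib, ← sum_add_distrib, ← sum_add_distrib]
    exact sum_congr rfl fun i _ => by ring
  rw [this]
  ring

theorem ex_lf (hp : IsPr univ p) : ex p (lf p p') = 0 := by
  have : lf p p' = fun y => ∑ i, mean p' i * xi p i y := rfl
  rw [this, ex_sum]
  refine sum_eq_zero fun i _ => ?_
  rw [ex_const_mul, ex_xi hp, mul_zero]

theorem ex2_Z (hp' : IsPr univ p') : ex2 p p' (Zf p p') = 0 := by
  have := ex2_left_Z (p := p) hp' (fun _ => 1)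
  simpa using this

theorem ex2_W_Z (hp : IsPr univ p) (hp' : IsPr univ p') (q0 X : ℤ) :
    ex2 p p' (fun y z => Wf q0 X y z * Zf p p' y z) = ex2 p p' (fun y z => Zf p p' y z ^ 2) := by
  have : (fun y z => Wf q0 X y z * Zf p p' y z)
      = fun y z => (E0f q0 X p p' + lf p p' y) * Zf p p' y z
        + (lf p' p z * Zf p p' y z + Zf p p' y z ^ 2) := by
    funext y z
    rw [Wf_eq (p := p) (p' := p')]
    ring
  rw [this, ex2_add, ex2_add, ex2_left_Z hp' (fun y => E0f q0 X p p' + lf p p' y),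
    ex2_right_Z hp]
  ring

theorem ex2_W_sq (hp : IsPr univ p) (hp' : IsPr univ p') (q0 X : ℤ) :
    ex2 p p' (fun y z => Wf q0 X y z ^ 2) = E0f q0 X p p' ^ 2 + ex p (fun y => lf p p' y ^ 2)
      + ex p' (fun z => lf p' p z ^ 2) + ex2 p p' (fun y z => Zf p p' y z ^ 2) := by
  have : (fun y z => Wf q0 X y z ^ 2)
      = fun y z => (E0f q0 X p p' ^ 2 + (2 * E0f q0 X p p' * lf p p' y + lf p p' y ^ 2))
        + ((2 * E0f q0 X p p' * lf p' p z + lf p' p z ^ 2)
        + (2 * (lf p p' y * lf p' p z)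
        + ((2 * (E0f q0 X p p' + lf p p' y)) * Zf p p' y z
        + ((2 * lf p' p z) * Zf p p' y z + Zf p p' y z ^ 2)))) := by
    funext y z
    rw [Wf_eq (p := p) (p' := p')]
    ring
  have a1 : ex2 p p' (fun _ _ => E0f q0 X p p' ^ 2) = E0f q0 X p p' ^ 2 := by
    rw [ex2_fst hp' (fun _ => E0f q0 X p p' ^ 2), ex_const hp]
  have a2 : ex2 p p' (fun y _ => 2 * E0f q0 X p p' * lf p p' y) = 0 := by
    rw [ex2_fst hp' (fun y => 2 * E0f q0 X p p' * lf p p' y), ex_const_mul, ex_lf hp, mul_zero]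
  have a3 : ex2 p p' (fun y _ => lf p p' y ^ 2) = ex p (fun y => lf p p' y ^ 2) :=
    ex2_fst hp' _
  have a4 : ex2 p p' (fun _ z => 2 * E0f q0 X p p' * lf p' p z) = 0 := by
    rw [ex2_snd hp (fun z => 2 * E0f q0 X p p' * lf p' p z), ex_const_mul, ex_lf hp', mul_zero]
  have a5 : ex2 p p' (fun _ z => lf p' p z ^ 2) = ex p' (fun z => lf p' p z ^ 2) :=
    ex2_snd hp _
  have a6 : ex2 p p' (fun y z => 2 * (lf p p' y * lf p' p z)) = 0 := by
    rw [ex2_const_mul, ex2_prod (lf p p') (lf p' p), ex_lf hp, zero_mul, mul_zero]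
  have a7 := ex2_left_Z (p := p) hp' (fun y => 2 * (E0f q0 X p p' + lf p p' y))
  have a8 := ex2_right_Z (p' := p') hp (fun z => 2 * lf p' p z)
  rw [this]
  simp only [ex2_add]
  rw [a1, a2, a3, a4, a5, a6, a7, a8]
  ring

theorem mean_sq_le {G : Finset (ι → Bool)} (hp : IsPr G p) (i : ι) : mean p i ^ 2 ≤ 1 := by
  have h1 : |mean p i| ≤ 1 := by
    unfold mean
    refine (abs_sum_le_sum_abs _ _).trans ?_
    rw [← hp.sum_eq]
    refine sum_le_sum fun y _ => ?_
    rw [abs_mul, abs_of_nonneg (hp.nonneg y)]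
    have : |sg (y i)| = 1 := by cases y i <;> simp [sg]
    rw [this, mul_one]
  have := abs_le.mp h1
  nlinarith

theorem sum_mean_sq_leM {G : Finset (ι → Bool)} (hp : IsPr G p) (R T : Finset ι) :
    ∑ i ∈ T, mean p i ^ 2 ≤ ∑ i ∈ Rᶜ, mean p i ^ 2 + (R.card : ℝ) := by
  calc ∑ i ∈ T, mean p i ^ 2 ≤ ∑ i, mean p i ^ 2 :=
        sum_le_sum_of_subset_of_nonneg (subset_univ _) (fun i _ _ => sq_nonneg _)
    _ = ∑ i ∈ Rᶜ, mean p i ^ 2 + ∑ i ∈ R, mean p i ^ 2 := by
        rw [add_comm]; exact (sum_add_sum_compl R _).symm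
    _ ≤ ∑ i ∈ Rᶜ, mean p i ^ 2 + ∑ i ∈ R, (1 : ℝ) := by
        gcongr with i _
        exact mean_sq_le hp i
    _ = _ := by simp

variable {k : ℝ} {R R' : Finset ι}

theorem ex_lf_sq (h : SubG k R p) : ex p (fun y => lf p p' y ^ 2) ≤ (∑ i ∈ Rᶜ, mean p' i ^ 2) / (2 * k) :=
  h.var (fun i => mean p' i)

theorem ex2_Z_sq_le (hk : 0 < k) (h : SubG k R p) (hp' : IsPr univ p') :
    ex2 p p' (fun y z => Zf p p' y z ^ 2) ≤ (Fintype.card ι : ℝ) / (2 * k) := by
  rw [ex2_right]
  have h1 : ∀ z, ex p (fun y => Zf p p' y z ^ 2) ≤ (1 / (2 * k)) * ∑ i, xi p' i z * xi p' i z := by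
    intro z
    have h2 : (fun y => Zf p p' y z ^ 2)
        = fun y => (∑ i, xi p' i z * (sg (y i) - mean p i)) ^ 2 := by
      funext y
      unfold Zf
      congr 1
      exact sum_congr rfl fun i _ => by unfold xi; ring
    rw [h2]
    refine (h.var (fun i => xi p' i z)).trans ?_
    rw [div_eq_mul_one_div, mul_comm]
    refine mul_le_mul_of_nonneg_left ?_ (by positivity)
    calc ∑ i ∈ Rᶜ, xi p' i z ^ 2 ≤ ∑ i, xi p' i z ^ 2 :=
          sum_le_sum_of_subset_of_nonneg (subset_univ _) (fun i _ _ => sq_nonneg _)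
      _ = _ := sum_congr rfl fun i _ => by ring
  have h3 := ex_mono hp' (f := fun z => ex p (fun y => Zf p p' y z ^ 2))
    (g := fun z => (1 / (2 * k)) * ∑ i, xi p' i z * xi p' i z) (fun z _ => h1 z)
  refine h3.trans ?_
  rw [ex_const_mul, ex_sum]
  have h4 : ∑ i, ex p' (fun z => xi p' i z * xi p' i z) ≤ (Fintype.card ι : ℝ) := by
    calc ∑ i, ex p' (fun z => xi p' i z * xi p' i z) ≤ ∑ _i : ι, (1 : ℝ) := by
          refine sum_le_sum fun i _ => ?_
          have := cov_self hp' i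
          rw [cov_eq_ex] at this
          rw [this]
          nlinarith [sq_nonneg (mean p' i)]
      _ = _ := by simp
  calc 1 / (2 * k) * ∑ i, ex p' (fun z => xi p' i z * xi p' i z)
      ≤ 1 / (2 * k) * (Fintype.card ι : ℝ) := mul_le_mul_of_nonneg_left h4 (by positivity)
    _ = _ := by ring

/-- lower bound of the fluctuation variance -/
theorem ex2_Z_sq_ge (h : SubG k R p) (h' : SubG k R' p') :
    (Fintype.card ι : ℝ) - (R.card : ℝ) - (R'.card : ℝ)
      - ∑ i ∈ Rᶜ, mean p i ^ 2 - ∑ i ∈ R'ᶜ, mean p' i ^ 2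
      - 1 / 2 * ∑ c ∈ (R ∪ R')ᶜ, (∑ i ∈ Rᶜ.erase c, cov p c i ^ 2 + ∑ i ∈ R'ᶜ.erase c, cov p' c i ^ 2)
      ≤ ex2 p p' (fun y z => Zf p p' y z ^ 2) := by
  rw [ex2_Z_sq]
  have h1 : ∑ i, ∑ j, cov p i j * cov p' i j = ∑ i ∈ (R ∪ R')ᶜ, ∑ j, cov p i j * cov p' i j := by
    symm
    refine sum_subset (subset_univ _) fun i _ hi => ?_
    refine sum_eq_zero fun j _ => ?_
    simp only [mem_compl, not_not, mem_union] at hi
    rcases hi with hi | hi
    · rw [cov_frozen h hi, zero_mul]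
    · rw [cov_frozen h' hi, mul_zero]
  rw [h1]
  have h2 : ∀ i ∈ (R ∪ R')ᶜ, 1 - mean p i ^ 2 - mean p' i ^ 2
      - 1 / 2 * (∑ j ∈ Rᶜ.erase i, cov p i j ^ 2 + ∑ j ∈ R'ᶜ.erase i, cov p' i j ^ 2)
      ≤ ∑ j, cov p i j * cov p' i j := by
    intro i hi
    rw [← add_sum_erase univ _ (mem_univ i), cov_self h.pr, cov_self h'.pr]
    have h3 : -(1 / 2 * (∑ j ∈ Rᶜ.erase i, cov p i j ^ 2 + ∑ j ∈ R'ᶜ.erase i, cov p' i j ^ 2))
        ≤ ∑ j ∈ univ.erase i, cov p i j * cov p' i j := by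
      have e1 : ∑ j ∈ Rᶜ.erase i, cov p i j ^ 2 = ∑ j ∈ univ.erase i, cov p i j ^ 2 := by
        refine sum_subset (erase_subset_erase _ (subset_univ _)) fun j hj hj' => ?_
        have : j ∈ R := by
          by_contra hjR
          exact hj' (mem_erase.mpr ⟨(mem_erase.mp hj).1, mem_compl.mpr hjR⟩)
        rw [cov_comm', cov_frozen h this]; ring
      have e2 : ∑ j ∈ R'ᶜ.erase i, cov p' i j ^ 2 = ∑ j ∈ univ.erase i, cov p' i j ^ 2 := by
        refine sum_subset (erase_subset_erase _ (subset_univ _)) fun j hj hj' => ?_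
        have : j ∈ R' := by
          by_contra hjR
          exact hj' (mem_erase.mpr ⟨(mem_erase.mp hj).1, mem_compl.mpr hjR⟩)
        rw [cov_comm', cov_frozen h' this]; ring
      rw [e1, e2, ← sum_add_distrib, mul_sum, ← sum_neg_distrib]
      refine sum_le_sum fun j _ => ?_
      nlinarith [sq_nonneg (cov p i j + cov p' i j)]
    have m1 := mean_sq_le h.pr i
    have m2 := mean_sq_le h'.pr i
    have m3 := sq_nonneg (mean p i)
    have m4 := sq_nonneg (mean p' i)
    nlinarith [mul_nonneg m3 m4]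
  have h4 := sum_le_sum h2
  refine le_trans ?_ h4
  rw [sum_sub_distrib, sum_sub_distrib, sum_sub_distrib, ← mul_sum]
  have h5 : ∑ i ∈ (R ∪ R')ᶜ, mean p i ^ 2 ≤ ∑ i ∈ Rᶜ, mean p i ^ 2 :=
    sum_le_sum_of_subset_of_nonneg (compl_subset_compl.mpr subset_union_left)
      (fun i _ _ => sq_nonneg _)
  have h6 : ∑ i ∈ (R ∪ R')ᶜ, mean p' i ^ 2 ≤ ∑ i ∈ R'ᶜ, mean p' i ^ 2 :=
    sum_le_sum_of_subset_of_nonneg (compl_subset_compl.mpr subset_union_right)
      (fun i _ _ => sq_nonneg _)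
  have h7 : (Fintype.card ι : ℝ) - (R.card : ℝ) - (R'.card : ℝ) ≤ ∑ _i ∈ (R ∪ R')ᶜ, (1 : ℝ) := by
    rw [sum_const, nsmul_eq_mul, mul_one, card_compl]
    have h8 : (R ∪ R').card ≤ R.card + R'.card := card_union_le _ _
    have h9 : (R ∪ R').card ≤ Fintype.card ι := card_le_univ _
    rw [Nat.cast_sub h9]
    have : ((R ∪ R').card : ℝ) ≤ (R.card : ℝ) + (R'.card : ℝ) := by exact_mod_cast h8
    linarith
  linarith

/-- exponential moment of the fluctuation of the overlap -/
theorem ex2_exp (hk : 0 < k) (h : SubG k R p) (h' : SubG k R' p') (s : ℝ) :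
    ex2 p p' (fun y z => Real.exp (s * (lf p p' y + lf p' p z + Zf p p' y z)))
      ≤ Real.exp (s ^ 2 * ((Fintype.card ι : ℝ) + ∑ i ∈ R'ᶜ, mean p i ^ 2) / (4 * k)) := by
  rw [ex2_right]
  have h1 : ∀ z, ex p (fun y => Real.exp (s * (lf p p' y + lf p' p z + Zf p p' y z)))
      ≤ Real.exp (s ^ 2 * (Fintype.card ι : ℝ) / (4 * k)) * Real.exp (s * lf p' p z) := by
    intro z
    have h2 : (fun y => Real.exp (s * (lf p p' y + lf p' p z + Zf p p' y z)))
        = fun y => Real.exp (s * lf p' p z)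
          * Real.exp (∑ i, (s * sg (z i)) * (sg (y i) - mean p i)) := by
      funext y
      rw [← Real.exp_add]
      congr 1
      unfold lf Zf xi
      have : ∑ i, (s * sg (z i)) * (sg (y i) - mean p i)
          = s * (∑ i, mean p' i * (sg (y i) - mean p i)
            + ∑ i, (sg (y i) - mean p i) * (sg (z i) - mean p' i)) := by
        rw [← sum_add_distrib, mul_sum]
        exact sum_congr rfl fun i _ => by ring
      rw [this]; ring
    rw [h2, ex_const_mul, mul_comm]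
    refine mul_le_mul_of_nonneg_right ?_ (Real.exp_pos _).le
    refine (h.mgf (fun i => s * sg (z i))).trans (Real.exp_le_exp.mpr ?_)
    refine div_le_div_of_nonneg_right ?_ (by positivity)
    calc ∑ i ∈ Rᶜ, (s * sg (z i)) ^ 2 = ∑ _i ∈ Rᶜ, s ^ 2 :=
          sum_congr rfl fun i _ => by rw [mul_pow, sg_sq, mul_one]
      _ ≤ ∑ _i : ι, s ^ 2 :=
          sum_le_sum_of_subset_of_nonneg (subset_univ _) (fun i _ _ => sq_nonneg _)
      _ = s ^ 2 * (Fintype.card ι : ℝ) := by simp [mul_comm]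
  have h3 := ex_mono h'.pr (f := fun z => ex p (fun y =>
    Real.exp (s * (lf p p' y + lf p' p z + Zf p p' y z))))
    (g := fun z => Real.exp (s ^ 2 * (Fintype.card ι : ℝ) / (4 * k)) * Real.exp (s * lf p' p z))
    (fun z _ => h1 z)
  refine h3.trans ?_
  rw [ex_const_mul]
  have h4 : ex p' (fun z => Real.exp (s * lf p' p z))
      ≤ Real.exp ((∑ i ∈ R'ᶜ, (s * mean p i) ^ 2) / (4 * k)) := by
    have := h'.mgf (fun i => s * mean p i)
    have e1 : (fun z => Real.exp (s * lf p' p z))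
        = fun z => Real.exp (∑ i, s * mean p i * (sg (z i) - mean p' i)) := by
      funext z
      unfold lf xi
      rw [mul_sum]
      congr 1
      exact sum_congr rfl fun i _ => by ring
    rw [e1]
    exact this
  refine (mul_le_mul_of_nonneg_left h4 (Real.exp_pos _).le).trans ?_
  rw [← Real.exp_add]
  refine Real.exp_le_exp.mpr (le_of_eq ?_)
  have : ∑ i ∈ R'ᶜ, (s * mean p i) ^ 2 = s ^ 2 * ∑ i ∈ R'ᶜ, mean p i ^ 2 := by
    rw [mul_sum]; exact sum_congr rfl fun i _ => by ring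
  rw [this]
  ring

theorem exp_num : Real.exp (1002 / 490) ≤ 31 / 4 := by
  have h1 : Real.exp (1002 / 490) = Real.exp 1 ^ 2 * Real.exp (22 / 490) := by
    rw [← Real.exp_nat_mul, ← Real.exp_add]
    norm_num
  have h2 : Real.exp 1 < 2.7182818286 := Real.exp_one_lt_d9
  have h3 : Real.exp (22 / 490 : ℝ) ≤ 1 / (1 - 22 / 490) := by
    have h4 := Real.add_one_le_exp (-(22 / 490) : ℝ)
    have h5 : Real.exp (22 / 490 : ℝ) * Real.exp (-(22 / 490)) = 1 := by
      rw [← Real.exp_add]; simp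
    rw [le_div_iff₀ (by norm_num)]
    have h6 := Real.exp_pos (22 / 490 : ℝ)
    nlinarith
  have h7 : Real.exp 1 ^ 2 ≤ 2.7182818286 ^ 2 := pow_le_pow_left₀ (Real.exp_pos _).le h2.le 2
  rw [h1]
  calc Real.exp 1 ^ 2 * Real.exp (22 / 490) ≤ 2.7182818286 ^ 2 * (1 / (1 - 22 / 490)) :=
        mul_le_mul h7 h3 (Real.exp_pos _).le (by norm_num)
    _ ≤ 31 / 4 := by norm_num

/-- pointwise inequality behind the drift estimate -/
theorem drift_pointwise {n s W E0 l Z : ℝ} (hn : 0 < n) (hs : s ^ 2 = 1) (hW : W = E0 + l + Z)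
    (hE : n ≤ s * E0) :
    W * Z - 21 / 200 * n ^ 2 * Real.exp (-(2 * s / n) * (l + Z)) - 10 * l ^ 2
      ≤ s * (|W| * Z) := by
  set T : ℝ := -(s * (l + Z)) / n with hT
  have hexp : -(2 * s / n) * (l + Z) = 2 * T := by rw [hT]; field_simp
  rw [hexp]
  have hnT : n * T = -(s * (l + Z)) := by rw [hT]; field_simp
  have hsW : s * W = s * E0 - n * T := by rw [hW, hnT]; ring
  have habs : |W| = |s * W| := by
    rw [abs_mul]
    have : |s| = 1 := by
      have h1 : |s| ^ 2 = 1 := by rw [sq_abs, hs]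
      have h2 := abs_nonneg s
      nlinarith
    rw [this, one_mul]
  have hexp0 := Real.exp_pos (2 * T)
  by_cases hneg : 0 ≤ s * W
  · rw [habs, abs_of_nonneg hneg]
    have : s * (s * W * Z) = W * Z := by
      calc s * (s * W * Z) = s ^ 2 * (W * Z) := by ring
        _ = W * Z := by rw [hs, one_mul]
    rw [this]
    nlinarith [mul_pos (pow_pos hn 2) hexp0, sq_nonneg l]
  · push Not at hneg
    rw [habs, abs_of_neg hneg]
    have e1 : s * (-(s * W) * Z) = W * Z - 2 * (W * Z) := by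
      calc s * (-(s * W) * Z) = -(s ^ 2) * (W * Z) := by ring
        _ = _ := by rw [hs]; ring
    rw [e1]
    -- `-(s W) = n T - s E0 ≤ n (T-1)`
    have hT1 : 1 < T := by
      by_contra hcon
      push Not at hcon
      nlinarith
    have hw0 : 0 < -(s * W) := by linarith
    have hw : -(s * W) ≤ n * (T - 1) := by rw [hsW]; nlinarith
    -- `s Z = -n T - s l`
    have hsZ : s * Z = -(n * T) - s * l := by rw [hnT]; ring
    have hWZ : W * Z = (s * W) * (s * Z) := by
      calc W * Z = s ^ 2 * (W * Z) := by rw [hs, one_mul]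
        _ = _ := by ring
    have hsl : (s * l) ^ 2 = l ^ 2 := by rw [mul_pow, hs, one_mul]
    have hWZ2 : W * Z = (-(s * W)) * (n * T) + (-(s * W)) * (s * l) := by rw [hWZ, hsZ]; ring
    have b1 : (-(s * W)) * (n * T) ≤ n * (T - 1) * (n * T) :=
      mul_le_mul_of_nonneg_right hw (by positivity)
    have b2 : (-(s * W)) * (s * l) ≤ 1 / 20 * (-(s * W)) ^ 2 + 5 * l ^ 2 := by
      rw [← hsl]
      nlinarith [sq_nonneg (-(s * W) - 10 * (s * l))]
    have b3 : (-(s * W)) ^ 2 ≤ (n * (T - 1)) ^ 2 := pow_le_pow_left₀ hw0.le hw 2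
    have b4 := tail_ineq hT1.le
    have b5 : (T - 1) ^ 2 ≤ (T - 1) * T := by nlinarith
    have b6 : 0 < n ^ 2 := by positivity
    have b7 : n ^ 2 * (T - 1) ^ 2 ≤ n ^ 2 * ((T - 1) * T) := mul_le_mul_of_nonneg_left b5 b6.le
    have b8 : n ^ 2 * ((T - 1) * T) ≤ n ^ 2 * (1 / 20 * Real.exp (2 * T)) :=
      mul_le_mul_of_nonneg_left b4 b6.le
    nlinarith

/-- the moment bound at a minimiser -/
theorem moment_main (h : SubG (49 / 100) R p) (h' : SubG (49 / 100) R' p')
    {N : ℝ} (hN : N = (Fintype.card ι : ℝ)) (hN0 : 0 < N) (q0 X : ℤ)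
    (hR : (R.card : ℝ) ≤ N / 1000) (hR' : (R'.card : ℝ) ≤ N / 1000)
    (hM : ∑ i ∈ Rᶜ, mean p i ^ 2 ≤ N / 1000) (hM' : ∑ i ∈ R'ᶜ, mean p' i ^ 2 ≤ N / 1000)
    (hoff : ∑ c ∈ (R ∪ R')ᶜ, (∑ i ∈ Rᶜ.erase c, cov p c i ^ 2 + ∑ i ∈ R'ᶜ.erase c, cov p' c i ^ 2)
      ≤ N / 200)
    (hpen : |ex2 p p' (fun y z => |Wf q0 X y z| * Zf p p' y z)| ≤ N / 125) :
    ex2 p p' (fun y z => Wf q0 X y z ^ 2) ≤ 21 / 10 * N := by
  have hp := h.pr
  have hp' := h'.pr
  have hk : (0 : ℝ) < 49 / 100 := by norm_num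
  -- linear parts
  have hl : ex p (fun y => lf p p' y ^ 2) ≤ N / 400 := by
    refine (ex_lf_sq (p' := p') h).trans ?_
    have := sum_mean_sq_leM hp' R' Rᶜ
    rw [div_le_iff₀ (by norm_num)]
    linarith
  have hl' : ex p' (fun z => lf p' p z ^ 2) ≤ N / 400 := by
    refine (ex_lf_sq (p' := p) h').trans ?_
    have := sum_mean_sq_leM hp R R'ᶜ
    rw [div_le_iff₀ (by norm_num)]
    linarith
  have hZle := ex2_Z_sq_le hk h hp'
  rw [← hN] at hZle
  have hZge := ex2_Z_sq_ge h h'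
  rw [← hN] at hZge
  -- the drift estimate
  have key : ∀ s : ℝ, s ^ 2 = 1 → Real.sqrt N ≤ s * E0f q0 X p p' → False := by
    intro s hs hE
    have hn : 0 < Real.sqrt N := Real.sqrt_pos.mpr hN0
    have hn2 : Real.sqrt N ^ 2 = N := Real.sq_sqrt hN0.le
    have hpt : ∀ y z, Wf q0 X y z * Zf p p' y z
        - 21 / 200 * N * Real.exp (-(2 * s / Real.sqrt N) * (lf p p' y + lf p' p z + Zf p p' y z))
        - 20 * (lf p p' y ^ 2 + lf p' p z ^ 2) ≤ s * (|Wf q0 X y z| * Zf p p' y z) := by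
      intro y z
      have := drift_pointwise (n := Real.sqrt N) (s := s) (W := Wf q0 X y z)
        (E0 := E0f q0 X p p') (l := lf p p' y + lf p' p z) (Z := Zf p p' y z) hn hs
        (by rw [Wf_eq (p := p) (p' := p')]; ring) hE
      rw [hn2] at this
      nlinarith [sq_nonneg (lf p p' y - lf p' p z)]
    have hint := ex2_mono hp.nonneg hp'.nonneg hpt
    have hLHS : ex2 p p' (fun y z => Wf q0 X y z * Zf p p' y z
        - 21 / 200 * N * Real.exp (-(2 * s / Real.sqrt N) * (lf p p' y + lf p' p z + Zf p p' y z))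
        - 20 * (lf p p' y ^ 2 + lf p' p z ^ 2))
        = ex2 p p' (fun y z => Zf p p' y z ^ 2)
          - 21 / 200 * N * ex2 p p' (fun y z =>
              Real.exp (-(2 * s / Real.sqrt N) * (lf p p' y + lf p' p z + Zf p p' y z)))
          - 20 * (ex p (fun y => lf p p' y ^ 2) + ex p' (fun z => lf p' p z ^ 2)) := by
      have e1 : (fun y z => Wf q0 X y z * Zf p p' y z
        - 21 / 200 * N * Real.exp (-(2 * s / Real.sqrt N) * (lf p p' y + lf p' p z + Zf p p' y z))
        - 20 * (lf p p' y ^ 2 + lf p' p z ^ 2))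
        = fun y z => Wf q0 X y z * Zf p p' y z
        + ((-(21 / 200 * N)) * Real.exp (-(2 * s / Real.sqrt N) * (lf p p' y + lf p' p z + Zf p p' y z))
        + ((-20) * lf p p' y ^ 2 + (-20) * lf p' p z ^ 2)) := by
        funext y z; ring
      rw [e1, ex2_add, ex2_add, ex2_add, ex2_W_Z hp hp', ex2_const_mul,
        ex2_fst hp' (fun y => (-20) * lf p p' y ^ 2), ex2_snd hp (fun z => (-20) * lf p' p z ^ 2),
        ex_const_mul, ex_const_mul]
      ring
    rw [hLHS, ex2_const_mul] at hint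
    have hexp := ex2_exp hk h h' (-(2 * s / Real.sqrt N))
    have hexp2 : Real.exp ((-(2 * s / Real.sqrt N)) ^ 2 * ((Fintype.card ι : ℝ)
        + ∑ i ∈ R'ᶜ, mean p i ^ 2) / (4 * (49 / 100))) ≤ 31 / 4 := by
      refine le_trans (Real.exp_le_exp.mpr ?_) exp_num
      have e1 : (-(2 * s / Real.sqrt N)) ^ 2 = 4 / N := by
        rw [neg_sq, div_pow, mul_pow, hs, hn2]; norm_num
      rw [e1, ← hN]
      have e2 := sum_mean_sq_leM hp R R'ᶜ
      rw [div_le_iff₀ (by norm_num)]
      have e3 : 4 / N * (N + ∑ i ∈ R'ᶜ, mean p i ^ 2) ≤ 4 / N * (N + N / 500) := by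
        refine mul_le_mul_of_nonneg_left ?_ (by positivity)
        linarith
      have e4 : 4 / N * (N + N / 500) = 4 * (501 / 500) := by field_simp; norm_num
      rw [e4] at e3
      refine e3.trans ?_
      norm_num
    have hexp3 := hexp.trans hexp2
    have habs := abs_le.mp hpen
    have hs1 : s = 1 ∨ s = -1 := by
      have : (s - 1) * (s + 1) = 0 := by linear_combination hs
      rcases mul_eq_zero.mp this with h1 | h1
      · left; linarith
      · right; linarith
    have hfin : s * ex2 p p' (fun y z => |Wf q0 X y z| * Zf p p' y z) ≤ N / 125 := by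
      rcases hs1 with h1 | h1 <;> rw [h1] <;> linarith
    have hprod : 21 / 200 * N * ex2 p p' (fun y z =>
        Real.exp (-(2 * s / Real.sqrt N) * (lf p p' y + lf p' p z + Zf p p' y z)))
        ≤ 21 / 200 * N * (31 / 4) := mul_le_mul_of_nonneg_left hexp3 (by positivity)
    linarith
  have hE1 : E0f q0 X p p' < Real.sqrt N := by
    by_contra hcon
    push Not at hcon
    exact key 1 (by norm_num) (by linarith)
  have hE2 : -Real.sqrt N < E0f q0 X p p' := by
    by_contra hcon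
    push Not at hcon
    exact key (-1) (by norm_num) (by linarith)
  have hEsq : E0f q0 X p p' ^ 2 ≤ N := by
    have hn2 : Real.sqrt N ^ 2 = N := Real.sq_sqrt hN0.le
    have hn : 0 < Real.sqrt N := Real.sqrt_pos.mpr hN0
    nlinarith
  rw [ex2_W_sq hp hp']
  have : N / (2 * (49 / 100)) ≤ 1021 / 1000 * N := by
    rw [div_le_iff₀ (by norm_num)]; linarith
  linarith

end

end Pool.Agent.MP3884c4
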