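import Pool.Agent.Lib.MP_3884c4_co.PairB
import Pool.Agent.Lib.MP_3884c4_co.Stmts

/-!
Pair lemma: assembly.
-/

set_option autoImplicit false

noncomputable section

namespace Pool.Agent.MP3884c4

open Finset

section

variable {ι : Type*} [Fintype ι] [DecidableEq ι]

/-- change of measure for a pair of vectors -/
theorem transfer {h h' : Finset (ι → Bool)} {p p' q q' : (ι → Bool) → ℝ}
    (hp : ∀ y, 0 ≤ p y) (hp' : ∀ y, 0 ≤ p' y) (hq : IsPr h q) (hq' : IsPr h' q')
    {κ κ' : ℝ} {B B' : Finset (ι → Bool)}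
    (hB : ∀ y ∈ h, y ∉ B → q y ≤ Real.exp κ * p y)
    (hB' : ∀ y ∈ h', y ∉ B' → q' y ≤ Real.exp κ' * p' y)
    (P : (ι → Bool) → (ι → Bool) → Prop) [∀ y z, Decidable (P y z)] :
    Real.exp (-(κ + κ')) * ((∑ y, ∑ z, if P y z then q y * q' z else 0)
      - ∑ y ∈ B, q y - ∑ y ∈ B', q' y)
      ≤ ∑ y ∈ h, ∑ z ∈ h', if P y z then p y * p' z else 0 := by
  have h1 : ∀ y z, (if P y z then q y * q' z else 0)
      ≤ (if y ∈ B then q y else 0) * q' z + q y * (if z ∈ B' then q' z else 0)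
        + Real.exp (κ + κ') * (if y ∈ h then (if z ∈ h' then (if P y z then p y * p' z else 0)
          else 0) else 0) := by
    intro y z
    have a1 : 0 ≤ (if y ∈ B then q y else 0) * q' z := by
      split_ifs
      · exact mul_nonneg (hq.nonneg y) (hq'.nonneg z)
      · rw [zero_mul]
    have a2 : 0 ≤ q y * (if z ∈ B' then q' z else 0) := by
      split_ifs
      · exact mul_nonneg (hq.nonneg y) (hq'.nonneg z)
      · rw [mul_zero]
    have a3 : 0 ≤ Real.exp (κ + κ') * (if y ∈ h then (if z ∈ h' then (if P y z then p y * p' z else 0)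
          else 0) else 0) := by
      refine mul_nonneg (Real.exp_pos _).le ?_
      split_ifs
      · exact mul_nonneg (hp y) (hp' z)
      all_goals exact le_rfl
    by_cases hP : P y z
    · rw [if_pos hP]
      by_cases hy : y ∈ h
      · by_cases hz : z ∈ h'
        · by_cases hyB : y ∈ B
          · rw [if_pos hyB] at a1 ⊢
            linarith
          · by_cases hzB : z ∈ B'
            · rw [if_pos hzB] at a2 ⊢
              linarith
            · have e1 := hB y hy hyB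
              have e2 := hB' z hz hzB
              have e3 : q y * q' z ≤ (Real.exp κ * p y) * (Real.exp κ' * p' z) :=
                mul_le_mul e1 e2 (hq'.nonneg z) (mul_nonneg (Real.exp_pos _).le (hp y))
              rw [if_pos hy, if_pos hz, if_pos hP]
              have e4 : (Real.exp κ * p y) * (Real.exp κ' * p' z)
                  = Real.exp (κ + κ') * (p y * p' z) := by rw [Real.exp_add]; ring
              linarith
        · rw [hq'.supp z hz, mul_zero, mul_zero]
          have : 0 ≤ q y * (if z ∈ B' then (0 : ℝ) else 0) := by split_ifs <;> simp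
          linarith
      · rw [hq.supp y hy, zero_mul, zero_mul]
        have : 0 ≤ (if y ∈ B then (0 : ℝ) else 0) * q' z := by split_ifs <;> simp
        linarith
    · rw [if_neg hP]
      linarith
  have h2 : (∑ y, ∑ z, if P y z then q y * q' z else 0)
      ≤ ∑ y ∈ B, q y + ∑ y ∈ B', q' y + Real.exp (κ + κ')
        * ∑ y ∈ h, ∑ z ∈ h', (if P y z then p y * p' z else 0) := by
    refine (sum_le_sum fun y _ => sum_le_sum fun z _ => h1 y z).trans (le_of_eq ?_)
    simp only [sum_add_distrib]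
    congr 1
    · congr 1
      · rw [← sum_mul_sum, hq'.sum_eq, mul_one, sum_ite_mem, univ_inter]
      · rw [← sum_mul_sum, hq.sum_eq, one_mul, sum_ite_mem, univ_inter]
    · simp only [← mul_sum]
      congr 1
      have inner : ∀ y, (∑ z, if y ∈ h then (if z ∈ h' then (if P y z then p y * p' z else 0)
          else 0) else 0) = if y ∈ h then ∑ z ∈ h', (if P y z then p y * p' z else 0) else 0 := by
        intro y
        split_ifs
        · rw [sum_ite_mem, univ_inter]
        · simp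
      rw [sum_congr rfl fun y _ => inner y, sum_ite_mem, univ_inter]
  have h3 : Real.exp (-(κ + κ')) * Real.exp (κ + κ') = 1 := by
    rw [← Real.exp_add]; simp
  have h4 := Real.exp_pos (-(κ + κ'))
  calc Real.exp (-(κ + κ')) * ((∑ y, ∑ z, if P y z then q y * q' z else 0)
      - ∑ y ∈ B, q y - ∑ y ∈ B', q' y)
      ≤ Real.exp (-(κ + κ')) * (Real.exp (κ + κ')
        * ∑ y ∈ h, ∑ z ∈ h', (if P y z then p y * p' z else 0)) := by
        refine mul_le_mul_of_nonneg_left ?_ h4.le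
        linarith
    _ = _ := by rw [← mul_assoc, h3, one_mul]

/-- Markov inequality for the linear part of the log-likelihood ratio -/
theorem markov_lin {R S : Finset ι} {q p : (ι → Bool) → ℝ} {nu : ℝ} (hnu : 0 ≤ nu) (hnu' : nu < 1 / 2)
    {G G' : Finset (ι → Bool)} (hqG : IsPr G q) (hpG : IsPr G' p)
    (hq : SubG (1 / 2 - nu) (R ∪ S) q) {u : ℝ} (hu : 0 < u) :
    ∑ y ∈ univ.filter (fun y => u < (1 - 2 * nu)
        * ∑ i ∈ (R ∪ S)ᶜ, (mean q i - mean p i) * (sg (y i) - mean q i)), q y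
      ≤ 4 * (Fintype.card ι : ℝ) / u ^ 2 := by
  set f : (ι → Bool) → ℝ := fun y => (1 - 2 * nu)
        * ∑ i ∈ (R ∪ S)ᶜ, (mean q i - mean p i) * (sg (y i) - mean q i) with hf
  set θ : ι → ℝ := fun i => if i ∈ (R ∪ S)ᶜ then (mean q i - mean p i) else 0 with hθ
  have hv := hq.var θ
  have e1 : ∀ y : ι → Bool, ∑ i ∈ (R ∪ S)ᶜ, (mean q i - mean p i) * (sg (y i) - mean q i)
      = ∑ i, θ i * (sg (y i) - mean q i) := by
    intro y
    have : ∀ i, θ i * (sg (y i) - mean q i)
        = if i ∈ (R ∪ S)ᶜ then (mean q i - mean p i) * (sg (y i) - mean q i) else 0 := by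
      intro i; simp only [hθ]; split_ifs <;> simp
    rw [sum_congr rfl fun i _ => this i, sum_ite_mem, univ_inter]
  have e2 : ∑ i ∈ (R ∪ S)ᶜ, θ i ^ 2 ≤ 4 * (Fintype.card ι : ℝ) := by
    calc ∑ i ∈ (R ∪ S)ᶜ, θ i ^ 2 ≤ ∑ i, θ i ^ 2 :=
          sum_le_sum_of_subset_of_nonneg (subset_univ _) (fun i _ _ => sq_nonneg _)
      _ ≤ ∑ _i : ι, (4 : ℝ) := by
          refine sum_le_sum fun i _ => ?_
          simp only [hθ]
          split_ifs
          · have a1 := mean_sq_le hqG i
            have a2 := mean_sq_le hpG i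
            nlinarith [sq_nonneg (mean q i + mean p i)]
          · norm_num
      _ = _ := by simp [mul_comm]
  have hk : 0 < 1 / 2 - nu := by linarith
  have e3 : ex q (fun y => f y ^ 2) ≤ 4 * (Fintype.card ι : ℝ) := by
    have e4 : (fun y => f y ^ 2)
        = fun y => (1 - 2 * nu) ^ 2 * (∑ i, θ i * (sg (y i) - mean q i)) ^ 2 := by
      funext y; simp only [hf]; rw [e1]; ring
    rw [e4, ex_const_mul]
    have e5 : (1 - 2 * nu) ^ 2 * ex q (fun y => (∑ i, θ i * (sg (y i) - mean q i)) ^ 2)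
        ≤ (1 - 2 * nu) ^ 2 * ((∑ i ∈ (R ∪ S)ᶜ, θ i ^ 2) / (2 * (1 / 2 - nu))) :=
      mul_le_mul_of_nonneg_left hv (sq_nonneg _)
    refine e5.trans ?_
    have e6 : (1 - 2 * nu) ^ 2 * ((∑ i ∈ (R ∪ S)ᶜ, θ i ^ 2) / (2 * (1 / 2 - nu)))
        = (1 - 2 * nu) * ∑ i ∈ (R ∪ S)ᶜ, θ i ^ 2 := by
      have : 2 * (1 / 2 - nu) = 1 - 2 * nu := by ring
      rw [this]
      have hne : 1 - 2 * nu ≠ 0 := by linarith
      field_simp
    rw [e6]
    have e7 : 0 ≤ ∑ i ∈ (R ∪ S)ᶜ, θ i ^ 2 := sum_nonneg fun i _ => sq_nonneg _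
    nlinarith
  rw [le_div_iff₀ (by positivity), sum_mul]
  refine le_trans ?_ e3
  unfold ex
  calc ∑ y ∈ univ.filter (fun y => u < f y), q y * u ^ 2
      ≤ ∑ y ∈ univ.filter (fun y => u < f y), q y * f y ^ 2 := by
        refine sum_le_sum fun y hy => ?_
        refine mul_le_mul_of_nonneg_left ?_ (hqG.nonneg y)
        exact pow_le_pow_left₀ hu.le (mem_filter.mp hy).2.le 2
    _ ≤ ∑ y, q y * f y ^ 2 :=
        sum_le_sum_of_subset_of_nonneg (subset_univ _)
          (fun y _ _ => mul_nonneg (hqG.nonneg y) (sq_nonneg _))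

/-- the reveal inequalities, summed over all common free coordinates -/
theorem reveal_sum {q0 X : ℤ} {r r' : ι → ℝ} {R R' S : Finset ι} {h h' : Finset (ι → Bool)}
    {a a' : ι → Bool} {p p' : (ι → Bool) → ℝ}
    (hp : IsPr (slice h S a) p) (hp' : IsPr (slice h' S a') p')
    (hsg : SubG (49 / 100) (R ∪ S) p) (hsg' : SubG (49 / 100) (R' ∪ S) p')
    (hmin : ∀ c, c ∉ R ∪ R' ∪ S → ∀ (b b' : ι → Bool) (q q' : (ι → Bool) → ℝ),
      IsPr (slice h (insert c S) b) q → IsPr (slice h' (insert c S) b') q' →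
      Th q0 X (1 / 1000) (1 / 100) r r' R R' S p p'
        ≤ Th q0 X (1 / 1000) (1 / 100) r r' R R' (insert c S) q q') :
    (∑ c ∈ (R ∪ S ∪ (R' ∪ S))ᶜ, (∑ i ∈ (R ∪ S)ᶜ.erase c, cov p c i ^ 2
      + ∑ i ∈ (R' ∪ S)ᶜ.erase c, cov p' c i ^ 2) ≤ (Fintype.card ι : ℝ) / 200) ∧
    |ex2 p p' (fun y z => |Wf q0 X y z| * Zf p p' y z)| ≤ (Fintype.card ι : ℝ) / 125 := by
  set T : Finset ι := (R ∪ S ∪ (R' ∪ S))ᶜ with hT
  have hTc : ∀ c ∈ T, c ∉ R ∪ R' ∪ S := by
    intro c hc
    rw [hT, mem_compl] at hc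
    intro hc'
    apply hc
    simp only [mem_union] at hc' ⊢
    tauto
  have hcardT : ((T.card : ℕ) : ℝ) ≤ (Fintype.card ι : ℝ) := by exact_mod_cast card_le_univ T
  -- the summed inequality
  set O : ℝ := ∑ c ∈ T, (∑ i ∈ (R ∪ S)ᶜ.erase c, cov p c i ^ 2
      + ∑ i ∈ (R' ∪ S)ᶜ.erase c, cov p' c i ^ 2) with hO
  have hO0 : 0 ≤ O := sum_nonneg fun c _ => add_nonneg (sum_nonneg fun i _ => sq_nonneg _)
    (sum_nonneg fun i _ => sq_nonneg _)
  have hpenT : ex2 p p' (fun y z => |Wf q0 X y z| * Zf p p' y z)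
      = ∑ c ∈ T, ∑ y, ∑ z, p y * p' z * (|((q0 + ip y z - X : ℤ) : ℝ)|
          * ((sg (y c) - mean p c) * (sg (z c) - mean p' c))) := by
    have e1 : (fun y z => |Wf q0 X y z| * Zf p p' y z)
        = fun y z => ∑ c, |Wf q0 X y z| * (xi p c y * xi p' c z) := by
      funext y z
      unfold Zf
      rw [mul_sum]
    rw [e1, ex2_sum]
    symm
    refine sum_subset (subset_univ _) fun c _ hc => ?_
    refine sum_eq_zero fun y _ => sum_eq_zero fun z _ => ?_
    rw [hT, mem_compl, not_not, mem_union] at hc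
    by_cases hy : p y = 0
    · rw [hy]; ring
    by_cases hz : p' z = 0
    · rw [hz]; ring
    rcases hc with hc | hc
    · have := xi_frozen hsg hc hy
      unfold xi at this
      rw [this]; ring
    · have := xi_frozen hsg' hc hz
      unfold xi at this
      rw [this]; ring
  have hmain : ∀ σ : ℝ, |σ| ≤ 1 → 0 ≤ 2 * (1 / 1000) * (T.card : ℝ) - (1 / 2 - 1 / 100) * O
      + σ / 4 * ex2 p p' (fun y z => |Wf q0 X y z| * Zf p p' y z) := by
    intro σ hσ
    have e1 : ∀ c ∈ T, 0 ≤ 2 * (1 / 1000 : ℝ)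
        - (1 / 2 - 1 / 100) * (∑ i ∈ ((R ∪ S)ᶜ).erase c, (cov p c i) ^ 2
          + ∑ i ∈ ((R' ∪ S)ᶜ).erase c, (cov p' c i) ^ 2)
        + σ / 4 * ∑ y, ∑ z, p y * p' z * (|((q0 + ip y z - X : ℤ) : ℝ)|
          * ((sg (y c) - mean p c) * (sg (z c) - mean p' c))) := fun c hc =>
      reveal_step (by norm_num) (by norm_num) (hTc c hc) hp hp' (hmin c (hTc c hc)) σ hσ
    have e2 := sum_nonneg e1
    rw [sum_add_distrib, sum_sub_distrib, ← mul_sum, ← mul_sum, ← mul_sum, sum_const,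
      nsmul_eq_mul] at e2
    rw [hpenT, hO]
    linarith
  have h0 := hmain 0 (by simp)
  have h1 := hmain 1 (by simp)
  have h2 := hmain (-1) (by simp)
  refine ⟨?_, ?_⟩
  · linarith
  · rw [abs_le]
    constructor <;> linarith

end

/-- value of the functional at the start -/
theorem Th_start {N : ℕ} {q0 X : ℤ} {R R' : Finset (Fin N)} {G G' h h' : Finset (Fin N → Bool)}
    {p p' : (Fin N → Bool) → ℝ} (hm : IsMin R G p) (hm' : IsMin R' G' p')
    (hh : h ⊆ G) (hh' : h' ⊆ G') {w : ℝ} (hw : 0 < w) (hw1 : w ≤ 1) (hN : 2 / w ^ 2 ≤ (N : ℝ))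
    (hE : |E0f q0 X p p'| ≤ w ^ 2 * N)
    (hmass : Real.exp (-(w ^ 2 * N)) ≤ ∑ y ∈ h, p y)
    (hmass' : Real.exp (-(w ^ 2 * N)) ≤ ∑ y ∈ h', p' y) :
    Th q0 X (1 / 1000) (1 / 100) (mean p) (mean p') R R' ∅ (condp h p) (condp h' p')
      ≤ Psi R p + Psi R' p' + 8 * w * N := by
  have hpos : 0 < ∑ y ∈ h, p y := lt_of_lt_of_le (Real.exp_pos _) hmass
  have hpos' : 0 < ∑ y ∈ h', p' y := lt_of_lt_of_le (Real.exp_pos _) hmass'
  have hL : -Real.log (∑ y ∈ h, p y) ≤ w ^ 2 * N := by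
    have := Real.log_le_log (Real.exp_pos _) hmass
    rw [Real.log_exp] at this
    linarith
  have hL' : -Real.log (∑ y ∈ h', p' y) ≤ w ^ 2 * N := by
    have := Real.log_le_log (Real.exp_pos _) hmass'
    rw [Real.log_exp] at this
    linarith
  obtain ⟨a1, a2⟩ := start_Psi hm hh hpos hL
  obtain ⟨b1, b2⟩ := start_Psi hm' hh' hpos' hL'
  have hpen := pen_start hm hm' hpos hpos' q0 X hw hL hL' hE
  rw [Fintype.card_fin] at hpen
  unfold Th
  rw [union_empty, union_empty]
  have hlog2 : Real.log 2 ≤ 1 := by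
    have := Real.log_two_lt_d9; linarith
  have hN0 : (0 : ℝ) ≤ N := Nat.cast_nonneg N
  have hw2 : w ^ 2 ≤ w := by nlinarith
  have e1 : 2 * ((Real.log 2 + w ^ 2 * (N : ℝ) / 2 + w ^ 2 * N) / w) ≤ 4 * w * N := by
    have e2 : 1 ≤ w ^ 2 * N / 2 := by
      rw [div_le_iff₀ (by positivity)] at hN
      linarith
    rw [mul_div_assoc', div_le_iff₀ hw]
    nlinarith
  have e3 : w ^ 2 * N ≤ w * N := mul_le_mul_of_nonneg_right hw2 hN0
  simp only [card_empty, Nat.cast_zero, mul_zero, add_zero]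
  have e4 : 0 ≤ w * N := mul_nonneg hw.le hN0
  nlinarith

/-- pair lemma from the exact edge lemma -/
theorem pair (hEdge : EdgeStmt) : PLStmt := by
  obtain ⟨d8, hd8, c, hc, N0, hEdge⟩ := hEdge
  set η : ℝ := min (d8 / 32) (1 / 40) with hη
  have hη0 : 0 < η := lt_min (by positivity) (by norm_num)
  have hη1 : η ≤ d8 / 32 := min_le_left _ _
  have hη2 : η ≤ 1 / 40 := min_le_right _ _
  set d0 : ℝ := min (min (1 / 4000) (d8 / 32)) (η ^ 4 / 36) with hd0
  have hd00 : 0 < d0 := lt_min (lt_min (by norm_num) (by positivity)) (by positivity)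
  have hd01 : d0 ≤ 1 / 4000 := (min_le_left _ _).trans (min_le_left _ _)
  have hd02 : d0 ≤ d8 / 32 := (min_le_left _ _).trans (min_le_right _ _)
  have hd03 : d0 ≤ η ^ 4 / 36 := min_le_right _ _
  refine ⟨d0, hd00, fun z2 hz2 hz2' => ?_⟩
  set w : ℝ := z2 / 10 ^ 7 with hw
  have hw0 : 0 < w := by positivity
  have hz21 : z2 ≤ 1 := by linarith
  have hw1 : w ≤ 1 := by
    rw [hw, div_le_one (by norm_num)]; linarith
  -- threshold
  set T : ℝ := 1 + 800 / z2 + 2 / w ^ 2 + 64 / z2 + 16 / d8 + 16384 / (c * z2 ^ 2) + 4 / (c * z2) with hT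
  have hTpos : ∀ x : ℝ, T ≤ x → 1 ≤ x ∧ 800 / z2 ≤ x ∧ 2 / w ^ 2 ≤ x ∧ 64 / z2 ≤ x ∧ 16 / d8 ≤ x ∧
      16384 / (c * z2 ^ 2) ≤ x ∧ 4 / (c * z2) ≤ x := by
    intro x hx
    have t1 : 0 ≤ 800 / z2 := by positivity
    have t2 : 0 ≤ 2 / w ^ 2 := by positivity
    have t3 : 0 ≤ 64 / z2 := by positivity
    have t4 : 0 ≤ 16 / d8 := by positivity
    have t5 : 0 ≤ 16384 / (c * z2 ^ 2) := by positivity
    have t6 : 0 ≤ 4 / (c * z2) := by positivity
    rw [hT] at hx
    refine ⟨?_, ?_, ?_, ?_, ?_, ?_, ?_⟩ <;> linarith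
  refine ⟨w ^ 2, by positivity, max N0 (⌈T ^ 2⌉₊ + 1), fun N hN => ?_⟩
  intro q0 X R R' G G' h h' p p' hm hm' hPsi hPsi' hR hR' hE hdiv hh hh' hmass hmass'
  have hN0 : N0 ≤ N := (le_max_left _ _).trans hN
  have hNT : T ^ 2 ≤ (N : ℝ) := by
    have h1 : ⌈T ^ 2⌉₊ + 1 ≤ N := (le_max_right _ _).trans hN
    have h2 : (⌈T ^ 2⌉₊ : ℝ) + 1 ≤ (N : ℝ) := by exact_mod_cast h1
    have h3 := Nat.le_ceil (T ^ 2)
    linarith
  set x : ℝ := Real.sqrt N with hx
  have hT1 : 1 ≤ T := by
    rw [hT]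
    have t1 : 0 ≤ 800 / z2 := by positivity
    have t2 : 0 ≤ 2 / w ^ 2 := by positivity
    have t3 : 0 ≤ 64 / z2 := by positivity
    have t4 : 0 ≤ 16 / d8 := by positivity
    have t5 : 0 ≤ 16384 / (c * z2 ^ 2) := by positivity
    have t6 : 0 ≤ 4 / (c * z2) := by positivity
    linarith
  have hTx : T ≤ x := by
    rw [hx]
    exact Real.le_sqrt_of_sq_le hNT
  have hNnn : (0 : ℝ) ≤ N := Nat.cast_nonneg N
  have hxx : x ^ 2 = (N : ℝ) := Real.sq_sqrt hNnn
  obtain ⟨x1, x2, x3, x4, x5, x6, x7⟩ := hTpos x hTx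
  have hx0 : 0 < x := by linarith
  have hNpos : (0 : ℝ) < N := by rw [← hxx]; positivity
  have hcard : (Fintype.card (Fin N) : ℝ) = (N : ℝ) := by rw [Fintype.card_fin]
  -- consequences of the threshold
  have y1 : 4 ≤ z2 / 200 * N := by
    rw [div_le_iff₀ hz2] at x2
    rw [← hxx]
    linarith only [mul_nonneg (sub_nonneg.mpr x2) hx0.le, x1]
  have y2 : 2 / w ^ 2 ≤ (N : ℝ) := by
    rw [← hxx]; linarith only [mul_nonneg hx0.le (sub_nonneg.mpr x1), x3]
  have y3 : 2 * x ≤ z2 / 32 * N := by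
    rw [div_le_iff₀ hz2] at x4
    rw [← hxx]
    linarith only [mul_nonneg (sub_nonneg.mpr x4) hx0.le]
  have y4 : 2 * x ≤ d8 / 8 * N := by
    rw [div_le_iff₀ hd8] at x5
    rw [← hxx]
    linarith only [mul_nonneg (sub_nonneg.mpr x5) hx0.le]
  -- the minimiser
  have hpos : 0 < ∑ y ∈ h, p y := lt_of_lt_of_le (Real.exp_pos _) hmass
  have hpos' : 0 < ∑ y ∈ h', p' y := lt_of_lt_of_le (Real.exp_pos _) hmass'
  have hne : h.Nonempty := by
    by_contra hcon
    rw [not_nonempty_iff_eq_empty] at hcon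
    rw [hcon] at hpos; simp at hpos
  have hne' : h'.Nonempty := by
    by_contra hcon
    rw [not_nonempty_iff_eq_empty] at hcon
    rw [hcon] at hpos'; simp at hpos'
  obtain ⟨S, a, a', q, q', hSd, hSc, hq, hq', hmin⟩ := exists_Th_min q0 X (1 / 1000) (1 / 100)
    (mean p) (mean p') R R' hne hne' ⌊z2 / 200 * (N : ℝ)⌋₊
  have hstart := Th_start hm hm' hh hh' hw0 hw1 y2 (q0 := q0) (X := X) (by
    unfold E0f; exact hE) hmass hmass'
  have hle : Th q0 X (1 / 1000) (1 / 100) (mean p) (mean p') R R' S q q'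
      ≤ Psi R p + Psi R' p' + 8 * w * N := by
    refine (hmin ∅ (fun _ => true) (fun _ => true) _ _ (by simp) (by simp) ?_ ?_).trans hstart
    · rw [slice_empty]; exact isPr_condp hm.pr hpos
    · rw [slice_empty]; exact isPr_condp hm'.pr hpos'
  have hpen0 : 0 ≤ pen q0 X q q' := by
    unfold pen
    exact sum_nonneg fun y _ => sum_nonneg fun z _ =>
      mul_nonneg (mul_nonneg (hq.nonneg y) (hq'.nonneg z)) (abs_nonneg _)
  set D : ℝ := ∑ i ∈ (R ∪ S)ᶜ, (mean q i - mean p i) ^ 2 with hD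
  set D' : ℝ := ∑ i ∈ (R' ∪ S)ᶜ, (mean q' i - mean p' i) ^ 2 with hD'
  have hD0 : 0 ≤ D := sum_nonneg fun i _ => sq_nonneg _
  have hD0' : 0 ≤ D' := sum_nonneg fun i _ => sq_nonneg _
  have hTh : Psi (R ∪ S) q + Psi (R' ∪ S) q' + pen q0 X q q' + 1 / 100 * (D + D')
      + 2 * (1 / 1000) * (S.card : ℝ) ≤ Psi R p + Psi R' p' + 8 * w * N := hle
  have hS1 : Disjoint S R := (disjoint_union_right.mp hSd).1
  have hS2 : Disjoint S R' := (disjoint_union_right.mp hSd).2
  have hScard : (S.card : ℝ) ≤ z2 / 200 * N := by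
    have h1 : (S.card : ℝ) ≤ (⌊z2 / 200 * (N : ℝ)⌋₊ : ℝ) := by exact_mod_cast hSc
    exact h1.trans (Nat.floor_le (by positivity))
  by_cases hbig : z2 / 400 * N ≤ (S.card : ℝ)
  · -- improvement
    right
    by_contra hcon
    rw [not_or] at hcon
    have i1 : Psi R p - z2 / 1600000 * N < Psi (R ∪ S) q + 1 / 2000 * (S.card : ℝ) := by
      by_contra hc1
      push Not at hc1
      exact hcon.1 ⟨S, a, q, hSd, hq, hc1⟩
    have i2 : Psi R' p' - z2 / 1600000 * N < Psi (R' ∪ S) q' + 1 / 2000 * (S.card : ℝ) := by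
      by_contra hc1
      push Not at hc1
      exact hcon.2 ⟨S, a', q', hSd, hq', hc1⟩
    have i3 : 8 * w * N = 8 / 10 ^ 7 * (z2 * N) := by rw [hw]; ring
    have i4 : 0 < z2 * N := by positivity
    linarith only [i1, i2, i3, i4, hTh, hpen0, hD0, hD0', hbig]
  · push Not at hbig
    left
    -- the number of reveals is not maximal
    have hroom : S.card + 1 ≤ ⌊z2 / 200 * (N : ℝ)⌋₊ := by
      refine Nat.le_floor ?_
      push_cast
      linarith only [hbig, y1]
    have hfr : Frozen (R ∪ S) (slice h S a) := frozen_slice hm.frozen hh a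
    have hfr' : Frozen (R' ∪ S) (slice h' S a') := frozen_slice hm'.frozen hh' a'
    have hfoc := Th_foc (q0 := q0) (X := X) (lam := 1 / 1000) (nu := 1 / 100) (r := mean p)
      (r' := mean p') (R := R) (R' := R') (S := S) (h := h) (a := a) (p := q) (p' := q')
      (by norm_num) hfr hq (fun q1 hq1 => hmin S a a' q1 q' hSd hSc hq1 hq')
    have hfoc' := Th_foc (q0 := q0) (X := X) (lam := 1 / 1000) (nu := 1 / 100) (r := mean p')
      (r' := mean p) (R := R') (R' := R) (S := S) (h := h') (a := a') (p := q') (p' := q)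
      (by norm_num) hfr' hq' (fun q1 hq1 => by
        rw [Th_swap q0 X _ _ (mean p') (mean p), Th_swap q0 X _ _ (mean p') (mean p) R' R S q1 q]
        exact hmin S a a' q q1 hSd hSc hq hq1)
    obtain ⟨hsg0, htilt⟩ := hfoc
    obtain ⟨hsg0', htilt'⟩ := hfoc'
    have hk : (1 / 2 - 1 / 100 : ℝ) = 49 / 100 := by norm_num
    have hsg : SubG (49 / 100) (R ∪ S) q := by rw [← hk]; exact hsg0
    have hsg' : SubG (49 / 100) (R' ∪ S) q' := by rw [← hk]; exact hsg0'
    have hqu : IsPr univ q := hq.mono (subset_univ _)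
    have hqu' : IsPr univ q' := hq'.mono (subset_univ _)
    -- potentials
    have hPn : 0 ≤ Psi (R ∪ S) q := Psi_nonneg hq hfr
    have hPn' : 0 ≤ Psi (R' ∪ S) q' := Psi_nonneg hq' hfr'
    have hwz : 8 * w * N ≤ d0 * N := by
      have : 8 * w ≤ d0 := by
        have : 8 * w = 8 / 10 ^ 7 * z2 := by rw [hw]; ring
        rw [this]; linarith only [hz2, hz2']
      exact mul_le_mul_of_nonneg_right this hNnn
    have hSnn : (0 : ℝ) ≤ (S.card : ℝ) := Nat.cast_nonneg _
    have hPs : Psi (R ∪ S) q ≤ 3 * d0 * N := by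
      linarith only [hTh, hPn', hpen0, hD0, hD0', hPsi, hPsi', hwz, hSnn]
    have hPs' : Psi (R' ∪ S) q' ≤ 3 * d0 * N := by
      linarith only [hTh, hPn, hpen0, hD0, hD0', hPsi, hPsi', hwz, hSnn]
    have hsqb : ∀ (T0 : Finset (Fin N)) (G0 : Finset (Fin N → Bool)) (p0 : (Fin N → Bool) → ℝ),
        IsPr G0 p0 → Frozen T0 G0 → Psi T0 p0 ≤ 3 * d0 * N →
        ∑ i ∈ T0ᶜ, mean p0 i ^ 2 ≤ η ^ 2 * N := by
      intro T0 G0 p0 h1 h2 h3
      have h4 := Psi_lower h1 h2
      rw [hcard] at h4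
      have h5 : (∑ i ∈ T0ᶜ, mean p0 i ^ 2) ^ 2 ≤ (η ^ 2 * N) ^ 2 := by
        refine h4.trans ?_
        have h6 : 12 * (N : ℝ) * Psi T0 p0 ≤ 12 * (N : ℝ) * (3 * d0 * N) :=
          mul_le_mul_of_nonneg_left h3 (by positivity)
        refine h6.trans ?_
        have h7 : 36 * d0 ≤ η ^ 4 := by
          rw [le_div_iff₀ (by norm_num)] at hd03; linarith
        have h8 : 0 ≤ (N : ℝ) ^ 2 := by positivity
        linarith only [mul_le_mul_of_nonneg_right h7 h8]
      have h9 := abs_le_of_sq_le_sq h5 (by positivity)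
      exact (le_abs_self _).trans h9
    have hMq := hsqb (R ∪ S) _ q hq hfr hPs
    have hMq' := hsqb (R' ∪ S) _ q' hq' hfr' hPs'
    have hd0N : 0 ≤ d0 * N := mul_nonneg hd00.le hNnn
    have hMp := hsqb R _ p hm.pr hm.frozen (by linarith only [hPsi, hd0N])
    have hMp' := hsqb R' _ p' hm'.pr hm'.frozen (by linarith only [hPsi', hd0N])
    have hη3 : η ^ 2 * N ≤ N / 1000 := by
      have : η ^ 2 ≤ 1 / 1000 := by nlinarith only [hη0, hη2]
      linarith only [mul_le_mul_of_nonneg_right this hNnn]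
    have hz2N : z2 * N ≤ d0 * N := mul_le_mul_of_nonneg_right hz2' hNnn
    have hRS : ((R ∪ S).card : ℝ) ≤ 2 * d0 * N := by
      have h1 : ((R ∪ S).card : ℝ) ≤ (R.card : ℝ) + (S.card : ℝ) := by
        exact_mod_cast card_union_le R S
      linarith only [h1, hz2N, hR, hScard, hd0N]
    have hRS' : ((R' ∪ S).card : ℝ) ≤ 2 * d0 * N := by
      have h1 : ((R' ∪ S).card : ℝ) ≤ (R'.card : ℝ) + (S.card : ℝ) := by
        exact_mod_cast card_union_le R' S
      linarith only [h1, hz2N, hR', hScard, hd0N]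
    have h2d0 : 2 * d0 * N ≤ N / 1000 := by
      linarith only [mul_le_mul_of_nonneg_right hd01 hNnn, hNnn]
    -- reveal inequalities
    obtain ⟨hoff, hdrift⟩ := reveal_sum (q0 := q0) (X := X) (r := mean p) (r' := mean p')
      (R := R) (R' := R') (S := S) (h := h) (h' := h') (a := a) (a' := a') (p := q) (p' := q')
      hq hq' hsg hsg' (fun c hc b b' q1 q1' hq1 hq1' => by
        have hcS : c ∉ S := fun hcs => hc (mem_union_right _ hcs)
        have hcR : c ∉ R ∪ R' := fun hcs => hc (mem_union_left _ hcs)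
        refine hmin (insert c S) b b' q1 q1' ?_ ?_ hq1 hq1'
        · rw [disjoint_insert_left]; exact ⟨hcR, hSd⟩
        · rw [card_insert_of_notMem hcS]; exact hroom)
    rw [hcard] at hoff hdrift
    have hmom := moment_main hsg hsg' hcard.symm hNpos q0 X (hRS.trans h2d0) (hRS'.trans h2d0)
      (hMq.trans hη3) (hMq'.trans hη3) hoff hdrift
    -- the penalty is `O(√N)`
    have hpenx : pen q0 X q q' ≤ 2 * x := by
      have h1 : pen q0 X q q' ≤ ex2 q q' (fun y z => x / 2 + (1 / (2 * x)) * Wf q0 X y z ^ 2) := by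
        rw [pen_eq_ex2]
        refine ex2_mono hqu.nonneg hqu'.nonneg fun y z => ?_
        have h2 : |Wf q0 X y z| * (2 * x) ≤ (x / 2 + (1 / (2 * x)) * Wf q0 X y z ^ 2) * (2 * x) := by
          have h3 : (x / 2 + (1 / (2 * x)) * Wf q0 X y z ^ 2) * (2 * x)
              = x ^ 2 + Wf q0 X y z ^ 2 := by field_simp
          rw [h3]
          nlinarith only [sq_nonneg (|Wf q0 X y z| - x), sq_abs (Wf q0 X y z)]
        exact le_of_mul_le_mul_right h2 (by positivity)
      rw [ex2_add, ex2_fst hqu' (fun _ => x / 2), ex_const hqu, ex2_const_mul] at h1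
      have h4 : 1 / (2 * x) * ex2 q q' (fun y z => Wf q0 X y z ^ 2) ≤ 1 / (2 * x) * (21 / 10 * x ^ 2) := by
        refine mul_le_mul_of_nonneg_left ?_ (by positivity)
        rw [hxx]; exact hmom
      have h5 : 1 / (2 * x) * (21 / 10 * x ^ 2) = 21 / 20 * x := by field_simp; norm_num
      rw [h5] at h4
      linarith only [h1, h4, hx0]
    -- densities
    have hrp : ∑ i ∈ (R ∪ S)ᶜ, mean p i ^ 2 ≤ η ^ 2 * N := by
      refine (sum_le_sum_of_subset_of_nonneg ?_ (fun i _ _ => sq_nonneg _)).trans hMp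
      exact compl_subset_compl.mpr subset_union_left
    have hrp' : ∑ i ∈ (R' ∪ S)ᶜ, mean p' i ^ 2 ≤ η ^ 2 * N := by
      refine (sum_le_sum_of_subset_of_nonneg ?_ (fun i _ _ => sq_nonneg _)).trans hMp'
      exact compl_subset_compl.mpr subset_union_left
    have hnum : 3 * d0 * N + η ^ 2 * N + 2 * d0 * N + 2 * x + 4 * η * N ≤ d8 * N := by
      have h1 : η ^ 2 ≤ η := by nlinarith only [hη0, hη2]
      linarith only [mul_le_mul_of_nonneg_right hd02 hNnn, mul_le_mul_of_nonneg_right hη1 hNnn,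
        mul_le_mul_of_nonneg_right h1 hNnn, y4, mul_nonneg hd8.le hNnn]
    have hden : ∀ y, 2 ^ N * q y ≤ Real.exp (d8 * N) := by
      intro y
      have h1 := density_le (by norm_num) (by norm_num) hq htilt hqu' (N := (N : ℝ)) hcard.symm
        hη0.le hMq hrp y
      rw [Fintype.card_fin] at h1
      exact h1.trans (Real.exp_le_exp.mpr (by linarith only [hPs, hRS, hpenx, hnum]))
    have hden' : ∀ y, 2 ^ N * q' y ≤ Real.exp (d8 * N) := by
      intro y
      have h1 := density_le (by norm_num) (by norm_num) hq' htilt' hqu (N := (N : ℝ)) hcard.symm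
        hη0.le hMq' hrp' y
      rw [Fintype.card_fin, pen_comm q0 X q' q] at h1
      exact h1.trans (Real.exp_le_exp.mpr (by linarith only [hPs', hRS', hpenx, hnum]))
    -- exact edge lemma
    have hsup : ∀ y, q y ≠ 0 → y ∈ slice h S a := fun y hy => by
      by_contra hcon; exact hy (hq.supp y hcon)
    have hsup' : ∀ y, q' y ≠ 0 → y ∈ slice h' S a' := fun y hy => by
      by_contra hcon; exact hy (hq'.supp y hcon)
    have hedge := hEdge N hN0 q0 X q q' hqu hqu' hden hden'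
      (fun y z hy hz => hdiv y (hh (slice_subset (hsup y hy))) z (hh' (slice_subset (hsup' z hz))))
      hmom
    -- relative entropies
    have hk1 := kl_le hm hh hS1 hq
    have hk2 := kl_le hm' hh' hS2 hq'
    have hg1 := Psi_ge hm hh hS1 hq
    have hg2 := Psi_ge hm' hh' hS2 hq'
    have hlog2 : Real.log 2 < 0.7 := by
      have := Real.log_two_lt_d9; linarith
    have hls : Real.log 2 * (S.card : ℝ) ≤ 0.7 * (S.card : ℝ) :=
      mul_le_mul_of_nonneg_right hlog2.le hSnn
    have hkl : kl q p + kl q' p' ≤ z2 / 16 * N := by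
      have i3 : w * N = 1 / 10 ^ 7 * (z2 * N) := by rw [hw]; ring
      have i4 : 0 < z2 * N := by positivity
      have i5 : (S.card : ℝ) ≤ 1 / 400 * (z2 * N) := by linarith
      have i6 : D + D' ≤ 800 * (w * N) + 40 * (S.card : ℝ) := by
        linarith only [hTh, hg1, hg2, hls, hpen0, hSnn]
      linarith only [hk1, hk2, hTh, hls, i6, i3, i5, i4, hpen0, hD0, hD0', hSnn]
    -- bad sets
    set u : ℝ := z2 / 32 * N with hu
    have hu0 : 0 < u := by positivity
    set B : Finset (Fin N → Bool) := univ.filter (fun y => u < (1 - 2 * (1 / 100 : ℝ))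
        * ∑ i ∈ (R ∪ S)ᶜ, (mean q i - mean p i) * (sg (y i) - mean q i)) with hB
    set B' : Finset (Fin N → Bool) := univ.filter (fun y => u < (1 - 2 * (1 / 100 : ℝ))
        * ∑ i ∈ (R' ∪ S)ᶜ, (mean q' i - mean p' i) * (sg (y i) - mean q' i)) with hB'
    have hmB := markov_lin (nu := 1 / 100) (by norm_num) (by norm_num) hq hm.pr hsg0 hu0
    have hmB' := markov_lin (nu := 1 / 100) (by norm_num) (by norm_num) hq' hm'.pr hsg0' hu0
    rw [← hB, hcard] at hmB
    rw [← hB', hcard] at hmB'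
    have hr1 : ∀ y ∈ slice h S a, y ∉ B → q y ≤ Real.exp (kl q p + 2 * x + u) * p y := by
      intro y hy hyB
      have h1 := ratio_le hm hh hS1 hq htilt hqu' hy
      have h2 : (1 - 2 * (1 / 100 : ℝ))
        * ∑ i ∈ (R ∪ S)ᶜ, (mean q i - mean p i) * (sg (y i) - mean q i) ≤ u := by
        by_contra hcon
        push Not at hcon
        exact hyB (by rw [hB, mem_filter]; exact ⟨mem_univ _, hcon⟩)
      have hqy := (htilt y hy).1
      have hpy := (hm.tilt (hh (slice_subset hy))).1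
      have h3 : Real.log (q y) ≤ (kl q p + 2 * x + u) + Real.log (p y) := by linarith
      calc q y = Real.exp (Real.log (q y)) := (Real.exp_log hqy).symm
        _ ≤ Real.exp ((kl q p + 2 * x + u) + Real.log (p y)) := Real.exp_le_exp.mpr h3
        _ = _ := by rw [Real.exp_add, Real.exp_log hpy]
    have hr2 : ∀ y ∈ slice h' S a', y ∉ B' → q' y ≤ Real.exp (kl q' p' + 2 * x + u) * p' y := by
      intro y hy hyB
      have h1 := ratio_le hm' hh' hS2 hq' htilt' hqu hy
      rw [pen_comm q0 X q' q] at h1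
      have h2 : (1 - 2 * (1 / 100 : ℝ))
        * ∑ i ∈ (R' ∪ S)ᶜ, (mean q' i - mean p' i) * (sg (y i) - mean q' i) ≤ u := by
        by_contra hcon
        push Not at hcon
        exact hyB (by rw [hB', mem_filter]; exact ⟨mem_univ _, hcon⟩)
      have hqy := (htilt' y hy).1
      have hpy := (hm'.tilt (hh' (slice_subset hy))).1
      have h3 : Real.log (q' y) ≤ (kl q' p' + 2 * x + u) + Real.log (p' y) := by linarith
      calc q' y = Real.exp (Real.log (q' y)) := (Real.exp_log hqy).symm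
        _ ≤ Real.exp ((kl q' p' + 2 * x + u) + Real.log (p' y)) := Real.exp_le_exp.mpr h3
        _ = _ := by rw [Real.exp_add, Real.exp_log hpy]
    have htr := transfer hm.pr.nonneg hm'.pr.nonneg hq hq' hr1 hr2
      (fun y z => q0 + ip y z = X)
    -- numbers
    have hmass1 : 4 * (N : ℝ) / u ^ 2 ≤ c / (4 * x) := by
      rw [div_le_div_iff₀ (by positivity) (by positivity)]
      rw [div_le_iff₀ (by positivity)] at x6
      rw [hu, ← hxx]
      have : c * (z2 / 32 * x ^ 2) ^ 2 = (c * z2 ^ 2 * x) * (x ^ 3 / 1024) := by ring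
      rw [this]
      have h2 : 16384 * (x ^ 3 / 1024) ≤ (c * z2 ^ 2 * x) * (x ^ 3 / 1024) :=
        mul_le_mul_of_nonneg_right (by linarith only [x6]) (by positivity)
      linarith only [h2]
    have hmid : c / (2 * x) ≤ (∑ y, ∑ z, if q0 + ip y z = X then q y * q' z else 0)
        - ∑ y ∈ B, q y - ∑ y ∈ B', q' y := by
      have h1 : c / (2 * x) = c / x - c / (4 * x) - c / (4 * x) := by field_simp; norm_num
      rw [h1]
      have h2 : c / x ≤ ∑ y, ∑ z, if q0 + ip y z = X then q y * q' z else 0 := hedge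
      linarith only [h2, hmB, hmB', hmass1]
    have hexpo : (kl q p + 2 * x + u) + (kl q' p' + 2 * x + u) ≤ z2 / 4 * N := by
      linarith only [hkl, y3, hu, mul_pos hz2 hNpos]
    have hfin1 : Real.exp (-(z2 / 4 * N)) * (c / (2 * x))
        ≤ ∑ y ∈ slice h S a, ∑ z ∈ slice h' S a', if q0 + ip y z = X then p y * p' z else 0 := by
      refine le_trans ?_ htr
      refine mul_le_mul (Real.exp_le_exp.mpr (by linarith only [hexpo])) hmid (by positivity)
        (Real.exp_pos _).le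
    have hfin2 : Real.exp (-(z2 * N)) ≤ Real.exp (-(z2 / 4 * N)) * (c / (2 * x)) := by
      have h1 : Real.exp (-(z2 * N)) = Real.exp (-(z2 / 4 * N)) * Real.exp (-(3 / 4 * z2 * N)) := by
        rw [← Real.exp_add]; congr 1; ring
      rw [h1]
      refine mul_le_mul_of_nonneg_left ?_ (Real.exp_pos _).le
      have h2 : z2 * N / 2 ≤ Real.exp (3 / 4 * z2 * N) := by
        have := Real.add_one_le_exp (3 / 4 * z2 * N)
        linarith only [this, mul_pos hz2 hNpos]
      rw [Real.exp_neg, inv_eq_one_div, div_le_div_iff₀ (Real.exp_pos _) (by positivity)]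
      rw [div_le_iff₀ (by positivity)] at x7
      have h3 : c * (z2 * N / 2) ≤ c * Real.exp (3 / 4 * z2 * N) :=
        mul_le_mul_of_nonneg_left h2 hc.le
      have h4 : 2 * x ≤ c * (z2 * N / 2) := by
        rw [← hxx]
        linarith only [mul_nonneg (sub_nonneg.mpr x7) hx0.le]
      linarith only [h3, h4]
    refine hfin2.trans (hfin1.trans ?_)
    -- enlarge the slices to `h`, `h'`
    have hnn : ∀ y z, 0 ≤ (if q0 + ip y z = X then p y * p' z else 0) := by
      intro y z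
      split_ifs
      · exact mul_nonneg (hm.pr.nonneg y) (hm'.pr.nonneg z)
      · exact le_rfl
    calc ∑ y ∈ slice h S a, ∑ z ∈ slice h' S a', (if q0 + ip y z = X then p y * p' z else 0)
        ≤ ∑ y ∈ slice h S a, ∑ z ∈ h', (if q0 + ip y z = X then p y * p' z else 0) :=
          sum_le_sum fun y _ => sum_le_sum_of_subset_of_nonneg slice_subset
            (fun z _ _ => hnn y z)
      _ ≤ _ := sum_le_sum_of_subset_of_nonneg slice_subset
            (fun y _ _ => sum_nonneg fun z _ => hnn y z)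

end Pool.Agent.MP3884c4
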