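import Pool.Agent.Lib.MP_3884c4_co.Reveal
import Pool.Agent.Lib.MP_3884c4_co.Moment

/-!
Pair functional: existence of a minimiser, first order conditions, value at the start.
-/

set_option autoImplicit false

noncomputable section

namespace Pool.Agent.MP3884c4

open Finset

section

variable {ι : Type*} [Fintype ι] [DecidableEq ι]

omit [DecidableEq ι] in
theorem ip_comm (y z : ι → Bool) : ip y z = ip z y := by
  unfold ip
  exact sum_congr rfl fun i _ => mul_comm _ _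

theorem pen_comm (q0 X : ℤ) (p p' : (ι → Bool) → ℝ) : pen q0 X p p' = pen q0 X p' p := by
  unfold pen
  rw [sum_comm]
  exact sum_congr rfl fun y _ => sum_congr rfl fun z _ => by rw [ip_comm y z]; ring

theorem Th_swap (q0 X : ℤ) (lam nu : ℝ) (r r' : ι → ℝ) (R R' S : Finset ι)
    (p p' : (ι → Bool) → ℝ) :
    Th q0 X lam nu r r' R R' S p p' = Th q0 X lam nu r' r R' R S p' p := by
  unfold Th
  rw [pen_comm q0 X p p']
  ring

theorem pen_eq_ex (q0 X : ℤ) (p p' : (ι → Bool) → ℝ) :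
    pen q0 X p p' = ex p (fun y => ex p' (fun z => |Wf q0 X y z|)) := by
  unfold pen ex Wf
  simp only [mul_sum]
  exact sum_congr rfl fun y _ => sum_congr rfl fun z _ => by ring

theorem pen_eq_ex2 (q0 X : ℤ) (p p' : (ι → Bool) → ℝ) :
    pen q0 X p p' = ex2 p p' (fun y z => |Wf q0 X y z|) := rfl

theorem continuous_pen (q0 X : ℤ) :
    Continuous (fun x : ((ι → Bool) → ℝ) × ((ι → Bool) → ℝ) => pen q0 X x.1 x.2) := by
  unfold pen
  refine continuous_finsetSum _ fun y _ => continuous_finsetSum _ fun z _ => ?_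
  exact (((continuous_apply y).comp continuous_fst).mul
    ((continuous_apply z).comp continuous_snd)).mul continuous_const

theorem continuous_Th (q0 X : ℤ) (lam nu : ℝ) (r r' : ι → ℝ) (R R' S : Finset ι) :
    Continuous (fun x : ((ι → Bool) → ℝ) × ((ι → Bool) → ℝ) =>
      Th q0 X lam nu r r' R R' S x.1 x.2) := by
  unfold Th
  have h1 : ∀ (T : Finset ι) (ρ : ι → ℝ), Continuous (fun p : (ι → Bool) → ℝ =>
      ∑ i ∈ T, (mean p i - ρ i) ^ 2) := fun T ρ =>
    continuous_finsetSum _ fun i _ => ((continuous_mean i).sub continuous_const).pow 2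
  refine ((((continuous_Psi _).comp continuous_fst).add ((continuous_Psi _).comp continuous_snd)).add
    (continuous_pen q0 X)).add ?_ |>.add continuous_const
  exact continuous_const.mul (((h1 _ r).comp continuous_fst).add ((h1 _ r').comp continuous_snd))

theorem slice_empty (h : Finset (ι → Bool)) (a : ι → Bool) : slice h ∅ a = h := by
  unfold slice; simp

theorem exists_Th_min (q0 X : ℤ) (lam nu : ℝ) (r r' : ι → ℝ) (R R' : Finset ι)
    {h h' : Finset (ι → Bool)} (hne : h.Nonempty) (hne' : h'.Nonempty) (B : ℕ) :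
    ∃ (S : Finset ι) (a a' : ι → Bool) (p p' : (ι → Bool) → ℝ), Disjoint S (R ∪ R') ∧ S.card ≤ B ∧
      IsPr (slice h S a) p ∧ IsPr (slice h' S a') p' ∧
      ∀ (T : Finset ι) (b b' : ι → Bool) (q q' : (ι → Bool) → ℝ), Disjoint T (R ∪ R') →
        T.card ≤ B → IsPr (slice h T b) q → IsPr (slice h' T b') q' →
        Th q0 X lam nu r r' R R' S p p' ≤ Th q0 X lam nu r r' R R' T q q' := by
  classical
  -- minimiser for every triple
  have hloc : ∀ τ : Finset ι × (ι → Bool) × (ι → Bool), (slice h τ.1 τ.2.1).Nonempty →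
      (slice h' τ.1 τ.2.2).Nonempty → ∃ x : ((ι → Bool) → ℝ) × ((ι → Bool) → ℝ),
        (IsPr (slice h τ.1 τ.2.1) x.1 ∧ IsPr (slice h' τ.1 τ.2.2) x.2) ∧
        ∀ q q', IsPr (slice h τ.1 τ.2.1) q → IsPr (slice h' τ.1 τ.2.2) q' →
          Th q0 X lam nu r r' R R' τ.1 x.1 x.2 ≤ Th q0 X lam nu r r' R R' τ.1 q q' := by
    intro τ h1 h2
    have hc := (isCompact_isPr (slice h τ.1 τ.2.1)).prod (isCompact_isPr (slice h' τ.1 τ.2.2))
    obtain ⟨q1, hq1⟩ := exists_isPr h1
    obtain ⟨q2, hq2⟩ := exists_isPr h2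
    obtain ⟨x, hx, hmin⟩ := hc.exists_isMinOn ⟨(q1, q2), hq1, hq2⟩
      (continuous_Th q0 X lam nu r r' R R' τ.1).continuousOn
    exact ⟨x, hx, fun q q' hq hq' => hmin (show (q, q') ∈ _ from ⟨hq, hq'⟩)⟩
  choose! f hf1 hf2 using hloc
  set T0 : Finset (Finset ι × (ι → Bool) × (ι → Bool)) := univ.filter (fun τ =>
    Disjoint τ.1 (R ∪ R') ∧ τ.1.card ≤ B ∧ (slice h τ.1 τ.2.1).Nonempty ∧
      (slice h' τ.1 τ.2.2).Nonempty) with hT0
  have hT0ne : T0.Nonempty := by
    refine ⟨(∅, (fun _ => true), (fun _ => true)), ?_⟩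
    rw [hT0, mem_filter]
    refine ⟨mem_univ _, by simp, by simp, ?_, ?_⟩
    · rw [slice_empty]; exact hne
    · rw [slice_empty]; exact hne'
  obtain ⟨τ, hτ, hτmin⟩ := exists_min_image T0
    (fun τ => Th q0 X lam nu r r' R R' τ.1 (f τ).1 (f τ).2) hT0ne
  rw [hT0, mem_filter] at hτ
  obtain ⟨-, h1, h2, h3, h4⟩ := hτ
  refine ⟨τ.1, τ.2.1, τ.2.2, (f τ).1, (f τ).2, h1, h2, (hf1 τ h3 h4).1, (hf1 τ h3 h4).2, ?_⟩
  intro T b b' q q' hT hTc hq hq'
  have hn1 : (slice h T b).Nonempty := by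
    by_contra hcon
    rw [not_nonempty_iff_eq_empty] at hcon
    have h0 : ∑ y, q y = 0 := sum_eq_zero fun y _ => hq.supp y (by simp [hcon])
    have := hq.sum_eq
    linarith
  have hn2 : (slice h' T b').Nonempty := by
    by_contra hcon
    rw [not_nonempty_iff_eq_empty] at hcon
    have h0 : ∑ y, q' y = 0 := sum_eq_zero fun y _ => hq'.supp y (by simp [hcon])
    have := hq'.sum_eq
    linarith
  have hmem : (T, b, b') ∈ T0 := by
    rw [hT0, mem_filter]
    exact ⟨mem_univ _, hT, hTc, hn1, hn2⟩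
  exact (hτmin _ hmem).trans (hf2 (T, b, b') hn1 hn2 q q' hq hq')

/-- the linear weight in the first order condition -/
def cf (q0 X : ℤ) (nu : ℝ) (r : ι → ℝ) (R : Finset ι) (p' : (ι → Bool) → ℝ) (y : ι → Bool) : ℝ :=
  ex p' (fun z => |Wf q0 X y z|) + (-(2 * nu)) * ∑ i ∈ Rᶜ, r i * sg (y i)

theorem ex_sum_sg {G : Finset (ι → Bool)} {p : (ι → Bool) → ℝ} (_hp : IsPr G p) (T : Finset ι)
    (r : ι → ℝ) : ex p (fun y => ∑ i ∈ T, r i * sg (y i)) = ∑ i ∈ T, r i * mean p i := by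
  rw [ex_sum]
  exact sum_congr rfl fun i _ => by rw [ex_const_mul]; rfl

theorem Jf_form {q0 X : ℤ} {nu : ℝ} {r : ι → ℝ} {R : Finset ι} {G : Finset (ι → Bool)}
    {p' q : (ι → Bool) → ℝ} (hq : IsPr G q) :
    Psi R q + pen q0 X q p' + nu * ∑ i ∈ Rᶜ, (mean q i - r i) ^ 2
      = Jf (1 / 2 - nu) (cf q0 X nu r R p') (vf R) q
        + (((Rᶜ).card : ℝ) * Real.log 2 + nu * ∑ i ∈ Rᶜ, r i ^ 2) := by
  rw [Psi_eq, pen_eq_ex]
  unfold Jf cf
  rw [sum_mn_vf_sq, ex_add, ex_const_mul, ex_sum_sg hq]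
  have : ∑ i ∈ Rᶜ, (mean q i - r i) ^ 2
      = ∑ i ∈ Rᶜ, mean q i ^ 2 - 2 * ∑ i ∈ Rᶜ, r i * mean q i + ∑ i ∈ Rᶜ, r i ^ 2 := by
    rw [mul_sum, ← sum_sub_distrib, ← sum_add_distrib]
    exact sum_congr rfl fun i _ => by ring
  rw [this]
  ring

theorem frozen_slice {R S : Finset ι} {G h : Finset (ι → Bool)} (hF : Frozen R G) (hh : h ⊆ G)
    (a : ι → Bool) : Frozen (R ∪ S) (slice h S a) := by
  intro y hy z hz i hi
  unfold slice at hy hz
  rw [mem_filter] at hy hz
  rcases mem_union.mp hi with h1 | h1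
  · exact hF y (hh hy.1) z (hh hz.1) i h1
  · rw [hy.2 i h1, hz.2 i h1]

/-- first order condition: the minimiser is sub-Gaussian and satisfies the tilt formula -/
theorem Th_foc {q0 X : ℤ} {lam nu : ℝ} (hnu' : nu < 1 / 2)
    {r r' : ι → ℝ} {R R' S : Finset ι} {h : Finset (ι → Bool)} {a : ι → Bool}
    {p p' : (ι → Bool) → ℝ} (hF : Frozen (R ∪ S) (slice h S a)) (hp : IsPr (slice h S a) p)
    (hmin : ∀ q, IsPr (slice h S a) q →
      Th q0 X lam nu r r' R R' S p p' ≤ Th q0 X lam nu r r' R R' S q p') :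
    SubG (1 / 2 - nu) (R ∪ S) p ∧ (∀ y ∈ slice h S a, 0 < p y ∧ Real.log (p y)
      = ent p - (cf q0 X nu r (R ∪ S) p' y - ex p (cf q0 X nu r (R ∪ S) p'))
        + 2 * (1 / 2 - nu) * ∑ i ∈ (R ∪ S)ᶜ, mean p i * (sg (y i) - mean p i)) := by
  have hk : 0 < 1 / 2 - nu := by linarith
  have hJ : ∀ q, IsPr (slice h S a) q → Jf (1 / 2 - nu) (cf q0 X nu r (R ∪ S) p') (vf (R ∪ S)) p
      ≤ Jf (1 / 2 - nu) (cf q0 X nu r (R ∪ S) p') (vf (R ∪ S)) q := by
    intro q hq
    have h1 := hmin q hq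
    unfold Th at h1
    have h2 := Jf_form (q0 := q0) (X := X) (nu := nu) (r := r) (R := R ∪ S) (p' := p') hp
    have h3 := Jf_form (q0 := q0) (X := X) (nu := nu) (r := r) (R := R ∪ S) (p' := p') hq
    linarith
  refine ⟨⟨hp.mono (subset_univ _), ?_, ?_, ?_⟩, ?_⟩
  · intro y hy i hi
    have hmem : y ∈ slice h S a := by
      by_contra hcon
      exact hy (hp.supp y hcon)
    exact (mean_frozen hp hF hmem hi).symm
  · intro θ
    have h1 := Jmin_mgf hk hp hJ (fun i => if i ∈ R ∪ S then 0 else θ i)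
    rw [sum_theta_sq] at h1
    rw [ex_congr hp (fun y hy => by rw [lin_eq hp hF θ hy])]
    exact h1
  · intro θ
    have h1 := Jmin_var hk hp hJ (fun i => if i ∈ R ∪ S then 0 else θ i)
    rw [sum_theta_sq] at h1
    rw [ex_congr hp (fun y hy => by rw [lin_eq hp hF θ hy])]
    exact h1
  · intro y hy
    refine ⟨Jmin_pos hk.le hp hJ y hy, ?_⟩
    rw [Jmin_tilt hk.le hp hJ y hy]
    congr 2
    have e1 : ∀ i, mn p (vf (R ∪ S)) i * (vf (R ∪ S) y i - mn p (vf (R ∪ S)) i)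
        = if i ∈ (R ∪ S)ᶜ then mean p i * (sg (y i) - mean p i) else 0 := by
      intro i
      rw [mn_vf]
      unfold vf
      by_cases hi : i ∈ R ∪ S
      · have hi' : i ∉ (R ∪ S)ᶜ := fun h => (mem_compl.mp h) hi
        simp only [if_pos hi, if_neg hi']; ring
      · have hi' : i ∈ (R ∪ S)ᶜ := mem_compl.mpr hi
        simp only [if_neg hi, if_pos hi']
    rw [sum_congr rfl fun i _ => e1 i, sum_ite_mem, univ_inter]

/-- expectation after conditioning -/
theorem ex_condp_le {G h : Finset (ι → Bool)} {p : (ι → Bool) → ℝ} (hp : IsPr G p)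
    (hpos : 0 < ∑ y ∈ h, p y) {f : (ι → Bool) → ℝ} (hf : ∀ y, 0 ≤ f y) :
    ex (condp h p) f ≤ (∑ y ∈ h, p y)⁻¹ * ex p f := by
  unfold ex
  rw [mul_sum]
  refine sum_le_sum fun y _ => ?_
  unfold condp
  split_ifs with hy
  · exact le_of_eq (by field_simp)
  · rw [zero_mul]
    exact mul_nonneg (inv_nonneg.mpr hpos.le) (mul_nonneg (hp.nonneg y) (hf y))

/-- first absolute moment after conditioning an exact minimiser -/
theorem abs_moment {R : Finset ι} {G h : Finset (ι → Bool)} {p : (ι → Bool) → ℝ}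
    (hm : IsMin R G p) (hpos : 0 < ∑ y ∈ h, p y) (θ : ι → ℝ) {s V L : ℝ} (hs : 0 < s)
    (hV : ∑ i ∈ Rᶜ, θ i ^ 2 ≤ V) (hL : -Real.log (∑ y ∈ h, p y) ≤ L) :
    ex (condp h p) (fun y => |∑ i, θ i * (sg (y i) - mean p i)|)
      ≤ (Real.log 2 + s ^ 2 * V / 2 + L) / s := by
  set β := ∑ y ∈ h, p y with hβ
  have hq := isPr_condp hm.pr hpos
  set f : (ι → Bool) → ℝ := fun y => ∑ i, θ i * (sg (y i) - mean p i) with hf
  set c : ℝ := Real.log 2 + s ^ 2 * V / 2 + L with hc
  have h1 : ex p (fun y => Real.exp (s * |f y|)) ≤ 2 * Real.exp (s ^ 2 * V / 2) := by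
    have m1 := hm.mgf (fun i => s * θ i)
    have m2 := hm.mgf (fun i => -(s * θ i))
    have e1 : (∑ i ∈ Rᶜ, (s * θ i) ^ 2) / 2 ≤ s ^ 2 * V / 2 := by
      have : ∑ i ∈ Rᶜ, (s * θ i) ^ 2 = s ^ 2 * ∑ i ∈ Rᶜ, θ i ^ 2 := by
        rw [mul_sum]; exact sum_congr rfl fun i _ => by ring
      rw [this]
      have := mul_le_mul_of_nonneg_left hV (sq_nonneg s)
      linarith
    have e2 : (∑ i ∈ Rᶜ, (-(s * θ i)) ^ 2) / 2 ≤ s ^ 2 * V / 2 := by
      have : ∑ i ∈ Rᶜ, (-(s * θ i)) ^ 2 = ∑ i ∈ Rᶜ, (s * θ i) ^ 2 :=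
        sum_congr rfl fun i _ => by ring
      rw [this]; exact e1
    have m1' := m1.trans (Real.exp_le_exp.mpr e1)
    have m2' := m2.trans (Real.exp_le_exp.mpr e2)
    have h2 : ex p (fun y => Real.exp (s * |f y|))
        ≤ ex p (fun y => Real.exp (∑ i, s * θ i * (sg (y i) - mean p i))
          + Real.exp (∑ i, -(s * θ i) * (sg (y i) - mean p i))) := by
      refine ex_mono hm.pr fun y _ => ?_
      have e3 : ∑ i, s * θ i * (sg (y i) - mean p i) = s * f y := by
        simp only [hf]; rw [mul_sum]; exact sum_congr rfl fun i _ => by ring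
      have e4 : ∑ i, -(s * θ i) * (sg (y i) - mean p i) = -(s * f y) := by
        rw [← e3, ← sum_neg_distrib]; exact sum_congr rfl fun i _ => by ring
      rw [e3, e4]
      rcases le_total 0 (f y) with h0 | h0
      · rw [abs_of_nonneg h0]
        linarith [Real.exp_pos (-(s * f y))]
      · rw [abs_of_nonpos h0]
        have : s * -f y = -(s * f y) := by ring
        rw [this]
        linarith [Real.exp_pos (s * f y)]
    rw [ex_add] at h2
    linarith
  have h2 := ex_condp_le (h := h) hm.pr hpos (f := fun y => Real.exp (s * |f y|))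
    (fun y => (Real.exp_pos _).le)
  rw [← hβ] at h2
  have h3 : ex (condp h p) (fun y => s * |f y|)
      ≤ ex (condp h p) (fun y => (c - 1) + Real.exp (-c) * Real.exp (s * |f y|)) := by
    refine ex_mono hq fun y _ => ?_
    have := Real.add_one_le_exp (s * |f y| - c)
    have e : Real.exp (s * |f y| - c) = Real.exp (-c) * Real.exp (s * |f y|) := by
      rw [← Real.exp_add]; congr 1; ring
    rw [e] at this
    linarith
  rw [ex_const_mul, ex_add, ex_const hq, ex_const_mul] at h3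
  have h4 : Real.exp (-c) * ex (condp h p) (fun y => Real.exp (s * |f y|)) ≤ 1 := by
    have h5 : ex (condp h p) (fun y => Real.exp (s * |f y|)) ≤ β⁻¹ * (2 * Real.exp (s ^ 2 * V / 2)) :=
      h2.trans (mul_le_mul_of_nonneg_left h1 (inv_nonneg.mpr hpos.le))
    have h6 : β⁻¹ * (2 * Real.exp (s ^ 2 * V / 2)) ≤ Real.exp c := by
      have e1 : β⁻¹ = Real.exp (-Real.log β) := by
        rw [Real.exp_neg, Real.exp_log hpos]
      have e2 : (2 : ℝ) = Real.exp (Real.log 2) := (Real.exp_log (by norm_num)).symm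
      rw [e1]
      nth_rewrite 1 [e2]
      rw [← Real.exp_add, ← Real.exp_add]
      refine Real.exp_le_exp.mpr ?_
      rw [hc]; linarith
    calc Real.exp (-c) * ex (condp h p) (fun y => Real.exp (s * |f y|))
        ≤ Real.exp (-c) * Real.exp c :=
          mul_le_mul_of_nonneg_left (h5.trans h6) (Real.exp_pos _).le
      _ = 1 := by rw [← Real.exp_add]; simp
  rw [le_div_iff₀ hs]
  linarith

end

end Pool.Agent.MP3884c4
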