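import Pool.Agent.Lib.MP_3884c4_co.PairA
import Pool.Agent.Lib.MP_3884c4_co.Entropy

/-!
Pair lemma, second part: value at the start, relative entropy of the minimiser, densities,
change of measure.
-/

set_option autoImplicit false

noncomputable section

namespace Pool.Agent.MP3884c4

open Finset

section

variable {ι : Type*} [Fintype ι] [DecidableEq ι]

theorem sum_mn_sub_sq (R : Finset ι) (q p : (ι → Bool) → ℝ) :
    ∑ i, (mn q (vf R) i - mn p (vf R) i) ^ 2 = ∑ i ∈ Rᶜ, (mean q i - mean p i) ^ 2 := by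
  have h1 : ∀ i, (mn q (vf R) i - mn p (vf R) i) ^ 2
      = if i ∈ Rᶜ then (mean q i - mean p i) ^ 2 else 0 := by
    intro i
    rw [mn_vf, mn_vf]
    by_cases h : i ∈ R
    · have h' : i ∉ Rᶜ := fun hc => (mem_compl.mp hc) h
      simp only [if_pos h, if_neg h']; ring
    · have h' : i ∈ Rᶜ := mem_compl.mpr h
      simp only [if_neg h, if_pos h']
  rw [sum_congr rfl fun i _ => h1 i, sum_ite_mem, univ_inter]

variable {R S : Finset ι} {G h : Finset (ι → Bool)} {p : (ι → Bool) → ℝ}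

theorem IsMin.identity (hm : IsMin R G p) {q : (ι → Bool) → ℝ} (hq : IsPr G q) :
    Psi R q - Psi R p = kl q p - 1 / 2 * ∑ i ∈ Rᶜ, (mean q i - mean p i) ^ 2 := by
  have h1 := Jmin_identity (by norm_num : (0 : ℝ) ≤ 1 / 2) hm.pr hm.jmin hq
  rw [sum_mn_sub_sq] at h1
  rw [Psi_eq_Jf, Psi_eq_Jf]
  linarith

theorem IsMin.dom (hm : IsMin R G p) {q : (ι → Bool) → ℝ} (hq : IsPr G q) :
    1 / 2 * ∑ i ∈ Rᶜ, (mean q i - mean p i) ^ 2 ≤ kl q p := by
  have h1 := hm.identity hq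
  have h2 := hm.min q hq
  linarith

theorem start_Psi (hm : IsMin R G p) (hh : h ⊆ G) (hpos : 0 < ∑ y ∈ h, p y) {L : ℝ}
    (hL : -Real.log (∑ y ∈ h, p y) ≤ L) :
    Psi R (condp h p) ≤ Psi R p + L ∧
      ∑ i ∈ Rᶜ, (mean (condp h p) i - mean p i) ^ 2 ≤ 2 * L := by
  have hq : IsPr G (condp h p) := (isPr_condp hm.pr hpos).mono hh
  have h1 := hm.identity hq
  have h2 := hm.dom hq
  have h3 := kl_condp hm.pr hpos
  have h4 : 0 ≤ ∑ i ∈ Rᶜ, (mean (condp h p) i - mean p i) ^ 2 := sum_nonneg fun i _ => sq_nonneg _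
  rw [h3] at h1 h2
  constructor <;> linarith

theorem Wf_abs_le (q0 X : ℤ) (p p' : (ι → Bool) → ℝ) (y z : ι → Bool) :
    |Wf q0 X y z| ≤ |E0f q0 X p p'| + |∑ i, sg (z i) * (sg (y i) - mean p i)|
      + |∑ i, mean p i * (sg (z i) - mean p' i)| := by
  have : Wf q0 X y z = E0f q0 X p p' + ∑ i, sg (z i) * (sg (y i) - mean p i)
      + ∑ i, mean p i * (sg (z i) - mean p' i) := by
    unfold Wf E0f
    push_cast
    rw [ip_cast_real]
    have e : ∑ i, sg (y i) * sg (z i) = ∑ i, mean p i * mean p' i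
        + ∑ i, sg (z i) * (sg (y i) - mean p i) + ∑ i, mean p i * (sg (z i) - mean p' i) := by
      rw [← sum_add_distrib, ← sum_add_distrib]
      exact sum_congr rfl fun i _ => by ring
    rw [e]; ring
  rw [this]
  exact (abs_add_le _ _).trans (add_le_add (abs_add_le _ _) le_rfl)

omit [DecidableEq ι] in
theorem sum_sg_sq_le (T : Finset ι) (z : ι → Bool) :
    ∑ i ∈ T, sg (z i) ^ 2 ≤ (Fintype.card ι : ℝ) := by
  calc ∑ i ∈ T, sg (z i) ^ 2 ≤ ∑ i, sg (z i) ^ 2 :=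
        sum_le_sum_of_subset_of_nonneg (subset_univ _) (fun i _ _ => sq_nonneg _)
    _ = _ := by simp [sg_sq]

theorem sum_mean_sq_le_card {G : Finset (ι → Bool)} (hp : IsPr G p) (T : Finset ι) :
    ∑ i ∈ T, mean p i ^ 2 ≤ (Fintype.card ι : ℝ) := by
  calc ∑ i ∈ T, mean p i ^ 2 ≤ ∑ i, mean p i ^ 2 :=
        sum_le_sum_of_subset_of_nonneg (subset_univ _) (fun i _ _ => sq_nonneg _)
    _ ≤ ∑ _i : ι, (1 : ℝ) := sum_le_sum fun i _ => mean_sq_le hp i
    _ = _ := by simp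

theorem pen_start {R' : Finset ι} {G' h' : Finset (ι → Bool)} {p' : (ι → Bool) → ℝ}
    (hm : IsMin R G p) (hm' : IsMin R' G' p') (hpos : 0 < ∑ y ∈ h, p y)
    (hpos' : 0 < ∑ y ∈ h', p' y) (q0 X : ℤ) {L s E : ℝ} (hs : 0 < s)
    (hL : -Real.log (∑ y ∈ h, p y) ≤ L) (hL' : -Real.log (∑ y ∈ h', p' y) ≤ L)
    (hE : |E0f q0 X p p'| ≤ E) :
    pen q0 X (condp h p) (condp h' p')
      ≤ E + 2 * ((Real.log 2 + s ^ 2 * (Fintype.card ι : ℝ) / 2 + L) / s) := by
  set q := condp h p with hq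
  set q' := condp h' p' with hq'
  have hqp : IsPr univ q := (isPr_condp hm.pr hpos).mono (subset_univ _)
  have hqp' : IsPr univ q' := (isPr_condp hm'.pr hpos').mono (subset_univ _)
  set B := (Real.log 2 + s ^ 2 * (Fintype.card ι : ℝ) / 2 + L) / s with hB
  have h1 : pen q0 X q q' ≤ ex2 q q' (fun y z => E
      + (|∑ i, sg (z i) * (sg (y i) - mean p i)| + |∑ i, mean p i * (sg (z i) - mean p' i)|)) := by
    rw [pen_eq_ex2]
    refine ex2_mono hqp.nonneg hqp'.nonneg fun y z => ?_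
    have := Wf_abs_le q0 X p p' y z
    linarith
  rw [ex2_add, ex2_add] at h1
  have h2 : ex2 q q' (fun _ _ => E) = E := by
    rw [ex2_fst hqp' (fun _ => E), ex_const hqp]
  have h3 : ex2 q q' (fun y z => |∑ i, sg (z i) * (sg (y i) - mean p i)|) ≤ B := by
    rw [ex2_right]
    have h4 : ∀ z : ι → Bool, ex q (fun y => |∑ i, sg (z i) * (sg (y i) - mean p i)|) ≤ B := fun z =>
      abs_moment hm hpos (fun i => sg (z i)) hs (sum_sg_sq_le _ z) hL
    calc ex q' (fun z => ex q (fun y => |∑ i, sg (z i) * (sg (y i) - mean p i)|))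
        ≤ ex q' (fun _ => B) := ex_mono hqp' fun z _ => h4 z
      _ = B := ex_const hqp' B
  have h5 : ex2 q q' (fun _ z => |∑ i, mean p i * (sg (z i) - mean p' i)|) ≤ B := by
    rw [ex2_snd hqp (fun z => |∑ i, mean p i * (sg (z i) - mean p' i)|)]
    exact abs_moment hm' hpos' (fun i => mean p i) hs (sum_mean_sq_le_card hm.pr _) hL'
  rw [h2] at h1
  linarith

/-- splitting the free coordinates -/
theorem sum_compl_split (hS : Disjoint S R) (f : ι → ℝ) :
    ∑ i ∈ Rᶜ, f i = ∑ i ∈ (R ∪ S)ᶜ, f i + ∑ i ∈ S, f i := by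
  have : Rᶜ = (R ∪ S)ᶜ ∪ S := by
    ext i
    simp only [mem_compl, mem_union, not_or]
    constructor
    · intro h
      by_cases hi : i ∈ S
      · exact Or.inr hi
      · exact Or.inl ⟨h, hi⟩
    · rintro (h | h)
      · exact h.1
      · exact fun hR => (disjoint_left.mp hS h) hR
  rw [this, sum_union]
  rw [disjoint_left]
  intro i hi hiS
  simp only [mem_compl, mem_union, not_or] at hi
  exact hi.2 hiS

theorem mean_slice {a : ι → Bool} {q : (ι → Bool) → ℝ} (hq : IsPr (slice h S a) q) {i : ι}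
    (hi : i ∈ S) : mean q i = sg (a i) := by
  have : mean q i = ex q (fun y => sg (y i)) := rfl
  rw [this, ex_congr hq (g := fun _ => sg (a i)), ex_const hq]
  intro y hy
  unfold slice at hy
  rw [(mem_filter.mp hy).2 i hi]

theorem Psi_union {a : ι → Bool} {q : (ι → Bool) → ℝ} (hS : Disjoint S R)
    (hq : IsPr (slice h S a) q) :
    Psi R q = Psi (R ∪ S) q + (Real.log 2 - 1 / 2) * (S.card : ℝ) := by
  rw [Psi_eq, Psi_eq, sum_compl_split hS]
  have h1 : ∑ i ∈ S, mean q i ^ 2 = (S.card : ℝ) := by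
    rw [sum_congr rfl fun i hi => by rw [mean_slice hq hi, sg_sq]]
    simp
  have h2 : ((Rᶜ).card : ℝ) = (((R ∪ S)ᶜ).card : ℝ) + (S.card : ℝ) := by
    have := sum_compl_split hS (fun _ => (1 : ℝ))
    simpa using this
  rw [h1, h2]
  ring

theorem slice_subset {a : ι → Bool} : slice h S a ⊆ h := filter_subset _ _

/-- relative entropy of a vector on a slice with respect to the exact minimiser -/
theorem kl_le (hm : IsMin R G p) (hh : h ⊆ G) (hS : Disjoint S R) {a : ι → Bool}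
    {q : (ι → Bool) → ℝ} (hq : IsPr (slice h S a) q) :
    kl q p ≤ Psi (R ∪ S) q - Psi R p + (Real.log 2 - 1 / 2) * (S.card : ℝ)
      + 1 / 2 * ∑ i ∈ (R ∪ S)ᶜ, (mean q i - mean p i) ^ 2 + 2 * (S.card : ℝ) := by
  have hqG : IsPr G q := hq.mono (slice_subset.trans hh)
  have h1 := hm.identity hqG
  have h2 := Psi_union hS hq
  rw [sum_compl_split hS] at h1
  have h3 : ∑ i ∈ S, (mean q i - mean p i) ^ 2 ≤ ∑ _i ∈ S, (4 : ℝ) := by
    refine sum_le_sum fun i _ => ?_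
    have a1 := mean_sq_le hq i
    have a2 := mean_sq_le hm.pr i
    nlinarith [sq_nonneg (mean q i + mean p i)]
  have h4 : ∑ _i ∈ S, (4 : ℝ) = 4 * (S.card : ℝ) := by simp [mul_comm]
  rw [h4] at h3
  linarith

theorem Psi_ge (hm : IsMin R G p) (hh : h ⊆ G) (hS : Disjoint S R) {a : ι → Bool}
    {q : (ι → Bool) → ℝ} (hq : IsPr (slice h S a) q) :
    Psi R p - (Real.log 2 - 1 / 2) * (S.card : ℝ) ≤ Psi (R ∪ S) q := by
  have hqG : IsPr G q := hq.mono (slice_subset.trans hh)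
  have h1 := hm.min q hqG
  have h2 := Psi_union hS hq
  linarith

/-- tilt formula for an exact minimiser -/
theorem IsMin.tilt (hm : IsMin R G p) {y : ι → Bool} (hy : y ∈ G) :
    0 < p y ∧ Real.log (p y) = ent p + ∑ i ∈ Rᶜ, mean p i * (sg (y i) - mean p i) := by
  refine ⟨Jmin_pos (by norm_num) hm.pr hm.jmin y hy, ?_⟩
  have h1 := Jmin_tilt (by norm_num : (0 : ℝ) ≤ 1 / 2) hm.pr hm.jmin y hy
  rw [h1]
  have e1 : ∀ i, mn p (vf R) i * (vf R y i - mn p (vf R) i)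
      = if i ∈ Rᶜ then mean p i * (sg (y i) - mean p i) else 0 := by
    intro i
    rw [mn_vf]
    unfold vf
    by_cases hi : i ∈ R
    · have hi' : i ∉ Rᶜ := fun h => (mem_compl.mp h) hi
      simp only [if_pos hi, if_neg hi']; ring
    · have hi' : i ∈ Rᶜ := mem_compl.mpr hi
      simp only [if_neg hi, if_pos hi']
  rw [sum_congr rfl fun i _ => e1 i, sum_ite_mem, univ_inter]
  have e2 : ex p (fun _ : ι → Bool => (0 : ℝ)) = 0 := by simp [ex]
  rw [e2]
  ring

/-- log-likelihood ratio of the pair minimiser with respect to the exact minimiser -/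
theorem ratio_le (hm : IsMin R G p) (hh : h ⊆ G) (hS : Disjoint S R) {a : ι → Bool}
    {q q' : (ι → Bool) → ℝ} {nu : ℝ} {q0 X : ℤ} (hq : IsPr (slice h S a) q)
    (htilt : ∀ y ∈ slice h S a, 0 < q y ∧ Real.log (q y)
      = ent q - (cf q0 X nu (mean p) (R ∪ S) q' y - ex q (cf q0 X nu (mean p) (R ∪ S) q'))
        + 2 * (1 / 2 - nu) * ∑ i ∈ (R ∪ S)ᶜ, mean q i * (sg (y i) - mean q i))
    (hq' : IsPr univ q') {y : ι → Bool} (hy : y ∈ slice h S a) :
    Real.log (q y) - Real.log (p y) ≤ kl q p + pen q0 X q q'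
      + (1 - 2 * nu) * ∑ i ∈ (R ∪ S)ᶜ, (mean q i - mean p i) * (sg (y i) - mean q i) := by
  -- constant such that the ratio is affine on the slice
  set Φ : (ι → Bool) → ℝ := fun y => ex q' (fun z => |Wf q0 X y z|) with hΦ
  have hform : ∃ A : ℝ, ∀ x ∈ slice h S a, Real.log (q x) - Real.log (p x) = A - Φ x
      + (1 - 2 * nu) * ∑ i ∈ (R ∪ S)ᶜ, (mean q i - mean p i) * (sg (x i) - mean q i) := by
    refine ⟨ent q + ex q (cf q0 X nu (mean p) (R ∪ S) q') - ent p
      + 2 * nu * ∑ i ∈ (R ∪ S)ᶜ, mean p i * mean q i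
      - ∑ i ∈ (R ∪ S)ᶜ, mean p i * (mean q i - mean p i)
      - ∑ i ∈ S, mean p i * (sg (a i) - mean p i), fun x hx => ?_⟩
    have hxG : x ∈ G := hh (slice_subset hx)
    rw [(htilt x hx).2, (hm.tilt hxG).2, sum_compl_split hS]
    have e1 : ∑ i ∈ S, mean p i * (sg (x i) - mean p i) = ∑ i ∈ S, mean p i * (sg (a i) - mean p i) := by
      refine sum_congr rfl fun i hi => ?_
      unfold slice at hx
      rw [(mem_filter.mp hx).2 i hi]
    rw [e1]
    have e2 : cf q0 X nu (mean p) (R ∪ S) q' x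
        = Φ x - 2 * nu * ∑ i ∈ (R ∪ S)ᶜ, mean p i * sg (x i) := by
      unfold cf; ring
    rw [e2]
    have e3 : ∑ i ∈ (R ∪ S)ᶜ, (mean q i - mean p i) * (sg (x i) - mean q i)
        = ∑ i ∈ (R ∪ S)ᶜ, mean q i * (sg (x i) - mean q i) - ∑ i ∈ (R ∪ S)ᶜ, mean p i * sg (x i)
          + ∑ i ∈ (R ∪ S)ᶜ, mean p i * mean q i := by
      rw [← sum_sub_distrib, ← sum_add_distrib]
      exact sum_congr rfl fun i _ => by ring
    have e4 : ∑ i ∈ (R ∪ S)ᶜ, mean p i * (sg (x i) - mean p i)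
        = ∑ i ∈ (R ∪ S)ᶜ, mean p i * sg (x i) - ∑ i ∈ (R ∪ S)ᶜ, mean p i * mean q i
          + ∑ i ∈ (R ∪ S)ᶜ, mean p i * (mean q i - mean p i) := by
      rw [← sum_sub_distrib, ← sum_add_distrib]
      exact sum_congr rfl fun i _ => by ring
    rw [e3, e4]
    ring
  obtain ⟨A, hA⟩ := hform
  have hkl : kl q p = A - pen q0 X q q' := by
    have e1 : kl q p = ex q (fun x => (A + (-1) * Φ x)
      + (1 - 2 * nu) * ∑ i ∈ (R ∪ S)ᶜ, (mean q i - mean p i) * (sg (x i) - mean q i)) := by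
      unfold kl ex
      refine sum_congr rfl fun x _ => ?_
      by_cases hx : x ∈ slice h S a
      · rw [← mul_sub, hA x hx]; ring
      · rw [hq.supp x hx]; simp
    rw [e1, ex_add, ex_add, ex_const hq, ex_const_mul, ex_const_mul, ex_sum]
    have e2 : ∀ i, ex q (fun x => (mean q i - mean p i) * (sg (x i) - mean q i)) = 0 := by
      intro i
      rw [ex_const_mul]
      have := ex_xi (hq.mono (subset_univ _)) i
      unfold xi at this
      rw [this, mul_zero]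
    simp only [e2, sum_const_zero, mul_zero, add_zero]
    rw [pen_eq_ex]
    ring
  have hΦ0 : 0 ≤ Φ y := ex_nonneg hq' fun z _ => abs_nonneg _
  rw [hA y hy, hkl]
  linarith

/-- density bound at the pair minimiser -/
theorem density_le {a : ι → Bool} {q q' : (ι → Bool) → ℝ} {nu : ℝ} (hnu : 0 ≤ nu) (hnu' : nu ≤ 1 / 2)
    {r : ι → ℝ} {q0 X : ℤ} (hq : IsPr (slice h S a) q)
    (htilt : ∀ y ∈ slice h S a, 0 < q y ∧ Real.log (q y)
      = ent q - (cf q0 X nu r (R ∪ S) q' y - ex q (cf q0 X nu r (R ∪ S) q'))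
        + 2 * (1 / 2 - nu) * ∑ i ∈ (R ∪ S)ᶜ, mean q i * (sg (y i) - mean q i))
    (hq' : IsPr univ q') {N η : ℝ} (hN : N = (Fintype.card ι : ℝ)) (hη : 0 ≤ η)
    (h1 : ∑ i ∈ (R ∪ S)ᶜ, mean q i ^ 2 ≤ η ^ 2 * N) (h2 : ∑ i ∈ (R ∪ S)ᶜ, r i ^ 2 ≤ η ^ 2 * N)
    (y : ι → Bool) :
    2 ^ Fintype.card ι * q y ≤ Real.exp (Psi (R ∪ S) q + η ^ 2 * N + ((R ∪ S).card : ℝ)
      + pen q0 X q q' + 4 * η * N) := by
  by_cases hy : y ∈ slice h S a
  · obtain ⟨hpos, hlog⟩ := htilt y hy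
    have hcs : ∀ w : ι → ℝ, ∑ i ∈ (R ∪ S)ᶜ, w i ^ 2 ≤ η ^ 2 * N →
        ∑ i ∈ (R ∪ S)ᶜ, w i * (sg (y i) - mean q i) ≤ 2 * η * N := by
      intro w hw
      have hN0 : 0 ≤ N := by rw [hN]; positivity
      have e1 := sum_mul_sq_le_sq_mul_sq ((R ∪ S)ᶜ) w (fun i => sg (y i) - mean q i)
      have e2 : ∑ i ∈ (R ∪ S)ᶜ, (sg (y i) - mean q i) ^ 2 ≤ 4 * N := by
        calc ∑ i ∈ (R ∪ S)ᶜ, (sg (y i) - mean q i) ^ 2 ≤ ∑ i, (sg (y i) - mean q i) ^ 2 :=
              sum_le_sum_of_subset_of_nonneg (subset_univ _) (fun i _ _ => sq_nonneg _)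
          _ ≤ ∑ _i : ι, (4 : ℝ) := by
              refine sum_le_sum fun i _ => ?_
              have a1 := mean_sq_le hq i
              have a2 := sg_sq (y i)
              nlinarith [sq_nonneg (sg (y i) + mean q i)]
          _ = 4 * N := by rw [hN]; simp [mul_comm]
      have e3 : (∑ i ∈ (R ∪ S)ᶜ, w i * (sg (y i) - mean q i)) ^ 2 ≤ (2 * η * N) ^ 2 := by
        refine e1.trans ?_
        have e4 : 0 ≤ ∑ i ∈ (R ∪ S)ᶜ, w i ^ 2 := sum_nonneg fun i _ => sq_nonneg _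
        calc _ ≤ (η ^ 2 * N) * (4 * N) := mul_le_mul hw e2 (sum_nonneg fun i _ => sq_nonneg _)
              (by positivity)
          _ = _ := by ring
      exact le_trans (le_abs_self _) (abs_le_of_sq_le_sq e3 (by positivity))
    have c1 := hcs (mean q) h1
    have c2 := hcs r h2
    have hΦ0 : 0 ≤ ex q' (fun z => |Wf q0 X y z|) := ex_nonneg hq' fun z _ => abs_nonneg _
    have hcf : -(cf q0 X nu r (R ∪ S) q' y - ex q (cf q0 X nu r (R ∪ S) q'))
        ≤ pen q0 X q q' + 2 * nu * (2 * η * N) := by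
      have e1 : ex q (cf q0 X nu r (R ∪ S) q') = pen q0 X q q'
          - 2 * nu * ∑ i ∈ (R ∪ S)ᶜ, r i * mean q i := by
        unfold cf
        rw [ex_add, ex_const_mul, ex_sum_sg hq, pen_eq_ex]
        ring
      have e2 : cf q0 X nu r (R ∪ S) q' y = ex q' (fun z => |Wf q0 X y z|)
          - 2 * nu * ∑ i ∈ (R ∪ S)ᶜ, r i * sg (y i) := by unfold cf; ring
      have e3 : ∑ i ∈ (R ∪ S)ᶜ, r i * (sg (y i) - mean q i)
          = ∑ i ∈ (R ∪ S)ᶜ, r i * sg (y i) - ∑ i ∈ (R ∪ S)ᶜ, r i * mean q i := by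
        rw [← sum_sub_distrib]; exact sum_congr rfl fun i _ => by ring
      rw [e1, e2]
      rw [e3] at c2
      have e4 := mul_le_mul_of_nonneg_left c2 (by linarith : 0 ≤ 2 * nu)
      linarith
    have hPsi := Psi_eq (R ∪ S) q
    have hcard : (Fintype.card ι : ℝ) = (((R ∪ S)ᶜ).card : ℝ) + ((R ∪ S).card : ℝ) := by
      have := card_add_card_compl (R ∪ S)
      rw [← this]; push_cast; ring
    have hlog2 : Real.log 2 ≤ 1 := by
      have := Real.log_two_lt_d9; linarith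
    have hlog2' : 0 ≤ Real.log 2 := Real.log_nonneg (by norm_num)
    have hNnn : 0 ≤ N := by rw [hN]; positivity
    have hfin : (Fintype.card ι : ℝ) * Real.log 2 + Real.log (q y)
        ≤ Psi (R ∪ S) q + η ^ 2 * N + ((R ∪ S).card : ℝ) + pen q0 X q q' + 4 * η * N := by
      rw [hlog, hcard]
      have e5 : ((R ∪ S).card : ℝ) * Real.log 2 ≤ ((R ∪ S).card : ℝ) :=
        mul_le_of_le_one_right (by positivity) hlog2
      have e6 : 2 * (1 / 2 - nu) * ∑ i ∈ (R ∪ S)ᶜ, mean q i * (sg (y i) - mean q i)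
          ≤ 2 * (1 / 2 - nu) * (2 * η * N) :=
        mul_le_mul_of_nonneg_left c1 (by linarith)
      have e7 : 0 ≤ η * N := mul_nonneg hη hNnn
      have e8 : 0 ≤ η ^ 2 * N := by positivity
      linarith
    calc 2 ^ Fintype.card ι * q y = Real.exp ((Fintype.card ι : ℝ) * Real.log 2 + Real.log (q y)) := by
          rw [Real.exp_add, Real.exp_log hpos, ← Real.log_pow, Real.exp_log (by positivity)]
      _ ≤ _ := Real.exp_le_exp.mpr hfin
  · rw [hq.supp y hy, mul_zero]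
    exact (Real.exp_pos _).le

end

end Pool.Agent.MP3884c4
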