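import Pool.Agent.Lib.MP_3884c4_co.Aml

/-!
Reveal step: revealing one common coordinate `c` in both replicas, with a coupling.
-/

set_option autoImplicit false

noncomputable section

namespace Pool.Agent.MP3884c4

open Finset

/-- Gibbs inequality for one term -/
theorem gibbs_term {P Q : ℝ} (hP : 0 ≤ P) (hQ : 0 < Q) :
    P - Q ≤ P * Real.log P - P * Real.log Q := by
  rcases hP.eq_or_lt with h | h
  · subst h; simp; exact hQ.le
  · have h1 := Real.log_le_sub_one_of_pos (div_pos hQ h)
    rw [Real.log_div hQ.ne' h.ne'] at h1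
    have h2 : P * (Real.log Q - Real.log P) ≤ P * (Q / P - 1) :=
      mul_le_mul_of_nonneg_left h1 h.le
    have h3 : P * (Q / P - 1) = Q - P := by field_simp
    rw [h3] at h2
    linarith

/-- binary entropy inequality `log 2 - H ≥ m²/2` in terms of probabilities -/
theorem binary_entropy {P Q : ℝ} (hP : 0 ≤ P) (hQ : 0 ≤ Q) (h1 : P + Q = 1) :
    (P - Q) ^ 2 / 2 ≤ Real.log 2 + P * Real.log P + Q * Real.log Q := by
  set m := P - Q with hm
  have hc : 0 < Real.cosh m := Real.cosh_pos m
  have g1 := gibbs_term hP (Q := Real.exp m / (2 * Real.cosh m)) (by positivity)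
  have g2 := gibbs_term hQ (Q := Real.exp (-m) / (2 * Real.cosh m)) (by positivity)
  have hsum : Real.exp m / (2 * Real.cosh m) + Real.exp (-m) / (2 * Real.cosh m) = 1 := by
    rw [← add_div, Real.cosh_eq]
    have : Real.exp m + Real.exp (-m) ≠ 0 := by positivity
    field_simp
  have l1 : Real.log (Real.exp m / (2 * Real.cosh m)) = m - Real.log 2 - Real.log (Real.cosh m) := by
    rw [Real.log_div (Real.exp_pos _).ne' (by positivity), Real.log_exp,
      Real.log_mul (by norm_num) hc.ne']; ring
  have l2 : Real.log (Real.exp (-m) / (2 * Real.cosh m))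
      = -m - Real.log 2 - Real.log (Real.cosh m) := by
    rw [Real.log_div (Real.exp_pos _).ne' (by positivity), Real.log_exp,
      Real.log_mul (by norm_num) hc.ne']; ring
  rw [l1] at g1
  rw [l2] at g2
  have hch : Real.log (Real.cosh m) ≤ m ^ 2 / 2 := by
    have := Real.cosh_le_exp_half_sq m
    calc Real.log (Real.cosh m) ≤ Real.log (Real.exp (m ^ 2 / 2)) := Real.log_le_log hc this
      _ = m ^ 2 / 2 := Real.log_exp _
  have e3 : P * (m - Real.log 2 - Real.log (Real.cosh m))
      + Q * (-m - Real.log 2 - Real.log (Real.cosh m))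
      = m ^ 2 - Real.log 2 - Real.log (Real.cosh m) := by
    have e : m ^ 2 = P * m - Q * m := by rw [hm]; ring
    rw [e]
    linear_combination (-(Real.log 2) - Real.log (Real.cosh m)) * h1
  linarith

section

variable {ι : Type*} [Fintype ι] [DecidableEq ι]

/-- probability that the bit `c` equals `s` -/
def pm (p : (ι → Bool) → ℝ) (c : ι) (s : Bool) : ℝ := ∑ y, if y c = s then p y else 0

/-- conditional vector given that the bit `c` equals `s` -/
def rv (p : (ι → Bool) → ℝ) (c : ι) (s : Bool) : (ι → Bool) → ℝ :=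
  fun y => if y c = s then p y / pm p c s else 0

variable {G : Finset (ι → Bool)} {p : (ι → Bool) → ℝ} {c : ι}

theorem pm_nonneg (hp : ∀ y, 0 ≤ p y) (s : Bool) : 0 ≤ pm p c s :=
  sum_nonneg fun y _ => by split_ifs; exacts [hp y, le_rfl]

theorem pm_sum (hp : IsPr G p) (c : ι) : pm p c true + pm p c false = 1 := by
  unfold pm
  rw [← sum_add_distrib, ← hp.sum_eq]
  refine sum_congr rfl fun y _ => ?_
  cases y c <;> simp

theorem mul_rv (hp : ∀ y, 0 ≤ p y) (s : Bool) (y : ι → Bool) :
    pm p c s * rv p c s y = if y c = s then p y else 0 := by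
  unfold rv
  split_ifs with h
  · by_cases h0 : pm p c s = 0
    · rw [h0, zero_mul]
      unfold pm at h0
      rw [sum_eq_zero_iff_of_nonneg (fun y _ => by split_ifs; exacts [hp y, le_rfl])] at h0
      have := h0 y (mem_univ y)
      rw [if_pos h] at this
      exact this.symm
    · field_simp
  · simp

theorem mean_pm (p : (ι → Bool) → ℝ) (c : ι) : mean p c = pm p c true - pm p c false := by
  unfold mean pm
  rw [← sum_sub_distrib]
  refine sum_congr rfl fun y _ => ?_
  cases h : y c <;> simp [sg]

/-- expectation under `rv` times probability -/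
theorem pm_mul_sum (hp : ∀ y, 0 ≤ p y) (s : Bool) (f : (ι → Bool) → ℝ) :
    pm p c s * ∑ y, rv p c s y * f y = ∑ y, if y c = s then p y * f y else 0 := by
  rw [mul_sum]
  refine sum_congr rfl fun y _ => ?_
  rw [← mul_assoc, mul_rv hp]
  split_ifs <;> simp

theorem mean_split (hp : ∀ y, 0 ≤ p y) (i : ι) :
    mean p i = pm p c true * mean (rv p c true) i + pm p c false * mean (rv p c false) i := by
  unfold mean
  rw [pm_mul_sum hp, pm_mul_sum hp, ← sum_add_distrib]
  refine sum_congr rfl fun y _ => ?_
  cases h : y c <;> simp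

theorem isPr_rv {h : Finset (ι → Bool)} {S : Finset ι} {a : ι → Bool} (hp : IsPr (slice h S a) p)
    (hc : c ∉ S) {s : Bool} (hs : 0 < pm p c s) :
    IsPr (slice h (insert c S) (Function.update a c s)) (rv p c s) := by
  refine ⟨fun y => ?_, fun y hy => ?_, ?_⟩
  · unfold rv
    split_ifs
    · exact div_nonneg (hp.nonneg y) hs.le
    · exact le_rfl
  · unfold rv
    split_ifs with hyc
    · have : y ∉ slice h S a := by
        intro hmem
        apply hy
        unfold slice at hmem ⊢
        rw [mem_filter] at hmem ⊢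
        refine ⟨hmem.1, fun i hi => ?_⟩
        rcases mem_insert.mp hi with rfl | hi'
        · simpa using hyc
        · have hne : i ≠ c := fun h => hc (h ▸ hi')
          rw [Function.update_of_ne hne]
          exact hmem.2 i hi'
      rw [hp.supp y this]; simp
    · rfl
  · have := pm_mul_sum (c := c) hp.nonneg s (fun _ => 1)
    simp only [mul_one] at this
    have h2 : pm p c s * ∑ y, rv p c s y = pm p c s := this
    exact mul_left_cancel₀ hs.ne' (by rw [h2, mul_one])

/-- displacement of the mean when the bit `c` is revealed -/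
def disp (p : (ι → Bool) → ℝ) (c : ι) (T : Finset ι) : ℝ :=
  ∑ i ∈ T, pm p c true * pm p c false * (mean (rv p c true) i - mean (rv p c false) i) ^ 2

theorem sq_split (hp : IsPr G p) (T : Finset ι) (r : ι → ℝ) :
    pm p c true * ∑ i ∈ T, (mean (rv p c true) i - r i) ^ 2
      + pm p c false * ∑ i ∈ T, (mean (rv p c false) i - r i) ^ 2
      = ∑ i ∈ T, (mean p i - r i) ^ 2 + disp p c T := by
  unfold disp
  rw [mul_sum, mul_sum, ← sum_add_distrib, ← sum_add_distrib]
  refine sum_congr rfl fun i _ => ?_
  rw [mean_split (c := c) hp.nonneg i]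
  have h1 := pm_sum hp c
  have h2 : pm p c true = 1 - pm p c false := by linarith
  rw [h2]; ring

theorem cov_sq_le_disp (hp : IsPr G p) (T : Finset ι) :
    ∑ i ∈ T, (cov p c i) ^ 2 ≤ disp p c T := by
  unfold disp
  refine sum_le_sum fun i _ => ?_
  have h1 := pm_sum hp c
  have ht := pm_nonneg (c := c) hp.nonneg true
  have hf := pm_nonneg (c := c) hp.nonneg false
  have hcov : cov p c i = 2 * (pm p c true * pm p c false
      * (mean (rv p c true) i - mean (rv p c false) i)) := by
    have e1 : cov p c i = ∑ y, (if y c = true then p y * (2 * pm p c false * (sg (y i) - mean p i))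
        else 0) + ∑ y, (if y c = false then p y * (-(2 * pm p c true) * (sg (y i) - mean p i))
        else 0) := by
      unfold cov
      rw [← sum_add_distrib]
      refine sum_congr rfl fun y _ => ?_
      rw [mean_pm p c]
      cases h : y c
      · have e : sg false - (pm p c true - pm p c false) = -(2 * pm p c true) := by
          simp only [sg]; norm_num; linarith
        rw [e]; simp
      · have e : sg true - (pm p c true - pm p c false) = 2 * pm p c false := by
          simp only [sg]; norm_num; linarith
        rw [e]; simp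
    rw [e1, ← pm_mul_sum hp.nonneg, ← pm_mul_sum hp.nonneg]
    have e2 : ∀ s : Bool, pm p c s * ∑ y, rv p c s y * (sg (y i) - mean p i)
        = pm p c s * (mean (rv p c s) i - mean p i) := by
      intro s
      have : ∑ y, rv p c s y * (sg (y i) - mean p i)
          = mean (rv p c s) i - mean p i * ∑ y, rv p c s y := by
        unfold mean
        rw [mul_sum, ← sum_sub_distrib]
        exact sum_congr rfl fun y _ => by ring
      rw [this]
      have h3 := pm_mul_sum (c := c) hp.nonneg s (fun _ => 1)
      simp only [mul_one] at h3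
      have h4 : pm p c s * ∑ y, rv p c s y = pm p c s := h3
      rw [mul_sub, mul_left_comm, h4]
      ring
    have e3 : ∀ (s : Bool) (k : ℝ), pm p c s * ∑ y, rv p c s y * (k * (sg (y i) - mean p i))
        = k * (pm p c s * (mean (rv p c s) i - mean p i)) := by
      intro s k
      have : ∑ y, rv p c s y * (k * (sg (y i) - mean p i))
          = k * ∑ y, rv p c s y * (sg (y i) - mean p i) := by
        rw [mul_sum]; exact sum_congr rfl fun y _ => by ring
      rw [this, ← e2 s]; ring
    rw [e3, e3, mean_split (c := c) hp.nonneg i]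
    have h2 : pm p c true = 1 - pm p c false := by linarith
    rw [h2]; ring
  rw [hcov]
  have h4 : 4 * (pm p c true * pm p c false) ≤ 1 := by nlinarith [sq_nonneg (pm p c true - pm p c false)]
  have h5 : 0 ≤ pm p c true * pm p c false := mul_nonneg ht hf
  have h6 : 0 ≤ (mean (rv p c true) i - mean (rv p c false) i) ^ 2 := sq_nonneg _
  nlinarith [mul_nonneg h5 h6]

theorem ent_split (hp : IsPr G p) (c : ι) :
    pm p c true * ent (rv p c true) + pm p c false * ent (rv p c false)
      = ent p - pm p c true * Real.log (pm p c true) - pm p c false * Real.log (pm p c false) := by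
  have h1 : ∀ s, pm p c s * ent (rv p c s)
      = (∑ y, if y c = s then p y * Real.log (p y) else 0) - pm p c s * Real.log (pm p c s) := by
    intro s
    unfold ent
    rw [pm_mul_sum hp.nonneg]
    have h2 : pm p c s * Real.log (pm p c s)
        = ∑ y, if y c = s then p y * Real.log (pm p c s) else 0 := by
      conv_lhs => rw [pm]
      rw [sum_mul]
      refine sum_congr rfl fun y _ => ?_
      split_ifs <;> simp [pm]
    rw [h2, ← sum_sub_distrib]
    refine sum_congr rfl fun y _ => ?_
    split_ifs with h
    · by_cases hy : p y = 0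
      · simp [hy]
      · have hpm : pm p c s ≠ 0 := by
          intro h0
          have := mul_rv (c := c) hp.nonneg s y
          rw [h0, if_pos h, zero_mul] at this
          exact hy this.symm
        have : rv p c s y = p y / pm p c s := by simp [rv, h]
        rw [this, Real.log_div hy hpm]; ring
    · simp
  rw [h1, h1]
  have h3 : ent p = (∑ y, if y c = true then p y * Real.log (p y) else 0)
      + ∑ y, if y c = false then p y * Real.log (p y) else 0 := by
    unfold ent
    rw [← sum_add_distrib]
    refine sum_congr rfl fun y _ => ?_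
    cases h : y c <;> simp
  rw [h3]; ring

theorem Psi_split (hp : IsPr G p) {R : Finset ι} (hc : c ∉ R) :
    pm p c true * Psi (insert c R) (rv p c true) + pm p c false * Psi (insert c R) (rv p c false)
      ≤ Psi R p - 1 / 2 * disp p c (insert c R)ᶜ := by
  have hs := sq_split (c := c) hp (insert c R)ᶜ (fun _ => 0)
  simp only [sub_zero] at hs
  have he := ent_split hp c
  have h1 := pm_sum hp c
  have ht := pm_nonneg (c := c) hp.nonneg true
  have hf := pm_nonneg (c := c) hp.nonneg false
  have hb := binary_entropy ht hf h1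
  rw [← mean_pm] at hb
  rw [Psi_eq, Psi_eq, Psi_eq]
  have hcard : ((Rᶜ).card : ℝ) = (((insert c R)ᶜ).card : ℝ) + 1 := by
    have : Rᶜ = insert c (insert c R)ᶜ := by
      ext i; simp only [mem_compl, mem_insert]; 
      by_cases h : i = c
      · subst h; simp [hc]
      · simp [h]
    rw [this, card_insert_of_notMem (by simp)]
    push_cast; ring
  have hsum : ∑ i ∈ Rᶜ, (mean p i) ^ 2 = (mean p c) ^ 2 + ∑ i ∈ (insert c R)ᶜ, (mean p i) ^ 2 := by
    have : Rᶜ = insert c (insert c R)ᶜ := by
      ext i; simp only [mem_compl, mem_insert]; 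
      by_cases h : i = c
      · subst h; simp [hc]
      · simp [h]
    rw [this, sum_insert (by simp)]
  rw [hcard, hsum]
  have e5 : ∀ a L x y u v P Q : ℝ, P * (a * L + x - 1 / 2 * u) + Q * (a * L + y - 1 / 2 * v)
      = a * L * (P + Q) + (P * x + Q * y) - 1 / 2 * (P * u + Q * v) := by intros; ring
  rw [e5, h1, he, hs]
  linarith

/-- pair sums restricted to values of the bit `c` -/
def qq (F : (ι → Bool) → (ι → Bool) → ℝ) (c : ι) (s t : Bool) : ℝ :=
  ∑ y, ∑ z, if y c = s ∧ z c = t then F y z else 0

theorem pen_rv {p' : (ι → Bool) → ℝ} (hp : ∀ y, 0 ≤ p y) (hp' : ∀ y, 0 ≤ p' y)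
    (q0 X : ℤ) (c : ι) (s t : Bool) :
    pm p c s * pm p' c t * pen q0 X (rv p c s) (rv p' c t)
      = qq (fun y z => p y * p' z * |((q0 + ip y z - X : ℤ) : ℝ)|) c s t := by
  unfold pen qq
  rw [mul_sum]
  refine sum_congr rfl fun y _ => ?_
  rw [mul_sum]
  refine sum_congr rfl fun z _ => ?_
  have h1 := mul_rv (c := c) hp s y
  have h2 := mul_rv (c := c) hp' t z
  calc pm p c s * pm p' c t * (rv p c s y * rv p' c t z * |((q0 + ip y z - X : ℤ) : ℝ)|)
      = (pm p c s * rv p c s y) * (pm p' c t * rv p' c t z) * |((q0 + ip y z - X : ℤ) : ℝ)| := by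
        ring
    _ = _ := by
        rw [h1, h2]
        by_cases a1 : y c = s <;> by_cases a2 : z c = t <;> simp [a1, a2]

theorem qq_sum (F : (ι → Bool) → (ι → Bool) → ℝ) (c : ι) (w : Bool → Bool → ℝ) :
    w true true * qq F c true true + w true false * qq F c true false
      + w false true * qq F c false true + w false false * qq F c false false
      = ∑ y, ∑ z, w (y c) (z c) * F y z := by
  unfold qq
  simp only [mul_sum, ← sum_add_distrib]
  refine sum_congr rfl fun y _ => sum_congr rfl fun z _ => ?_
  cases h1 : y c <;> cases h2 : z c <;> simp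

theorem sg_sub_mean (hp : IsPr G p) (c : ι) (s : Bool) :
    sg s - mean p c = 2 * sg s * pm p c (!s) := by
  have h1 := pm_sum hp c
  rw [mean_pm]
  cases s
  · simp [sg]; linarith
  · simp [sg]; linarith

/-- one-coordinate reveal step at a minimiser of `Th`, `σ ∈ [-1,1]` -/
theorem reveal_step {q0 X : ℤ} {lam nu : ℝ} (hnu : 0 ≤ nu) (hnu' : nu ≤ 1 / 2)
    {r r' : ι → ℝ} {R R' S : Finset ι} {h h' : Finset (ι → Bool)} {a a' : ι → Bool}
    {p p' : (ι → Bool) → ℝ} {c : ι} (hc : c ∉ R ∪ R' ∪ S)
    (hp : IsPr (slice h S a) p) (hp' : IsPr (slice h' S a') p')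
    (hmin : ∀ (b b' : ι → Bool) (q q' : (ι → Bool) → ℝ), IsPr (slice h (insert c S) b) q →
      IsPr (slice h' (insert c S) b') q' →
      Th q0 X lam nu r r' R R' S p p' ≤ Th q0 X lam nu r r' R R' (insert c S) q q')
    (σ : ℝ) (hσ : |σ| ≤ 1) :
    0 ≤ 2 * lam
      - (1 / 2 - nu) * (∑ i ∈ ((R ∪ S)ᶜ).erase c, (cov p c i) ^ 2
          + ∑ i ∈ ((R' ∪ S)ᶜ).erase c, (cov p' c i) ^ 2)
      + σ / 4 * ∑ y, ∑ z, p y * p' z * (|((q0 + ip y z - X : ℤ) : ℝ)|
          * ((sg (y c) - mean p c) * (sg (z c) - mean p' c))) := by
  simp only [mem_union, not_or] at hc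
  obtain ⟨⟨hcR, hcR'⟩, hcS⟩ := hc
  have hcRS : c ∉ R ∪ S := by simp [hcR, hcS]
  have hcRS' : c ∉ R' ∪ S := by simp [hcR', hcS]
  have hins : R ∪ insert c S = insert c (R ∪ S) := by rw [union_insert]
  have hins' : R' ∪ insert c S = insert c (R' ∪ S) := by rw [union_insert]
  have hσ' := abs_le.mp hσ
  -- probabilities
  set P : Bool → ℝ := pm p c with hP
  set P' : Bool → ℝ := pm p' c with hP'
  have hP1 : P true + P false = 1 := pm_sum hp c
  have hP1' : P' true + P' false = 1 := pm_sum hp' c
  have hP0 : ∀ s, 0 ≤ P s := pm_nonneg hp.nonneg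
  have hP0' : ∀ s, 0 ≤ P' s := pm_nonneg hp'.nonneg
  -- coupling weights
  set u : Bool → Bool → ℝ := fun s t => 1 + σ * (sg s * sg t * (P (!s) * P' (!t))) with hu
  have hu0 : ∀ s t, 0 ≤ u s t := by
    intro s t
    have h1 : P (!s) * P' (!t) ≤ 1 := by
      have h2 : P (!s) ≤ 1 := by
        have := hP0 s
        cases s <;> simp at this ⊢ <;> linarith
      have h3 : P' (!t) ≤ 1 := by
        have := hP0' t
        cases t <;> simp at this ⊢ <;> linarith
      exact mul_le_one₀ h2 (hP0' _) h3
    have h2 : 0 ≤ P (!s) * P' (!t) := mul_nonneg (hP0 _) (hP0' _)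
    simp only [hu]
    generalize P (!s) * P' (!t) = w at h1 h2 ⊢
    have h3 : σ * w ≤ 1 := by nlinarith
    have h4 : -1 ≤ σ * w := by nlinarith
    cases s <;> cases t <;> simp [sg] <;> linarith
  -- the inequality for every pair
  have hpair : ∀ s t, u s t * (P s * P' t) * Th q0 X lam nu r r' R R' S p p'
      ≤ u s t * (P s * P' t) * Th q0 X lam nu r r' R R' (insert c S) (rv p c s) (rv p' c t) := by
    intro s t
    rcases (hP0 s).eq_or_lt with h1 | h1
    · rw [← h1]; simp
    · rcases (hP0' t).eq_or_lt with h2 | h2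
      · rw [← h2]; simp
      · refine mul_le_mul_of_nonneg_left ?_ (mul_nonneg (hu0 s t) (mul_nonneg h1.le h2.le))
        exact hmin _ _ _ _ (isPr_rv hp hcS h1) (isPr_rv hp' hcS h2)
  -- abbreviations
  set A : Bool → ℝ := fun s => Psi (insert c (R ∪ S)) (rv p c s)
    + nu * ∑ i ∈ (insert c (R ∪ S))ᶜ, (mean (rv p c s) i - r i) ^ 2 with hA
  set B : Bool → ℝ := fun t => Psi (insert c (R' ∪ S)) (rv p' c t)
    + nu * ∑ i ∈ (insert c (R' ∪ S))ᶜ, (mean (rv p' c t) i - r' i) ^ 2 with hB
  have hTh : ∀ s t, Th q0 X lam nu r r' R R' (insert c S) (rv p c s) (rv p' c t)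
      = A s + B t + pen q0 X (rv p c s) (rv p' c t) + 2 * lam * ((S.card : ℝ) + 1) := by
    intro s t
    unfold Th
    rw [hins, hins', card_insert_of_notMem hcS]
    simp only [hA, hB]
    push_cast
    ring
  have hAsum : P true * A true + P false * A false
      ≤ Psi (R ∪ S) p + nu * ∑ i ∈ (R ∪ S)ᶜ, (mean p i - r i) ^ 2
        - (1 / 2 - nu) * ∑ i ∈ ((R ∪ S)ᶜ).erase c, (cov p c i) ^ 2 := by
    have h1 := Psi_split hp hcRS
    have h2 := sq_split (c := c) hp (insert c (R ∪ S))ᶜ r
    have h3 := cov_sq_le_disp (c := c) hp (insert c (R ∪ S))ᶜ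
    have he : ((R ∪ S)ᶜ).erase c = (insert c (R ∪ S))ᶜ := by
      rw [compl_insert]
    rw [he]
    have h4 : ∑ i ∈ (insert c (R ∪ S))ᶜ, (mean p i - r i) ^ 2
        ≤ ∑ i ∈ (R ∪ S)ᶜ, (mean p i - r i) ^ 2 := by
      refine sum_le_sum_of_subset_of_nonneg ?_ (fun i _ _ => sq_nonneg _)
      rw [compl_insert]
      exact erase_subset _ _
    have h5 : P true * A true + P false * A false
        = (P true * Psi (insert c (R ∪ S)) (rv p c true)
          + P false * Psi (insert c (R ∪ S)) (rv p c false))
          + nu * (P true * ∑ i ∈ (insert c (R ∪ S))ᶜ, (mean (rv p c true) i - r i) ^ 2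
          + P false * ∑ i ∈ (insert c (R ∪ S))ᶜ, (mean (rv p c false) i - r i) ^ 2) := by
      simp only [hA]; ring
    rw [h5, h2]
    nlinarith
  have hBsum : P' true * B true + P' false * B false
      ≤ Psi (R' ∪ S) p' + nu * ∑ i ∈ (R' ∪ S)ᶜ, (mean p' i - r' i) ^ 2
        - (1 / 2 - nu) * ∑ i ∈ ((R' ∪ S)ᶜ).erase c, (cov p' c i) ^ 2 := by
    have h1 := Psi_split hp' hcRS'
    have h2 := sq_split (c := c) hp' (insert c (R' ∪ S))ᶜ r'
    have h3 := cov_sq_le_disp (c := c) hp' (insert c (R' ∪ S))ᶜ
    have he : ((R' ∪ S)ᶜ).erase c = (insert c (R' ∪ S))ᶜ := by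
      rw [compl_insert]
    rw [he]
    have h4 : ∑ i ∈ (insert c (R' ∪ S))ᶜ, (mean p' i - r' i) ^ 2
        ≤ ∑ i ∈ (R' ∪ S)ᶜ, (mean p' i - r' i) ^ 2 := by
      refine sum_le_sum_of_subset_of_nonneg ?_ (fun i _ _ => sq_nonneg _)
      rw [compl_insert]
      exact erase_subset _ _
    have h5 : P' true * B true + P' false * B false
        = (P' true * Psi (insert c (R' ∪ S)) (rv p' c true)
          + P' false * Psi (insert c (R' ∪ S)) (rv p' c false))
          + nu * (P' true * ∑ i ∈ (insert c (R' ∪ S))ᶜ, (mean (rv p' c true) i - r' i) ^ 2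
          + P' false * ∑ i ∈ (insert c (R' ∪ S))ᶜ, (mean (rv p' c false) i - r' i) ^ 2) := by
      simp only [hB]; ring
    rw [h5, h2]
    nlinarith
  -- penalty
  set F : (ι → Bool) → (ι → Bool) → ℝ := fun y z => p y * p' z * |((q0 + ip y z - X : ℤ) : ℝ)|
    with hF
  have hpen : ∀ s t, P s * P' t * pen q0 X (rv p c s) (rv p' c t) = qq F c s t :=
    fun s t => pen_rv hp.nonneg hp'.nonneg q0 X c s t
  have hpensum : u true true * qq F c true true + u true false * qq F c true false
      + u false true * qq F c false true + u false false * qq F c false false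
      = pen q0 X p p' + σ / 4 * ∑ y, ∑ z, p y * p' z * (|((q0 + ip y z - X : ℤ) : ℝ)|
          * ((sg (y c) - mean p c) * (sg (z c) - mean p' c))) := by
    rw [qq_sum]
    unfold pen
    rw [mul_sum, ← sum_add_distrib]
    refine sum_congr rfl fun y _ => ?_
    rw [mul_sum, ← sum_add_distrib]
    refine sum_congr rfl fun z _ => ?_
    rw [sg_sub_mean hp, sg_sub_mean hp']
    simp only [hu, hF, hP, hP']
    ring
  -- sum of the four inequalities
  have hsumw : ∀ T : ℝ, u true true * (P true * P' true) * T + u true false * (P true * P' false) * T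
      + u false true * (P false * P' true) * T + u false false * (P false * P' false) * T = T := by
    intro T
    simp only [hu, sg]
    have e1 : P true = 1 - P false := by linarith
    have e2 : P' true = 1 - P' false := by linarith
    simp only [Bool.not_true, Bool.not_false, if_true, Bool.false_eq_true, if_false]
    rw [e1, e2]; ring
  have hsumA : u true true * (P true * P' true) * A true + u true false * (P true * P' false) * A true
      + u false true * (P false * P' true) * A false + u false false * (P false * P' false) * A false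
      = P true * A true + P false * A false := by
    simp only [hu, sg]
    have e2 : P' true = 1 - P' false := by linarith
    simp only [Bool.not_true, Bool.not_false, if_true, Bool.false_eq_true, if_false]
    rw [e2]; ring
  have hsumB : u true true * (P true * P' true) * B true + u true false * (P true * P' false) * B false
      + u false true * (P false * P' true) * B true + u false false * (P false * P' false) * B false
      = P' true * B true + P' false * B false := by
    simp only [hu, sg]
    have e2 : P true = 1 - P false := by linarith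
    simp only [Bool.not_true, Bool.not_false, if_true, Bool.false_eq_true, if_false]
    rw [e2]; ring
  have i1 := hpair true true
  have i2 := hpair true false
  have i3 := hpair false true
  have i4 := hpair false false
  rw [hTh] at i1 i2 i3 i4
  have t1 := hpen true true
  have t2 := hpen true false
  have t3 := hpen false true
  have t4 := hpen false false
  have hTS : Th q0 X lam nu r r' R R' S p p' = Psi (R ∪ S) p + Psi (R' ∪ S) p' + pen q0 X p p'
    + nu * (∑ i ∈ (R ∪ S)ᶜ, (mean p i - r i) ^ 2 + ∑ i ∈ (R' ∪ S)ᶜ, (mean p' i - r' i) ^ 2)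
    + 2 * lam * (S.card : ℝ) := rfl
  have hl := hsumw (Th q0 X lam nu r r' R R' S p p')
  have hcst := hsumw (2 * lam * ((S.card : ℝ) + 1))
  have i5 : Th q0 X lam nu r r' R R' S p p' ≤
      (P true * A true + P false * A false) + (P' true * B true + P' false * B false)
      + (u true true * qq F c true true + u true false * qq F c true false
      + u false true * qq F c false true + u false false * qq F c false false)
      + 2 * lam * ((S.card : ℝ) + 1) := by
    rw [← t1, ← t2, ← t3, ← t4, ← hsumA, ← hsumB]
    linarith [i1, i2, i3, i4, hl, hcst]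
  rw [hpensum, hTS] at i5
  linarith [i5, hAsum, hBsum]

end

end Pool.Agent.MP3884c4
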