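import Pool.Agent.Lib.MP_3884c4_co.Geom

/-!
# Comparison of the numbers of integer points of two balls
-/

set_option autoImplicit false
set_option linter.unusedSectionVars false

namespace Pool.Agent.Lib.MP_3884c4_co

open Finset MeasureTheory

/-- the points with floor `z` -/
def cell {n : ℕ} (z : Fin n → ℤ) : Set (EuclideanSpace ℝ (Fin n)) := {y | fl y = z}

theorem cell_eq {n : ℕ} (z : Fin n → ℤ) :
    cell z = (fun y => y + toE (-z)) ⁻¹' cell (0 : Fin n → ℤ) := by
  ext y
  simp only [cell, Set.mem_ofPred_eq, Set.mem_preimage]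
  constructor
  · intro h
    funext i
    have := congrFun h i
    simp only [fl] at this
    simp [fl, toE, this, ← sub_eq_add_neg]
  · intro h
    funext i
    have := congrFun h i
    simp only [fl, toE, PiLp.add_apply, Pi.neg_apply, Int.cast_neg, ← sub_eq_add_neg,
      Int.floor_sub_intCast, Pi.zero_apply] at this
    simp only [fl]
    omega

theorem measurableSet_cell {n : ℕ} (z : Fin n → ℤ) : MeasurableSet (cell z) := by
  have : cell z = ⋂ i, {y : EuclideanSpace ℝ (Fin n) | ⌊y i⌋ = z i} := by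
    ext y
    simp only [cell, Set.mem_ofPred_eq, Set.mem_iInter]
    exact funext_iff
  rw [this]
  refine MeasurableSet.iInter (fun i => ?_)
  have h1 : Measurable (fun y : EuclideanSpace ℝ (Fin n) => ⌊y i⌋) := by
    apply Measurable.floor
    fun_prop
  exact h1 (measurableSet_singleton (z i))

theorem volume_cell {n : ℕ} (z : Fin n → ℤ) : volume (cell z) = volume (cell (0 : Fin n → ℤ)) := by
  rw [cell_eq]
  exact measure_preimage_add_right volume _ _

theorem volume_union {n : ℕ} (A : Finset (Fin n → ℤ)) :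
    volume (⋃ z ∈ A, cell z) = A.card * volume (cell (0 : Fin n → ℤ)) := by
  rw [measure_biUnion_finset]
  · rw [Finset.sum_congr rfl (fun z _ => volume_cell z), Finset.sum_const, nsmul_eq_mul]
  · intro z _ w _ hzw
    rw [Function.onFun, Set.disjoint_left]
    intro y hy hy'
    exact hzw (hy.symm.trans hy')
  · exact fun z _ => measurableSet_cell z

theorem vol_upper {n S : ℕ} {r : ℝ} (h0 : 0 ≤ r) (hr : r ≤ S) :
    ((zball n S r).card : ENNReal) * volume (cell (0 : Fin n → ℤ))
      ≤ ENNReal.ofReal ((r + √n) ^ n) * volume (Metric.ball (0 : EuclideanSpace ℝ (Fin n)) 1) := by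
  rw [← volume_union]
  have h1 : (⋃ z ∈ zball n S r, cell z) ⊆ Metric.closedBall (0 : EuclideanSpace ℝ (Fin n)) (r + √n) := by
    intro y hy
    rw [Set.mem_iUnion₂] at hy
    obtain ⟨z, hz, hyz⟩ := hy
    rw [mem_zball hr] at hz
    rw [mem_closedBall_zero_iff]
    have h2 := norm_sub_fl y
    have h3 : fl y = z := hyz
    rw [h3] at h2
    calc ‖y‖ = ‖(y - toE z) + toE z‖ := by rw [sub_add_cancel]
      _ ≤ ‖y - toE z‖ + ‖toE z‖ := norm_add_le _ _
      _ ≤ r + √n := by linarith
  refine (measure_mono h1).trans (le_of_eq ?_)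
  rw [Measure.addHaar_closedBall _ _ (by positivity), finrank_euclideanSpace_fin]

theorem vol_lower {n S : ℕ} {r : ℝ} (h0 : √n ≤ r) (hr : r ≤ S) :
    ENNReal.ofReal ((r - √n) ^ n) * volume (Metric.ball (0 : EuclideanSpace ℝ (Fin n)) 1)
      ≤ ((zball n S r).card : ENNReal) * volume (cell (0 : Fin n → ℤ)) := by
  rw [← volume_union]
  have h1 : Metric.closedBall (0 : EuclideanSpace ℝ (Fin n)) (r - √n) ⊆ (⋃ z ∈ zball n S r, cell z) := by
    intro y hy
    rw [mem_closedBall_zero_iff] at hy
    rw [Set.mem_iUnion₂]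
    refine ⟨fl y, ?_, rfl⟩
    rw [mem_zball hr]
    have h2 := norm_sub_fl y
    calc ‖toE (fl y)‖ = ‖y - (y - toE (fl y))‖ := by rw [sub_sub_cancel]
      _ ≤ ‖y‖ + ‖y - toE (fl y)‖ := norm_sub_le _ _
      _ ≤ r := by linarith
  refine (le_of_eq ?_).trans (measure_mono h1)
  rw [Measure.addHaar_closedBall _ _ (by linarith), finrank_euclideanSpace_fin]

theorem ratio {n S : ℕ} {r r' : ℝ} (h0 : 0 ≤ r) (hr : r ≤ S) (h0' : √n ≤ r') (hr' : r' ≤ S) :
    ((zball n S r).card : ℝ) * (r' - √n) ^ n ≤ (zball n S r').card * (r + √n) ^ n := by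
  set v := volume (Metric.ball (0 : EuclideanSpace ℝ (Fin n)) 1) with hv
  set c := volume (cell (0 : Fin n → ℤ)) with hc
  have hv0 : v ≠ 0 := (Metric.measure_ball_pos volume 0 one_pos).ne'
  have hvt : v ≠ ⊤ := measure_ball_lt_top.ne
  -- finiteness and positivity of the cell
  have hct : c ≠ ⊤ := by
    have h1 := vol_upper (n := n) (S := 0) (r := 0) le_rfl (by norm_num)
    have h2 : (0 : Fin n → ℤ) ∈ zball n 0 0 := by
      rw [mem_zball (by norm_num)]
      have : toE (0 : Fin n → ℤ) = 0 := by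
        ext i
        simp
      rw [this, norm_zero]
    intro h
    rw [← hc, ← hv, h, ENNReal.mul_top] at h1
    · rw [top_le_iff] at h1
      exact (ENNReal.mul_ne_top ENNReal.ofReal_ne_top hvt) h1
    · exact_mod_cast (Finset.card_pos.2 ⟨_, h2⟩).ne'
  have hc0 : c ≠ 0 := by
    obtain ⟨T, hT⟩ := exists_nat_ge (√n + 1)
    have h1 := vol_lower (n := n) (S := T) (r := √n + 1) (by linarith) hT
    intro h
    rw [← hc, ← hv, h, mul_zero, add_sub_cancel_left, one_pow, ENNReal.ofReal_one, one_mul] at h1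
    exact hv0 (le_antisymm h1 zero_le)
  have hcr : 0 < c.toReal := ENNReal.toReal_pos hc0 hct
  have hvr : 0 < v.toReal := ENNReal.toReal_pos hv0 hvt
  have h1 : (((zball n S r).card : ENNReal) * c).toReal
      ≤ (ENNReal.ofReal ((r + √n) ^ n) * v).toReal :=
    ENNReal.toReal_mono (ENNReal.mul_ne_top ENNReal.ofReal_ne_top hvt)
      (vol_upper (n := n) (S := S) h0 hr)
  have h2 : (ENNReal.ofReal ((r' - √n) ^ n) * v).toReal
      ≤ (((zball n S r').card : ENNReal) * c).toReal :=
    ENNReal.toReal_mono (ENNReal.mul_ne_top (ENNReal.natCast_ne_top _) hct)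
      (vol_lower (n := n) (S := S) h0' hr')
  rw [ENNReal.toReal_mul, ENNReal.toReal_mul, ENNReal.toReal_natCast,
    ENNReal.toReal_ofReal (by positivity)] at h1
  rw [ENNReal.toReal_mul, ENNReal.toReal_mul, ENNReal.toReal_natCast,
    ENNReal.toReal_ofReal (pow_nonneg (by linarith) _)] at h2
  set a := ((zball n S r).card : ℝ) with ha
  set b := ((zball n S r').card : ℝ) with hb
  set p := (r' - √n) ^ n with hp
  set q := (r + √n) ^ n with hq
  have hp0 : 0 ≤ p := pow_nonneg (by linarith) _
  have hq0 : 0 ≤ q := by positivity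
  have h3 : (c.toReal * v.toReal) * (a * p) ≤ (c.toReal * v.toReal) * (b * q) := by
    have e1 := mul_le_mul_of_nonneg_right h1 (mul_nonneg hp0 hvr.le)
    have e2 := mul_le_mul_of_nonneg_left h2 (mul_nonneg hq0 hvr.le)
    calc (c.toReal * v.toReal) * (a * p) = a * c.toReal * (p * v.toReal) := by ring
      _ ≤ q * v.toReal * (p * v.toReal) := e1
      _ ≤ q * v.toReal * (b * c.toReal) := e2
      _ = (c.toReal * v.toReal) * (b * q) := by ring
  exact le_of_mul_le_mul_left h3 (mul_pos hcr hvr)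

end Pool.Agent.Lib.MP_3884c4_co
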